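import Mathlib

/-!
The checker for additive potentials (kernel computations).
-/

set_option autoImplicit false

noncomputable section

namespace Pool.Agent.Lib.MP_67d80e_pr_all

/-- a node of the grid: the values and the right slopes of the three functions, the isoperimetric
factor and the boundary terms -/
structure Rw where
  g : ℕ
  f1 : ℕ
  f2 : ℕ
  f3 : ℕ
  s1 : ℕ
  s2 : ℕ
  s3 : ℕ
  v : ℕ
  B1 : ℕ
  B2 : ℕ
  B3 : ℕ

/-- a node of the first variable -/
structure Zr where
  p : ℕ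
  f0 : ℕ
  t : ℕ
  R : ℕ
  β : ℕ
  i0 : ℕ

/-- conjunction -/
def an (a b : Bool) : Bool := cond a b false

lemma an_iff {a b : Bool} : an a b = true ↔ a = true ∧ b = true := by
  cases a <;> cases b <;> simp [an]

/-- the condition `c` for all nonempty suffixes -/
def allS {α : Type} (c : List α → Bool) (l : List α) : Bool :=
  List.rec (motive := fun _ => Bool) true (fun r rs ih => an (c (r :: rs)) ih) l

lemma allS_spec {α : Type} {c : List α → Bool} {l : List α} (h : allS c l = true) {j : ℕ}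
    (hj : j < l.length) : c (l.drop j) = true := by
  induction l generalizing j with
  | nil => simp at hj
  | cons r rs ih =>
    have h' : an (c (r :: rs)) (allS c rs) = true := h
    rw [an_iff] at h'
    cases j with
    | zero => exact h'.1
    | succ j =>
      rw [List.drop_succ_cons]
      exact ih h'.2 (by simpa using hj)

/-- the maximum -/
def mxx (a b : ℕ) : ℕ := Nat.add a (Nat.sub b a)

lemma mxx_eq (a b : ℕ) : mxx a b = max a b := by
  change a + (b - a) = max a b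
  omega

/-- evaluation of the argument -/
def forceN (n : ℕ) (k : ℕ → Bool) : Bool :=
  Nat.rec (motive := fun _ => Bool) (k 0) (fun n _ => k (Nat.succ n)) n

lemma forceN_eq (n : ℕ) (k : ℕ → Bool) : forceN n k = k n := by
  cases n <;> rfl

/-- the value of a piecewise linear function -/
def evr (f s : Rw → ℕ) (x : ℕ) (l : List Rw) : ℕ :=
  List.rec (motive := fun _ => ℕ) 0
    (fun r rs ih => List.rec (motive := fun _ => ℕ)
      (Nat.add (f r) (Nat.mul (s r) (Nat.sub x r.g)))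
      (fun r' _ _ => cond (Nat.ble r'.g x) ih (Nat.add (f r) (Nat.mul (s r) (Nat.sub x r.g)))) rs) l

/-- an upper bound for `K log₂ n` -/
def logU (K n : ℕ) : ℕ := Nat.succ (Nat.log2 (Nat.pow n K))

/-- the terms of the third level -/
def P3 (Z e : ℕ) (r : Rw) : ℕ := Nat.sub (Nat.add Z (Nat.mul e r.f3)) r.B3

/-- the maximum for the third level -/
def mx3 (Z e s g : ℕ) (l : List Rw) : ℕ :=
  List.rec (motive := fun _ => ℕ) 0
    (fun r _ ih => mxx (Nat.sub (P3 Z e r) (Nat.mul s (Nat.sub r.g g))) ih) l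

/-- the terms of the second level -/
def P2 (Z e : ℕ) (r : Rw) (rs : List Rw) : ℕ :=
  Nat.sub (Nat.add (Nat.mul e r.f2) (mx3 Z e r.s2 r.g (r :: rs)))
    (Nat.add (Nat.mul e r.f3) r.B2)

/-- the list of the terms of the second level -/
def mk2 (Z e : ℕ) (l : List Rw) : (List (ℕ × ℕ) → Bool) → Bool :=
  List.rec (motive := fun _ => (List (ℕ × ℕ) → Bool) → Bool) (fun k => k [])
    (fun r rs ih k => ih (fun l => forceN (P2 Z e r rs) (fun v => k ((r.g, v) :: l)))) l

/-- the maximum for the second level -/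
def mx2 (s g : ℕ) (l : List (ℕ × ℕ)) : ℕ :=
  List.rec (motive := fun _ => ℕ) 0
    (fun q _ ih => mxx (Nat.sub q.2 (Nat.mul s (Nat.sub q.1 g))) ih) l

/-- the final check at one node -/
def fin1 (e t U V : ℕ) (r : Rw) (l : List (ℕ × ℕ)) : Bool :=
  Nat.ble (Nat.add U (Nat.sub (Nat.add (Nat.mul e r.f1) (mx2 r.s1 r.g l))
    (Nat.add (Nat.mul e r.f2) r.B1))) (Nat.add V (Nat.mul r.g t))

/-- the final check at all nodes -/
def finA (e t U V : ℕ) (l : List Rw) : List (ℕ × ℕ) → Bool :=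
  List.rec (motive := fun _ => List (ℕ × ℕ) → Bool) (fun _ => true)
    (fun r _ ih q => an (fin1 e t U V r q) (ih q.tail)) l

/-- the check of one endpoint -/
def chE (Z e t U V : ℕ) (l : List Rw) : Bool := mk2 Z e l (fun q => finA e t U V l q)

/-- the conditions on two consecutive nodes -/
def pairR (r r' : Rw) : Bool :=
  an (Nat.blt r.g r'.g) (an (Nat.beq r'.f1 (Nat.add r.f1 (Nat.mul r.s1 (Nat.sub r'.g r.g))))
    (an (Nat.beq r'.f2 (Nat.add r.f2 (Nat.mul r.s2 (Nat.sub r'.g r.g))))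
    (an (Nat.beq r'.f3 (Nat.add r.f3 (Nat.mul r.s3 (Nat.sub r'.g r.g))))
    (an (Nat.ble r'.s1 r.s1) (an (Nat.ble r'.s2 r.s2) (an (Nat.ble r'.s3 r.s3)
      (Nat.ble r.v r'.v)))))))

/-- the conditions on the last node -/
def lastR (r : Rw) : Bool :=
  an (Nat.beq r.s1 0) (an (Nat.beq r.s2 0) (Nat.beq r.s3 0))

/-- the minimum -/
def mnn (a b : ℕ) : ℕ := Nat.sub a (Nat.sub a b)

/-- the isoperimetric factor -/
def vR (m T K gc : ℕ) (r : Rw) : Bool :=
  Nat.ble (Nat.add (Nat.mul r.v (Nat.mul m K))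
    (Nat.mul (Nat.mul T (mnn r.g gc)) (logU K (mnn r.g gc))))
    (Nat.mul (Nat.mul T (mnn r.g gc)) (Nat.mul m K))

/-- the boundary terms -/
def bR (m T : ℕ) (f s b : Rw → ℕ) (r : Rw) (rs : List Rw) : Bool :=
  Nat.ble (Nat.add (Nat.mul (b r) T) (Nat.mul (f r) r.v))
    (Nat.mul (evr f s (Nat.add r.g m) (r :: rs)) r.v)

/-- the conditions on the nodes -/
def chR (m T K gc : ℕ) (l : List Rw) : Bool :=
  match l with
  | [] => false
  | r :: rs => an (vR m T K gc r) (an (bR m T Rw.f1 Rw.s1 Rw.B1 r rs)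
      (an (bR m T Rw.f2 Rw.s2 Rw.B2 r rs) (an (bR m T Rw.f3 Rw.s3 Rw.B3 r rs)
      (match rs with
        | [] => lastR r
        | r' :: _ => pairR r r'))))

/-- the first node of a list -/
def hd (l : List Rw) : Rw :=
  match l with
  | [] => ⟨0, 0, 0, 0, 0, 0, 0, 0, 0, 0, 0⟩
  | r :: _ => r

/-- the first node of a list -/
def hz (l : List Zr) : Zr :=
  match l with
  | [] => ⟨0, 0, 0, 0, 0, 0⟩
  | r :: _ => r

/-- the check at the endpoint `e` of the cell of `z` -/
def chZe (Z S C K f00 : ℕ) (l : List Rw) (z : Zr) (e : ℕ) : Bool :=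
  chE Z e z.t
    (Nat.add C (Nat.add (Nat.mul e (Nat.add z.f0 (Nat.mul z.t (Nat.sub e z.p))))
      (Nat.add (Nat.succ (Nat.div (Nat.mul (Nat.mul z.β e) (logU K e)) K)) (Nat.mul e z.t))))
    (Nat.add Z (Nat.mul e (Nat.add S (Nat.add f00 z.R)))) (l.drop z.i0)

/-- the conditions on the index -/
def iR (l : List Rw) (z : Zr) : Bool :=
  an (Nat.blt (Nat.succ z.i0) l.length)
    (or (Nat.beq z.i0 0) (Nat.ble (hd (l.drop z.i0)).g z.p))

/-- the conditions on the nodes of the first variable -/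
def chZ (m Z S C K gc f00 : ℕ) (l : List Rw) (zs : List Zr) : Bool :=
  match zs with
  | [] => false
  | z :: zs => an (iR l z) (match zs with
    | [] => an (Nat.beq z.t 0) (an (Nat.ble z.p gc)
        (an (Nat.ble z.R (evr Rw.f1 Rw.s1 (mxx z.p (Nat.succ m)) l))
        (chE Z z.p 0 (Nat.add C (Nat.mul z.p z.f0))
          (Nat.add Z (Nat.mul z.p (Nat.add S (Nat.add f00 z.R)))) (l.drop z.i0))))
    | z' :: _ => an (Nat.blt z.p z'.p) (an (Nat.beq z'.f0
        (Nat.add z.f0 (Nat.mul z.t (Nat.sub z'.p z.p))))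
        (an (Nat.ble z'.t z.t) (an (Nat.ble z.R (evr Rw.f1 Rw.s1 (Nat.add z.p m) l))
        (an (Nat.ble (Nat.add z.R z.β) (Nat.add (hd l).f1 (Nat.mul z.p z.β)))
        (an (chZe Z S C K f00 l z z.p) (chZe Z S C K f00 l z (Nat.pred z'.p))))))))

/-- the table of an additive potential -/
structure Tb where
  m : ℕ
  S : ℕ
  C : ℕ
  T : ℕ
  K : ℕ
  ic : ℕ
  Z : ℕ
  rows : List Rw
  zs : List Zr

/-- THE CHECK -/
def Tb.chk (t : Tb) : Bool :=
  an (Nat.blt 0 t.m) (an (Nat.blt 0 t.S) (an (Nat.blt 0 t.T) (an (Nat.blt 0 t.K)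
    (an (Nat.blt t.ic t.rows.length) (an (Nat.blt 1 t.rows.length)
    (an (Nat.beq (hd t.rows).g (Nat.succ t.m)) (an (Nat.beq (hz t.zs).p 1)
    (an (allS (chR t.m t.T t.K (hd (t.rows.drop t.ic)).g) t.rows)
    (allS (chZ t.m t.Z t.S t.C t.K (hd (t.rows.drop t.ic)).g (hz t.zs).f0 t.rows) t.zs)))))))))

end Pool.Agent.Lib.MP_67d80e_pr_all
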