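import Pool.Agent.Lib.MP_67d80e_pr_all.AddT
import Pool.Agent.Lib.MP_67d80e_pr_all.AddK

/-!
The checker for additive potentials: soundness.
-/

set_option autoImplicit false

noncomputable section

open scoped BigOperators
open Pool.Agent.Lib.MP_67d80e_pr

namespace Pool.Agent.Lib.MP_67d80e_pr_all

lemma blt_iff {a b : ℕ} : Nat.blt a b = true ↔ a < b := by
  unfold Nat.blt
  rw [Nat.ble_eq]
  exact Nat.succ_le_iff

lemma ble_iff {a b : ℕ} : Nat.ble a b = true ↔ a ≤ b := by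
  rw [Nat.ble_eq]

lemma drop_cons_hd {l : List Rw} {j : ℕ} (hj : j < l.length) :
    l.drop j = hd (l.drop j) :: l.drop (j + 1) := by
  rw [List.drop_eq_getElem_cons hj]
  rfl

lemma drop_cons_hz {l : List Zr} {j : ℕ} (hj : j < l.length) :
    l.drop j = hz (l.drop j) :: l.drop (j + 1) := by
  rw [List.drop_eq_getElem_cons hj]
  rfl

/-! ### logarithms -/

lemma logU_ge (K : ℕ) {n : ℕ} (hn : 1 ≤ n) : (K : ℝ) * (Real.log n / Real.log 2) ≤ logU K n := by
  have h1 : n ^ K < 2 ^ (Nat.log2 (n ^ K) + 1) := Nat.lt_log2_self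
  have h2 : ((n : ℝ)) ^ K < 2 ^ (Nat.log2 (n ^ K) + 1) := by exact_mod_cast h1
  have hl : 0 < Real.log 2 := Real.log_pos (by norm_num)
  have hn0 : (0 : ℝ) < n := by exact_mod_cast hn
  have h3 := Real.log_lt_log (by positivity) h2
  rw [Real.log_pow, Real.log_pow] at h3
  have h4 : (logU K n : ℝ) = ((Nat.log2 (n ^ K) + 1 : ℕ) : ℝ) := rfl
  rw [h4, ← mul_div_assoc, div_le_iff₀ hl]
  exact h3.le

/-! ### the piecewise linear functions -/

section
variable {l : List Rw}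

lemma evr_cons_nil (f s : Rw → ℕ) (x : ℕ) (r : Rw) :
    evr f s x [r] = f r + s r * (x - r.g) := rfl

lemma evr_cons_cons (f s : Rw → ℕ) (x : ℕ) (r r' : Rw) (rs : List Rw) :
    evr f s x (r :: r' :: rs) =
      cond (Nat.ble r'.g x) (evr f s x (r' :: rs)) (f r + s r * (x - r.g)) := rfl

lemma evr_spec (f s : Rw → ℕ) (x : ℕ) {j : ℕ} (hj : j < l.length)
    (hx : (hd (l.drop j)).g ≤ x) :
    ∃ i, j ≤ i ∧ i < l.length ∧ (hd (l.drop i)).g ≤ x ∧
      (i + 1 < l.length → x < (hd (l.drop (i + 1))).g) ∧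
      evr f s x (l.drop j) =
        f (hd (l.drop i)) + s (hd (l.drop i)) * (x - (hd (l.drop i)).g) := by
  induction' hk : l.length - j with k ih generalizing j
  · omega
  · by_cases h1 : j + 1 < l.length
    · by_cases h2 : (hd (l.drop (j + 1))).g ≤ x
      · obtain ⟨i, a1, a2, a3, a4, a5⟩ := ih h1 h2 (by omega)
        refine ⟨i, by omega, a2, a3, a4, ?_⟩
        rw [← a5, drop_cons_hd hj, drop_cons_hd h1, evr_cons_cons]
        have : Nat.ble (hd (l.drop (j + 1))).g x = true := ble_iff.2 h2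
        rw [this]
        rfl
      · refine ⟨j, le_rfl, hj, hx, fun _ => by omega, ?_⟩
        have h3 : Nat.ble (hd (l.drop (j + 1))).g x = false := by
          rw [← Bool.not_eq_true, Nat.ble_eq]
          exact h2
        conv_lhs => rw [drop_cons_hd hj, drop_cons_hd h1, evr_cons_cons, h3]
        rfl
    · refine ⟨j, le_rfl, hj, hx, fun h => absurd h h1, ?_⟩
      have h3 : l.drop (j + 1) = [] := List.drop_eq_nil_of_le (by omega)
      conv_lhs => rw [drop_cons_hd hj, h3, evr_cons_nil]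

end

/-- the data of a table -/
def Tb.toAD (t : Tb) : AD where
  m := t.m
  L := t.rows.length - 1
  gc := (hd (t.rows.drop t.ic)).g
  ic := t.ic
  g j := (hd (t.rows.drop j)).g
  f1 j := (hd (t.rows.drop j)).f1
  f2 j := (hd (t.rows.drop j)).f2
  f3 j := (hd (t.rows.drop j)).f3
  s1 j := (hd (t.rows.drop j)).s1
  s2 j := (hd (t.rows.drop j)).s2
  s3 j := (hd (t.rows.drop j)).s3
  v j := (hd (t.rows.drop j)).v / t.T
  B1 j := (hd (t.rows.drop j)).B1
  B2 j := (hd (t.rows.drop j)).B2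
  B3 j := (hd (t.rows.drop j)).B3

def Tb.toAZ (t : Tb) : AZ where
  A := t.zs.length - 1
  p j := (hz (t.zs.drop j)).p
  f0 j := (hz (t.zs.drop j)).f0
  t j := (hz (t.zs.drop j)).t
  R j := (hz (t.zs.drop j)).R
  β j := (hz (t.zs.drop j)).β
  i0 j := (hz (t.zs.drop j)).i0
  S := t.S
  C := t.C

variable {t : Tb}

lemma evr_eq_plE {f s : Rw → ℕ}
    (hp : Pl (t.rows.length - 1) (fun j => ((hd (t.rows.drop j)).g : ℝ))
      (fun j => ((f (hd (t.rows.drop j)) : ℕ) : ℝ)) (fun j => ((s (hd (t.rows.drop j)) : ℕ) : ℝ)))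
    {j : ℕ} (hj : j < t.rows.length) {x : ℕ} (hx : (hd (t.rows.drop j)).g ≤ x) :
    plE (t.rows.length - 1) (fun j => ((hd (t.rows.drop j)).g : ℝ))
      (fun j => ((f (hd (t.rows.drop j)) : ℕ) : ℝ)) (fun j => ((s (hd (t.rows.drop j)) : ℕ) : ℝ)) x =
      (evr f s x (t.rows.drop j) : ℕ) := by
  obtain ⟨i, _, a2, a3, a4, a5⟩ := evr_spec f s x hj hx
  rw [a5, plE_eq hp (by omega : i ≤ t.rows.length - 1) (by exact_mod_cast a3)
    (fun h => by exact_mod_cast (a4 (by omega)).le)]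
  push_cast [Nat.cast_sub a3]
  rfl

/-- the conditions on the nodes -/
lemma row_spec (h : t.chk = true) {j : ℕ} (hj : j < t.rows.length) :
    vR t.m t.T t.K (hd (t.rows.drop t.ic)).g (hd (t.rows.drop j)) = true ∧
    bR t.m t.T Rw.f1 Rw.s1 Rw.B1 (hd (t.rows.drop j)) (t.rows.drop (j + 1)) = true ∧
    bR t.m t.T Rw.f2 Rw.s2 Rw.B2 (hd (t.rows.drop j)) (t.rows.drop (j + 1)) = true ∧
    bR t.m t.T Rw.f3 Rw.s3 Rw.B3 (hd (t.rows.drop j)) (t.rows.drop (j + 1)) = true ∧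
    (j + 1 < t.rows.length →
      pairR (hd (t.rows.drop j)) (hd (t.rows.drop (j + 1))) = true) ∧
    (¬ (j + 1 < t.rows.length) → lastR (hd (t.rows.drop j)) = true) := by
  unfold Tb.chk at h
  simp only [an_iff] at h
  obtain ⟨_, _, _, _, _, _, _, _, h1, _⟩ := h
  have h2 := allS_spec h1 hj
  by_cases h3 : j + 1 < t.rows.length
  · rw [drop_cons_hd hj, drop_cons_hd h3] at h2
    simp only [chR, an_iff] at h2
    obtain ⟨a1, a2, a3, a4, a5⟩ := h2
    rw [← drop_cons_hd h3] at a2 a3 a4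
    exact ⟨a1, a2, a3, a4, fun _ => a5, fun h => absurd h3 h⟩
  · have h4 : t.rows.drop (j + 1) = [] := List.drop_eq_nil_of_le (by omega)
    rw [drop_cons_hd hj, h4] at h2
    simp only [chR, an_iff] at h2
    obtain ⟨a1, a2, a3, a4, a5⟩ := h2
    rw [h4]
    exact ⟨a1, a2, a3, a4, fun h => absurd h h3, fun _ => a5⟩

lemma pair_spec {r r' : Rw} (h : pairR r r' = true) :
    r.g < r'.g ∧ r'.f1 = r.f1 + r.s1 * (r'.g - r.g) ∧ r'.f2 = r.f2 + r.s2 * (r'.g - r.g) ∧
      r'.f3 = r.f3 + r.s3 * (r'.g - r.g) ∧ r'.s1 ≤ r.s1 ∧ r'.s2 ≤ r.s2 ∧ r'.s3 ≤ r.s3 ∧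
      r.v ≤ r'.v := by
  simp only [pairR, an_iff] at h
  obtain ⟨a1, a2, a3, a4, a5, a6, a7, a8⟩ := h
  exact ⟨blt_iff.1 a1, Nat.beq_eq.mp a2, Nat.beq_eq.mp a3, Nat.beq_eq.mp a4, ble_iff.1 a5,
    ble_iff.1 a6, ble_iff.1 a7, ble_iff.1 a8⟩

lemma last_spec {r : Rw} (h : lastR r = true) : r.s1 = 0 ∧ r.s2 = 0 ∧ r.s3 = 0 := by
  simp only [lastR, an_iff] at h
  exact ⟨Nat.beq_eq.mp h.1, Nat.beq_eq.mp h.2.1, Nat.beq_eq.mp h.2.2⟩

lemma base_spec (h : t.chk = true) : 0 < t.m ∧ 0 < t.S ∧ 0 < t.T ∧ 0 < t.K ∧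
    t.ic < t.rows.length ∧ 1 < t.rows.length ∧ (hd t.rows).g = t.m + 1 ∧ (hz t.zs).p = 1 := by
  unfold Tb.chk at h
  simp only [an_iff] at h
  obtain ⟨a1, a2, a3, a4, a5, a6, a7, a8, _, _⟩ := h
  exact ⟨blt_iff.1 a1, blt_iff.1 a2, blt_iff.1 a3, blt_iff.1 a4, blt_iff.1 a5, blt_iff.1 a6,
    Nat.beq_eq.mp a7, Nat.beq_eq.mp a8⟩

lemma pl_rows (h : t.chk = true) (f s : Rw → ℕ)
    (h1 : ∀ r r', pairR r r' = true → f r' = f r + s r * (r'.g - r.g) ∧ s r' ≤ s r)
    (h2 : ∀ r, lastR r = true → s r = 0) :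
    Pl (t.rows.length - 1) (fun j => ((hd (t.rows.drop j)).g : ℝ))
      (fun j => ((f (hd (t.rows.drop j)) : ℕ) : ℝ))
      (fun j => ((s (hd (t.rows.drop j)) : ℕ) : ℝ)) := by
  have hb := base_spec h
  refine ⟨fun i hi => ?_, fun i hi => ?_, fun i hi => ?_, ?_⟩
  · have := (row_spec h (j := i) (by omega)).2.2.2.2.1 (by omega)
    exact_mod_cast (pair_spec this).1
  · have h3 := (row_spec h (j := i) (by omega)).2.2.2.2.1 (by omega)
    have h4 := (pair_spec h3).1.le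
    have h5 := (h1 _ _ h3).1
    rw [h5]
    push_cast [Nat.cast_sub h4]
    rfl
  · have h3 := (row_spec h (j := i) (by omega)).2.2.2.2.1 (by omega)
    exact_mod_cast (h1 _ _ h3).2
  · have h3 := (row_spec h (j := t.rows.length - 1) (by omega)).2.2.2.2.2 (by omega)
    exact_mod_cast h2 _ h3

lemma pl1 (h : t.chk = true) : Pl t.toAD.L t.toAD.G t.toAD.f1 t.toAD.s1 :=
  pl_rows h Rw.f1 Rw.s1 (fun _ _ h => ⟨(pair_spec h).2.1, (pair_spec h).2.2.2.2.1⟩)
    (fun _ h => (last_spec h).1)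

lemma pl2 (h : t.chk = true) : Pl t.toAD.L t.toAD.G t.toAD.f2 t.toAD.s2 :=
  pl_rows h Rw.f2 Rw.s2 (fun _ _ h => ⟨(pair_spec h).2.2.1, (pair_spec h).2.2.2.2.2.1⟩)
    (fun _ h => (last_spec h).2.1)

lemma pl3 (h : t.chk = true) : Pl t.toAD.L t.toAD.G t.toAD.f3 t.toAD.s3 :=
  pl_rows h Rw.f3 Rw.s3 (fun _ _ h => ⟨(pair_spec h).2.2.2.1, (pair_spec h).2.2.2.2.2.2.1⟩)
    (fun _ h => (last_spec h).2.2)

lemma b_spec (h : t.chk = true) {f s b : Rw → ℕ}
    (hp : Pl (t.rows.length - 1) (fun j => ((hd (t.rows.drop j)).g : ℝ))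
      (fun j => ((f (hd (t.rows.drop j)) : ℕ) : ℝ)) (fun j => ((s (hd (t.rows.drop j)) : ℕ) : ℝ)))
    {j : ℕ} (hj : j < t.rows.length)
    (hb : bR t.m t.T f s b (hd (t.rows.drop j)) (t.rows.drop (j + 1)) = true) :
    ((b (hd (t.rows.drop j)) : ℕ) : ℝ) ≤
      (plE (t.rows.length - 1) (fun j => ((hd (t.rows.drop j)).g : ℝ))
        (fun j => ((f (hd (t.rows.drop j)) : ℕ) : ℝ)) (fun j => ((s (hd (t.rows.drop j)) : ℕ) : ℝ))
        (((hd (t.rows.drop j)).g : ℝ) + t.m) -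
      plE (t.rows.length - 1) (fun j => ((hd (t.rows.drop j)).g : ℝ))
        (fun j => ((f (hd (t.rows.drop j)) : ℕ) : ℝ)) (fun j => ((s (hd (t.rows.drop j)) : ℕ) : ℝ))
        ((hd (t.rows.drop j)).g : ℝ)) * ((hd (t.rows.drop j)).v / t.T) := by
  obtain ⟨_, _, hT, _⟩ := base_spec h
  have e1 := evr_eq_plE hp hj (x := (hd (t.rows.drop j)).g + t.m) (Nat.le_add_right _ _)
  have e2 := plE_node hp (i := j) (by omega)
  push_cast at e1
  rw [e1, e2]
  have hb' := ble_iff.1 hb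
  rw [← drop_cons_hd hj] at hb'
  have hb2 : b (hd (t.rows.drop j)) * t.T + f (hd (t.rows.drop j)) * (hd (t.rows.drop j)).v ≤
    evr f s ((hd (t.rows.drop j)).g + t.m) (t.rows.drop j) * (hd (t.rows.drop j)).v := hb'
  have hb3 : ((b (hd (t.rows.drop j)) : ℕ) : ℝ) * t.T +
      (f (hd (t.rows.drop j)) : ℕ) * (hd (t.rows.drop j)).v ≤
    (evr f s ((hd (t.rows.drop j)).g + t.m) (t.rows.drop j) : ℕ) * (hd (t.rows.drop j)).v := by
    exact_mod_cast hb2
  have hT' : (0 : ℝ) < t.T := by exact_mod_cast hT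
  rw [← mul_div_assoc, le_div_iff₀ hT']
  linarith

theorem toAD_ok (h : t.chk = true) : t.toAD.Ok := by
  obtain ⟨hm, _, hT, hK, hic, hlen, hg0, _⟩ := base_spec h
  have hT' : (0 : ℝ) < t.T := by exact_mod_cast hT
  have hK' : (0 : ℝ) < t.K := by exact_mod_cast hK
  have hm' : (0 : ℝ) < t.m := by exact_mod_cast hm
  have p1 := pl1 h
  refine ⟨?_, hm, ?_, p1, pl2 h, pl3 h, ?_, rfl, ?_, ?_, ?_, ?_, ?_, ?_⟩
  · change 1 ≤ t.rows.length - 1
    omega
  · change (hd (t.rows.drop 0)).g = t.m + 1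
    rw [List.drop_zero]
    exact hg0
  · change t.ic ≤ t.rows.length - 1
    omega
  · intro i _
    exact div_nonneg (Nat.cast_nonneg _) hT'.le
  · intro i hi
    have hi' : i < t.rows.length - 1 := hi
    have h3 := (row_spec h (j := i) (by omega)).2.2.2.2.1 (by omega)
    refine div_le_div_of_nonneg_right ?_ hT'.le
    exact_mod_cast (pair_spec h3).2.2.2.2.2.2.2
  · intro i hi
    have hi' : i ≤ t.rows.length - 1 := hi
    have h3 := (row_spec h (j := i) (by omega)).1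
    set r := hd (t.rows.drop i) with hr
    set gc := (hd (t.rows.drop t.ic)).g with hgc
    have hmn : mnn r.g gc = min r.g gc := by
      change r.g - (r.g - gc) = min r.g gc
      omega
    have h4 := ble_iff.1 h3
    rw [hmn] at h4
    have h5 : r.v * (t.m * t.K) + t.T * min r.g gc * logU t.K (min r.g gc) ≤
        t.T * min r.g gc * (t.m * t.K) := h4
    have h6 : (r.v : ℝ) * (t.m * t.K) + t.T * (min r.g gc : ℕ) * logU t.K (min r.g gc) ≤
        t.T * (min r.g gc : ℕ) * (t.m * t.K) := by exact_mod_cast h5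
    have hg1 : ∀ j, j < t.rows.length → 1 ≤ (hd (t.rows.drop j)).g := by
      intro j hj
      have h7 := p1.g_mono (Nat.zero_le j) (show j ≤ t.rows.length - 1 by omega)
      have h8 : (hd (t.rows.drop 0)).g ≤ (hd (t.rows.drop j)).g := by
        have h9 : (((hd (t.rows.drop 0)).g : ℕ) : ℝ) ≤ ((hd (t.rows.drop j)).g : ℕ) := h7
        exact_mod_cast h9
      rw [List.drop_zero, hg0] at h8
      omega
    have h1 : 1 ≤ min r.g gc := le_min (hg1 i (by omega)) (hg1 _ hic)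
    have h7 := logU_ge t.K h1
    have h8 : (0 : ℝ) ≤ t.T * (min r.g gc : ℕ) := by positivity
    have h9 := mul_le_mul_of_nonneg_left h7 h8
    change (r.v : ℝ) / t.T * t.m ≤ OL t.m gc r.g
    unfold OL
    rw [div_mul_eq_mul_div, div_le_iff₀ hT']
    have h10 : (r.v : ℝ) * t.m * t.K ≤ ((min r.g gc : ℕ) : ℝ) *
        (t.m - Real.log ((min r.g gc : ℕ) : ℝ) / Real.log 2) * t.T * t.K := by
      nlinarith
    exact le_of_mul_le_mul_right h10 hK'
  · intro i hi
    have hi' : i ≤ t.rows.length - 1 := hi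
    exact b_spec h p1 (by omega) (row_spec h (j := i) (by omega)).2.1
  · intro i hi
    have hi' : i ≤ t.rows.length - 1 := hi
    exact b_spec h (pl2 h) (by omega) (row_spec h (j := i) (by omega)).2.2.1
  · intro i hi
    have hi' : i ≤ t.rows.length - 1 := hi
    exact b_spec h (pl3 h) (by omega) (row_spec h (j := i) (by omega)).2.2.2.1

/-! ### the chain -/

/-- the list of the terms of the second level -/
def l2 (Z e : ℕ) : List Rw → List (ℕ × ℕ)
  | [] => []
  | r :: rs => (r.g, P2 Z e r rs) :: l2 Z e rs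

lemma mk2_eq (Z e : ℕ) (l : List Rw) (k : List (ℕ × ℕ) → Bool) : mk2 Z e l k = k (l2 Z e l) := by
  induction l generalizing k with
  | nil => rfl
  | cons r rs ih =>
    have h : mk2 Z e (r :: rs) k =
        mk2 Z e rs (fun l => forceN (P2 Z e r rs) (fun v => k ((r.g, v) :: l))) := rfl
    rw [h, ih, forceN_eq]
    rfl

lemma mx3_cons (Z e s g : ℕ) (r : Rw) (rs : List Rw) :
    mx3 Z e s g (r :: rs) = max (P3 Z e r - s * (r.g - g)) (mx3 Z e s g rs) := by
  rw [← mxx_eq]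
  rfl

lemma mx3_ge (Z e s g : ℕ) {l : List Rw} {j : ℕ} (hj : j < l.length) :
    P3 Z e (hd (l.drop j)) ≤ mx3 Z e s g l + s * ((hd (l.drop j)).g - g) := by
  induction l generalizing j with
  | nil => simp at hj
  | cons r rs ih =>
    rw [mx3_cons]
    cases j with
    | zero =>
      have h1 : hd (List.drop 0 (r :: rs)) = r := rfl
      rw [h1]
      have := le_max_left (P3 Z e r - s * (r.g - g)) (mx3 Z e s g rs)
      omega
    | succ j =>
      rw [List.drop_succ_cons]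
      have h1 := ih (j := j) (by simpa using hj)
      have := le_max_right (P3 Z e r - s * (r.g - g)) (mx3 Z e s g rs)
      omega

lemma mx2_cons (s g : ℕ) (q : ℕ × ℕ) (l : List (ℕ × ℕ)) :
    mx2 s g (q :: l) = max (q.2 - s * (q.1 - g)) (mx2 s g l) := by
  rw [← mxx_eq]
  rfl

lemma mx2_ge (Z e s g : ℕ) {l : List Rw} {j : ℕ} (hj : j < l.length) :
    P2 Z e (hd (l.drop j)) (l.drop (j + 1)) ≤
      mx2 s g (l2 Z e l) + s * ((hd (l.drop j)).g - g) := by
  induction l generalizing j with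
  | nil => simp at hj
  | cons r rs ih =>
    rw [l2, mx2_cons]
    cases j with
    | zero =>
      have h1 : hd (List.drop 0 (r :: rs)) = r := rfl
      have h2 : List.drop (0 + 1) (r :: rs) = rs := rfl
      rw [h1, h2]
      have := le_max_left (P2 Z e r rs - s * (r.g - g)) (mx2 s g (l2 Z e rs))
      dsimp only
      omega
    | succ j =>
      rw [List.drop_succ_cons, List.drop_succ_cons]
      have h1 := ih (j := j) (by simpa using hj)
      have := le_max_right (P2 Z e r rs - s * (r.g - g)) (mx2 s g (l2 Z e rs))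
      dsimp only
      omega

lemma finA_spec {Z e τ U V : ℕ} {l : List Rw} (h : finA e τ U V l (l2 Z e l) = true) {j : ℕ}
    (hj : j < l.length) : fin1 e τ U V (hd (l.drop j)) (l2 Z e (l.drop j)) = true := by
  induction l generalizing j with
  | nil => simp at hj
  | cons r rs ih =>
    have h' : an (fin1 e τ U V r (l2 Z e (r :: rs))) (finA e τ U V rs (l2 Z e rs)) = true := h
    rw [an_iff] at h'
    cases j with
    | zero => exact h'.1
    | succ j =>
      rw [List.drop_succ_cons]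
      exact ih h'.2 (by simpa using hj)

/-- the check of one endpoint -/
lemma chE_spec (hchk : t.chk = true) {Z e τ U V i0 : ℕ}
    (h : chE Z e τ U V (t.rows.drop i0) = true) {C X : ℝ}
    (hUV : C - X ≤ (U : ℝ) - V + Z) : AD.ChOk t.toAD C e X τ i0 := by
  unfold chE at h
  rw [mk2_eq] at h
  obtain ⟨_, _, _, _, _, hlen, _, _⟩ := base_spec hchk
  set row : ℕ → Rw := fun j => hd (t.rows.drop j) with hrow
  have hdd : ∀ i j, i ≤ j → (t.rows.drop i).drop (j - i) = t.rows.drop j := by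
    intro i j hij
    rw [List.drop_drop]
    congr 1
    omega
  have hdd' : ∀ i j, i ≤ j → (t.rows.drop i).drop (j - i + 1) = t.rows.drop (j + 1) := by
    intro i j hij
    rw [List.drop_drop]
    congr 1
    omega
  have hgm : ∀ i j, i ≤ j → j ≤ t.rows.length - 1 → (row i).g ≤ (row j).g := by
    intro i j hij hj
    have := (pl1 hchk).g_mono hij hj
    have h2 : ((row i).g : ℝ) ≤ (row j).g := this
    exact_mod_cast h2
  refine ⟨fun j => (Z : ℝ) - ((e * (row j).f1 +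
      mx2 (row j).s1 (row j).g (l2 Z e (t.rows.drop j)) - (e * (row j).f2 + (row j).B1) : ℕ) : ℝ),
    fun j => (Z : ℝ) - (P2 Z e (row j) (t.rows.drop (j + 1)) : ℕ),
    fun j => (Z : ℝ) - (P3 Z e (row j) : ℕ),
    fun j => (Z : ℝ) - (mx2 (row j).s1 (row j).g (l2 Z e (t.rows.drop j)) : ℕ),
    fun j => (Z : ℝ) - (mx3 Z e (row j).s2 (row j).g (t.rows.drop j) : ℕ), ?_, ?_, ?_, ?_, ?_, ?_⟩
  · intro j _ _
    have h1 : Z + e * (row j).f3 ≤ P3 Z e (row j) + (row j).B3 := by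
      change Z + e * (row j).f3 ≤ Z + e * (row j).f3 - (row j).B3 + (row j).B3
      omega
    have h2 : (Z : ℝ) + e * (row j).f3 ≤ (P3 Z e (row j) : ℕ) + (row j).B3 := by exact_mod_cast h1
    change (Z : ℝ) - (P3 Z e (row j) : ℕ) ≤ -((e : ℝ) * (row j).f3) + (row j).B3
    linarith
  · intro i j _ hij hj
    have hj' : j ≤ t.rows.length - 1 := hj
    have h1 := mx3_ge Z e (row i).s2 (row i).g (l := t.rows.drop i) (j := j - i)
      (by rw [List.length_drop]; omega)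
    rw [hdd i j hij] at h1
    have h3 : ((P3 Z e (row j) : ℕ) : ℝ) ≤
        (mx3 Z e (row i).s2 (row i).g (t.rows.drop i) : ℕ) +
          (row i).s2 * (((row j).g : ℝ) - (row i).g) := by
      rw [← Nat.cast_sub (hgm i j hij hj')]
      exact_mod_cast h1
    change (Z : ℝ) - (mx3 Z e (row i).s2 (row i).g (t.rows.drop i) : ℕ) ≤
      (Z : ℝ) - (P3 Z e (row j) : ℕ) + (((row j).g : ℝ) - (row i).g) * (row i).s2
    linarith
  · intro j _ hj
    have hj' : j ≤ t.rows.length - 1 := hj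
    have h1 : e * (row j).f2 + mx3 Z e (row j).s2 (row j).g (t.rows.drop j) ≤
        P2 Z e (row j) (t.rows.drop (j + 1)) + (e * (row j).f3 + (row j).B2) := by
      have e1 : t.rows.drop j = row j :: t.rows.drop (j + 1) := drop_cons_hd (by omega)
      rw [e1]
      change e * (row j).f2 + mx3 Z e (row j).s2 (row j).g (row j :: t.rows.drop (j + 1)) ≤
        e * (row j).f2 + mx3 Z e (row j).s2 (row j).g (row j :: t.rows.drop (j + 1)) -
          (e * (row j).f3 + (row j).B2) + (e * (row j).f3 + (row j).B2)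
      omega
    have h2 : (e : ℝ) * (row j).f2 + (mx3 Z e (row j).s2 (row j).g (t.rows.drop j) : ℕ) ≤
        (P2 Z e (row j) (t.rows.drop (j + 1)) : ℕ) + (e * (row j).f3 + (row j).B2) := by
      exact_mod_cast h1
    change (Z : ℝ) - (P2 Z e (row j) (t.rows.drop (j + 1)) : ℕ) ≤ -((e : ℝ) * (row j).f2) +
      e * (row j).f3 + (row j).B2 +
        ((Z : ℝ) - (mx3 Z e (row j).s2 (row j).g (t.rows.drop j) : ℕ))
    linarith
  · intro i j _ hij hj
    have hj' : j ≤ t.rows.length - 1 := hj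
    have h1 := mx2_ge Z e (row i).s1 (row i).g (l := t.rows.drop i) (j := j - i)
      (by rw [List.length_drop]; omega)
    rw [hdd i j hij, hdd' i j hij] at h1
    have h3 : ((P2 Z e (row j) (t.rows.drop (j + 1)) : ℕ) : ℝ) ≤
        (mx2 (row i).s1 (row i).g (l2 Z e (t.rows.drop i)) : ℕ) +
          (row i).s1 * (((row j).g : ℝ) - (row i).g) := by
      rw [← Nat.cast_sub (hgm i j hij hj')]
      exact_mod_cast h1
    change (Z : ℝ) - (mx2 (row i).s1 (row i).g (l2 Z e (t.rows.drop i)) : ℕ) ≤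
      (Z : ℝ) - (P2 Z e (row j) (t.rows.drop (j + 1)) : ℕ) +
        (((row j).g : ℝ) - (row i).g) * (row i).s1
    linarith
  · intro j _ _
    have h1 : e * (row j).f1 + mx2 (row j).s1 (row j).g (l2 Z e (t.rows.drop j)) ≤
        (e * (row j).f1 + mx2 (row j).s1 (row j).g (l2 Z e (t.rows.drop j)) -
          (e * (row j).f2 + (row j).B1)) + (e * (row j).f2 + (row j).B1) := by omega
    have h2 : (e : ℝ) * (row j).f1 + (mx2 (row j).s1 (row j).g (l2 Z e (t.rows.drop j)) : ℕ) ≤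
        ((e * (row j).f1 + mx2 (row j).s1 (row j).g (l2 Z e (t.rows.drop j)) -
          (e * (row j).f2 + (row j).B1) : ℕ) : ℝ) + (e * (row j).f2 + (row j).B1) := by
      exact_mod_cast h1
    change (Z : ℝ) - ((e * (row j).f1 +
      mx2 (row j).s1 (row j).g (l2 Z e (t.rows.drop j)) - (e * (row j).f2 + (row j).B1) : ℕ) : ℝ) ≤
      -((e : ℝ) * (row j).f1) + e * (row j).f2 + (row j).B1 +
        ((Z : ℝ) - (mx2 (row j).s1 (row j).g (l2 Z e (t.rows.drop j)) : ℕ))
    linarith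
  · intro j hj0 hj
    have hj' : j ≤ t.rows.length - 1 := hj
    have h1 := finA_spec h (j := j - i0) (by rw [List.length_drop]; omega)
    rw [hdd i0 j hj0] at h1
    have h2 : U + (e * (row j).f1 + mx2 (row j).s1 (row j).g (l2 Z e (t.rows.drop j)) -
        (e * (row j).f2 + (row j).B1)) ≤ V + (row j).g * τ := ble_iff.1 h1
    have h3 : (U : ℝ) + ((e * (row j).f1 + mx2 (row j).s1 (row j).g (l2 Z e (t.rows.drop j)) -
        (e * (row j).f2 + (row j).B1) : ℕ) : ℝ) ≤ V + (row j).g * τ := by exact_mod_cast h2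
    change C ≤ X + ((row j).g : ℝ) * τ + ((Z : ℝ) - ((e * (row j).f1 +
      mx2 (row j).s1 (row j).g (l2 Z e (t.rows.drop j)) - (e * (row j).f2 + (row j).B1) : ℕ) : ℝ))
    linarith

/-! ### the first variable -/

lemma z_spec (h : t.chk = true) {j : ℕ} (hj : j < t.zs.length) :
    iR t.rows (hz (t.zs.drop j)) = true ∧
    (j + 1 < t.zs.length → (hz (t.zs.drop j)).p < (hz (t.zs.drop (j + 1))).p ∧
      (hz (t.zs.drop (j + 1))).f0 = (hz (t.zs.drop j)).f0 +
        (hz (t.zs.drop j)).t * ((hz (t.zs.drop (j + 1))).p - (hz (t.zs.drop j)).p) ∧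
      (hz (t.zs.drop (j + 1))).t ≤ (hz (t.zs.drop j)).t ∧
      (hz (t.zs.drop j)).R ≤ evr Rw.f1 Rw.s1 ((hz (t.zs.drop j)).p + t.m) t.rows ∧
      (hz (t.zs.drop j)).R + (hz (t.zs.drop j)).β ≤
        (hd t.rows).f1 + (hz (t.zs.drop j)).p * (hz (t.zs.drop j)).β ∧
      chZe t.Z t.S t.C t.K (hz t.zs).f0 t.rows (hz (t.zs.drop j)) (hz (t.zs.drop j)).p = true ∧
      chZe t.Z t.S t.C t.K (hz t.zs).f0 t.rows (hz (t.zs.drop j))
        ((hz (t.zs.drop (j + 1))).p - 1) = true) ∧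
    (¬ (j + 1 < t.zs.length) → (hz (t.zs.drop j)).t = 0 ∧
      (hz (t.zs.drop j)).p ≤ (hd (t.rows.drop t.ic)).g ∧
      (hz (t.zs.drop j)).R ≤ evr Rw.f1 Rw.s1 (max (hz (t.zs.drop j)).p (t.m + 1)) t.rows ∧
      chE t.Z (hz (t.zs.drop j)).p 0 (t.C + (hz (t.zs.drop j)).p * (hz (t.zs.drop j)).f0)
        (t.Z + (hz (t.zs.drop j)).p * (t.S + ((hz t.zs).f0 + (hz (t.zs.drop j)).R)))
        (t.rows.drop (hz (t.zs.drop j)).i0) = true) := by
  unfold Tb.chk at h
  simp only [an_iff] at h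
  obtain ⟨_, _, _, _, _, _, _, _, _, h1⟩ := h
  have h2 := allS_spec h1 hj
  by_cases h3 : j + 1 < t.zs.length
  · rw [drop_cons_hz hj, drop_cons_hz h3] at h2
    simp only [chZ, an_iff] at h2
    obtain ⟨a0, a1, a2, a3, a4, a5, a6, a7⟩ := h2
    refine ⟨a0, fun _ => ⟨blt_iff.1 a1, Nat.beq_eq.mp a2, ble_iff.1 a3, ble_iff.1 a4,
      ble_iff.1 a5, a6, a7⟩, fun h => absurd h3 h⟩
  · have h4 : t.zs.drop (j + 1) = [] := List.drop_eq_nil_of_le (by omega)
    rw [drop_cons_hz hj, h4] at h2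
    simp only [chZ, an_iff] at h2
    obtain ⟨a0, a1, a2, a3, a4⟩ := h2
    refine ⟨a0, fun h => absurd h h3, fun _ => ⟨Nat.beq_eq.mp a1, ble_iff.1 a2, ?_, a4⟩⟩
    have := ble_iff.1 a3
    rw [mxx_eq] at this
    exact this

lemma pl0 (h : t.chk = true) : Pl t.toAZ.A t.toAZ.P t.toAZ.f0 t.toAZ.t := by
  have hlen : 0 < t.zs.length := by
    obtain ⟨_, _, _, _, _, _, _, h1⟩ := base_spec h
    by_contra hc
    have : t.zs = [] := List.length_eq_zero_iff.1 (by omega)
    rw [this] at h1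
    simp [hz] at h1
  refine ⟨fun i hi => ?_, fun i hi => ?_, fun i hi => ?_, ?_⟩
  · have hi' : i < t.zs.length - 1 := hi
    have := (z_spec h (j := i) (by omega)).2.1 (by omega)
    change (((hz (t.zs.drop i)).p : ℕ) : ℝ) < ((hz (t.zs.drop (i + 1))).p : ℕ)
    exact_mod_cast this.1
  · have hi' : i < t.zs.length - 1 := hi
    have h3 := (z_spec h (j := i) (by omega)).2.1 (by omega)
    change (((hz (t.zs.drop (i + 1))).f0 : ℕ) : ℝ) = ((hz (t.zs.drop i)).f0 : ℕ) +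
      ((hz (t.zs.drop i)).t : ℕ) * ((((hz (t.zs.drop (i + 1))).p : ℕ) : ℝ) -
        ((hz (t.zs.drop i)).p : ℕ))
    rw [h3.2.1]
    push_cast [Nat.cast_sub h3.1.le]
    rfl
  · have hi' : i < t.zs.length - 1 := hi
    have h3 := (z_spec h (j := i) (by omega)).2.1 (by omega)
    change (((hz (t.zs.drop (i + 1))).t : ℕ) : ℝ) ≤ ((hz (t.zs.drop i)).t : ℕ)
    exact_mod_cast h3.2.2.1
  · have h3 := (z_spec h (j := t.zs.length - 1) (by omega)).2.2 (by omega)
    change (((hz (t.zs.drop (t.zs.length - 1))).t : ℕ) : ℝ) = 0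
    exact_mod_cast h3.1

lemma chZe_spec (h : t.chk = true) {j e : ℕ} (he : 1 ≤ e) (hej : (hz (t.zs.drop j)).p ≤ e)
    (hc : chZe t.Z t.S t.C t.K (hz t.zs).f0 t.rows (hz (t.zs.drop j)) e = true) :
    AD.ChOk t.toAD t.toAZ.C e (t.toAZ.X j e) (t.toAZ.t j) (t.toAZ.i0 j) := by
  obtain ⟨_, _, _, hK, _, _, _, _⟩ := base_spec h
  have hK' : (0 : ℝ) < t.K := by exact_mod_cast hK
  unfold chZe at hc
  refine chE_spec h hc ?_
  set z := hz (t.zs.drop j) with hzz
  have e1 : t.toAZ.X j e = (e : ℝ) * ((t.S : ℝ) + (hz t.zs).f0 + z.R -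
      (z.f0 + z.t * ((e : ℝ) - z.p))) - z.β * (e * Real.log e / Real.log 2) - e * z.t := by
    change (e : ℝ) * ((t.S : ℝ) + (hz (t.zs.drop 0)).f0 + z.R -
      (z.f0 + z.t * ((e : ℝ) - z.p))) - z.β * (e * Real.log e / Real.log 2) - e * z.t = _
    rw [List.drop_zero]
  have e2 : t.toAZ.C = t.C := rfl
  rw [e1, e2]
  have h1 := logU_ge t.K he
  have h2 : z.β * e * logU t.K e / t.K + 1 ≥ (z.β * e * logU t.K e / t.K : ℕ) + 1 := le_rfl
  have h3 : (z.β : ℝ) * (e * Real.log e / Real.log 2) ≤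
      ((z.β * e * logU t.K e / t.K + 1 : ℕ) : ℝ) := by
    have a1 : (z.β : ℝ) * (e * Real.log e / Real.log 2) * t.K ≤ z.β * e * logU t.K e := by
      have a2 : (0 : ℝ) ≤ z.β * e := by positivity
      have a3 := mul_le_mul_of_nonneg_left h1 a2
      refine le_trans (le_of_eq ?_) a3
      ring
    have a4 : z.β * e * logU t.K e < t.K * (z.β * e * logU t.K e / t.K + 1) :=
      Nat.lt_mul_div_succ _ hK
    have a5 : (z.β : ℝ) * e * logU t.K e ≤
        t.K * ((z.β * e * logU t.K e / t.K + 1 : ℕ) : ℝ) := by exact_mod_cast a4.le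
    have a6 : (z.β : ℝ) * (e * Real.log e / Real.log 2) * t.K ≤
        ((z.β * e * logU t.K e / t.K + 1 : ℕ) : ℝ) * t.K := by linarith
    exact le_of_mul_le_mul_right a6 hK'
  have e3 : ((Nat.add t.C (Nat.add (Nat.mul e (Nat.add z.f0 (Nat.mul z.t (Nat.sub e z.p))))
      (Nat.add (Nat.succ (Nat.div (Nat.mul (Nat.mul z.β e) (logU t.K e)) t.K)) (Nat.mul e z.t))) :
      ℕ) : ℝ) = (t.C : ℝ) + (e * (z.f0 + z.t * ((e : ℝ) - z.p)) +
        (((z.β * e * logU t.K e / t.K + 1 : ℕ) : ℝ) + e * z.t)) := by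
    have : (Nat.add t.C (Nat.add (Nat.mul e (Nat.add z.f0 (Nat.mul z.t (Nat.sub e z.p))))
      (Nat.add (Nat.succ (Nat.div (Nat.mul (Nat.mul z.β e) (logU t.K e)) t.K)) (Nat.mul e z.t)))) =
      t.C + (e * (z.f0 + z.t * (e - z.p)) + ((z.β * e * logU t.K e / t.K + 1) + e * z.t)) := rfl
    rw [this]
    push_cast [Nat.cast_sub hej]
    ring
  have e4 : ((Nat.add t.Z (Nat.mul e (Nat.add t.S (Nat.add (hz t.zs).f0 z.R))) : ℕ) : ℝ) =
      (t.Z : ℝ) + e * (t.S + ((hz t.zs).f0 + z.R)) := by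
    have : (Nat.add t.Z (Nat.mul e (Nat.add t.S (Nat.add (hz t.zs).f0 z.R)))) =
      t.Z + e * (t.S + ((hz t.zs).f0 + z.R)) := rfl
    rw [this]
    push_cast
    ring
  rw [e3, e4]
  linarith

theorem toAZ_ok (h : t.chk = true) : t.toAZ.Ok t.toAD := by
  have hb := base_spec h
  obtain ⟨hm, hS, hT, hK, hic, hlen, hg0, hp0⟩ := hb
  have hzl : 0 < t.zs.length := by
    by_contra hc
    have : t.zs = [] := List.length_eq_zero_iff.1 (by omega)
    rw [this] at hp0
    simp [hz] at hp0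
  have p0 := pl0 h
  have hp1 : ∀ j, j < t.zs.length → 1 ≤ (hz (t.zs.drop j)).p := by
    intro j hj
    have h7 := p0.g_mono (Nat.zero_le j) (show j ≤ t.zs.length - 1 by omega)
    have h8 : (hz (t.zs.drop 0)).p ≤ (hz (t.zs.drop j)).p := by
      have : (((hz (t.zs.drop 0)).p : ℕ) : ℝ) ≤ ((hz (t.zs.drop j)).p : ℕ) := h7
      exact_mod_cast this
    rw [List.drop_zero, hp0] at h8
    exact h8
  have hev : ∀ x, t.m + 1 ≤ x → t.toAD.F1 (x : ℕ) = (evr Rw.f1 Rw.s1 x t.rows : ℕ) := by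
    intro x hx
    have h1 := evr_eq_plE (pl1 h) (j := 0) (by omega) (x := x) (by rw [List.drop_zero, hg0]; exact hx)
    rw [List.drop_zero] at h1
    exact h1
  refine ⟨?_, p0, ?_, ?_, ?_, ?_, ?_, ?_, ?_, ?_, ?_, ?_, ?_⟩
  · change (hz (t.zs.drop 0)).p = 1
    rw [List.drop_zero]
    exact hp0
  · change (0 : ℝ) < t.S
    exact_mod_cast hS
  · change (hz (t.zs.drop (t.zs.length - 1))).p ≤ (hd (t.rows.drop t.ic)).g
    exact ((z_spec h (j := t.zs.length - 1) (by omega)).2.2 (by omega)).2.1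
  · intro a _
    exact Nat.cast_nonneg _
  · intro a ha
    have ha' : a < t.zs.length - 1 := ha
    have h1 := ((z_spec h (j := a) (by omega)).2.1 (by omega)).2.2.2.1
    have h2 := hev ((hz (t.zs.drop a)).p + t.m) (by have := hp1 a (by omega); omega)
    change (((hz (t.zs.drop a)).R : ℕ) : ℝ) ≤ t.toAD.F1 (((hz (t.zs.drop a)).p : ℝ) + t.m)
    push_cast at h2
    rw [h2]
    exact_mod_cast h1
  · intro a ha
    have ha' : a < t.zs.length - 1 := ha
    have h1 := ((z_spec h (j := a) (by omega)).2.1 (by omega)).2.2.2.2.1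
    have h2 : t.toAD.F1 ((t.m : ℝ) + 1) = ((hd t.rows).f1 : ℕ) := by
      have h3 := plE_node (pl1 h) (Nat.zero_le _)
      have h4 : t.toAD.G 0 = (t.m : ℝ) + 1 := by
        change (((hd (t.rows.drop 0)).g : ℕ) : ℝ) = _
        rw [List.drop_zero, hg0]
        push_cast
        ring
      rw [h4] at h3
      refine h3.trans ?_
      change (((hd (t.rows.drop 0)).f1 : ℕ) : ℝ) = _
      rw [List.drop_zero]
    change (((hz (t.zs.drop a)).R : ℕ) : ℝ) - (((hz (t.zs.drop a)).p : ℝ) - 1) *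
      ((hz (t.zs.drop a)).β : ℕ) ≤ t.toAD.F1 ((t.m : ℝ) + 1)
    rw [h2]
    have h5 : (((hz (t.zs.drop a)).R : ℕ) : ℝ) + ((hz (t.zs.drop a)).β : ℕ) ≤
        ((hd t.rows).f1 : ℕ) + ((hz (t.zs.drop a)).p : ℕ) * ((hz (t.zs.drop a)).β : ℕ) := by
      exact_mod_cast h1
    linarith
  · have h1 := ((z_spec h (j := t.zs.length - 1) (by omega)).2.2 (by omega)).2.2.1
    have h2 := hev (max (hz (t.zs.drop (t.zs.length - 1))).p (t.m + 1)) (le_max_right _ _)
    change (((hz (t.zs.drop (t.zs.length - 1))).R : ℕ) : ℝ) ≤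
      t.toAD.F1 ((max (hz (t.zs.drop (t.zs.length - 1))).p (t.m + 1) : ℕ) : ℝ)
    rw [h2]
    exact_mod_cast h1
  · intro a ha
    have ha' : a ≤ t.zs.length - 1 := ha
    have h1 := (z_spec h (j := a) (by omega)).1
    simp only [iR, an_iff] at h1
    change (hz (t.zs.drop a)).i0 < t.rows.length - 1
    have := blt_iff.1 h1.1
    omega
  · intro a ha
    have ha' : a ≤ t.zs.length - 1 := ha
    have h1 := (z_spec h (j := a) (by omega)).1
    simp only [iR, an_iff] at h1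
    have h2 := h1.2
    rw [Bool.or_eq_true] at h2
    rcases h2 with h2 | h2
    · exact Or.inl (Nat.beq_eq.mp h2)
    · exact Or.inr (ble_iff.1 h2)
  · intro a ha
    have ha' : a < t.zs.length - 1 := ha
    have h1 := ((z_spec h (j := a) (by omega)).2.1 (by omega)).2.2.2.2.2.1
    exact chZe_spec h (hp1 a (by omega)) le_rfl h1
  · intro a ha
    have ha' : a < t.zs.length - 1 := ha
    have h0 := (z_spec h (j := a) (by omega)).2.1 (by omega)
    have h1 := h0.2.2.2.2.2.2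
    have h2 := h0.1
    have h3 := hp1 a (by omega)
    exact chZe_spec h (e := (hz (t.zs.drop (a + 1))).p - 1) (by omega) (by omega) h1
  · have h1 := ((z_spec h (j := t.zs.length - 1) (by omega)).2.2 (by omega)).2.2.2
    have h2 := chE_spec h h1 (C := t.toAZ.C) (X := t.toAZ.P t.toAZ.A *
      (t.toAZ.S + t.toAZ.f0 0 + t.toAZ.R t.toAZ.A - t.toAZ.f0 t.toAZ.A)) ?_
    · have e1 : ((0 : ℕ) : ℝ) = 0 := Nat.cast_zero
      rw [e1] at h2
      exact h2
    · set z := hz (t.zs.drop (t.zs.length - 1)) with hzz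
      have e1 : t.toAZ.P t.toAZ.A *
          (t.toAZ.S + t.toAZ.f0 0 + t.toAZ.R t.toAZ.A - t.toAZ.f0 t.toAZ.A) =
          (z.p : ℝ) * ((t.S : ℝ) + (hz t.zs).f0 + z.R - z.f0) := by
        change (z.p : ℝ) * ((t.S : ℝ) + (hz (t.zs.drop 0)).f0 + z.R - z.f0) = _
        rw [List.drop_zero]
      have e2 : t.toAZ.C = t.C := rfl
      rw [e1, e2]
      push_cast
      linarith

/-- THE LOWER BOUND FROM A TABLE -/
theorem Tb.hasLB (h : t.chk = true) {d : ℕ} (hm : t.m ≤ 2 * d) : HasLB d ((t.C : ℝ) / t.S) :=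
  AZ.hasLB (toAD_ok h) (toAZ_ok h) hm

end Pool.Agent.Lib.MP_67d80e_pr_all
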