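import Mathlib

/-!
Concave piecewise linear functions given by their nodes and slopes, and the chain lemma.
-/

set_option autoImplicit false

open scoped BigOperators

namespace Pool.Agent.Lib.MP_67d80e_pr_all

/-- nodes `g`, values `f`, slopes `s`; the slopes decrease and the last one is zero -/
structure Pl (L : ℕ) (g f s : ℕ → ℝ) : Prop where
  gm : ∀ i < L, g i < g (i + 1)
  step : ∀ i < L, f (i + 1) = f i + s i * (g (i + 1) - g i)
  anti : ∀ i < L, s (i + 1) ≤ s i
  last : s L = 0

/-- the concave function -/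
noncomputable def plE (L : ℕ) (g f s : ℕ → ℝ) (x : ℝ) : ℝ :=
  (Finset.range (L + 1)).inf' ⟨0, Finset.mem_range.2 (Nat.succ_pos L)⟩
    (fun i => f i + s i * (x - g i))

section
variable {L : ℕ} {g f s : ℕ → ℝ}

lemma plE_le {i : ℕ} (hi : i ≤ L) (x : ℝ) : plE L g f s x ≤ f i + s i * (x - g i) :=
  Finset.inf'_le (f := fun i => f i + s i * (x - g i))
    (Finset.mem_range.2 (Nat.lt_succ_of_le hi))

lemma le_plE {a x : ℝ} (h : ∀ i ≤ L, a ≤ f i + s i * (x - g i)) : a ≤ plE L g f s x :=
  Finset.le_inf' _ _ fun i hi => h i (Nat.lt_succ_iff.1 (Finset.mem_range.1 hi))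

lemma Pl.s_nonneg (h : Pl L g f s) {i : ℕ} (hi : i ≤ L) : 0 ≤ s i := by
  induction' hk : L - i with k ih generalizing i
  · have : i = L := by omega
    rw [this, h.last]
  · exact (ih (i := i + 1) (by omega) (by omega)).trans (h.anti i (by omega))

lemma Pl.g_mono (h : Pl L g f s) {i j : ℕ} (hij : i ≤ j) (hj : j ≤ L) : g i ≤ g j := by
  induction' j, hij using Nat.le_induction with j hij ih
  · exact le_rfl
  · exact (ih (by omega)).trans (h.gm j (by omega)).le

lemma Pl.s_anti (h : Pl L g f s) {i j : ℕ} (hij : i ≤ j) (hj : j ≤ L) : s j ≤ s i := by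
  induction' j, hij using Nat.le_induction with j hij ih
  · exact le_rfl
  · exact (h.anti j (by omega)).trans (ih (by omega))

lemma plE_mono (h : Pl L g f s) {x y : ℝ} (hxy : x ≤ y) :
    plE L g f s x ≤ plE L g f s y := by
  refine le_plE fun i hi => (plE_le hi x).trans ?_
  have := h.s_nonneg hi
  nlinarith

/-- the value at the points of a cell -/
lemma plE_eq (h : Pl L g f s) {i : ℕ} (hi : i ≤ L) {x : ℝ} (h1 : g i ≤ x)
    (h2 : i < L → x ≤ g (i + 1)) : plE L g f s x = f i + s i * (x - g i) := by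
  refine le_antisymm (plE_le hi x) (le_plE fun j hj => ?_)
  rcases le_total i j with hij | hij
  · -- to the right
    induction' j, hij using Nat.le_induction with j hij ih
    · exact le_rfl
    · refine (ih (by omega)).trans ?_
      have h3 := h.step j (by omega)
      have h4 := h.anti j (by omega)
      have h5 : x ≤ g (j + 1) := by
        have := h2 (by omega)
        exact this.trans (h.g_mono (by omega) hj)
      nlinarith
  · -- to the left
    induction' hk : i - j with k ih generalizing j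
    · have : i = j := by omega
      rw [this]
    · refine (ih (j + 1) (by omega) (by omega) (by omega)).trans ?_
      have h3 := h.step j (by omega)
      have h4 := h.anti j (by omega)
      have h5 : g (j + 1) ≤ x := (h.g_mono (by omega) hi).trans h1
      nlinarith

lemma plE_node (h : Pl L g f s) {i : ℕ} (hi : i ≤ L) : plE L g f s (g i) = f i := by
  rw [plE_eq h hi le_rfl (fun hl => (h.gm i hl).le), sub_self, mul_zero, add_zero]

lemma plE_concave : ConcaveOn ℝ Set.univ (plE L g f s) := by
  refine ⟨convex_univ, ?_⟩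
  intro x _ y _ a b ha hb hab
  refine le_plE fun i hi => ?_
  have h1 := plE_le (g := g) (f := f) (s := s) hi x
  have h2 := plE_le (g := g) (f := f) (s := s) hi y
  simp only [smul_eq_mul]
  have h3 := mul_le_mul_of_nonneg_left h1 ha
  have h4 := mul_le_mul_of_nonneg_left h2 hb
  have h5 : f i + s i * (a * x + b * y - g i) =
      a * (f i + s i * (x - g i)) + b * (f i + s i * (y - g i)) := by
    have : b = 1 - a := by linarith
    rw [this]
    ring
  rw [h5]
  linarith

lemma plE_const (h : Pl L g f s) {x : ℝ} (hx : g L ≤ x) : plE L g f s x = f L := by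
  rw [plE_eq h le_rfl hx (fun hl => absurd hl (lt_irrefl L)), h.last]
  ring

end

/-! ### concavity -/

lemma concave_chord {G : ℝ → ℝ} (hG : ConcaveOn ℝ Set.univ G) {x M j : ℝ} (hM : 0 < M)
    (hj0 : 0 ≤ j) (hjM : j ≤ M) : G x + (G (x + M) - G x) / M * j ≤ G (x + j) := by
  set t : ℝ := j / M with ht
  have ht0 : 0 ≤ t := by positivity
  have ht1 : t ≤ 1 := by rw [ht, div_le_one hM]; exact hjM
  have htM : t * M = j := by rw [ht]; field_simp
  have h := hG.2 (Set.mem_univ x) (Set.mem_univ (x + M)) (sub_nonneg.2 ht1) ht0 (by ring)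
  simp only [smul_eq_mul] at h
  have e : (1 - t) * x + t * (x + M) = x + j := by rw [← htM]; ring
  rw [e] at h
  have e2 : (G (x + M) - G x) / M * j = t * (G (x + M) - G x) := by
    rw [← htM]; field_simp
  rw [e2]
  linarith

/-- the increments of a concave function decrease -/
lemma concave_incr {G : ℝ → ℝ} (hG : ConcaveOn ℝ Set.univ G) {x y M : ℝ} (hM : 0 ≤ M)
    (hxy : x ≤ y) : G (y + M) - G y ≤ G (x + M) - G x := by
  rcases eq_or_lt_of_le (by linarith : x ≤ y + M) with h0 | h0
  · have h1 : M = 0 := by linarith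
    have h2 : y = x := by linarith
    rw [h1, h2]
  · set D : ℝ := y + M - x with hD
    have hDpos : 0 < D := by linarith
    set t : ℝ := M / D with ht
    have ht0 : 0 ≤ t := by positivity
    have ht1 : t ≤ 1 := by rw [ht, div_le_one hDpos]; linarith
    have htD : t * D = M := by rw [ht]; field_simp
    have h1 := hG.2 (Set.mem_univ x) (Set.mem_univ (y + M)) (sub_nonneg.2 ht1) ht0 (by ring)
    have h2 := hG.2 (Set.mem_univ x) (Set.mem_univ (y + M)) ht0 (sub_nonneg.2 ht1) (by ring)
    simp only [smul_eq_mul] at h1 h2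
    have e1 : (1 - t) * x + t * (y + M) = x + M := by
      have : (1 - t) * x + t * (y + M) = x + t * D := by rw [hD]; ring
      rw [this, htD]
    have e2 : t * x + (1 - t) * (y + M) = y := by
      have : t * x + (1 - t) * (y + M) = y + M - t * D := by rw [hD]; ring
      rw [this, htD]; ring
    rw [e1] at h1
    rw [e2] at h2
    linarith

/-- the interpolation -/
def ip (t : ℕ → ℝ) (i : ℕ) (l : ℝ) : ℝ := (1 - l) * t i + l * t (i + 1)

lemma ip_le {t u : ℕ → ℝ} {i : ℕ} {l : ℝ} (h0 : 0 ≤ l) (h1 : l ≤ 1) (hi : t i ≤ u i)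
    (hi' : t (i + 1) ≤ u (i + 1)) : ip t i l ≤ ip u i l := by
  unfold ip
  have := mul_le_mul_of_nonneg_left hi (sub_nonneg.2 h1)
  have := mul_le_mul_of_nonneg_left hi' h0
  linarith

/-- THE CHAIN LEMMA -/
theorem chain_lemma {L : ℕ} {g s W Q : ℕ → ℝ} {i0 : ℕ} (hg : ∀ i j, i ≤ j → j ≤ L → g i ≤ g j)
    (hs : ∀ i < L, s (i + 1) ≤ s i)
    (hW : ∀ i j, i0 ≤ i → i ≤ j → j ≤ L → W i ≤ Q j + (g j - g i) * s i)
    {i j : ℕ} (hi0 : i0 ≤ i) (hij : i ≤ j) (hj : j < L) {l r : ℝ}
    (hl0 : 0 ≤ l) (hl1 : l ≤ 1) (hr0 : 0 ≤ r) (hr1 : r ≤ 1) (hx : ip g i l ≤ ip g j r)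
    (hgi : g i < g (i + 1)) :
    ip W i l ≤ ip Q j r + (ip g j r - ip g i l) * s i := by
  have hsi := hs i (by omega)
  rcases eq_or_lt_of_le hij with rfl | hlt
  · -- the same cell
    have hlr : l ≤ r := by
      unfold ip at hx
      by_contra hc
      push Not at hc
      nlinarith
    have a1 := hW i i hi0 le_rfl (by omega)
    have a2 := hW i (i + 1) hi0 (by omega) (by omega)
    have a3 := hW (i + 1) (i + 1) (by omega) le_rfl (by omega)
    rw [sub_self, zero_mul, add_zero] at a1 a3
    have b1 := mul_le_mul_of_nonneg_left a1 (sub_nonneg.2 hr1)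
    have b2 := mul_le_mul_of_nonneg_left a2 (sub_nonneg.2 hlr)
    have b3 := mul_le_mul_of_nonneg_left a3 hl0
    unfold ip
    have e : (((1 - r) * g i + r * g (i + 1)) - ((1 - l) * g i + l * g (i + 1))) * s i =
        (r - l) * ((g (i + 1) - g i) * s i) := by ring
    rw [e]
    have e2 : (1 - l) * W i + l * W (i + 1) =
        (1 - r) * W i + (r - l) * W i + l * W (i + 1) := by ring
    rw [e2]
    have e3 : (1 - r) * Q i + r * Q (i + 1) =
        (1 - r) * Q i + (r - l) * Q (i + 1) + l * Q (i + 1) := by ring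
    rw [e3]
    have e4 : (r - l) * (Q (i + 1) + (g (i + 1) - g i) * s i) =
        (r - l) * Q (i + 1) + (r - l) * ((g (i + 1) - g i) * s i) := by ring
    rw [e4] at b2
    linarith
  · -- different cells
    have c : ∀ b, j ≤ b → b ≤ L → ip W i l ≤ Q b + (g b - ip g i l) * s i := by
      intro b hb hbL
      have a1 := hW i b hi0 (by omega) hbL
      have a2 := hW (i + 1) b (by omega) (by omega) hbL
      have a3 : (g b - g (i + 1)) * s (i + 1) ≤ (g b - g (i + 1)) * s i :=
        mul_le_mul_of_nonneg_left hsi (sub_nonneg.2 (hg _ _ (by omega) hbL))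
      have b1 := mul_le_mul_of_nonneg_left a1 (sub_nonneg.2 hl1)
      have b2 := mul_le_mul_of_nonneg_left (a2.trans (add_le_add le_rfl a3)) hl0
      unfold ip
      have e : Q b + (g b - ((1 - l) * g i + l * g (i + 1))) * s i =
          (1 - l) * (Q b + (g b - g i) * s i) + l * (Q b + (g b - g (i + 1)) * s i) := by ring
      rw [e]
      linarith
    have c1 := mul_le_mul_of_nonneg_left (c j le_rfl (by omega)) (sub_nonneg.2 hr1)
    have c2 := mul_le_mul_of_nonneg_left (c (j + 1) (by omega) (by omega)) hr0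
    have e : ip Q j r + (ip g j r - ip g i l) * s i =
        (1 - r) * (Q j + (g j - ip g i l) * s i) + r * (Q (j + 1) + (g (j + 1) - ip g i l) * s i) := by
      unfold ip
      ring
    rw [e]
    have e2 : ip W i l = (1 - r) * ip W i l + r * ip W i l := by ring
    linarith

/-- a decreasing factor and an increasing factor -/
lemma ip_mul_le {u v B : ℕ → ℝ} {i : ℕ} {l : ℝ} (h0 : 0 ≤ l) (h1 : l ≤ 1)
    (hu : u (i + 1) ≤ u i) (hv : v i ≤ v (i + 1)) (hB : B i ≤ u i * v i)
    (hB' : B (i + 1) ≤ u (i + 1) * v (i + 1)) : ip B i l ≤ ip u i l * ip v i l := by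
  unfold ip
  have h2 : 0 ≤ l * (1 - l) * ((u i - u (i + 1)) * (v (i + 1) - v i)) :=
    mul_nonneg (mul_nonneg h0 (sub_nonneg.2 h1)) (mul_nonneg (sub_nonneg.2 hu) (sub_nonneg.2 hv))
  have h3 := mul_le_mul_of_nonneg_left hB (sub_nonneg.2 h1)
  have h4 := mul_le_mul_of_nonneg_left hB' h0
  nlinarith

end Pool.Agent.Lib.MP_67d80e_pr_all
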