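import Pool.Agent.Lib.MP_67d80e_pr_all.IsoLog
import Pool.Agent.Lib.MP_67d80e_pr_all.Pla

/-!
Additive potentials: the reduction of the drift inequality to the nodes of the grid.
-/

set_option autoImplicit false

open scoped BigOperators
open Pool.Agent.Lib.MP_67d80e_pr

namespace Pool.Agent.Lib.MP_67d80e_pr_all

/-- the data of an additive potential (without the first variable) -/
structure AD where
  m : ℕ
  L : ℕ
  gc : ℕ
  ic : ℕ
  g : ℕ → ℕ
  f1 : ℕ → ℝ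
  f2 : ℕ → ℝ
  f3 : ℕ → ℝ
  s1 : ℕ → ℝ
  s2 : ℕ → ℝ
  s3 : ℕ → ℝ
  v : ℕ → ℝ
  B1 : ℕ → ℝ
  B2 : ℕ → ℝ
  B3 : ℕ → ℝ

namespace AD

variable (D : AD)

/-- the nodes as real numbers -/
def G (i : ℕ) : ℝ := (D.g i : ℝ)

noncomputable def F1 : ℝ → ℝ := plE D.L D.G D.f1 D.s1
noncomputable def F2 : ℝ → ℝ := plE D.L D.G D.f2 D.s2
noncomputable def F3 : ℝ → ℝ := plE D.L D.G D.f3 D.s3

/-- the conditions on the data -/
structure Ok : Prop where
  hL : 1 ≤ D.L
  hm : 1 ≤ D.m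
  g0 : D.g 0 = D.m + 1
  p1 : Pl D.L D.G D.f1 D.s1
  p2 : Pl D.L D.G D.f2 D.s2
  p3 : Pl D.L D.G D.f3 D.s3
  hic : D.ic ≤ D.L
  hgc : D.g D.ic = D.gc
  v0 : ∀ i ≤ D.L, 0 ≤ D.v i
  vm : ∀ i < D.L, D.v i ≤ D.v (i + 1)
  vle : ∀ i ≤ D.L, D.v i * D.m ≤ OL D.m D.gc (D.g i)
  b1 : ∀ i ≤ D.L, D.B1 i ≤ (D.F1 (D.G i + D.m) - D.F1 (D.G i)) * D.v i
  b2 : ∀ i ≤ D.L, D.B2 i ≤ (D.F2 (D.G i + D.m) - D.F2 (D.G i)) * D.v i
  b3 : ∀ i ≤ D.L, D.B3 i ≤ (D.F3 (D.G i + D.m) - D.F3 (D.G i)) * D.v i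

/-- the cell -/
def loc (n : ℕ) : ℕ := Nat.findGreatest (fun i => D.g i ≤ n) (D.L - 1)

/-- the truncation -/
noncomputable def xx (n : ℕ) : ℝ := ((min n (D.g D.L) : ℕ) : ℝ)

/-- the position in the cell -/
noncomputable def lam (n : ℕ) : ℝ :=
  (D.xx n - D.G (D.loc n)) / (D.G (D.loc n + 1) - D.G (D.loc n))

variable {D}

lemma Ok.gmono (h : D.Ok) {i j : ℕ} (hij : i ≤ j) (hj : j ≤ D.L) : D.g i ≤ D.g j := by
  have := h.p1.g_mono hij hj
  unfold G at this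
  exact_mod_cast this

lemma Ok.glt (h : D.Ok) {i : ℕ} (hi : i < D.L) : D.g i < D.g (i + 1) := by
  have := h.p1.gm i hi
  unfold G at this
  exact_mod_cast this

lemma loc_lt (h : D.Ok) (n : ℕ) : D.loc n < D.L := by
  have h1 : D.loc n ≤ D.L - 1 := Nat.findGreatest_le _
  have := h.hL
  omega

lemma g_loc_le (h : D.Ok) {n : ℕ} (hn : D.g 0 ≤ n) : D.g (D.loc n) ≤ n := by
  have := h.hL
  exact Nat.findGreatest_spec (P := fun i => D.g i ≤ n) (Nat.zero_le (D.L - 1)) hn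

lemma lt_g_loc (h : D.Ok) {n : ℕ} (hn : n < D.g D.L) : n < D.g (D.loc n + 1) := by
  have h1 := loc_lt h n
  by_cases h2 : D.loc n + 1 = D.L
  · rw [h2]; exact hn
  · by_contra hc
    push Not at hc
    have h3 : D.loc n + 1 ≤ D.loc n :=
      Nat.le_findGreatest (P := fun i => D.g i ≤ n) (by omega) hc
    omega

lemma loc_mono {n n' : ℕ} (hnn : n ≤ n') : D.loc n ≤ D.loc n' :=
  Nat.findGreatest_mono (P := fun i => D.g i ≤ n) (Q := fun i => D.g i ≤ n')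
    (fun _ hi => le_trans hi hnn) le_rfl

lemma le_loc {n i : ℕ} (hi : i < D.L) (hg : D.g i ≤ n) : i ≤ D.loc n :=
  Nat.le_findGreatest (P := fun i => D.g i ≤ n) (by omega) hg

lemma loc_eq_of_ge (h : D.Ok) {n : ℕ} (hn : D.g D.L ≤ n) : D.loc n = D.L - 1 := by
  have h1 := loc_lt h n
  have h2 := h.hL
  have h3 := h.gmono (show D.L - 1 ≤ D.L by omega) le_rfl
  have h4 : D.L - 1 ≤ D.loc n := le_loc (by omega) (h3.trans hn)
  omega

lemma xx_of_lt {n : ℕ} (hn : n < D.g D.L) : D.xx n = n := by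
  unfold xx
  rw [min_eq_left hn.le]

lemma xx_of_ge {n : ℕ} (hn : D.g D.L ≤ n) : D.xx n = D.G D.L := by
  unfold xx
  rw [min_eq_right hn]
  rfl

lemma xx_le (n : ℕ) : D.xx n ≤ n := by
  unfold xx
  exact_mod_cast min_le_left _ _

lemma xx_mono {n n' : ℕ} (h : n ≤ n') : D.xx n ≤ D.xx n' := by
  unfold xx
  exact_mod_cast min_le_min h le_rfl

lemma le_xx (h : D.Ok) {n : ℕ} (hn : D.g 0 ≤ n) : D.G (D.loc n) ≤ D.xx n := by
  unfold xx G
  have h1 := g_loc_le h hn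
  have h2 := h.gmono (loc_lt h n).le le_rfl
  exact_mod_cast le_min h1 h2

lemma xx_le_succ (h : D.Ok) (n : ℕ) : D.xx n ≤ D.G (D.loc n + 1) := by
  rcases lt_or_ge n (D.g D.L) with hn | hn
  · have h1 := lt_g_loc h hn
    unfold G
    exact (xx_le n).trans (by exact_mod_cast h1.le)
  · rw [xx_of_ge hn, loc_eq_of_ge h hn]
    have := h.hL
    rw [show D.L - 1 + 1 = D.L by omega]

lemma lam_nonneg (h : D.Ok) {n : ℕ} (hn : D.g 0 ≤ n) : 0 ≤ D.lam n := by
  have h1 := le_xx h hn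
  have h2 := h.p1.gm _ (loc_lt h n)
  exact div_nonneg (by linarith) (by linarith)

lemma lam_le_one (h : D.Ok) (n : ℕ) : D.lam n ≤ 1 := by
  have h1 := xx_le_succ h n
  have h2 := h.p1.gm _ (loc_lt h n)
  unfold lam
  rw [div_le_one (by linarith)]
  linarith

lemma ip_G (h : D.Ok) (n : ℕ) : ip D.G (D.loc n) (D.lam n) = D.xx n := by
  have h2 := h.p1.gm _ (loc_lt h n)
  unfold ip lam
  have h3 : D.G (D.loc n + 1) - D.G (D.loc n) ≠ 0 := by linarith
  field_simp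
  ring

lemma plE_xx (h : D.Ok) {f s : ℕ → ℝ} (hp : Pl D.L D.G f s) {n : ℕ} (hn : D.g 0 ≤ n) :
    plE D.L D.G f s (D.xx n) = ip f (D.loc n) (D.lam n) := by
  have h1 := loc_lt h n
  rw [plE_eq hp h1.le (le_xx h hn) (fun _ => xx_le_succ h n)]
  have h2 := hp.gm _ h1
  have h3 := hp.step _ h1
  have h4 := ip_G h n
  unfold ip at h4 ⊢
  rw [h3, ← h4]
  ring

lemma plE_n {f s : ℕ → ℝ} (hp : Pl D.L D.G f s) (n : ℕ) (a : ℝ) (ha : 0 ≤ a) :
    plE D.L D.G f s (n + a) = plE D.L D.G f s (D.xx n + a) := by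
  rcases lt_or_ge n (D.g D.L) with hn | hn
  · rw [xx_of_lt hn]
  · have hn' : D.G D.L ≤ n := by unfold G; exact_mod_cast hn
    rw [xx_of_ge hn, plE_const hp (by linarith), plE_const hp (by linarith)]

lemma plE_n0 {f s : ℕ → ℝ} (hp : Pl D.L D.G f s) (n : ℕ) :
    plE D.L D.G f s n = plE D.L D.G f s (D.xx n) := by
  have := plE_n hp n 0 le_rfl
  rwa [add_zero, add_zero] at this

/-- the slope term -/
lemma slope_ge (h : D.Ok) {f s : ℕ → ℝ} (hp : Pl D.L D.G f s) {n n' : ℕ} (hn : D.g 0 ≤ n)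
    (hnn : n ≤ n') : (D.xx n' - D.xx n) * s (D.loc n) ≤
      ((n' : ℝ) - n) * (plE D.L D.G f s (n + 1) - plE D.L D.G f s n) := by
  have h1 := loc_lt h n
  have hnn' : (n : ℝ) ≤ n' := by exact_mod_cast hnn
  rcases lt_or_ge n (D.g D.L) with hl | hl
  · have h2 := lt_g_loc h hl
    have h3 : (n : ℝ) + 1 ≤ D.G (D.loc n + 1) := by unfold G; exact_mod_cast h2
    have h4 : D.G (D.loc n) ≤ n := by unfold G; exact_mod_cast g_loc_le h hn
    rw [plE_eq hp h1.le (by linarith : D.G (D.loc n) ≤ (n : ℝ) + 1) (fun _ => h3),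
      plE_eq hp h1.le h4 (fun _ => by linarith), xx_of_lt hl]
    have h5 : f (D.loc n) + s (D.loc n) * ((n : ℝ) + 1 - D.G (D.loc n)) -
        (f (D.loc n) + s (D.loc n) * ((n : ℝ) - D.G (D.loc n))) = s (D.loc n) := by ring
    rw [h5]
    exact mul_le_mul_of_nonneg_right (by linarith [xx_le (D := D) n']) (hp.s_nonneg h1.le)
  · rw [xx_of_ge hl, xx_of_ge (hl.trans hnn), sub_self, zero_mul]
    exact mul_nonneg (by linarith) (sub_nonneg.2 (plE_mono hp (by linarith)))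

/-- `x (1 - log₂ x / M)` -/
noncomputable def om (M x : ℝ) : ℝ := x * (M - Real.log x / Real.log 2)

lemma OL_eq (M gc n : ℕ) : OL M gc n = om M ((min n gc : ℕ) : ℝ) := rfl

lemma om_eq (M x : ℝ) : om M x = M * x + (1 / Real.log 2) * Real.negMulLog x := by
  unfold om Real.negMulLog
  ring

lemma om_ip {M : ℝ} {t : ℕ → ℝ} {i : ℕ} {l : ℝ} (h0 : 0 ≤ l) (h1 : l ≤ 1) (hi : 0 ≤ t i)
    (hi' : 0 ≤ t (i + 1)) : ip (fun j => om M (t j)) i l ≤ om M (ip t i l) := by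
  have hc := Real.concaveOn_negMulLog
  have h := hc.2 (Set.mem_Ici.2 hi) (Set.mem_Ici.2 hi') (sub_nonneg.2 h1) h0 (by ring)
  simp only [smul_eq_mul] at h
  simp only [ip, om_eq]
  have hl : 0 < Real.log 2 := Real.log_pos (by norm_num)
  have h2 := mul_le_mul_of_nonneg_left h (by positivity : 0 ≤ 1 / Real.log 2)
  have e : (1 / Real.log 2) * ((1 - l) * Real.negMulLog (t i) + l * Real.negMulLog (t (i + 1))) =
    (1 - l) * ((1 / Real.log 2) * Real.negMulLog (t i)) +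
      l * ((1 / Real.log 2) * Real.negMulLog (t (i + 1))) := by ring
  rw [e] at h2
  linarith

lemma om_div_mono {m M : ℝ} (hm : 0 < m) (hM : m ≤ M) {x : ℝ} (hx : 1 ≤ x) :
    om m x / m ≤ om M x / M := by
  unfold om
  have hl : 0 < Real.log 2 := Real.log_pos (by norm_num)
  have hlx : 0 ≤ Real.log x / Real.log 2 := div_nonneg (Real.log_nonneg hx) hl.le
  have hM0 : 0 < M := lt_of_lt_of_le hm hM
  have e1 : x * (m - Real.log x / Real.log 2) / m = x - x * (Real.log x / Real.log 2) / m := by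
    field_simp
  have e2 : x * (M - Real.log x / Real.log 2) / M = x - x * (Real.log x / Real.log 2) / M := by
    field_simp
  rw [e1, e2]
  have h3 : x * (Real.log x / Real.log 2) / M ≤ x * (Real.log x / Real.log 2) / m :=
    div_le_div_of_nonneg_left (mul_nonneg (by linarith) hlx) hm hM
  linarith

/-- the isoperimetric factor -/
lemma v_le (h : D.Ok) {M : ℕ} (hM : D.m ≤ M) {n : ℕ} (hn : D.g 0 ≤ n) :
    ip D.v (D.loc n) (D.lam n) ≤ OL M D.gc n / M := by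
  have hm0 : (0 : ℝ) < D.m := by exact_mod_cast h.hm
  have hmM : (D.m : ℝ) ≤ M := by exact_mod_cast hM
  have h1 := loc_lt h n
  have hl0 := lam_nonneg h hn
  have hl1 := lam_le_one h n
  have hgcL : D.gc ≤ D.g D.L := by rw [← h.hgc]; exact h.gmono h.hic le_rfl
  have hgc0 : D.m + 1 ≤ D.gc := by rw [← h.hgc, ← h.g0]; exact h.gmono (Nat.zero_le _) h.hic
  have hvi : ∀ i ≤ D.L, D.v i ≤ om D.m ((min (D.g i) D.gc : ℕ) : ℝ) / D.m := by
    intro i hi
    rw [le_div_iff₀ hm0]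
    exact h.vle i hi
  have hgn : D.m + 1 ≤ n := by rw [← h.g0]; exact hn
  -- the point
  have hx : OL M D.gc n = om M (min (D.xx n) D.gc) := by
    rw [OL_eq]
    congr 1
    unfold xx
    rw [Nat.cast_min, Nat.cast_min, min_assoc]
    congr 1
    rw [min_eq_right]
    exact_mod_cast hgcL
  rw [hx]
  rcases Nat.lt_or_ge (D.loc n) D.ic with hc | hc
  · -- before the cap
    have h2 : D.g (D.loc n + 1) ≤ D.gc := by
      rw [← h.hgc]; exact h.gmono hc h.hic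
    have h2' : D.g (D.loc n) ≤ D.gc := (h.gmono (Nat.le_succ _) (by omega)).trans h2
    have h3 : D.xx n ≤ D.gc := (xx_le_succ h n).trans (by unfold G; exact_mod_cast h2)
    rw [min_eq_left h3]
    have h4 : 1 ≤ D.xx n := by
      refine le_trans ?_ (le_xx h hn)
      unfold G
      have h5 := h.gmono (Nat.zero_le _) h1.le
      rw [h.g0] at h5
      exact_mod_cast (by omega : 1 ≤ D.g (D.loc n))
    refine le_trans ?_ (om_div_mono hm0 hmM h4)
    rw [← ip_G h n]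
    have h6 := om_ip (M := (D.m : ℝ)) (t := D.G) hl0 hl1 (i := D.loc n)
      (by unfold G; positivity) (by unfold G; positivity)
    have h7 : ip (fun j => om D.m (D.G j)) (D.loc n) (D.lam n) / D.m ≤
        om D.m (ip D.G (D.loc n) (D.lam n)) / D.m := div_le_div_of_nonneg_right h6 hm0.le
    refine le_trans ?_ h7
    have e : ip (fun j => om D.m (D.G j)) (D.loc n) (D.lam n) / D.m =
        ip (fun j => om D.m (D.G j) / D.m) (D.loc n) (D.lam n) := by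
      unfold ip
      ring
    rw [e]
    refine ip_le hl0 hl1 ?_ ?_
    · have := hvi (D.loc n) h1.le
      rw [min_eq_left h2'] at this
      exact this
    · have := hvi (D.loc n + 1) h1
      rw [min_eq_left h2] at this
      exact this
  · -- after the cap
    have h2 : D.gc ≤ D.g (D.loc n) := by
      rw [← h.hgc]; exact h.gmono hc h1.le
    have h3 : (D.gc : ℝ) ≤ D.xx n := by
      refine le_trans ?_ (le_xx h hn)
      unfold G
      exact_mod_cast h2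
    rw [min_eq_right h3]
    have h4 : (1 : ℝ) ≤ D.gc := by exact_mod_cast (by omega : 1 ≤ D.gc)
    refine le_trans ?_ (om_div_mono hm0 hmM h4)
    have h5 := hvi (D.loc n) h1.le
    have h6 := hvi (D.loc n + 1) h1
    rw [min_eq_right h2] at h5
    rw [min_eq_right (h2.trans (h.glt h1).le)] at h6
    unfold ip
    have a1 := mul_le_mul_of_nonneg_left h5 (sub_nonneg.2 hl1)
    have a2 := mul_le_mul_of_nonneg_left h6 hl0
    linarith

/-- the boundary term -/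
lemma b_ge (h : D.Ok) {f s B : ℕ → ℝ} (hp : Pl D.L D.G f s)
    (hB : ∀ i ≤ D.L, B i ≤ (plE D.L D.G f s (D.G i + D.m) - plE D.L D.G f s (D.G i)) * D.v i)
    {M : ℕ} (hM : D.m ≤ M) {n : ℕ} (hn : D.g 0 ≤ n) :
    ip B (D.loc n) (D.lam n) ≤
      (plE D.L D.G f s (n + M) - plE D.L D.G f s n) / M * OL M D.gc n := by
  have h1 := loc_lt h n
  have hl0 := lam_nonneg h hn
  have hl1 := lam_le_one h n
  set u : ℕ → ℝ := fun i => plE D.L D.G f s (D.G i + D.m) - plE D.L D.G f s (D.G i) with hu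
  have hm0 : (0 : ℝ) ≤ D.m := Nat.cast_nonneg _
  have hmM : (D.m : ℝ) ≤ M := by exact_mod_cast hM
  have hM0 : (0 : ℝ) < M := lt_of_lt_of_le (by exact_mod_cast h.hm) hmM
  have hu0 : ∀ i, 0 ≤ u i := fun i => sub_nonneg.2 (plE_mono hp (by linarith))
  have a1 : ip B (D.loc n) (D.lam n) ≤
      ip u (D.loc n) (D.lam n) * ip D.v (D.loc n) (D.lam n) :=
    ip_mul_le hl0 hl1 (concave_incr plE_concave hm0 (hp.gm _ h1).le) (h.vm _ h1)
      (hB _ h1.le) (hB _ h1)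
  have a2 : ip u (D.loc n) (D.lam n) ≤ plE D.L D.G f s (n + M) - plE D.L D.G f s n := by
    have b1 : plE D.L D.G f s (n + D.m) ≤ plE D.L D.G f s (n + M) := plE_mono hp (by linarith)
    rw [plE_n hp n _ hm0] at b1
    have b2 := (plE_concave (L := D.L) (g := D.G) (f := f) (s := s)).2
      (Set.mem_univ (D.G (D.loc n) + D.m)) (Set.mem_univ (D.G (D.loc n + 1) + D.m))
      (sub_nonneg.2 hl1) hl0 (by ring)
    simp only [smul_eq_mul] at b2
    have e : (1 - D.lam n) * (D.G (D.loc n) + D.m) + D.lam n * (D.G (D.loc n + 1) + D.m) =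
        D.xx n + D.m := by
      rw [← ip_G h n]
      unfold ip
      ring
    rw [e] at b2
    have b3 := plE_xx h hp hn
    rw [plE_n0 hp n, b3]
    unfold ip at *
    rw [hu]
    simp only
    rw [plE_node hp h1.le, plE_node hp h1]
    linarith
  have a3 := v_le h hM hn
  have a4 : 0 ≤ ip D.v (D.loc n) (D.lam n) := by
    unfold ip
    have := h.v0 _ h1.le
    have := h.v0 _ h1
    have := sub_nonneg.2 hl1
    positivity
  have a5 : 0 ≤ plE D.L D.G f s (n + M) - plE D.L D.G f s n :=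
    sub_nonneg.2 (plE_mono hp (by linarith))
  calc _ ≤ _ := a1
    _ ≤ (plE D.L D.G f s (n + M) - plE D.L D.G f s n) * (OL M D.gc n / M) :=
        mul_le_mul a2 a3 a4 a5
    _ = _ := by ring

/-- the part of the drift which depends on the three large sets -/
noncomputable def tot (D : AD) (M : ℕ) (e : ℝ) (n1 n2 n3 : ℕ) : ℝ :=
  e * (D.F2 n1 - D.F1 n1) + (D.F1 (n1 + M) - D.F1 n1) / M * OL M D.gc n1 +
    ((n2 : ℝ) - n1) * (D.F1 (n1 + 1) - D.F1 n1) +
    e * (D.F3 n2 - D.F2 n2) + (D.F2 (n2 + M) - D.F2 n2) / M * OL M D.gc n2 +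
    ((n3 : ℝ) - n2) * (D.F2 (n2 + 1) - D.F2 n2) -
    e * D.F3 n3 + (D.F3 (n3 + M) - D.F3 n3) / M * OL M D.gc n3

/-- the conditions at the nodes -/
def ChOk (D : AD) (C e X τ : ℝ) (i0 : ℕ) : Prop :=
  ∃ Q1 Q2 Q3 W1 W2 : ℕ → ℝ,
    (∀ j, i0 ≤ j → j ≤ D.L → Q3 j ≤ -(e * D.f3 j) + D.B3 j) ∧
    (∀ i j, i0 ≤ i → i ≤ j → j ≤ D.L → W2 i ≤ Q3 j + (D.G j - D.G i) * D.s2 i) ∧
    (∀ j, i0 ≤ j → j ≤ D.L → Q2 j ≤ -(e * D.f2 j) + e * D.f3 j + D.B2 j + W2 j) ∧
    (∀ i j, i0 ≤ i → i ≤ j → j ≤ D.L → W1 i ≤ Q2 j + (D.G j - D.G i) * D.s1 i) ∧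
    (∀ j, i0 ≤ j → j ≤ D.L → Q1 j ≤ -(e * D.f1 j) + e * D.f2 j + D.B1 j + W1 j) ∧
    (∀ j, i0 ≤ j → j ≤ D.L → C ≤ X + D.G j * τ + Q1 j)

theorem tot_ge (h : D.Ok) {M : ℕ} (hM : D.m ≤ M) {C e X τ : ℝ} {i0 : ℕ}
    (hc : ChOk D C e X τ i0) (hτ : 0 ≤ τ) {n1 n2 n3 : ℕ} (h0 : D.g 0 ≤ n1)
    (hi0 : i0 < D.L) (hgi : i0 = 0 ∨ D.g i0 ≤ n1) (h12 : n1 ≤ n2) (h23 : n2 ≤ n3) :
    C ≤ X + n1 * τ + tot D M e n1 n2 n3 := by
  obtain ⟨Q1, Q2, Q3, W1, W2, c3, w2, c2, w1, c1, cf⟩ := hc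
  have h02 : D.g 0 ≤ n2 := h0.trans h12
  have h03 : D.g 0 ≤ n3 := h02.trans h23
  have k1 := loc_lt h n1
  have k2 := loc_lt h n2
  have k3 := loc_lt h n3
  have k01 : i0 ≤ D.loc n1 := by
    rcases hgi with rfl | hgi
    · exact Nat.zero_le _
    · exact le_loc hi0 hgi
  have k12 : D.loc n1 ≤ D.loc n2 := loc_mono h12
  have k23 : D.loc n2 ≤ D.loc n3 := loc_mono h23
  have l10 := lam_nonneg h h0
  have l11 := lam_le_one h n1
  have l20 := lam_nonneg h h02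
  have l21 := lam_le_one h n2
  have l30 := lam_nonneg h h03
  have l31 := lam_le_one h n3
  have hgm : ∀ i j, i ≤ j → j ≤ D.L → D.G i ≤ D.G j := fun i j hij hj => h.p1.g_mono hij hj
  have ipl : ∀ (t : ℕ → ℝ) (a : ℝ) (i : ℕ) (l : ℝ), ip (fun j => a * t j) i l = a * ip t i l := by
    intro t a i l
    unfold ip
    ring
  -- the values
  have v11 : D.F1 n1 = ip D.f1 (D.loc n1) (D.lam n1) := by
    unfold F1; rw [plE_n0 h.p1, plE_xx h h.p1 h0]
  have v21 : D.F2 n1 = ip D.f2 (D.loc n1) (D.lam n1) := by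
    unfold F2; rw [plE_n0 h.p2, plE_xx h h.p2 h0]
  have v22 : D.F2 n2 = ip D.f2 (D.loc n2) (D.lam n2) := by
    unfold F2; rw [plE_n0 h.p2, plE_xx h h.p2 h02]
  have v32 : D.F3 n2 = ip D.f3 (D.loc n2) (D.lam n2) := by
    unfold F3; rw [plE_n0 h.p3, plE_xx h h.p3 h02]
  have v33 : D.F3 n3 = ip D.f3 (D.loc n3) (D.lam n3) := by
    unfold F3; rw [plE_n0 h.p3, plE_xx h h.p3 h03]
  have b1 := b_ge h h.p1 h.b1 hM h0
  have b2 := b_ge h h.p2 h.b2 hM h02
  have b3 := b_ge h h.p3 h.b3 hM h03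
  have s1 := slope_ge h h.p1 h0 h12
  have s2 := slope_ge h h.p2 h02 h23
  -- third level
  have e3 : ip Q3 (D.loc n3) (D.lam n3) ≤
      -(e * ip D.f3 (D.loc n3) (D.lam n3)) + ip D.B3 (D.loc n3) (D.lam n3) := by
    have := ip_le l30 l31 (c3 (D.loc n3) (by omega) (by omega)) (c3 (D.loc n3 + 1) (by omega) k3)
      (t := Q3) (u := fun j => -(e * D.f3 j) + D.B3 j)
    refine this.trans (le_of_eq ?_)
    unfold ip
    ring
  have x23 : ip D.G (D.loc n2) (D.lam n2) ≤ ip D.G (D.loc n3) (D.lam n3) := by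
    rw [ip_G h, ip_G h]; exact xx_mono h23
  have x12 : ip D.G (D.loc n1) (D.lam n1) ≤ ip D.G (D.loc n2) (D.lam n2) := by
    rw [ip_G h, ip_G h]; exact xx_mono h12
  have q2 := chain_lemma hgm h.p2.anti w2 (i := D.loc n2) (j := D.loc n3) (by omega) k23 k3
    l20 l21 l30 l31 x23 (h.p1.gm _ k2)
  have e2 : ip Q2 (D.loc n2) (D.lam n2) ≤
      -(e * ip D.f2 (D.loc n2) (D.lam n2)) + e * ip D.f3 (D.loc n2) (D.lam n2) +
        ip D.B2 (D.loc n2) (D.lam n2) + ip W2 (D.loc n2) (D.lam n2) := by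
    have := ip_le l20 l21 (c2 (D.loc n2) (by omega) (by omega)) (c2 (D.loc n2 + 1) (by omega) k2)
      (t := Q2) (u := fun j => -(e * D.f2 j) + e * D.f3 j + D.B2 j + W2 j)
    refine this.trans (le_of_eq ?_)
    unfold ip
    ring
  have q1 := chain_lemma hgm h.p1.anti w1 (i := D.loc n1) (j := D.loc n2) (by omega) k12 k2
    l10 l11 l20 l21 x12 (h.p1.gm _ k1)
  have e1 : ip Q1 (D.loc n1) (D.lam n1) ≤
      -(e * ip D.f1 (D.loc n1) (D.lam n1)) + e * ip D.f2 (D.loc n1) (D.lam n1) +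
        ip D.B1 (D.loc n1) (D.lam n1) + ip W1 (D.loc n1) (D.lam n1) := by
    have := ip_le l10 l11 (c1 (D.loc n1) (by omega) (by omega)) (c1 (D.loc n1 + 1) (by omega) k1)
      (t := Q1) (u := fun j => -(e * D.f1 j) + e * D.f2 j + D.B1 j + W1 j)
    refine this.trans (le_of_eq ?_)
    unfold ip
    ring
  have e0 : C ≤ X + D.xx n1 * τ + ip Q1 (D.loc n1) (D.lam n1) := by
    have a1 := cf (D.loc n1) (by omega) (by omega)
    have a2 := cf (D.loc n1 + 1) (by omega) k1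
    have a3 := mul_le_mul_of_nonneg_left a1 (sub_nonneg.2 l11)
    have a4 := mul_le_mul_of_nonneg_left a2 l10
    rw [← ip_G h n1]
    unfold ip
    nlinarith
  have e00 : D.xx n1 * τ ≤ n1 * τ := mul_le_mul_of_nonneg_right (xx_le n1) hτ
  rw [ip_G h, ip_G h] at q1 q2
  unfold tot
  rw [v11, v21, v22, v32, v33]
  unfold F1 F2 F3 at *
  rw [v11] at b1 s1
  rw [v22] at b2 s2
  rw [v33] at b3
  linarith

end AD

end Pool.Agent.Lib.MP_67d80e_pr_all
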