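import Pool.Agent.Lib.MP_67d80e_pr_all.AddS

/-!
Additive potentials: the first variable, and the lower bound.
-/

set_option autoImplicit false

open scoped BigOperators
open Pool.Agent.Lib.MP_67d80e_pr

namespace Pool.Agent.Lib.MP_67d80e_pr_all

/-- the data of the first variable -/
structure AZ where
  A : ℕ
  p : ℕ → ℕ
  f0 : ℕ → ℝ
  t : ℕ → ℝ
  R : ℕ → ℝ
  β : ℕ → ℝ
  i0 : ℕ → ℕ
  S : ℝ
  C : ℝ

namespace AZ

variable (Z : AZ)

def P (i : ℕ) : ℝ := (Z.p i : ℝ)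

noncomputable def F0 : ℝ → ℝ := plE Z.A Z.P Z.f0 Z.t

/-- the part of the drift which depends on the first cardinality -/
noncomputable def X (a : ℕ) (e : ℝ) : ℝ :=
  e * (Z.S + Z.f0 0 + Z.R a - (Z.f0 a + Z.t a * (e - Z.P a))) -
    Z.β a * (e * Real.log e / Real.log 2) - e * Z.t a

/-- the conditions on the data -/
structure Ok (Z : AZ) (D : AD) : Prop where
  p0 : Z.p 0 = 1
  pl : Pl Z.A Z.P Z.f0 Z.t
  hS : 0 < Z.S
  hgc : Z.p Z.A ≤ D.gc
  hβ : ∀ a < Z.A, 0 ≤ Z.β a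
  hR : ∀ a < Z.A, Z.R a ≤ D.F1 (Z.P a + D.m)
  hR' : ∀ a < Z.A, Z.R a - (Z.P a - 1) * Z.β a ≤ D.F1 (D.m + 1)
  hRA : Z.R Z.A ≤ D.F1 ((max (Z.p Z.A) (D.m + 1) : ℕ) : ℝ)
  hi : ∀ a ≤ Z.A, Z.i0 a < D.L
  hgi : ∀ a ≤ Z.A, Z.i0 a = 0 ∨ D.g (Z.i0 a) ≤ Z.p a
  c1 : ∀ a < Z.A, AD.ChOk D Z.C (Z.P a) (Z.X a (Z.P a)) (Z.t a) (Z.i0 a)
  c2 : ∀ a < Z.A, AD.ChOk D Z.C ((Z.p (a + 1) - 1 : ℕ) : ℝ)
    (Z.X a ((Z.p (a + 1) - 1 : ℕ) : ℝ)) (Z.t a) (Z.i0 a)
  c3 : AD.ChOk D Z.C (Z.P Z.A) (Z.P Z.A * (Z.S + Z.f0 0 + Z.R Z.A - Z.f0 Z.A)) 0 (Z.i0 Z.A)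

/-- the function of the four cardinalities -/
noncomputable def phi (D : AD) (n0 n1 n2 n3 : ℕ) : ℝ :=
  (Z.F0 n0 + D.F1 n1 + D.F2 n2 + D.F3 n3) / Z.S

variable {Z} {D : AD}

lemma abs_plE {L : ℕ} {g f s : ℕ → ℝ} (h : Pl L g f s) (n : ℕ) :
    |plE L g f s n| ≤ |plE L g f s 0| + |f L| := by
  have h1 : plE L g f s n ≤ f L := by
    have := plE_le (L := L) (g := g) (f := f) (s := s) (le_refl L) (n : ℝ)
    rwa [h.last, zero_mul, add_zero] at this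
  have h2 : plE L g f s 0 ≤ plE L g f s n := plE_mono h (Nat.cast_nonneg n)
  rw [abs_le]
  have h3 := neg_abs_le (plE L g f s 0)
  have h4 := le_abs_self (f L)
  have h5 := abs_nonneg (f L)
  have h6 := abs_nonneg (plE L g f s 0)
  constructor <;> linarith

lemma phiFree (hD : D.Ok) (hZ : Z.Ok D) : PhiFree (Z.phi D) := by
  refine ⟨⟨((|plE Z.A Z.P Z.f0 Z.t 0| + |Z.f0 Z.A|) + (|plE D.L D.G D.f1 D.s1 0| + |D.f1 D.L|) +
      (|plE D.L D.G D.f2 D.s2 0| + |D.f2 D.L|) + (|plE D.L D.G D.f3 D.s3 0| + |D.f3 D.L|)) / Z.S,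
    fun n0 n1 n2 n3 => ?_⟩, ?_⟩
  · unfold phi F0 AD.F1 AD.F2 AD.F3
    rw [abs_div, abs_of_pos hZ.hS]
    refine div_le_div_of_nonneg_right ?_ hZ.hS.le
    refine (abs_add_le _ _).trans (add_le_add ?_ (abs_plE hD.p3 n3))
    refine (abs_add_le _ _).trans (add_le_add ?_ (abs_plE hD.p2 n2))
    exact (abs_add_le _ _).trans (add_le_add (abs_plE hZ.pl n0) (abs_plE hD.p1 n1))
  · intro n0 n1 n2 n3 m0 m1 m2 m3 h0 h1 h2 h3
    unfold phi F0 AD.F1 AD.F2 AD.F3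
    refine div_le_div_of_nonneg_right ?_ hZ.hS.le
    exact add_le_add (add_le_add (add_le_add (plE_mono hZ.pl (by exact_mod_cast h0))
      (plE_mono hD.p1 (by exact_mod_cast h1))) (plE_mono hD.p2 (by exact_mod_cast h2)))
      (plE_mono hD.p3 (by exact_mod_cast h3))

/-- the constant `R` -/
lemma R_le {G : ℝ → ℝ} (hG : ConcaveOn ℝ Set.univ G) (hmono : ∀ x y, x ≤ y → G x ≤ G y)
    {m M p n0 k : ℕ} {R β : ℝ} (hmM : m ≤ M) (hβ : 0 ≤ β) (hR : R ≤ G ((p : ℝ) + m))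
    (hR' : R - ((p : ℝ) - 1) * β ≤ G ((m : ℝ) + 1)) (hp1 : 1 ≤ p) (hp : p ≤ n0)
    (hk : k ≤ M) (hk' : M + 1 ≤ n0 + k) :
    R - β * ((M : ℝ) - k) ≤ G ((n0 + k : ℕ) : ℝ) := by
  have hkM : (k : ℝ) ≤ M := by exact_mod_cast hk
  have hmM' : (m : ℝ) ≤ M := by exact_mod_cast hmM
  rcases le_or_gt (p + M) (n0 + k) with h1 | h1
  · have h2 : ((p + M : ℕ) : ℝ) ≤ ((n0 + k : ℕ) : ℝ) := by exact_mod_cast h1
    push_cast at h2
    have h3 : G ((p : ℝ) + m) ≤ G ((n0 + k : ℕ) : ℝ) := hmono _ _ (by push_cast; linarith)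
    have h4 : 0 ≤ β * ((M : ℝ) - k) := mul_nonneg hβ (by linarith)
    linarith
  · -- `s' = p + M - (n0 + k)` lies in `[1, p - 1]`
    obtain ⟨q, hq⟩ : ∃ q : ℕ, n0 + k + q = p + M := ⟨p + M - (n0 + k), by omega⟩
    have hq1 : 1 ≤ q := by omega
    have hqp : q ≤ p - 1 := by omega
    have hqp' : (q : ℝ) ≤ (p : ℝ) - 1 := by
      have : q + 1 ≤ p := by omega
      have h5 : ((q + 1 : ℕ) : ℝ) ≤ p := by exact_mod_cast this
      push_cast at h5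
      linarith
    have hpp : (0 : ℝ) < (p : ℝ) - 1 := by
      have : (1 : ℝ) ≤ q := by exact_mod_cast hq1
      linarith
    set u : ℝ := q / ((p : ℝ) - 1) with hu
    have hu0 : 0 ≤ u := by positivity
    have hu1 : u ≤ 1 := by rw [hu, div_le_one hpp]; exact hqp'
    have hup : u * ((p : ℝ) - 1) = q := by rw [hu]; field_simp
    have h2 := hG.2 (Set.mem_univ ((p : ℝ) + m)) (Set.mem_univ ((m : ℝ) + 1))
      (sub_nonneg.2 hu1) hu0 (by ring)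
    simp only [smul_eq_mul] at h2
    have e1 : (1 - u) * ((p : ℝ) + m) + u * ((m : ℝ) + 1) = p + m - q := by
      have : (1 - u) * ((p : ℝ) + m) + u * ((m : ℝ) + 1) = p + m - u * ((p : ℝ) - 1) := by ring
      rw [this, hup]
    rw [e1] at h2
    have hcast : ((n0 + k : ℕ) : ℝ) + q = p + M := by exact_mod_cast hq
    have h3 : G ((p : ℝ) + m - q) ≤ G ((n0 + k : ℕ) : ℝ) := hmono _ _ (by linarith)
    have h4 : R - q * β ≤ (1 - u) * G ((p : ℝ) + m) + u * G ((m : ℝ) + 1) := by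
      have a1 := mul_le_mul_of_nonneg_left hR (sub_nonneg.2 hu1)
      have a2 := mul_le_mul_of_nonneg_left hR' hu0
      have e2 : (1 - u) * R + u * (R - ((p : ℝ) - 1) * β) = R - (u * ((p : ℝ) - 1)) * β := by ring
      rw [hup] at e2
      linarith
    have h5 : (q : ℝ) ≤ (M : ℝ) - k := by
      have : q + k ≤ M := by omega
      have h6 : ((q + k : ℕ) : ℝ) ≤ M := by exact_mod_cast this
      push_cast at h6
      linarith
    have h6 : q * β ≤ β * ((M : ℝ) - k) := by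
      rw [mul_comm β]
      exact mul_le_mul_of_nonneg_right h5 hβ
    linarith

lemma chord_nat {G : ℝ → ℝ} (hG : ConcaveOn ℝ Set.univ G) {M n j : ℕ} (hM : 0 < M)
    (hj : j ≤ M) : G n + (G (n + M) - G n) / M * j ≤ G ((n + j : ℕ) : ℝ) := by
  have := concave_chord hG (x := (n : ℝ)) (M := (M : ℝ)) (j := (j : ℝ)) (by exact_mod_cast hM)
    (Nat.cast_nonneg _) (by exact_mod_cast hj)
  push_cast
  exact this

lemma logterm_convex {a b l : ℝ} (ha : 0 ≤ a) (hb : 0 ≤ b) (h0 : 0 ≤ l) (h1 : l ≤ 1) :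
    ((1 - l) * a + l * b) * Real.log ((1 - l) * a + l * b) / Real.log 2 ≤
      (1 - l) * (a * Real.log a / Real.log 2) + l * (b * Real.log b / Real.log 2) := by
  have hl : 0 < Real.log 2 := Real.log_pos (by norm_num)
  have h := Real.convexOn_mul_log.2 (Set.mem_Ici.2 ha) (Set.mem_Ici.2 hb) (sub_nonneg.2 h1) h0
    (by ring)
  simp only [smul_eq_mul] at h
  rw [div_le_iff₀ hl]
  have e : ((1 - l) * (a * Real.log a / Real.log 2) + l * (b * Real.log b / Real.log 2)) *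
      Real.log 2 = (1 - l) * (a * Real.log a) + l * (b * Real.log b) := by
    field_simp
  rw [e]
  exact h

/-- the cells of the first variable -/
lemma drift_cell (hD : D.Ok) (hZ : Z.Ok D) {M : ℕ} (hM : D.m ≤ M) {a n0 n1 n2 n3 : ℕ}
    (ha : a < Z.A) (hp : Z.p a ≤ n0) (hp' : n0 < Z.p (a + 1)) (h01 : n0 ≤ n1)
    (h1 : D.g 0 ≤ n1) (h12 : n1 ≤ n2) (h23 : n2 ≤ n3) :
    Z.C ≤ Z.X a n0 + n1 * Z.t a + AD.tot D M n0 n1 n2 n3 := by
  have ht0 : 0 ≤ Z.t a := hZ.pl.s_nonneg ha.le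
  have hgi : Z.i0 a = 0 ∨ D.g (Z.i0 a) ≤ n1 := by
    rcases hZ.hgi a ha.le with h | h
    · exact Or.inl h
    · exact Or.inr (h.trans (hp.trans h01))
  have d1 := AD.tot_ge hD hM (hZ.c1 a ha) ht0 h1 (hZ.hi a ha.le) hgi h12 h23
  have d2 := AD.tot_ge hD hM (hZ.c2 a ha) ht0 h1 (hZ.hi a ha.le) hgi h12 h23
  set q : ℕ := Z.p (a + 1) - 1 with hq
  have hpq : Z.p a ≤ q := by omega
  have hnq : n0 ≤ q := by omega
  rcases eq_or_lt_of_le hpq with he | hlt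
  · have : n0 = Z.p a := by omega
    rw [this]
    exact d1
  · -- interpolation
    have hlt' : (Z.P a : ℝ) < q := by unfold P; exact_mod_cast hlt
    have hn' : Z.P a ≤ n0 := by unfold P; exact_mod_cast hp
    have hnq' : (n0 : ℝ) ≤ q := by exact_mod_cast hnq
    have hDp : 0 < (q : ℝ) - Z.P a := by linarith
    set l : ℝ := ((n0 : ℝ) - Z.P a) / ((q : ℝ) - Z.P a) with hl
    have hl0 : 0 ≤ l := div_nonneg (by linarith) hDp.le
    have hl1 : l ≤ 1 := by rw [hl, div_le_one hDp]; linarith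
    have hn : (n0 : ℝ) = (1 - l) * Z.P a + l * q := by
      have : l * ((q : ℝ) - Z.P a) = n0 - Z.P a := by rw [hl]; field_simp
      linarith
    have hPa : 0 ≤ Z.P a := by unfold P; positivity
    have e1 : AD.tot D M n0 n1 n2 n3 =
        (1 - l) * AD.tot D M (Z.P a) n1 n2 n3 + l * AD.tot D M q n1 n2 n3 := by
      unfold AD.tot
      rw [hn]
      ring
    have e2 : (1 - l) * Z.X a (Z.P a) + l * Z.X a q ≤ Z.X a n0 := by
      have hβ := hZ.hβ a ha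
      have hc := logterm_convex hPa (Nat.cast_nonneg q) hl0 hl1
      rw [← hn] at hc
      have hc' := mul_le_mul_of_nonneg_left hc hβ
      have hsq : (n0 : ℝ) * n0 ≤ (1 - l) * (Z.P a * Z.P a) + l * ((q : ℝ) * q) := by
        rw [hn]
        have : 0 ≤ l * (1 - l) * (((q : ℝ) - Z.P a) * ((q : ℝ) - Z.P a)) :=
          mul_nonneg (mul_nonneg hl0 (sub_nonneg.2 hl1)) (mul_self_nonneg _)
        nlinarith
      have hsq' := mul_le_mul_of_nonneg_left hsq ht0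
      have f1 : Z.X a n0 = n0 * (Z.S + Z.f0 0 + Z.R a - Z.f0 a + Z.t a * Z.P a - Z.t a) -
          Z.t a * (n0 * n0) - Z.β a * (n0 * Real.log n0 / Real.log 2) := by unfold X; ring
      have f2 : Z.X a (Z.P a) = Z.P a * (Z.S + Z.f0 0 + Z.R a - Z.f0 a + Z.t a * Z.P a - Z.t a) -
          Z.t a * (Z.P a * Z.P a) - Z.β a * (Z.P a * Real.log (Z.P a) / Real.log 2) := by
        unfold X; ring
      have f3 : Z.X a q = q * (Z.S + Z.f0 0 + Z.R a - Z.f0 a + Z.t a * Z.P a - Z.t a) -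
          Z.t a * (q * q) - Z.β a * (q * Real.log q / Real.log 2) := by unfold X; ring
      set K : ℝ := Z.S + Z.f0 0 + Z.R a - Z.f0 a + Z.t a * Z.P a - Z.t a with hK
      have f4 : n0 * K = (1 - l) * (Z.P a * K) + l * (q * K) := by rw [hn]; ring
      rw [f1, f2, f3, f4]
      have f5 : Z.β a * ((1 - l) * (Z.P a * Real.log (Z.P a) / Real.log 2) +
          l * (q * Real.log q / Real.log 2)) =
          (1 - l) * (Z.β a * (Z.P a * Real.log (Z.P a) / Real.log 2)) +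
            l * (Z.β a * (q * Real.log q / Real.log 2)) := by ring
      have f6 : Z.t a * ((1 - l) * (Z.P a * Z.P a) + l * ((q : ℝ) * q)) =
          (1 - l) * (Z.t a * (Z.P a * Z.P a)) + l * (Z.t a * (q * q)) := by ring
      rw [f5] at hc'
      rw [f6] at hsq'
      linarith
    have g1 := mul_le_mul_of_nonneg_left d1 (sub_nonneg.2 hl1)
    have g2 := mul_le_mul_of_nonneg_left d2 hl0
    rw [e1]
    nlinarith

/-- the drift inequality at every state -/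
theorem stateOk (hD : D.Ok) (hZ : Z.Ok D) {M : ℕ} (hM : D.m ≤ M) {n0 n1 n2 n3 : ℕ}
    (h0 : 1 ≤ n0) (h01 : n0 ≤ n1) (h12 : n1 ≤ n2) (h23 : n2 ≤ n3) (hadm : M + 1 ≤ n1) :
    StateOk M (OL M D.gc) (fun _ n => OL M D.gc n) (Z.phi D) (Z.C / Z.S) n0 n1 n2 n3 := by
  have hm1 := hD.hm
  have hM0 : 0 < M := by omega
  have hMr : (0 : ℝ) < M := by exact_mod_cast hM0
  have hS := hZ.hS
  have h1 : D.g 0 ≤ n1 := by rw [hD.g0]; omega
  have con1 : ConcaveOn ℝ Set.univ D.F1 := plE_concave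
  have con2 : ConcaveOn ℝ Set.univ D.F2 := plE_concave
  have con3 : ConcaveOn ℝ Set.univ D.F3 := plE_concave
  have mon1 : ∀ x y, x ≤ y → D.F1 x ≤ D.F1 y := fun x y h => plE_mono hD.p1 h
  have mon2 : ∀ x y, x ≤ y → D.F2 x ≤ D.F2 y := fun x y h => plE_mono hD.p2 h
  have mon3 : ∀ x y, x ≤ y → D.F3 x ≤ D.F3 y := fun x y h => plE_mono hD.p3 h
  have h01' : (n0 : ℝ) ≤ n1 := by exact_mod_cast h01
  -- the value at one
  have hF01 : Z.F0 1 = Z.f0 0 := by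
    have := plE_node hZ.pl (Nat.zero_le Z.A)
    have hP0 : Z.P 0 = 1 := by unfold P; rw [hZ.p0]; simp
    rw [hP0] at this
    exact this
  set K1 : ℝ := (D.F1 (n1 + M) - D.F1 n1) / M with hK1
  set K2 : ℝ := (D.F2 (n2 + M) - D.F2 n2) / M with hK2
  set K3 : ℝ := (D.F3 (n3 + M) - D.F3 n3) / M with hK3
  have pK1 : 0 ≤ K1 := div_nonneg (sub_nonneg.2 (mon1 _ _ (by linarith))) hMr.le
  have pK2 : 0 ≤ K2 := div_nonneg (sub_nonneg.2 (mon2 _ _ (by linarith))) hMr.le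
  have pK3 : 0 ≤ K3 := div_nonneg (sub_nonneg.2 (mon3 _ _ (by linarith))) hMr.le
  have q1 : ∀ j1 ≤ M, ∀ j2 ≤ j1, ∀ j3 ≤ j2, n1 + j1 ≤ n2 + j2 → n2 + j2 ≤ n3 + j3 →
      Z.phi D (n0 + 1) n1 n2 n3 + K1 / Z.S * j1 + K2 / Z.S * j2 + K3 / Z.S * j3 ≤
        Z.phi D (n0 + 1) (n1 + j1) (n2 + j2) (n3 + j3) := by
    intro j1 hj1 j2 hj2 j3 hj3 _ _
    have a1 := chord_nat con1 (n := n1) hM0 hj1
    have a2 := chord_nat con2 (n := n2) hM0 (hj2.trans hj1)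
    have a3 := chord_nat con3 (n := n3) hM0 (hj3.trans (hj2.trans hj1))
    unfold phi
    have e : (Z.F0 ((n0 + 1 : ℕ) : ℝ) + D.F1 n1 + D.F2 n2 + D.F3 n3) / Z.S + K1 / Z.S * j1 +
        K2 / Z.S * j2 + K3 / Z.S * j3 =
        (Z.F0 ((n0 + 1 : ℕ) : ℝ) + (D.F1 n1 + K1 * j1) + (D.F2 n2 + K2 * j2) +
          (D.F3 n3 + K3 * j3)) / Z.S := by ring
    rw [e]
    refine div_le_div_of_nonneg_right ?_ hS.le
    linarith
  have q2 : ∀ j2 ≤ M, ∀ j3 ≤ j2, n2 + j2 ≤ n3 + j3 →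
      Z.phi D n0 (n1 + 1) n2 n3 + K2 / Z.S * j2 + K3 / Z.S * j3 ≤
        Z.phi D n0 (n1 + 1) (n2 + j2) (n3 + j3) := by
    intro j2 hj2 j3 hj3 _
    have a2 := chord_nat con2 (n := n2) hM0 hj2
    have a3 := chord_nat con3 (n := n3) hM0 (hj3.trans hj2)
    unfold phi
    have e : (Z.F0 n0 + D.F1 ((n1 + 1 : ℕ) : ℝ) + D.F2 n2 + D.F3 n3) / Z.S +
        K2 / Z.S * j2 + K3 / Z.S * j3 =
        (Z.F0 n0 + D.F1 ((n1 + 1 : ℕ) : ℝ) + (D.F2 n2 + K2 * j2) +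
          (D.F3 n3 + K3 * j3)) / Z.S := by ring
    rw [e]
    refine div_le_div_of_nonneg_right ?_ hS.le
    linarith
  have q3 : ∀ j3 ≤ M, Z.phi D n0 n1 (n2 + 1) n3 + K3 / Z.S * j3 ≤
        Z.phi D n0 n1 (n2 + 1) (n3 + j3) := by
    intro j3 hj3
    have a3 := chord_nat con3 (n := n3) hM0 hj3
    unfold phi
    have e : (Z.F0 n0 + D.F1 n1 + D.F2 ((n2 + 1 : ℕ) : ℝ) + D.F3 n3) / Z.S + K3 / Z.S * j3 =
        (Z.F0 n0 + D.F1 n1 + D.F2 ((n2 + 1 : ℕ) : ℝ) + (D.F3 n3 + K3 * j3)) / Z.S := by ring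
    rw [e]
    refine div_le_div_of_nonneg_right ?_ hS.le
    linarith
  rcases lt_or_ge n0 (Z.p Z.A) with hlt | hge
  · -- a cell
    obtain ⟨a, ha, hpa, hpa'⟩ : ∃ a < Z.A, Z.p a ≤ n0 ∧ n0 < Z.p (a + 1) := by
      have hex : ∃ a, n0 < Z.p (a + 1) ∧ a < Z.A ∧ Z.p a ≤ n0 := by
        have hA : 0 < Z.A := by
          by_contra hc
          have : Z.A = 0 := by omega
          rw [this, hZ.p0] at hlt
          omega
        have hP : ∃ k, k ≤ Z.A ∧ n0 < Z.p k := ⟨Z.A, le_rfl, hlt⟩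
        classical
        have hs := Nat.find_spec hP
        have hne : Nat.find hP ≠ 0 := by
          intro h
          rw [h, hZ.p0] at hs
          omega
        obtain ⟨b, hb⟩ := Nat.exists_eq_succ_of_ne_zero hne
        rw [hb] at hs
        refine ⟨b, hs.2, hs.1, ?_⟩
        by_contra hc
        push Not at hc
        have : Nat.find hP ≤ b := Nat.find_min' hP ⟨by have := hs.1; omega, hc⟩
        omega
      obtain ⟨a, h1, h2, h3⟩ := hex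
      exact ⟨a, h2, h3, h1⟩
    have hcell := drift_cell hD hZ hM ha hpa hpa' h01 h1 h12 h23
    have hF0n : Z.F0 n0 = Z.f0 a + Z.t a * (n0 - Z.P a) :=
      plE_eq hZ.pl ha.le (by unfold P; exact_mod_cast hpa)
        (fun _ => by unfold P; exact_mod_cast hpa'.le)
    have hF0n' : Z.F0 ((n0 + 1 : ℕ) : ℝ) = Z.F0 n0 + Z.t a := by
      rw [hF0n]
      have : Z.F0 ((n0 + 1 : ℕ) : ℝ) = Z.f0 a + Z.t a * (((n0 + 1 : ℕ) : ℝ) - Z.P a) :=
        plE_eq hZ.pl ha.le (by unfold P; exact_mod_cast hpa.trans (Nat.le_succ _))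
          (fun _ => by unfold P; exact_mod_cast hpa')
      rw [this]
      push_cast
      ring
    have hp1 : 1 ≤ Z.p a := by
      have := hZ.pl.g_mono (Nat.zero_le a) ha.le
      unfold P at this
      rw [hZ.p0] at this
      exact_mod_cast this
    have hOL : OL M D.gc n0 = n0 * M - n0 * Real.log n0 / Real.log 2 := by
      unfold OL
      have : min n0 D.gc = n0 := min_eq_left (hlt.le.trans hZ.hgc)
      rw [this]
      ring
    refine ⟨1, 1 + (Z.f0 0 + Z.R a + D.F2 n1 + D.F3 n2) / Z.S - Z.β a / Z.S * M,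
      Z.phi D (n0 + 1) n1 n2 n3, Z.phi D n0 (n1 + 1) n2 n3, Z.phi D n0 n1 (n2 + 1) n3,
      Z.β a / Z.S, K1 / Z.S, K2 / Z.S, K3 / Z.S, zero_le_one, le_rfl,
      div_nonneg (hZ.hβ a ha) hS.le, div_nonneg pK1 hS.le, div_nonneg pK2 hS.le,
      div_nonneg pK3 hS.le, ?_, q1, q2, q3, ?_⟩
    · intro k hk hk'
      have hR := R_le con1 mon1 (p := Z.p a) hM (hZ.hβ a ha) (hZ.hR a ha) (hZ.hR' a ha) hp1 hpa
        hk hk'
      unfold phi
      rw [show ((1 : ℕ) : ℝ) = 1 by norm_num, hF01]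
      have e : 1 + (Z.f0 0 + Z.R a + D.F2 n1 + D.F3 n2) / Z.S - Z.β a / Z.S * M +
          Z.β a / Z.S * k = 1 + (Z.f0 0 + (Z.R a - Z.β a * (M - k)) + D.F2 n1 + D.F3 n2) / Z.S := by
        ring
      rw [e]
      have : (Z.f0 0 + (Z.R a - Z.β a * (M - k)) + D.F2 n1 + D.F3 n2) / Z.S ≤
          (Z.f0 0 + D.F1 ((n0 + k : ℕ) : ℝ) + D.F2 n1 + D.F3 n2) / Z.S :=
        div_le_div_of_nonneg_right (by linarith) hS.le
      linarith
    · rw [div_le_iff₀ hS]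
      refine hcell.trans (le_of_eq ?_)
      unfold phi X AD.tot
      rw [hF0n', hOL]
      simp only [hF0n]
      rw [hK1, hK2, hK3]
      push_cast
      field_simp
      ring
  · -- the last cell
    have hFA : ∀ n : ℕ, Z.p Z.A ≤ n → Z.F0 n = Z.f0 Z.A := fun n hn =>
      plE_const hZ.pl (by unfold P; exact_mod_cast hn)
    have hgi : Z.i0 Z.A = 0 ∨ D.g (Z.i0 Z.A) ≤ n1 := by
      rcases hZ.hgi Z.A le_rfl with h | h
      · exact Or.inl h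
      · exact Or.inr (h.trans (hge.trans h01))
    have d3 := AD.tot_ge hD hM hZ.c3 le_rfl h1 (hZ.hi Z.A le_rfl) hgi h12 h23
    have hn0 : (0 : ℝ) < n0 := by exact_mod_cast h0
    have hpn : Z.P Z.A ≤ n0 := by unfold P; exact_mod_cast hge
    have hP0 : 0 ≤ Z.P Z.A := by unfold P; positivity
    refine ⟨Z.P Z.A / n0, 1 + (Z.f0 0 + Z.R Z.A + D.F2 n1 + D.F3 n2) / Z.S,
      Z.phi D (n0 + 1) n1 n2 n3, Z.phi D n0 (n1 + 1) n2 n3, Z.phi D n0 n1 (n2 + 1) n3,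
      0, K1 / Z.S, K2 / Z.S, K3 / Z.S, div_nonneg hP0 hn0.le, (div_le_one hn0).2 hpn,
      le_rfl, div_nonneg pK1 hS.le, div_nonneg pK2 hS.le,
      div_nonneg pK3 hS.le, ?_, q1, q2, q3, ?_⟩
    · intro k hk hk'
      unfold phi
      rw [show ((1 : ℕ) : ℝ) = 1 by norm_num, hF01]
      have h2 : D.F1 ((max (Z.p Z.A) (D.m + 1) : ℕ) : ℝ) ≤ D.F1 ((n0 + k : ℕ) : ℝ) :=
        mon1 _ _ (by exact_mod_cast (by omega : max (Z.p Z.A) (D.m + 1) ≤ n0 + k))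
      have h3 := hZ.hRA
      have : (Z.f0 0 + Z.R Z.A + D.F2 n1 + D.F3 n2) / Z.S ≤
          (Z.f0 0 + D.F1 ((n0 + k : ℕ) : ℝ) + D.F2 n1 + D.F3 n2) / Z.S :=
        div_le_div_of_nonneg_right (by linarith) hS.le
      linarith
    · rw [div_le_iff₀ hS]
      refine d3.trans (le_of_eq ?_)
      unfold phi AD.tot
      rw [hFA n0 hge, hFA (n0 + 1) (hge.trans (Nat.le_succ _))]
      rw [hK1, hK2, hK3]
      push_cast
      field_simp
      ring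

/-- THE LOWER BOUND FROM ADDITIVE POTENTIALS -/
theorem hasLB (hD : D.Ok) (hZ : Z.Ok D) {d : ℕ} (hM : D.m ≤ 2 * d) : HasLB d (Z.C / Z.S) :=
  hasLB_of_states (phiFree hD hZ) (isO0_OL D.gc) (isO0_OL D.gc).toO1 isAdm_succ
    fun _ _ _ _ h0 h01 h12 h23 ha _ _ => stateOk hD hZ hM h0 h01 h12 h23 ha

end AZ

end Pool.Agent.Lib.MP_67d80e_pr_all
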