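import Pool.Agent.Lib.MP_67d80e_pr_all.Free

/-!
The lower bound from potentials of chains of finite sets, in a general form: the potential of a
droplet `a` is the supremum over the reference levels `v` and over all chains `E 0 ⊆ E 1 ⊆ ...` of
finite sets with `E k ⊆ {a ≥ v - k}`, `E 0` nonempty and the neighbours of `E 0` in `E 1`, of
`v + phi E`, for ANY bounded function `phi` of the chain. Nothing is required of `phi` except the
drift inequality.
-/

set_option autoImplicit false

open scoped BigOperators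
open Filter MeasureTheory
open Pool.Agent.Lib.MP_67d80e_pr

namespace Pool.Agent.Lib.MP_67d80e_pr_all

variable {d : ℕ}

/-- chains of finite sets -/
structure IsChn (E : ℕ → Finset (Site d)) : Prop where
  ne : (E 0).Nonempty
  nb : ∀ x ∈ E 0, nbrs x ⊆ E 1
  mono : ∀ k, E k ⊆ E (k + 1)

lemma IsChn.le {E : ℕ → Finset (Site d)} (h : IsChn E) {j k : ℕ} (hjk : j ≤ k) : E j ⊆ E k := by
  induction k, hjk using Nat.le_induction with
  | base => exact subset_rfl
  | succ k _ ih => exact ih.trans (h.mono k)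

open Classical in
/-- the sets after a ring at `x`, with the same reference level -/
noncomputable def Up (E : ℕ → Finset (Site d)) (x : Site d) (k : ℕ) : Finset (Site d) :=
  E k ∪ ((if x ∈ E (k + 1) then {x} else ∅) ∪ (if x ∈ E k then nbrs x else ∅))

lemma mem_Up {E : ℕ → Finset (Site d)} {x z : Site d} {k : ℕ} :
    z ∈ Up E x k ↔ z ∈ E k ∨ (x ∈ E (k + 1) ∧ z = x) ∨ (x ∈ E k ∧ z ∈ nbrs x) := by
  classical
  unfold Up
  rw [Finset.mem_union, Finset.mem_union]
  by_cases h1 : x ∈ E (k + 1) <;> by_cases h2 : x ∈ E k <;> simp [h1, h2]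

/-- a class of chains which contains a chain at the top of every good droplet -/
structure IsCls (C : (ℕ → Finset (Site d)) → Prop) : Prop where
  chn : ∀ E, C E → IsChn E
  top : ∀ (a : Dr d) (m : ℤ), Good a → IsTop a m → ∃ E, C E ∧ ∀ k : ℕ, E k ⊆ lv a (m - k)

/-- `r` is a lower bound of the gain of the ring at `x` -/
def Gain (C : (ℕ → Finset (Site d)) → Prop) (phi : (ℕ → Finset (Site d)) → ℝ)
    (E : ℕ → Finset (Site d)) (x : Site d) (r : ℝ) : Prop :=
  r ≤ 0 ∨ (∃ F : ℕ → Finset (Site d), C F ∧ (∀ k, F k ⊆ Up E x k) ∧ r ≤ phi F - phi E) ∨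
    (∃ F : ℕ → Finset (Site d), C F ∧ x ∈ E 0 ∧ F 0 ⊆ {x} ∧ (∀ k, F (k + 1) ⊆ Up E x k) ∧
      r ≤ 1 + phi F - phi E)

/-- the drift inequality for chains -/
def ChnDrift (C : (ℕ → Finset (Site d)) → Prop) (phi : (ℕ → Finset (Site d)) → ℝ) (c : ℝ)
    (J : ℕ) : Prop :=
  ∀ E : ℕ → Finset (Site d), C E → ∃ g : Site d → ℝ, c ≤ ∑ x ∈ E J, g x ∧
    ∀ x ∈ E J, Gain C phi E x (g x)

section
variable (C : (ℕ → Finset (Site d)) → Prop) (phi : (ℕ → Finset (Site d)) → ℝ)

/-- the values -/
def valC (a : Dr d) : Set ℝ :=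
  {r | ∃ (v : ℤ) (E : ℕ → Finset (Site d)), C E ∧ (∀ k : ℕ, E k ⊆ lv a (v - k)) ∧
    r = v + phi E}

/-- the potential -/
noncomputable def potC (a : Dr d) : ℝ := sSup (valC C phi a)

end

section
variable {C : (ℕ → Finset (Site d)) → Prop} {phi : (ℕ → Finset (Site d)) → ℝ} {B : ℝ}

lemma chn_top {a : Dr d} (ha : Good a) {m : ℤ} (hm : IsTop a m) :
    IsChn (fun k : ℕ => lv a (m - k)) where
  ne := by
    obtain ⟨z, hz⟩ := hm.2
    refine ⟨z, ?_⟩
    rw [mem_lv ha.fin, hz]
    simp
  nb := by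
    intro x hx y hy
    have hx' : a x = ((m : ℤ) : WithBot ℤ) := by
      refine le_antisymm (hm.1 x) ?_
      have := (mem_lv ha.fin).1 hx
      simpa using this
    rw [mem_lv ha.fin]
    have := ha.top m hm x hx' y hy
    simpa using this
  mono := fun k => lv_anti ha.fin (by push_cast; omega)

/-- the class of all chains -/
lemma isCls_isChn : IsCls (d := d) IsChn where
  chn := fun _ h => h
  top := fun _ _ ha hm => ⟨_, chn_top ha hm, fun _ => subset_rfl⟩

lemma valC_nonempty (hC : IsCls C) {a : Dr d} (ha : Good a) : (valC C phi a).Nonempty := by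
  obtain ⟨m, hm⟩ := ha.exists_top
  obtain ⟨E, hE, hsub⟩ := hC.top a m ha hm
  exact ⟨_, m, E, hE, hsub, rfl⟩

lemma valC_le (hC : IsCls C) (hB : ∀ E, C E → |phi E| ≤ B) {a : Dr d} (ha : Good a) {m : ℤ}
    (hm : IsTop a m) {r : ℝ} (hr : r ∈ valC C phi a) : r ≤ m + B := by
  obtain ⟨v, E, hE, hsub, rfl⟩ := hr
  have h1 : v ≤ m := by
    obtain ⟨z, hz⟩ := (hC.chn E hE).ne
    have h2 := hsub 0 hz
    rw [mem_lv ha.fin] at h2
    have h3 := h2.trans (hm.1 z)
    have h4 : v - ((0 : ℕ) : ℤ) ≤ m := by exact_mod_cast h3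
    simpa using h4
  have h2 := (abs_le.1 (hB E hE)).2
  have h3 : (v : ℝ) ≤ m := by exact_mod_cast h1
  linarith

lemma le_potC (hC : IsCls C) (hB : ∀ E, C E → |phi E| ≤ B) {a : Dr d} (ha : Good a) {v : ℤ}
    {E : ℕ → Finset (Site d)} (hE : C E) (hsub : ∀ k : ℕ, E k ⊆ lv a (v - k)) :
    v + phi E ≤ potC C phi a := by
  obtain ⟨m, hm⟩ := ha.exists_top
  exact le_csSup ⟨m + B, fun r hr => valC_le hC hB ha hm hr⟩ ⟨v, E, hE, hsub, rfl⟩

lemma potC_mono (hC : IsCls C) (hB : ∀ E, C E → |phi E| ≤ B) {a b : Dr d} (ha : Good a)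
    (hb : Good b) (h : ∀ z, a z ≤ b z) : potC C phi a ≤ potC C phi b := by
  refine csSup_le (valC_nonempty hC ha) ?_
  rintro r ⟨v, E, hE, hsub, rfl⟩
  exact le_potC hC hB hb hE fun k => (hsub k).trans (lv_mono ha.fin hb.fin h _)

/-- the lower bound from the drift inequality for chains -/
theorem hasLB_of_chn {c : ℝ} {J : ℕ} (hC : IsCls C) (hB : ∀ E, C E → |phi E| ≤ B)
    (hdr : ChnDrift C phi c J) : HasLB d c := by
  classical
  refine ⟨potC C phi, B, fun a m ha hm => ?_, fun a b ha hb h => potC_mono hC hB ha hb h, ?_⟩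
  · rw [abs_le]
    constructor
    · obtain ⟨E, hE, hsub⟩ := hC.top a m ha hm
      have h1 := le_potC hC hB ha hE hsub
      have h2 := (abs_le.1 (hB _ hE)).1
      linarith
    · have : potC C phi a ≤ m + B :=
        csSup_le (valC_nonempty hC ha) fun r hr => valC_le hC hB ha hm hr
      linarith
  · intro a ha s hs
    have hfin := ha.fin
    refine le_of_forall_pos_le_add fun ε hε => ?_
    set ε' : ℝ := ε / (s.card + 1) with hε'
    have hε0 : 0 < ε' := by positivity
    obtain ⟨r, ⟨v, E, hE, hsub, rfl⟩, hr⟩ := exists_lt_of_lt_csSup (valC_nonempty (phi := phi) hC ha)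
      (show potC C phi a - ε' < sSup (valC C phi a) by unfold potC; linarith)
    obtain ⟨g, hc, hg⟩ := hdr E hE
    have hgood : ∀ x, Good (upd {x} a) := fun x => ha.upd x
    have hnn : ∀ x, 0 ≤ potC C phi (upd {x} a) - potC C phi a := fun x =>
      sub_nonneg.2 (potC_mono hC hB ha (hgood x) (le_upd _ _))
    have hDs : E J ⊆ s := by
      intro z hz
      have h1 := hsub J hz
      rw [hs]
      intro h
      rw [mem_lv hfin, h] at h1
      exact absurd h1 (by simp)
    -- the updated sets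
    have hup : ∀ x k, Up E x k ⊆ lv (upd {x} a) (v - k) := by
      intro x k z hz
      rw [mem_Up] at hz
      rw [mem_lv (hgood x).fin]
      rcases hz with hz | ⟨hx, rfl⟩ | ⟨hx, hz⟩
      · exact ((mem_lv hfin).1 (hsub k hz)).trans (le_upd _ _ _)
      · have h1 := (mem_lv hfin).1 (hsub (k + 1) hx)
        rw [upd_single, if_pos rfl]
        have h2 : ((v - (k : ℤ) : ℤ) : WithBot ℤ) = ((v - ((k + 1 : ℕ) : ℤ) : ℤ) : WithBot ℤ) + 1 := by
          have : v - (k : ℤ) = (v - ((k + 1 : ℕ) : ℤ)) + 1 := by push_cast; ring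
          rw [this]; rfl
        rw [h2]
        gcongr
      · have h1 := (mem_lv hfin).1 (hsub k hx)
        exact h1.trans (upd_nbr (nbrs_symm.1 hz) (Set.mem_singleton x) a)
    have hkey : ∀ x ∈ E J, g x - ε' ≤ potC C phi (upd {x} a) - potC C phi a := by
      intro x hx
      rcases hg x hx with h | ⟨F, hF, hFs, h⟩ | ⟨F, hF, hx0, hF0, hFs, h⟩
      · have := hnn x
        linarith
      · have h1 := le_potC hC hB (hgood x) (v := v) hF fun k => (hFs k).trans (hup x k)
        linarith
      · have h1 : ∀ k : ℕ, F k ⊆ lv (upd {x} a) (v + 1 - k) := by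
          intro k
          rcases k with _ | k
          · intro z hz
            have hz' : z = x := by simpa using hF0 hz
            subst hz'
            rw [mem_lv (hgood z).fin, upd_single, if_pos rfl]
            have h1 := (mem_lv hfin).1 (hsub 0 hx0)
            have h2 : ((v + 1 - ((0 : ℕ) : ℤ) : ℤ) : WithBot ℤ) =
                ((v - ((0 : ℕ) : ℤ) : ℤ) : WithBot ℤ) + 1 := by
              have : v + 1 - ((0 : ℕ) : ℤ) = (v - ((0 : ℕ) : ℤ)) + 1 := by push_cast; ring
              rw [this]; rfl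
            rw [h2]
            gcongr
          · have h2 : v + 1 - ((k + 1 : ℕ) : ℤ) = v - k := by push_cast; ring
            rw [h2]
            exact (hFs k).trans (hup x k)
        have h2 := le_potC hC hB (hgood x) (v := v + 1) hF h1
        push_cast at h2
        linarith
    have hsum : ∑ x ∈ E J, (potC C phi (upd {x} a) - potC C phi a) ≤
        ∑ x ∈ s, (potC C phi (upd {x} a) - potC C phi a) :=
      Finset.sum_le_sum_of_subset_of_nonneg hDs fun x _ _ => hnn x
    have hsum2 : ∑ x ∈ E J, (g x - ε') ≤ ∑ x ∈ E J, (potC C phi (upd {x} a) - potC C phi a) :=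
      Finset.sum_le_sum hkey
    rw [Finset.sum_sub_distrib, Finset.sum_const, nsmul_eq_mul] at hsum2
    have hcount : ((E J).card : ℝ) * ε' ≤ ε := by
      have h1 : ((E J).card : ℝ) ≤ s.card + 1 := by
        have : (E J).card ≤ s.card + 1 := (Finset.card_le_card hDs).trans (Nat.le_succ _)
        exact_mod_cast this
      calc ((E J).card : ℝ) * ε' ≤ (s.card + 1) * ε' := mul_le_mul_of_nonneg_right h1 hε0.le
        _ = ε := by rw [hε']; field_simp
    linarith

end

end Pool.Agent.Lib.MP_67d80e_pr_all
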