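import Pool.Agent.Lib.MP_67d80e_pr_all.Drp

set_option autoImplicit false

open scoped BigOperators
open Pool.Agent.Lib.MP_67d80e_pr

namespace Pool.Agent.Lib.MP_67d80e_pr_all

variable {d : ℕ}

/-- the number of edges which leave a finite set -/
def outE (D : Finset (Site d)) : ℕ := ∑ x ∈ D, (nbrs x \ D).card

/-- twice the number of edges inside a finite set -/
def inE (D : Finset (Site d)) : ℕ := ∑ x ∈ D, (nbrs x ∩ D).card

/-- the number of edges between two sets -/
def crE (A B : Finset (Site d)) : ℕ := ∑ x ∈ A, (nbrs x ∩ B).card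

lemma card_nbrs (x : Site d) : (nbrs x).card = 2 * d := by
  classical
  have h1 : Function.Injective (fun i : Fin d => x + e i) := fun i j h =>
    e_injective (add_left_cancel h)
  have h2 : Function.Injective (fun i : Fin d => x - e i) := fun i j h =>
    e_injective (sub_right_injective h)
  unfold nbrs
  rw [Finset.card_union_of_disjoint, Finset.card_image_of_injective _ h1,
    Finset.card_image_of_injective _ h2, Finset.card_univ, Fintype.card_fin]
  · ring
  · rw [Finset.disjoint_left]
    intro y hy hy'
    simp only [Finset.mem_image, Finset.mem_univ, true_and] at hy hy'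
    obtain ⟨i, rfl⟩ := hy
    obtain ⟨j, hj⟩ := hy'
    have h3 : (e i : Site d) + e j = 0 := by
      have : x - e j - (x + e i) = 0 := by rw [hj, sub_self]
      have h4 : x - e j - (x + e i) = -(e i + e j) := by abel
      rw [h4, neg_eq_zero] at this
      exact this
    have h5 := congrFun h3 i
    rw [Pi.add_apply, e_apply_self, Pi.zero_apply] at h5
    by_cases hij : i = j
    · rw [← hij, e_apply_self] at h5; omega
    · rw [e_apply_ne hij] at h5; omega

lemma inE_add_outE (D : Finset (Site d)) : inE D + outE D = 2 * d * D.card := by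
  unfold inE outE
  rw [← Finset.sum_add_distrib]
  have h : ∀ x ∈ D, (nbrs x ∩ D).card + (nbrs x \ D).card = 2 * d := fun x _ => by
    rw [Finset.card_inter_add_card_sdiff, card_nbrs]
  rw [Finset.sum_congr rfl h, Finset.sum_const, smul_eq_mul, mul_comm]

lemma crE_comm (A B : Finset (Site d)) : crE A B = crE B A := by
  unfold crE
  have h1 : ∀ (X Y : Finset (Site d)), ∑ x ∈ X, (nbrs x ∩ Y).card =
      ∑ x ∈ X, ∑ y ∈ Y, if y ∈ nbrs x then 1 else 0 := by
    intro X Y
    refine Finset.sum_congr rfl fun x _ => ?_
    rw [Finset.card_eq_sum_ones, Finset.sum_ite, Finset.sum_const_zero, add_zero]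
    refine Finset.sum_congr ?_ fun _ _ => rfl
    ext y
    simp [and_comm]
  rw [h1, h1, Finset.sum_comm]
  refine Finset.sum_congr rfl fun y _ => Finset.sum_congr rfl fun x _ => ?_
  simp only [nbrs_symm (x := x) (y := y)]

lemma inE_union {A B : Finset (Site d)} (h : Disjoint A B) :
    inE (A ∪ B) = inE A + inE B + 2 * crE A B := by
  have h1 : ∀ x, (nbrs x ∩ (A ∪ B)).card = (nbrs x ∩ A).card + (nbrs x ∩ B).card := fun x => by
    rw [Finset.inter_union_distrib_left, Finset.card_union_of_disjoint]
    exact Finset.disjoint_of_subset_left Finset.inter_subset_right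
      (Finset.disjoint_of_subset_right Finset.inter_subset_right h)
  have h2 : crE B A = crE A B := crE_comm B A
  unfold inE crE at *
  rw [Finset.sum_union h, Finset.sum_congr rfl fun x _ => h1 x, Finset.sum_add_distrib,
    Finset.sum_congr (s₁ := B) rfl fun x _ => h1 x, Finset.sum_add_distrib, h2]
  ring

/-- a site below a hyperplane has at most one neighbour above it -/
lemma card_nbrs_above_le {i : Fin d} {c : ℤ} {x : Site d} (hx : x i ≤ c) {B : Finset (Site d)}
    (hB : ∀ y ∈ B, c < y i) : (nbrs x ∩ B).card ≤ 1 := by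
  have h1 : nbrs x ∩ B ⊆ {x + e i} := by
    intro y hy
    rw [Finset.mem_inter] at hy
    rw [Finset.mem_singleton]
    have h2 := hB y hy.2
    obtain ⟨j, h | h⟩ := mem_nbrs.1 hy.1
    · by_cases hji : j = i
      · rw [h, hji]
      · rw [h, Pi.add_apply, e_apply_ne (fun h' => hji h'.symm)] at h2
        omega
    · by_cases hji : j = i
      · rw [h, Pi.sub_apply, hji, e_apply_self] at h2
        omega
      · rw [h, Pi.sub_apply, e_apply_ne (fun h' => hji h'.symm)] at h2
        omega
  exact (Finset.card_le_card h1).trans (by simp)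

/-- a site above a hyperplane has at most one neighbour below it -/
lemma card_nbrs_below_le {i : Fin d} {c : ℤ} {x : Site d} (hx : c < x i) {B : Finset (Site d)}
    (hB : ∀ y ∈ B, y i ≤ c) : (nbrs x ∩ B).card ≤ 1 := by
  have h1 : nbrs x ∩ B ⊆ {x - e i} := by
    intro y hy
    rw [Finset.mem_inter] at hy
    rw [Finset.mem_singleton]
    have h2 := hB y hy.2
    obtain ⟨j, h | h⟩ := mem_nbrs.1 hy.1
    · by_cases hji : j = i
      · rw [h, Pi.add_apply, hji, e_apply_self] at h2
        omega
      · rw [h, Pi.add_apply, e_apply_ne (fun h' => hji h'.symm)] at h2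
        omega
    · by_cases hji : j = i
      · rw [h, hji]
      · rw [h, Pi.sub_apply, e_apply_ne (fun h' => hji h'.symm)] at h2
        omega
  exact (Finset.card_le_card h1).trans (by simp)

lemma crE_le {i : Fin d} {c : ℤ} {A B : Finset (Site d)} (hA : ∀ y ∈ A, y i ≤ c)
    (hB : ∀ y ∈ B, c < y i) : crE A B ≤ min A.card B.card := by
  refine le_min ?_ ?_
  · unfold crE
    refine (Finset.sum_le_card_nsmul _ _ 1 fun x hx => ?_).trans (by simp)
    exact card_nbrs_above_le (hA x hx) hB
  · rw [crE_comm]
    unfold crE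
    refine (Finset.sum_le_card_nsmul _ _ 1 fun x hx => ?_).trans (by simp)
    exact card_nbrs_below_le (hB x hx) hA

/-- EDGE ISOPERIMETRY (hypercube bound), by cutting along hyperplanes -/
theorem inE_le {N : ℕ} {g : ℕ → ℕ}
    (hg : ∀ a b, 1 ≤ a → 1 ≤ b → a + b ≤ N → g a + g b + min a b ≤ g (a + b))
    (D : Finset (Site d)) (hD : D.card ≤ N) : inE D ≤ 2 * g D.card := by
  classical
  induction' hn : D.card using Nat.strong_induction_on with n ih generalizing D
  rcases Nat.lt_or_ge 1 D.card with h1 | h1
  · obtain ⟨x, hx, y, hy, hxy⟩ := Finset.one_lt_card.1 h1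
    obtain ⟨i, hi⟩ := Function.ne_iff.1 hxy
    wlog hlt : x i < y i generalizing x y
    · exact this y hy x hx (Ne.symm hxy) (Ne.symm hi) (by omega)
    set A := D.filter fun z => z i ≤ x i with hA
    set B := D.filter fun z => ¬ z i ≤ x i with hB
    have hAB : A ∪ B = D := Finset.filter_union_filter_not_eq _ _
    have hdis : Disjoint A B := Finset.disjoint_filter_filter_not _ _ _
    have hcard : A.card + B.card = D.card := by
      rw [← Finset.card_union_of_disjoint hdis, hAB]
    have hA1 : 1 ≤ A.card := Finset.card_pos.2 ⟨x, by simp [hA, hx]⟩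
    have hB1 : 1 ≤ B.card := Finset.card_pos.2 ⟨y, by simp [hB, hy, hlt]⟩
    have h2 := ih A.card (by omega) A (by omega) rfl
    have h3 := ih B.card (by omega) B (by omega) rfl
    have h4 := crE_le (i := i) (c := x i) (A := A) (B := B)
      (fun z hz => (Finset.mem_filter.1 hz).2) (fun z hz => by
        have := (Finset.mem_filter.1 hz).2
        omega)
    have h5 := hg A.card B.card hA1 hB1 (by omega)
    have h6 := inE_union hdis
    rw [hAB] at h6
    rw [hcard, hn] at h5
    omega
  · have h2 : inE D = 0 := by
      unfold inE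
      refine Finset.sum_eq_zero fun x hx => ?_
      rw [Finset.card_eq_zero, Finset.eq_empty_iff_forall_notMem]
      intro y hy
      rw [Finset.mem_inter] at hy
      exact ne_of_mem_nbrs hy.1 (Finset.card_le_one.1 h1 y hy.2 x hx)
    omega

/-- the bound for the number of edges which leave the set -/
theorem outE_ge {N : ℕ} {g : ℕ → ℕ}
    (hg : ∀ a b, 1 ≤ a → 1 ≤ b → a + b ≤ N → g a + g b + min a b ≤ g (a + b))
    (D : Finset (Site d)) (hD : D.card ≤ N) : 2 * d * D.card ≤ outE D + 2 * g D.card := by
  have h1 := inE_add_outE D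
  have h2 := inE_le hg D hD
  omega

end Pool.Agent.Lib.MP_67d80e_pr_all
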