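import Pool.Agent.Lib.MP_67d80e_pr_all.Free
import Pool.Agent.Lib.MP_67d80e_pr_all.Iso

set_option autoImplicit false

open scoped BigOperators
open Filter MeasureTheory
open Pool.Agent.Lib.MP_67d80e_pr

namespace Pool.Agent.Lib.MP_67d80e_pr_all

variable {d : ℕ}

/-- affine lower bounds of the function at the states which can follow `(n0, n1, n2, n3)`, and the
drift inequality for them. `m` is the number `2 d` of neighbours, `O0`, `O1` are lower bounds of the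
edge boundaries, and `θ` is the fraction of the rings of the highest set which is used. -/
def StateOk (m : ℕ) (O0 : ℕ → ℝ) (O1 : ℕ → ℕ → ℝ) (phi : ℕ → ℕ → ℕ → ℕ → ℝ) (c : ℝ)
    (n0 n1 n2 n3 : ℕ) : Prop :=
  ∃ θ A0 A1 A2 A3 b0 b1 b2 b3 : ℝ, 0 ≤ θ ∧ θ ≤ 1 ∧ 0 ≤ b0 ∧ 0 ≤ b1 ∧ 0 ≤ b2 ∧ 0 ≤ b3 ∧
    (∀ k ≤ m, m + 1 ≤ n0 + k → A0 + b0 * k ≤ 1 + phi 1 (n0 + k) n1 n2) ∧
    (∀ j1 ≤ m, ∀ j2 ≤ j1, ∀ j3 ≤ j2, n1 + j1 ≤ n2 + j2 → n2 + j2 ≤ n3 + j3 →
      A1 + b1 * j1 + b2 * j2 + b3 * j3 ≤ phi (n0 + 1) (n1 + j1) (n2 + j2) (n3 + j3)) ∧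
    (∀ j2 ≤ m, ∀ j3 ≤ j2, n2 + j2 ≤ n3 + j3 →
      A2 + b2 * j2 + b3 * j3 ≤ phi n0 (n1 + 1) (n2 + j2) (n3 + j3)) ∧
    (∀ j3 ≤ m, A3 + b3 * j3 ≤ phi n0 n1 (n2 + 1) (n3 + j3)) ∧
    c ≤ θ * (n0 * (A0 - phi n0 n1 n2 n3) + b0 * O0 n0) +
      ((n1 - n0) * (A1 - phi n0 n1 n2 n3) + b1 * O1 n0 n1) +
      ((n2 - n1) * (A2 - phi n0 n1 n2 n3) + b2 * O1 n0 n2) +
      ((n3 - n2) * (A3 - phi n0 n1 n2 n3) + b3 * O1 n0 n3)

/-- a lower bound for all edge boundaries -/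
def IsO0 (d : ℕ) (O0 : ℕ → ℝ) : Prop :=
  ∀ D : Finset (Site d), D.Nonempty → O0 D.card ≤ outE D

/-- a lower bound for the edge boundaries of the sets which contain the closed neighbourhood of a
nonempty set -/
def IsO1 (d : ℕ) (O1 : ℕ → ℕ → ℝ) : Prop :=
  ∀ T D : Finset (Site d), T.Nonempty → T ⊆ D → (∀ x ∈ T, nbrs x ⊆ D) →
    O1 T.card D.card ≤ outE D

/-- a property of the cardinalities of a nonempty set and of a set containing its closed
neighbourhood -/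
def IsAdm (d : ℕ) (Adm : ℕ → ℕ → Prop) : Prop :=
  ∀ T D : Finset (Site d), T.Nonempty → T ⊆ D → (∀ x ∈ T, nbrs x ⊆ D) → Adm T.card D.card

lemma card_sdiff_nbrs_le (x : Site d) (D : Finset (Site d)) : (nbrs x \ D).card ≤ 2 * d :=
  (Finset.card_le_card Finset.sdiff_subset).trans (card_nbrs x).le

lemma card_union_le' (x : Site d) {A B : Finset (Site d)} (h : A ⊆ B) :
    A.card + (nbrs x \ A).card ≤ B.card + (nbrs x \ B).card := by
  rw [← Finset.card_union_of_disjoint Finset.disjoint_sdiff,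
    ← Finset.card_union_of_disjoint Finset.disjoint_sdiff]
  refine Finset.card_le_card fun y hy => ?_
  rcases Finset.mem_union.1 hy with hy | hy
  · exact Finset.mem_union_left _ (h hy)
  · by_cases hyB : y ∈ B
    · exact Finset.mem_union_left _ hyB
    · exact Finset.mem_union_right _ (Finset.mem_sdiff.2 ⟨(Finset.mem_sdiff.1 hy).1, hyB⟩)

lemma outE_split {D0 D1 D2 : Finset (Site d)} (h01 : D0 ⊆ D1) (h12 : D1 ⊆ D2)
    (h : ∀ x ∈ D0, nbrs x ⊆ D2) : ∑ x ∈ D1 \ D0, ((nbrs x \ D2).card : ℝ) +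
      ∑ x ∈ D2 \ D1, ((nbrs x \ D2).card : ℝ) = outE D2 := by
  have h0 : ∑ x ∈ D0, (nbrs x \ D2).card = 0 := by
    refine Finset.sum_eq_zero fun x hx => ?_
    rw [Finset.card_eq_zero]
    exact Finset.sdiff_eq_empty_iff_subset.2 (h x hx)
  unfold outE
  rw [← Finset.sum_sdiff h12, ← Finset.sum_sdiff h01, h0]
  push_cast
  ring

lemma outE_split1 {D0 D1 : Finset (Site d)} (h01 : D0 ⊆ D1)
    (h : ∀ x ∈ D0, nbrs x ⊆ D1) : ∑ x ∈ D1 \ D0, ((nbrs x \ D1).card : ℝ) = outE D1 := by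
  have := outE_split h01 (subset_refl D1) h
  rwa [Finset.sdiff_self, Finset.sum_empty, add_zero] at this

/-- the drift inequality from affine lower bounds at every state -/
theorem setDrift_of_states {phi : ℕ → ℕ → ℕ → ℕ → ℝ} {c : ℝ} {O0 : ℕ → ℝ} {O1 : ℕ → ℕ → ℝ}
    {Adm : ℕ → ℕ → Prop} (h0 : IsO0 d O0) (h1 : IsO1 d O1) (hadm : IsAdm d Adm)
    (hst : ∀ n0 n1 n2 n3 : ℕ, 1 ≤ n0 → n0 ≤ n1 → n1 ≤ n2 → n2 ≤ n3 → Adm n0 n1 → Adm n0 n2 →
      Adm n0 n3 → StateOk (2 * d) O0 O1 phi c n0 n1 n2 n3) : SetDriftF d phi c := by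
  intro D0 D1 D2 D3 hne h01 h12 h23 hnb
  have hn0 : 1 ≤ D0.card := Finset.card_pos.2 hne
  have hn1 := Finset.card_le_card h01
  have hn2 := Finset.card_le_card h12
  have hn3 := Finset.card_le_card h23
  have hnb2 : ∀ x ∈ D0, nbrs x ⊆ D2 := fun x hx => (hnb x hx).trans h12
  have hnb3 : ∀ x ∈ D0, nbrs x ⊆ D3 := fun x hx => (hnb2 x hx).trans h23
  obtain ⟨θ, A0, A1, A2, A3, b0, b1, b2, b3, hθ0, hθ1, pb0, pb1, pb2, pb3, q0, q1, q2, q3, hc⟩ :=
    hst D0.card D1.card D2.card D3.card hn0 hn1 hn2 hn3 (hadm D0 D1 hne h01 hnb)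
      (hadm D0 D2 hne (h01.trans h12) hnb2) (hadm D0 D3 hne ((h01.trans h12).trans h23) hnb3)
  set P : ℝ := phi D0.card D1.card D2.card D3.card with hP
  have e0 := h0 D0 hne
  have e1 := h1 D0 D1 hne h01 hnb
  have e2 := h1 D0 D2 hne (h01.trans h12) hnb2
  have e3 := h1 D0 D3 hne ((h01.trans h12).trans h23) hnb3
  -- the four sums
  have s0 : (D0.card : ℝ) * (A0 - P) + b0 * outE D0 ≤
      ∑ x ∈ D0, (1 + phi 1 (D0.card + (nbrs x \ D0).card) D1.card D2.card - P) := by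
    have : (D0.card : ℝ) * (A0 - P) + b0 * outE D0 =
        ∑ x ∈ D0, ((A0 - P) + b0 * ((nbrs x \ D0).card : ℝ)) := by
      rw [Finset.sum_add_distrib, Finset.sum_const, nsmul_eq_mul, ← Finset.mul_sum]
      unfold outE
      push_cast
      rfl
    rw [this]
    refine Finset.sum_le_sum fun x hx => ?_
    have hk : 2 * d + 1 ≤ D0.card + (nbrs x \ D0).card := by
      have h1 : (insert x (nbrs x)).card = 2 * d + 1 := by
        rw [Finset.card_insert_of_notMem (self_notMem_nbrs x), card_nbrs]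
      rw [← h1, ← Finset.card_union_of_disjoint Finset.disjoint_sdiff]
      refine Finset.card_le_card fun y hy => ?_
      rcases Finset.mem_insert.1 hy with rfl | hy
      · exact Finset.mem_union_left _ hx
      · by_cases hy0 : y ∈ D0
        · exact Finset.mem_union_left _ hy0
        · exact Finset.mem_union_right _ (Finset.mem_sdiff.2 ⟨hy, hy0⟩)
    have := q0 _ (card_sdiff_nbrs_le x D0) hk
    linarith
  have s1 : ((D1.card : ℝ) - D0.card) * (A1 - P) + b1 * outE D1 +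
      b2 * ∑ x ∈ D1 \ D0, ((nbrs x \ D2).card : ℝ) + b3 * ∑ x ∈ D1 \ D0, ((nbrs x \ D3).card : ℝ) ≤
      ∑ x ∈ D1 \ D0, (phi (D0.card + 1) (D1.card + (nbrs x \ D1).card)
            (D2.card + (nbrs x \ D2).card) (D3.card + (nbrs x \ D3).card) - P) := by
    have hcard : ((D1 \ D0).card : ℝ) = (D1.card : ℝ) - D0.card := by
      rw [Finset.card_sdiff_of_subset h01, Nat.cast_sub hn1]
    have : ((D1.card : ℝ) - D0.card) * (A1 - P) + b1 * outE D1 +
      b2 * ∑ x ∈ D1 \ D0, ((nbrs x \ D2).card : ℝ) + b3 * ∑ x ∈ D1 \ D0, ((nbrs x \ D3).card : ℝ) =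
        ∑ x ∈ D1 \ D0, ((A1 - P) + b1 * ((nbrs x \ D1).card : ℝ) +
          b2 * ((nbrs x \ D2).card : ℝ) + b3 * ((nbrs x \ D3).card : ℝ)) := by
      rw [Finset.sum_add_distrib, Finset.sum_add_distrib, Finset.sum_add_distrib, Finset.sum_const,
        nsmul_eq_mul, ← Finset.mul_sum, ← Finset.mul_sum, ← Finset.mul_sum, hcard,
        outE_split1 h01 hnb]
    rw [this]
    refine Finset.sum_le_sum fun x _ => ?_
    have hj2 : (nbrs x \ D2).card ≤ (nbrs x \ D1).card :=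
      Finset.card_le_card (Finset.sdiff_subset_sdiff le_rfl h12)
    have hj3 : (nbrs x \ D3).card ≤ (nbrs x \ D2).card :=
      Finset.card_le_card (Finset.sdiff_subset_sdiff le_rfl h23)
    have := q1 _ (card_sdiff_nbrs_le x D1) _ hj2 _ hj3 (card_union_le' x h12)
      (card_union_le' x h23)
    linarith
  have s2 : ((D2.card : ℝ) - D1.card) * (A2 - P) +
      b2 * ∑ x ∈ D2 \ D1, ((nbrs x \ D2).card : ℝ) + b3 * ∑ x ∈ D2 \ D1, ((nbrs x \ D3).card : ℝ) ≤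
      ∑ x ∈ D2 \ D1, (phi D0.card (D1.card + 1)
            (D2.card + (nbrs x \ D2).card) (D3.card + (nbrs x \ D3).card) - P) := by
    have hcard : ((D2 \ D1).card : ℝ) = (D2.card : ℝ) - D1.card := by
      rw [Finset.card_sdiff_of_subset h12, Nat.cast_sub hn2]
    have : ((D2.card : ℝ) - D1.card) * (A2 - P) +
      b2 * ∑ x ∈ D2 \ D1, ((nbrs x \ D2).card : ℝ) + b3 * ∑ x ∈ D2 \ D1, ((nbrs x \ D3).card : ℝ) =
        ∑ x ∈ D2 \ D1, ((A2 - P) +
          b2 * ((nbrs x \ D2).card : ℝ) + b3 * ((nbrs x \ D3).card : ℝ)) := by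
      rw [Finset.sum_add_distrib, Finset.sum_add_distrib, Finset.sum_const,
        nsmul_eq_mul, ← Finset.mul_sum, ← Finset.mul_sum, hcard]
    rw [this]
    refine Finset.sum_le_sum fun x _ => ?_
    have hj3 : (nbrs x \ D3).card ≤ (nbrs x \ D2).card :=
      Finset.card_le_card (Finset.sdiff_subset_sdiff le_rfl h23)
    have := q2 _ (card_sdiff_nbrs_le x D2) _ hj3 (card_union_le' x h23)
    linarith
  have s3 : ((D3.card : ℝ) - D2.card) * (A3 - P) +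
      b3 * ∑ x ∈ D3 \ D2, ((nbrs x \ D3).card : ℝ) ≤
      ∑ x ∈ D3 \ D2, (phi D0.card D1.card (D2.card + 1) (D3.card + (nbrs x \ D3).card) - P) := by
    have hcard : ((D3 \ D2).card : ℝ) = (D3.card : ℝ) - D2.card := by
      rw [Finset.card_sdiff_of_subset h23, Nat.cast_sub hn3]
    have : ((D3.card : ℝ) - D2.card) * (A3 - P) +
      b3 * ∑ x ∈ D3 \ D2, ((nbrs x \ D3).card : ℝ) =
        ∑ x ∈ D3 \ D2, ((A3 - P) + b3 * ((nbrs x \ D3).card : ℝ)) := by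
      rw [Finset.sum_add_distrib, Finset.sum_const, nsmul_eq_mul, ← Finset.mul_sum, hcard]
    rw [this]
    refine Finset.sum_le_sum fun x _ => ?_
    have := q3 _ (card_sdiff_nbrs_le x D3)
    linarith
  -- the boundaries
  have t2 := outE_split h01 h12 hnb2
  have t3 : ∑ x ∈ D1 \ D0, ((nbrs x \ D3).card : ℝ) + ∑ x ∈ D2 \ D1, ((nbrs x \ D3).card : ℝ) +
      ∑ x ∈ D3 \ D2, ((nbrs x \ D3).card : ℝ) = outE D3 := by
    have a1 := outE_split (h01.trans h12) h23 hnb3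
    have a2 : ∑ x ∈ D2 \ D0, ((nbrs x \ D3).card : ℝ) =
        ∑ x ∈ D1 \ D0, ((nbrs x \ D3).card : ℝ) + ∑ x ∈ D2 \ D1, ((nbrs x \ D3).card : ℝ) := by
      have hd : D2 \ D0 = (D1 \ D0) ∪ (D2 \ D1) := by
        ext z
        simp only [Finset.mem_sdiff, Finset.mem_union]
        constructor
        · rintro ⟨hz2, hz0⟩
          by_cases hz1 : z ∈ D1
          · exact Or.inl ⟨hz1, hz0⟩
          · exact Or.inr ⟨hz2, hz1⟩
        · rintro (⟨hz1, hz0⟩ | ⟨hz2, hz1⟩)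
          · exact ⟨h12 hz1, hz0⟩
          · exact ⟨hz2, fun hz0 => hz1 (h01 hz0)⟩
      rw [hd, Finset.sum_union]
      rw [Finset.disjoint_left]
      intro z hz hz'
      exact (Finset.mem_sdiff.1 hz').2 (Finset.mem_sdiff.1 hz).1
    rw [a2] at a1
    exact a1
  have u0 := mul_le_mul_of_nonneg_left e0 pb0
  have u1 := mul_le_mul_of_nonneg_left e1 pb1
  have u2 := mul_le_mul_of_nonneg_left e2 pb2
  have u3 := mul_le_mul_of_nonneg_left e3 pb3
  rw [← t2] at u2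
  rw [← t3] at u3
  have s0' : θ * ((D0.card : ℝ) * (A0 - P) + b0 * O0 D0.card) ≤
      max 0 (∑ x ∈ D0, (1 + phi 1 (D0.card + (nbrs x \ D0).card) D1.card D2.card - P)) := by
    set S := ∑ x ∈ D0, (1 + phi 1 (D0.card + (nbrs x \ D0).card) D1.card D2.card - P) with hS
    have h1 : (D0.card : ℝ) * (A0 - P) + b0 * O0 D0.card ≤ S := by linarith
    have h2 : (D0.card : ℝ) * (A0 - P) + b0 * O0 D0.card ≤ max 0 S := h1.trans (le_max_right _ _)
    have h3 : (0 : ℝ) ≤ max 0 S := le_max_left _ _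
    calc _ ≤ θ * max 0 S := mul_le_mul_of_nonneg_left h2 hθ0
      _ ≤ 1 * max 0 S := mul_le_mul_of_nonneg_right hθ1 h3
      _ = _ := one_mul _
  refine hc.trans ?_
  refine le_trans ?_ (add_le_add (add_le_add (add_le_add s0' s1) s2) s3)
  rw [mul_add] at u2
  rw [mul_add, mul_add] at u3
  linarith

/-- the lower bound from affine lower bounds at every state -/
theorem hasLB_of_states {phi : ℕ → ℕ → ℕ → ℕ → ℝ} {c : ℝ} {O0 : ℕ → ℝ} {O1 : ℕ → ℕ → ℝ}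
    {Adm : ℕ → ℕ → Prop} (hphi : PhiFree phi) (h0 : IsO0 d O0) (h1 : IsO1 d O1)
    (hadm : IsAdm d Adm)
    (hst : ∀ n0 n1 n2 n3 : ℕ, 1 ≤ n0 → n0 ≤ n1 → n1 ≤ n2 → n2 ≤ n3 → Adm n0 n1 → Adm n0 n2 →
      Adm n0 n3 → StateOk (2 * d) O0 O1 phi c n0 n1 n2 n3) : HasLB d c :=
  hasLB_of_setsF hphi (setDrift_of_states h0 h1 hadm hst)

end Pool.Agent.Lib.MP_67d80e_pr_all
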