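import Pool.Agent.Lib.MP_67d80e_pr_all.Chain
import Pool.Agent.Lib.MP_67d80e_pr_all.Minor

/-!
The lower bound from four nested sets `D0 ⊆ D1 ⊆ D2 ⊆ D3`, where the number of edges inside `D0` is
followed too. The state is `(n0, e0, n1, n2, n3)`; the average of the number of edges which are
added by a ring in `D1 \ D0` is known exactly.
-/

set_option autoImplicit false

open scoped BigOperators
open Filter MeasureTheory
open Pool.Agent.Lib.MP_67d80e_pr

namespace Pool.Agent.Lib.MP_67d80e_pr_all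

variable {d : ℕ}

/-! ### the number of edges inside a set -/

lemma inE_insert {D : Finset (Site d)} {x : Site d} (hx : x ∉ D) :
    inE (insert x D) = inE D + 2 * (nbrs x ∩ D).card := by
  have h1 : Disjoint D {x} := by
    rw [Finset.disjoint_singleton_right]; exact hx
  have h2 := inE_union h1
  have h3 : D ∪ {x} = insert x D := by
    rw [Finset.union_comm]; rfl
  have h4 : inE ({x} : Finset (Site d)) = 0 := by
    unfold inE
    rw [Finset.sum_singleton, Finset.card_eq_zero, Finset.eq_empty_iff_forall_notMem]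
    intro y hy
    rw [Finset.mem_inter, Finset.mem_singleton] at hy
    exact ne_of_mem_nbrs hy.1 hy.2
  have h5 : crE D {x} = (nbrs x ∩ D).card := by
    rw [crE_comm]
    unfold crE
    rw [Finset.sum_singleton]
  rw [h3, h4, h5] at h2
  rw [h2]; ring

lemma inE_even (D : Finset (Site d)) : inE D = 2 * (inE D / 2) := by
  have h : ∃ e, inE D = 2 * e := by
    classical
    induction D using Finset.induction_on with
    | empty => exact ⟨0, by simp [inE]⟩
    | insert x s hx ih =>
      obtain ⟨e, he⟩ := ih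
      exact ⟨e + (nbrs x ∩ s).card, by rw [inE_insert hx, he]; ring⟩
  obtain ⟨e, he⟩ := h
  omega

/-- the number of edges inside a set -/
def eE (D : Finset (Site d)) : ℕ := inE D / 2

lemma inE_eq (D : Finset (Site d)) : inE D = 2 * eE D := inE_even D

lemma eE_insert {D : Finset (Site d)} {x : Site d} (hx : x ∉ D) :
    eE (insert x D) = eE D + (nbrs x ∩ D).card := by
  have h1 := inE_insert hx
  have h2 := inE_eq D
  have h3 := inE_eq (insert x D)
  omega

lemma eE_singleton (x : Site d) : eE ({x} : Finset (Site d)) = 0 := by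
  have h := eE_insert (D := (∅ : Finset (Site d))) (x := x) (by simp)
  have h2 : eE (∅ : Finset (Site d)) = 0 := by simp [eE, inE]
  simpa [h2] using h

lemma outE_eq (D : Finset (Site d)) : (outE D : ℝ) = 2 * d * D.card - 2 * eE D := by
  have h1 := inE_add_outE D
  have h2 := inE_eq D
  rw [h2] at h1
  have h3 : ((2 * eE D + outE D : ℕ) : ℝ) = ((2 * d * D.card : ℕ) : ℝ) := by rw [h1]
  push_cast at h3
  linarith

/-- the edges which leave `D0` all end in `D1 \ D0` -/
lemma sum_inter_eq_outE {D0 D1 : Finset (Site d)} (h : ∀ x ∈ D0, nbrs x ⊆ D1) :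
    ∑ x ∈ D1 \ D0, ((nbrs x ∩ D0).card : ℝ) = outE D0 := by
  have h1 : crE (D1 \ D0) D0 = outE D0 := by
    rw [crE_comm]
    unfold crE outE
    refine Finset.sum_congr rfl fun x hx => ?_
    congr 1
    ext z
    simp only [Finset.mem_inter, Finset.mem_sdiff]
    constructor
    · rintro ⟨hz, -, hz0⟩
      exact ⟨hz, hz0⟩
    · rintro ⟨hz, hz0⟩
      exact ⟨hz, h x hx hz, hz0⟩
  rw [← h1]
  unfold crE
  push_cast
  rfl

/-! ### the states -/

/-- affine lower bounds of the function at the states which can follow `(n0, e0, n1, n2, n3)`, and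
the drift inequality for them. `m` is the number `2 d` of neighbours, `O1` is a lower bound of the
edge boundaries, `Adm` restricts the states, `θ` is the fraction of the rings of the highest set
which is used, and `N0` is the largest size of the highest set which is followed. -/
def StateOk0 (m N0 : ℕ) (Adm : ℕ → ℕ → ℕ → Prop) (O1 : ℕ → ℕ → ℕ → ℝ)
    (phi : ℕ → ℕ → ℕ → ℕ → ℕ → ℝ) (c : ℝ) (n0 e0 n1 n2 n3 : ℕ) : Prop :=
  ∃ θ A0 A1 A2 A3 b0 a b1 b2 b3 : ℝ, 0 ≤ θ ∧ θ ≤ 1 ∧ 0 ≤ b1 ∧ 0 ≤ b2 ∧ 0 ≤ b3 ∧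
    (∀ k ≤ m, m + 1 ≤ n0 + k → A0 + b0 * k ≤ 1 + phi 1 0 (n0 + k) n1 n2) ∧
    (∀ δ ≤ n0, ∀ j1, δ + j1 ≤ m → ∀ j2 ≤ j1, ∀ j3 ≤ j2, n1 + j1 ≤ n2 + j2 → n2 + j2 ≤ n3 + j3 →
      (n0 < N0 → Adm (n0 + 1) (e0 + δ) (n1 + j1)) →
      A1 + a * δ + b1 * j1 + b2 * j2 + b3 * j3 ≤
        if n0 < N0 then phi (n0 + 1) (e0 + δ) (n1 + j1) (n2 + j2) (n3 + j3)
        else phi n0 e0 (n1 + j1) (n2 + j2) (n3 + j3)) ∧
    (∀ j2 ≤ m, ∀ j3 ≤ j2, n2 + j2 ≤ n3 + j3 →
      A2 + b2 * j2 + b3 * j3 ≤ phi n0 e0 (n1 + 1) (n2 + j2) (n3 + j3)) ∧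
    (∀ j3 ≤ m, A3 + b3 * j3 ≤ phi n0 e0 n1 (n2 + 1) (n3 + j3)) ∧
    c ≤ θ * (n0 * (A0 - phi n0 e0 n1 n2 n3) + b0 * (m * n0 - 2 * e0)) +
      ((n1 - n0) * (A1 - phi n0 e0 n1 n2 n3) + a * (m * n0 - 2 * e0) + b1 * O1 n0 e0 n1) +
      ((n2 - n1) * (A2 - phi n0 e0 n1 n2 n3) + b2 * O1 n0 e0 n2) +
      ((n3 - n2) * (A3 - phi n0 e0 n1 n2 n3) + b3 * O1 n0 e0 n3)

/-- a lower bound for the edge boundaries of the sets `D` which contain the closed neighbourhood of
a nonempty set `T`, in terms of `|T|`, the number of edges inside `T`, and `|D|` -/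
def IsOO (d : ℕ) (O1 : ℕ → ℕ → ℕ → ℝ) : Prop :=
  ∀ T D : Finset (Site d), T.Nonempty → T ⊆ D → (∀ x ∈ T, nbrs x ⊆ D) →
    O1 T.card (eE T) D.card ≤ outE D

/-- a property of `|T|`, the number of edges inside `T`, and `|D|` -/
def IsAdm0 (d : ℕ) (Adm : ℕ → ℕ → ℕ → Prop) : Prop :=
  ∀ T D : Finset (Site d), T.Nonempty → T ⊆ D → (∀ x ∈ T, nbrs x ⊆ D) →
    Adm T.card (eE T) D.card

/-- the class of the chains with at most `N0` sites in the highest set -/
def Cls0 (N0 : ℕ) (E : ℕ → Finset (Site d)) : Prop := IsChn E ∧ (E 0).card ≤ N0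

lemma isCls0 {N0 : ℕ} (h : 1 ≤ N0) : IsCls (d := d) (Cls0 N0) where
  chn := fun _ h => h.1
  top := by
    classical
    intro a m ha hm
    have ht := chn_top ha hm
    obtain ⟨z, hz⟩ := ht.ne
    refine ⟨fun k => if k = 0 then {z} else lv a (m - k), ⟨⟨?_, ?_, ?_⟩, ?_⟩, ?_⟩
    · simp
    · intro x hx
      have hx' : x = z := by simpa using hx
      subst hx'
      have := ht.nb x hz
      simpa using this
    · intro k
      rcases k with _ | k
      · intro y hy
        have hy' : y = z := by simpa using hy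
        subst hy'
        have := ht.mono 0 hz
        simpa using this
      · have := ht.mono (k + 1)
        simpa using this
    · simpa using h
    · intro k
      rcases k with _ | k
      · intro y hy
        have hy' : y = z := by simpa using hy
        subst hy'
        exact hz
      · simp

/-- four sets as a chain -/
def chn4 (A B C D : Finset (Site d)) : ℕ → Finset (Site d)
  | 0 => A
  | 1 => B
  | 2 => C
  | _ + 3 => D

lemma isChn_chn4 {A B C D : Finset (Site d)} (hne : A.Nonempty) (hnb : ∀ x ∈ A, nbrs x ⊆ B)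
    (h1 : A ⊆ B) (h2 : B ⊆ C) (h3 : C ⊆ D) : IsChn (chn4 A B C D) where
  ne := hne
  nb := hnb
  mono := by
    intro k
    match k with
    | 0 => exact h1
    | 1 => exact h2
    | 2 => exact h3
    | k + 3 => exact subset_rfl

/-- the lower bound from affine lower bounds at every state -/
theorem hasLB_of_states0 {phi : ℕ → ℕ → ℕ → ℕ → ℕ → ℝ} {c : ℝ} {O1 : ℕ → ℕ → ℕ → ℝ} {N0 : ℕ}
    {Adm : ℕ → ℕ → ℕ → Prop} (hN0 : 1 ≤ N0)
    (hB : ∃ B : ℝ, ∀ n0 e0 n1 n2 n3, |phi n0 e0 n1 n2 n3| ≤ B)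
    (h1 : IsOO d O1) (hadm : IsAdm0 d Adm)
    (hst : ∀ n0 e0 n1 n2 n3 : ℕ, 1 ≤ n0 → n0 ≤ N0 → n0 ≤ n1 → n1 ≤ n2 → n2 ≤ n3 →
      Adm n0 e0 n1 → Adm n0 e0 n2 → Adm n0 e0 n3 →
      StateOk0 (2 * d) N0 Adm O1 phi c n0 e0 n1 n2 n3) : HasLB d c := by
  classical
  obtain ⟨B, hB⟩ := hB
  refine hasLB_of_chn (C := Cls0 N0) (J := 3)
    (phi := fun E => phi (E 0).card (eE (E 0)) (E 1).card (E 2).card (E 3).card) (B := B)
    (isCls0 hN0) (fun E _ => hB _ _ _ _ _) ?_
  rintro E ⟨hE, hEN⟩
  set D0 := E 0 with hD0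
  set D1 := E 1 with hD1
  set D2 := E 2 with hD2
  set D3 := E 3 with hD3
  have hne : D0.Nonempty := hE.ne
  have h01 : D0 ⊆ D1 := hE.mono 0
  have h12 : D1 ⊆ D2 := hE.mono 1
  have h23 : D2 ⊆ D3 := hE.mono 2
  have hnb : ∀ x ∈ D0, nbrs x ⊆ D1 := hE.nb
  have hn0 : 1 ≤ D0.card := Finset.card_pos.2 hne
  have hn1 := Finset.card_le_card h01
  have hn2 := Finset.card_le_card h12
  have hn3 := Finset.card_le_card h23
  have hnb2 : ∀ x ∈ D0, nbrs x ⊆ D2 := fun x hx => (hnb x hx).trans h12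
  have hnb3 : ∀ x ∈ D0, nbrs x ⊆ D3 := fun x hx => (hnb2 x hx).trans h23
  have had1 := hadm D0 D1 hne h01 hnb
  have had2 := hadm D0 D2 hne (h01.trans h12) hnb2
  have had3 := hadm D0 D3 hne ((h01.trans h12).trans h23) hnb3
  obtain ⟨θ, A0, A1, A2, A3, b0, aa, b1, b2, b3, hθ0, hθ1, pb1, pb2, pb3, q0, q1, q2, q3, hc⟩ :=
    hst D0.card (eE D0) D1.card D2.card D3.card hn0 hEN hn1 hn2 hn3 had1 had2 had3
  set P : ℝ := phi D0.card (eE D0) D1.card D2.card D3.card with hP
  have e1 := h1 D0 D1 hne h01 hnb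
  have e2 := h1 D0 D2 hne (h01.trans h12) hnb2
  have e3 := h1 D0 D3 hne ((h01.trans h12).trans h23) hnb3
  -- the gains
  set g0 : Site d → ℝ := fun x => 1 + phi 1 0 (D0.card + (nbrs x \ D0).card) D1.card D2.card - P
    with hg0
  set g1 : Site d → ℝ := fun x =>
    (if D0.card < N0 then phi (D0.card + 1) (eE D0 + (nbrs x ∩ D0).card)
        (D1.card + (nbrs x \ D1).card) (D2.card + (nbrs x \ D2).card)
        (D3.card + (nbrs x \ D3).card)
      else phi D0.card (eE D0) (D1.card + (nbrs x \ D1).card) (D2.card + (nbrs x \ D2).card)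
        (D3.card + (nbrs x \ D3).card)) - P with hg1
  set g2 : Site d → ℝ := fun x => phi D0.card (eE D0) (D1.card + 1)
        (D2.card + (nbrs x \ D2).card) (D3.card + (nbrs x \ D3).card) - P with hg2
  set g3 : Site d → ℝ := fun x => phi D0.card (eE D0) D1.card (D2.card + 1)
        (D3.card + (nbrs x \ D3).card) - P with hg3
  have hcu : ∀ (x : Site d) (A : Finset (Site d)), (A ∪ nbrs x).card = A.card + (nbrs x \ A).card := by
    intro x A
    rw [← Finset.union_sdiff_self_eq_union, Finset.card_union_of_disjoint Finset.disjoint_sdiff]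
  have hci : ∀ (x : Site d) (A : Finset (Site d)), x ∉ A → (insert x A).card = A.card + 1 :=
    fun x A h => Finset.card_insert_of_notMem h
  have hDk : ∀ k : ℕ, D3 ⊆ E (k + 3) := fun k => hE.le (by omega)
  have G0 : ∀ x ∈ D0, Gain (Cls0 N0)
      (fun E => phi (E 0).card (eE (E 0)) (E 1).card (E 2).card (E 3).card) E x (g0 x) := by
    intro x hx
    right; right
    refine ⟨chn4 {x} (D0 ∪ nbrs x) D1 D2, ⟨isChn_chn4 (Finset.singleton_nonempty x) ?_ ?_ ?_ h12,
      ?_⟩, hx, subset_rfl, ?_, ?_⟩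
    · intro y hy
      rw [Finset.mem_singleton.1 hy]
      exact Finset.subset_union_right
    · intro y hy
      rw [Finset.mem_singleton.1 hy]
      exact Finset.mem_union_left _ hx
    · exact Finset.union_subset h01 (hnb x hx)
    · simpa [chn4] using hN0
    · intro k z hz
      rw [mem_Up]
      match k, hz with
      | 0, hz =>
        rcases Finset.mem_union.1 hz with hz | hz
        · exact Or.inl hz
        · exact Or.inr (Or.inr ⟨hx, hz⟩)
      | 1, hz => exact Or.inl hz
      | k + 2, hz =>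
        left
        exact hE.le (show 2 ≤ k + 2 by omega) hz
    · have : (chn4 {x} (D0 ∪ nbrs x) D1 D2 0).card = 1 := Finset.card_singleton x
      simp only [chn4, Finset.card_singleton, eE_singleton, hcu]
      rw [hg0]
  have G1 : ∀ x ∈ D1 \ D0, Gain (Cls0 N0)
      (fun E => phi (E 0).card (eE (E 0)) (E 1).card (E 2).card (E 3).card) E x (g1 x) := by
    intro x hx
    obtain ⟨hx1, hx0⟩ := Finset.mem_sdiff.1 hx
    have hx2 := h12 hx1
    have hx3 := h23 hx2
    right; left
    by_cases hlt : D0.card < N0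
    · refine ⟨chn4 (insert x D0) (D1 ∪ nbrs x) (D2 ∪ nbrs x) (D3 ∪ nbrs x),
        ⟨isChn_chn4 (Finset.insert_nonempty _ _) ?_ ?_ ?_ ?_, ?_⟩, ?_, ?_⟩
      · intro y hy
        rcases Finset.mem_insert.1 hy with rfl | hy
        · exact Finset.subset_union_right
        · exact (hnb y hy).trans Finset.subset_union_left
      · exact Finset.insert_subset (Finset.mem_union_left _ hx1)
          (h01.trans Finset.subset_union_left)
      · exact Finset.union_subset_union h12 subset_rfl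
      · exact Finset.union_subset_union h23 subset_rfl
      · change (insert x D0).card ≤ N0
        rw [hci x D0 hx0]
        omega
      · intro k z hz
        rw [mem_Up]
        match k, hz with
        | 0, hz =>
          rcases Finset.mem_insert.1 hz with rfl | hz
          · exact Or.inr (Or.inl ⟨hx1, rfl⟩)
          · exact Or.inl hz
        | 1, hz =>
          rcases Finset.mem_union.1 hz with hz | hz
          · exact Or.inl hz
          · exact Or.inr (Or.inr ⟨hx1, hz⟩)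
        | 2, hz =>
          rcases Finset.mem_union.1 hz with hz | hz
          · exact Or.inl hz
          · exact Or.inr (Or.inr ⟨hx2, hz⟩)
        | k + 3, hz =>
          rcases Finset.mem_union.1 hz with hz | hz
          · exact Or.inl (hDk k hz)
          · exact Or.inr (Or.inr ⟨hDk k hx3, hz⟩)
      · simp only [chn4, hcu, hci x D0 hx0, eE_insert hx0]
        rw [hg1]
        simp only [if_pos hlt]
        exact le_rfl
    · refine ⟨chn4 D0 (D1 ∪ nbrs x) (D2 ∪ nbrs x) (D3 ∪ nbrs x),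
        ⟨isChn_chn4 hne ?_ ?_ ?_ ?_, hEN⟩, ?_, ?_⟩
      · intro y hy
        exact (hnb y hy).trans Finset.subset_union_left
      · exact h01.trans Finset.subset_union_left
      · exact Finset.union_subset_union h12 subset_rfl
      · exact Finset.union_subset_union h23 subset_rfl
      · intro k z hz
        rw [mem_Up]
        match k, hz with
        | 0, hz => exact Or.inl hz
        | 1, hz =>
          rcases Finset.mem_union.1 hz with hz | hz
          · exact Or.inl hz
          · exact Or.inr (Or.inr ⟨hx1, hz⟩)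
        | 2, hz =>
          rcases Finset.mem_union.1 hz with hz | hz
          · exact Or.inl hz
          · exact Or.inr (Or.inr ⟨hx2, hz⟩)
        | k + 3, hz =>
          rcases Finset.mem_union.1 hz with hz | hz
          · exact Or.inl (hDk k hz)
          · exact Or.inr (Or.inr ⟨hDk k hx3, hz⟩)
      · simp only [chn4, hcu]
        rw [hg1]
        simp only [if_neg hlt]
        exact le_rfl
  have G2 : ∀ x ∈ D2 \ D1, Gain (Cls0 N0)
      (fun E => phi (E 0).card (eE (E 0)) (E 1).card (E 2).card (E 3).card) E x (g2 x) := by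
    intro x hx
    obtain ⟨hx2, hx1⟩ := Finset.mem_sdiff.1 hx
    have hx3 := h23 hx2
    right; left
    refine ⟨chn4 D0 (insert x D1) (D2 ∪ nbrs x) (D3 ∪ nbrs x),
        ⟨isChn_chn4 hne ?_ ?_ ?_ ?_, hEN⟩, ?_, ?_⟩
    · intro y hy
      exact (hnb y hy).trans (Finset.subset_insert _ _)
    · exact h01.trans (Finset.subset_insert _ _)
    · exact Finset.insert_subset (Finset.mem_union_left _ hx2) (h12.trans Finset.subset_union_left)
    · exact Finset.union_subset_union h23 subset_rfl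
    · intro k z hz
      rw [mem_Up]
      match k, hz with
      | 0, hz => exact Or.inl hz
      | 1, hz =>
        rcases Finset.mem_insert.1 hz with rfl | hz
        · exact Or.inr (Or.inl ⟨hx2, rfl⟩)
        · exact Or.inl hz
      | 2, hz =>
        rcases Finset.mem_union.1 hz with hz | hz
        · exact Or.inl hz
        · exact Or.inr (Or.inr ⟨hx2, hz⟩)
      | k + 3, hz =>
        rcases Finset.mem_union.1 hz with hz | hz
        · exact Or.inl (hDk k hz)
        · exact Or.inr (Or.inr ⟨hDk k hx3, hz⟩)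
    · simp only [chn4, hcu, hci x D1 hx1]
      rw [hg2]
  have G3 : ∀ x ∈ D3 \ D2, Gain (Cls0 N0)
      (fun E => phi (E 0).card (eE (E 0)) (E 1).card (E 2).card (E 3).card) E x (g3 x) := by
    intro x hx
    obtain ⟨hx3, hx2⟩ := Finset.mem_sdiff.1 hx
    right; left
    refine ⟨chn4 D0 D1 (insert x D2) (D3 ∪ nbrs x), ⟨isChn_chn4 hne hnb h01 ?_ ?_, hEN⟩, ?_, ?_⟩
    · exact h12.trans (Finset.subset_insert _ _)
    · exact Finset.insert_subset (Finset.mem_union_left _ hx3) (h23.trans Finset.subset_union_left)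
    · intro k z hz
      rw [mem_Up]
      match k, hz with
      | 0, hz => exact Or.inl hz
      | 1, hz => exact Or.inl hz
      | 2, hz =>
        rcases Finset.mem_insert.1 hz with rfl | hz
        · exact Or.inr (Or.inl ⟨hx3, rfl⟩)
        · exact Or.inl hz
      | k + 3, hz =>
        rcases Finset.mem_union.1 hz with hz | hz
        · exact Or.inl (hDk k hz)
        · exact Or.inr (Or.inr ⟨hDk k hx3, hz⟩)
    · simp only [chn4, hcu, hci x D2 hx2]
      rw [hg3]
  -- the sums
  have s0 : (D0.card : ℝ) * (A0 - P) + b0 * outE D0 ≤ ∑ x ∈ D0, g0 x := by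
    have : (D0.card : ℝ) * (A0 - P) + b0 * outE D0 =
        ∑ x ∈ D0, ((A0 - P) + b0 * ((nbrs x \ D0).card : ℝ)) := by
      rw [Finset.sum_add_distrib, Finset.sum_const, nsmul_eq_mul, ← Finset.mul_sum]
      unfold outE
      push_cast
      rfl
    rw [this]
    refine Finset.sum_le_sum fun x hx => ?_
    have hk : 2 * d + 1 ≤ D0.card + (nbrs x \ D0).card := by
      have h1 : (insert x (nbrs x)).card = 2 * d + 1 := by
        rw [Finset.card_insert_of_notMem (self_notMem_nbrs x), card_nbrs]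
      rw [← h1, ← Finset.card_union_of_disjoint Finset.disjoint_sdiff]
      refine Finset.card_le_card fun y hy => ?_
      rcases Finset.mem_insert.1 hy with rfl | hy
      · exact Finset.mem_union_left _ hx
      · by_cases hy0 : y ∈ D0
        · exact Finset.mem_union_left _ hy0
        · exact Finset.mem_union_right _ (Finset.mem_sdiff.2 ⟨hy, hy0⟩)
    have := q0 _ (card_sdiff_nbrs_le x D0) hk
    rw [hg0]
    linarith
  have s1 : ((D1.card : ℝ) - D0.card) * (A1 - P) + aa * outE D0 + b1 * outE D1 +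
      b2 * ∑ x ∈ D1 \ D0, ((nbrs x \ D2).card : ℝ) + b3 * ∑ x ∈ D1 \ D0, ((nbrs x \ D3).card : ℝ) ≤
      ∑ x ∈ D1 \ D0, g1 x := by
    have hcard : ((D1 \ D0).card : ℝ) = (D1.card : ℝ) - D0.card := by
      rw [Finset.card_sdiff_of_subset h01, Nat.cast_sub hn1]
    have : ((D1.card : ℝ) - D0.card) * (A1 - P) + aa * outE D0 + b1 * outE D1 +
      b2 * ∑ x ∈ D1 \ D0, ((nbrs x \ D2).card : ℝ) + b3 * ∑ x ∈ D1 \ D0, ((nbrs x \ D3).card : ℝ) =
        ∑ x ∈ D1 \ D0, ((A1 - P) + aa * ((nbrs x ∩ D0).card : ℝ) + b1 * ((nbrs x \ D1).card : ℝ) +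
          b2 * ((nbrs x \ D2).card : ℝ) + b3 * ((nbrs x \ D3).card : ℝ)) := by
      rw [Finset.sum_add_distrib, Finset.sum_add_distrib, Finset.sum_add_distrib,
        Finset.sum_add_distrib, Finset.sum_const,
        nsmul_eq_mul, ← Finset.mul_sum, ← Finset.mul_sum, ← Finset.mul_sum, ← Finset.mul_sum, hcard,
        outE_split1 h01 hnb, sum_inter_eq_outE hnb]
    rw [this]
    refine Finset.sum_le_sum fun x hx => ?_
    obtain ⟨hx1, hx0⟩ := Finset.mem_sdiff.1 hx
    have hj2 : (nbrs x \ D2).card ≤ (nbrs x \ D1).card :=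
      Finset.card_le_card (Finset.sdiff_subset_sdiff le_rfl h12)
    have hj3 : (nbrs x \ D3).card ≤ (nbrs x \ D2).card :=
      Finset.card_le_card (Finset.sdiff_subset_sdiff le_rfl h23)
    have hδ : (nbrs x ∩ D0).card ≤ D0.card := Finset.card_le_card Finset.inter_subset_right
    have hδj : (nbrs x ∩ D0).card + (nbrs x \ D1).card ≤ 2 * d := by
      rw [← card_nbrs x, ← Finset.card_union_of_disjoint]
      · exact Finset.card_le_card (Finset.union_subset Finset.inter_subset_left
          Finset.sdiff_subset)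
      · rw [Finset.disjoint_left]
        intro z hz hz'
        exact (Finset.mem_sdiff.1 hz').2 (h01 (Finset.mem_inter.1 hz).2)
    have had : D0.card < N0 → Adm (D0.card + 1) (eE D0 + (nbrs x ∩ D0).card)
        (D1.card + (nbrs x \ D1).card) := by
      intro _
      rw [← hci x D0 hx0, ← eE_insert hx0, ← hcu]
      refine hadm _ _ (Finset.insert_nonempty _ _) ?_ ?_
      · exact Finset.insert_subset (Finset.mem_union_left _ hx1)
          (h01.trans Finset.subset_union_left)
      · intro y hy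
        rcases Finset.mem_insert.1 hy with rfl | hy
        · exact Finset.subset_union_right
        · exact (hnb y hy).trans Finset.subset_union_left
    have := q1 _ hδ _ hδj _ hj2 _ hj3 (card_union_le' x h12) (card_union_le' x h23) had
    rw [hg1]
    linarith
  have s2 : ((D2.card : ℝ) - D1.card) * (A2 - P) +
      b2 * ∑ x ∈ D2 \ D1, ((nbrs x \ D2).card : ℝ) + b3 * ∑ x ∈ D2 \ D1, ((nbrs x \ D3).card : ℝ) ≤
      ∑ x ∈ D2 \ D1, g2 x := by
    have hcard : ((D2 \ D1).card : ℝ) = (D2.card : ℝ) - D1.card := by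
      rw [Finset.card_sdiff_of_subset h12, Nat.cast_sub hn2]
    have : ((D2.card : ℝ) - D1.card) * (A2 - P) +
      b2 * ∑ x ∈ D2 \ D1, ((nbrs x \ D2).card : ℝ) + b3 * ∑ x ∈ D2 \ D1, ((nbrs x \ D3).card : ℝ) =
        ∑ x ∈ D2 \ D1, ((A2 - P) +
          b2 * ((nbrs x \ D2).card : ℝ) + b3 * ((nbrs x \ D3).card : ℝ)) := by
      rw [Finset.sum_add_distrib, Finset.sum_add_distrib, Finset.sum_const,
        nsmul_eq_mul, ← Finset.mul_sum, ← Finset.mul_sum, hcard]
    rw [this]
    refine Finset.sum_le_sum fun x _ => ?_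
    have hj3 : (nbrs x \ D3).card ≤ (nbrs x \ D2).card :=
      Finset.card_le_card (Finset.sdiff_subset_sdiff le_rfl h23)
    have := q2 _ (card_sdiff_nbrs_le x D2) _ hj3 (card_union_le' x h23)
    rw [hg2]
    linarith
  have s3 : ((D3.card : ℝ) - D2.card) * (A3 - P) +
      b3 * ∑ x ∈ D3 \ D2, ((nbrs x \ D3).card : ℝ) ≤ ∑ x ∈ D3 \ D2, g3 x := by
    have hcard : ((D3 \ D2).card : ℝ) = (D3.card : ℝ) - D2.card := by
      rw [Finset.card_sdiff_of_subset h23, Nat.cast_sub hn3]
    have : ((D3.card : ℝ) - D2.card) * (A3 - P) +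
      b3 * ∑ x ∈ D3 \ D2, ((nbrs x \ D3).card : ℝ) =
        ∑ x ∈ D3 \ D2, ((A3 - P) + b3 * ((nbrs x \ D3).card : ℝ)) := by
      rw [Finset.sum_add_distrib, Finset.sum_const, nsmul_eq_mul, ← Finset.mul_sum, hcard]
    rw [this]
    refine Finset.sum_le_sum fun x _ => ?_
    have := q3 _ (card_sdiff_nbrs_le x D3)
    rw [hg3]
    linarith
  -- the boundaries
  have t2 := outE_split h01 h12 hnb2
  have t3 : ∑ x ∈ D1 \ D0, ((nbrs x \ D3).card : ℝ) + ∑ x ∈ D2 \ D1, ((nbrs x \ D3).card : ℝ) +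
      ∑ x ∈ D3 \ D2, ((nbrs x \ D3).card : ℝ) = outE D3 := by
    have a1 := outE_split (h01.trans h12) h23 hnb3
    have a2 : ∑ x ∈ D2 \ D0, ((nbrs x \ D3).card : ℝ) =
        ∑ x ∈ D1 \ D0, ((nbrs x \ D3).card : ℝ) + ∑ x ∈ D2 \ D1, ((nbrs x \ D3).card : ℝ) := by
      have hd : D2 \ D0 = (D1 \ D0) ∪ (D2 \ D1) := by
        ext z
        simp only [Finset.mem_sdiff, Finset.mem_union]
        constructor
        · rintro ⟨hz2, hz0⟩
          by_cases hz1 : z ∈ D1
          · exact Or.inl ⟨hz1, hz0⟩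
          · exact Or.inr ⟨hz2, hz1⟩
        · rintro (⟨hz1, hz0⟩ | ⟨hz2, hz1⟩)
          · exact ⟨h12 hz1, hz0⟩
          · exact ⟨hz2, fun hz0 => hz1 (h01 hz0)⟩
      rw [hd, Finset.sum_union]
      rw [Finset.disjoint_left]
      intro z hz hz'
      exact (Finset.mem_sdiff.1 hz').2 (Finset.mem_sdiff.1 hz).1
    rw [a2] at a1
    exact a1
  have u1 := mul_le_mul_of_nonneg_left e1 pb1
  have u2 := mul_le_mul_of_nonneg_left e2 pb2
  have u3 := mul_le_mul_of_nonneg_left e3 pb3
  rw [← t2] at u2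
  rw [← t3] at u3
  rw [mul_add] at u2
  rw [mul_add, mul_add] at u3
  have ho : (outE D0 : ℝ) = ((2 * d : ℕ) : ℝ) * D0.card - 2 * eE D0 := by
    rw [outE_eq]; push_cast; ring
  rw [← ho] at hc
  -- choose the rings of the highest set or not
  have hsplit : ∀ f : Site d → ℝ, ∑ x ∈ D3, f x = ∑ x ∈ D0, f x + ∑ x ∈ D1 \ D0, f x +
      ∑ x ∈ D2 \ D1, f x + ∑ x ∈ D3 \ D2, f x := by
    intro f
    rw [← Finset.sum_sdiff h23, ← Finset.sum_sdiff h12, ← Finset.sum_sdiff h01]
    ring
  have hpos : ∃ t : ℝ, (t = 0 ∨ t = 1) ∧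
      θ * ((D0.card : ℝ) * (A0 - P) + b0 * outE D0) ≤ t * ∑ x ∈ D0, g0 x := by
    rcases le_or_gt 0 ((D0.card : ℝ) * (A0 - P) + b0 * outE D0) with h | h
    · refine ⟨1, Or.inr rfl, ?_⟩
      have := mul_le_mul_of_nonneg_right hθ1 h
      linarith
    · refine ⟨0, Or.inl rfl, ?_⟩
      have := mul_nonneg hθ0 (neg_nonneg.2 h.le)
      linarith
  obtain ⟨t, ht, hpos⟩ := hpos
  refine ⟨fun x => if x ∈ D0 then t * g0 x else if x ∈ D1 then g1 x else if x ∈ D2 then g2 x
    else g3 x, ?_, ?_⟩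
  · rw [hsplit]
    have r0 : ∑ x ∈ D0, (if x ∈ D0 then t * g0 x else if x ∈ D1 then g1 x else
        if x ∈ D2 then g2 x else g3 x) = t * ∑ x ∈ D0, g0 x := by
      rw [Finset.mul_sum]
      exact Finset.sum_congr rfl fun x hx => if_pos hx
    have r1 : ∑ x ∈ D1 \ D0, (if x ∈ D0 then t * g0 x else if x ∈ D1 then g1 x else
        if x ∈ D2 then g2 x else g3 x) = ∑ x ∈ D1 \ D0, g1 x := by
      refine Finset.sum_congr rfl fun x hx => ?_
      obtain ⟨a, b⟩ := Finset.mem_sdiff.1 hx
      rw [if_neg b, if_pos a]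
    have r2 : ∑ x ∈ D2 \ D1, (if x ∈ D0 then t * g0 x else if x ∈ D1 then g1 x else
        if x ∈ D2 then g2 x else g3 x) = ∑ x ∈ D2 \ D1, g2 x := by
      refine Finset.sum_congr rfl fun x hx => ?_
      obtain ⟨a, b⟩ := Finset.mem_sdiff.1 hx
      rw [if_neg fun h => b (h01 h), if_neg b, if_pos a]
    have r3 : ∑ x ∈ D3 \ D2, (if x ∈ D0 then t * g0 x else if x ∈ D1 then g1 x else
        if x ∈ D2 then g2 x else g3 x) = ∑ x ∈ D3 \ D2, g3 x := by
      refine Finset.sum_congr rfl fun x hx => ?_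
      obtain ⟨a, b⟩ := Finset.mem_sdiff.1 hx
      rw [if_neg fun h => b (h12 (h01 h)), if_neg fun h => b (h12 h), if_neg b]
    rw [r0, r1, r2, r3]
    linarith
  · intro x hx
    by_cases hx0 : x ∈ D0
    · simp only [if_pos hx0]
      rcases ht with ht | ht
      · left; rw [ht, zero_mul]
      · rw [ht, one_mul]; exact G0 x hx0
    · by_cases hx1 : x ∈ D1
      · simp only [if_neg hx0, if_pos hx1]
        exact G1 x (Finset.mem_sdiff.2 ⟨hx1, hx0⟩)
      · by_cases hx2 : x ∈ D2
        · simp only [if_neg hx0, if_neg hx1, if_pos hx2]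
          exact G2 x (Finset.mem_sdiff.2 ⟨hx2, hx1⟩)
        · simp only [if_neg hx0, if_neg hx1, if_neg hx2]
          exact G3 x (Finset.mem_sdiff.2 ⟨hx, hx2⟩)

end Pool.Agent.Lib.MP_67d80e_pr_all
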