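import Pool.Agent.Lib.MP_67d80e_pr_all.PotA
import Pool.Agent.Lib.MP_67d80e_pr.Decor
import Pool.Agent.Lib.MP_67d80e_pr.Stat
import Pool.Agent.Lib.MP_67d80e_pr.Sym

set_option autoImplicit false
set_option linter.unusedSectionVars false

open scoped BigOperators ENNReal NNReal
open Filter MeasureTheory Topology
open Pool.Agent.Lib.MP_67d80e_pr

namespace Pool.Agent.Lib.MP_67d80e_pr_all

variable {d n : ℕ}

/-! ### the strategies -/

/-- the highest level of the dual droplet, and a site where it is attained -/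
noncomputable def kA (w : List (Site d)) : ℤ :=
  (exists_top (dr_fin w) ⟨0, mem_sp.1 (zero_mem_sp w)⟩).choose

lemma isTop_kA (w : List (Site d)) : IsTop (dr w) (kA w) :=
  (exists_top (dr_fin w) ⟨0, mem_sp.1 (zero_mem_sp w)⟩).choose_spec

noncomputable def yA (w : List (Site d)) : Site d := (isTop_kA w).2.choose

lemma dr_yA (w : List (Site d)) : dr w (yA w) = ((kA w : ℤ) : WithBot ℤ) :=
  (isTop_kA w).2.choose_spec

lemma kA_le (w : List (Site d)) (g : Conf d) : kA w + g (yA w) ≤ act w g 0 :=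
  dr_le w g (dr_yA w).ge

lemma kA_nonneg (w : List (Site d)) : 0 ≤ kA w := by
  have h1 := (dr_nonneg (zero_mem_sp w)).trans ((isTop_kA w).1 0)
  exact_mod_cast h1

lemma exists_top_colTop (w : List (Site (n + 1))) : ∃ m, IsTop (colTop (sp w)) m := by
  refine exists_top (colTop_fin (sp w)) ⟨(0 : Site n), fun h => ?_⟩
  have h1 : (0 : WithBot ℤ) ≤ colTop (sp w) 0 := le_colTop (zero_mem_sp w)
  rw [h] at h1
  exact absurd h1 (by decide)

/-- the largest coordinate of the support, and a site where it is attained -/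
noncomputable def kB (w : List (Site (n + 1))) : ℤ := (exists_top_colTop w).choose

lemma isTop_kB (w : List (Site (n + 1))) : IsTop (colTop (sp w)) (kB w) :=
  (exists_top_colTop w).choose_spec

lemma exists_yB (w : List (Site (n + 1))) : ∃ z, z ∈ sp w ∧ z 0 = kB w := by
  obtain ⟨y, hy⟩ := (isTop_kB w).2
  have hne : colTop (sp w) y ≠ ⊥ := by rw [hy]; exact WithBot.coe_ne_bot
  obtain ⟨z, hz, -, h2⟩ := exists_of_colTop hne
  refine ⟨z, hz, ?_⟩
  rw [hy] at h2
  have : kB w = z 0 := by exact_mod_cast h2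
  exact this.symm

noncomputable def yB (w : List (Site (n + 1))) : Site (n + 1) := (exists_yB w).choose

lemma yB_mem (w : List (Site (n + 1))) : yB w ∈ sp w := (exists_yB w).choose_spec.1

lemma yB_zero (w : List (Site (n + 1))) : yB w 0 = kB w := (exists_yB w).choose_spec.2

lemma yB_le (w : List (Site (n + 1))) (g : Conf (n + 1)) : g (yB w) ≤ act w g 0 := by
  have h1 : ((0 : ℤ) : WithBot ℤ) ≤ dr w (yB w) := dr_nonneg (yB_mem w)
  have := dr_le w g h1
  linarith

lemma kB_nonneg (w : List (Site (n + 1))) : 0 ≤ kB w := by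
  have h1 : (0 : WithBot ℤ) ≤ colTop (sp w) 0 := le_colTop (zero_mem_sp w)
  have h2 := h1.trans ((isTop_kB w).1 0)
  exact_mod_cast h2

/-! ### reflection -/

/-- the sign change of the first coordinate -/
def sε : Fin (n + 1) → ℤˣ := Function.update 1 0 (-1)

/-- the reflection -/
def rfl0 (x : Site (n + 1)) : Site (n + 1) := signedPerm 1 sε x

lemma rfl0_rfl0 (x : Site (n + 1)) : rfl0 (rfl0 x) = x := signedPerm_one_invol _ _

lemma rfl0_zero : rfl0 (0 : Site (n + 1)) = 0 := signedPerm_zero _ _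

lemma rfl0_apply_zero (x : Site (n + 1)) : rfl0 x 0 = - x 0 := by
  simp [rfl0, signedPerm, sε]

lemma rfl0_eq_iff {x y : Site (n + 1)} : rfl0 x = y ↔ x = rfl0 y := by
  constructor
  · rintro rfl; rw [rfl0_rfl0]
  · rintro rfl; rw [rfl0_rfl0]

lemma rfl0_mem_nbrs {x y : Site (n + 1)} (h : y ∈ nbrs x) : rfl0 y ∈ nbrs (rfl0 x) := by
  have h1 : ∀ i : Fin (n + 1), rfl0 (e i) = e i ∨ rfl0 (e i) = - e i := by
    intro i
    rcases signedPerm_e_cases (1 : Equiv.Perm (Fin (n + 1))) sε i with h | h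
    · exact Or.inl h
    · exact Or.inr h
  obtain ⟨i, h | h⟩ := mem_nbrs.1 h
  · rw [h]
    unfold rfl0
    rw [signedPerm_add]
    rcases h1 i with h2 | h2
    · unfold rfl0 at h2; rw [h2]; exact add_mem_nbrs _ _
    · unfold rfl0 at h2; rw [h2, ← sub_eq_add_neg]; exact sub_mem_nbrs _ _
  · rw [h]
    unfold rfl0
    rw [signedPerm_sub]
    rcases h1 i with h2 | h2
    · unfold rfl0 at h2; rw [h2]; exact sub_mem_nbrs _ _
    · unfold rfl0 at h2; rw [h2, sub_neg_eq_add]; exact add_mem_nbrs _ _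

lemma rfl0_mem_nbrs_iff {x y : Site (n + 1)} : rfl0 y ∈ nbrs (rfl0 x) ↔ y ∈ nbrs x := by
  refine ⟨fun h => ?_, rfl0_mem_nbrs⟩
  have := rfl0_mem_nbrs h
  rwa [rfl0_rfl0, rfl0_rfl0] at this

/-- the reflected word -/
def rfw (w : List (Site (n + 1))) : List (Site (n + 1)) := w.map rfl0

lemma dr_rfw (w : List (Site (n + 1))) (z : Site (n + 1)) : dr (rfw w) z = dr w (rfl0 z) := by
  induction w generalizing z with
  | nil =>
    change dr0 z = dr0 (rfl0 z)
    by_cases hz : z = 0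
    · rw [hz, rfl0_zero]
    · have : rfl0 z ≠ 0 := by
        intro h
        rw [rfl0_eq_iff, rfl0_zero] at h
        exact hz h
      rw [dr0_ne hz, dr0_ne this]
  | cons x w ih =>
    change upd {rfl0 x} (dr (rfw w)) z = upd {x} (dr w) (rfl0 z)
    rw [upd_single, upd_single, ih, ih, rfl0_rfl0]
    have h1 : z = rfl0 x ↔ rfl0 z = x := rfl0_eq_iff.symm
    have h2 : z ∈ nbrs (rfl0 x) ↔ rfl0 z ∈ nbrs x := by
      rw [← rfl0_mem_nbrs_iff, rfl0_rfl0]
    simp only [h1, h2]

lemma rfl0_mem_box {R : ℕ} {x : Site (n + 1)} : rfl0 x ∈ box (n + 1) R ↔ x ∈ box (n + 1) R := by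
  rw [mem_box, mem_box]
  refine forall_congr' fun i => ?_
  have : |rfl0 x i| = |x i| := by
    unfold rfl0 signedPerm
    rcases Int.units_eq_one_or ((sε : Fin (n + 1) → ℤˣ) i) with h | h
    · rw [h]; simp
    · rw [h]; simp
  rw [this]

lemma W_rfw (R J : ℕ) (Ψ : List (Site (n + 1)) → ℝ) : W R J (fun w => Ψ (rfw w)) = W R J Ψ := by
  induction J generalizing Ψ with
  | zero => rfl
  | succ J ih =>
    rw [W_succ, W_succ]
    congr 1
    have h1 : ∀ x ∈ box (n + 1) R, W R J (fun w => Ψ (rfw (x :: w))) =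
        W R J (fun w => Ψ (rfl0 x :: w)) := by
      intro x _
      exact ih (fun w => Ψ (rfl0 x :: w))
    rw [Finset.sum_congr rfl h1]
    refine Finset.sum_nbij' rfl0 rfl0 (fun x hx => rfl0_mem_box.2 hx)
      (fun x hx => rfl0_mem_box.2 hx) (fun x _ => rfl0_rfl0 x) (fun x _ => rfl0_rfl0 x)
      fun x _ => rfl

lemma kA_rf_le (w : List (Site (n + 1))) (g : Conf (n + 1)) :
    kA (rfw w) + g (rfl0 (yA (rfw w))) ≤ act w g 0 := by
  refine dr_le w g ?_
  rw [← dr_rfw, dr_yA]

/-! ### the mean of the strategies -/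

lemma corr_le {Pot : Dr d → ℝ} {c K : ℝ} (hc : 0 ≤ c)
    (htop : ∀ (a : Dr d) (m : ℤ), Good a → IsTop a m → |Pot a - m| ≤ K)
    {a : Dr d} (ha : a = dr0 ∨ Good a) (h0 : 0 ≤ a 0) {m : ℤ} (hm : IsTop a m) :
    corr Pot c a ≤ m + (K + 1) := by
  have hm0 : (0 : ℤ) ≤ m := by exact_mod_cast h0.trans (hm.1 0)
  have hm0' : (0 : ℝ) ≤ m := by exact_mod_cast hm0
  unfold corr
  split_ifs with h
  · have htop1 : IsTop (dr1 : Dr d) 1 := by
      refine ⟨fun z => ?_, 0, dr1_zero⟩
      unfold dr1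
      rw [upd_single]
      split_ifs with h1 h2
      · rw [dr0_zero]; exact le_rfl
      · rw [dr0_ne h1, dr0_zero]
        exact_mod_cast (by decide : max (⊥ : WithBot ℤ) 0 ≤ 1)
      · rw [dr0_ne h1]; exact bot_le
    have h1 := (abs_le.1 (htop dr1 1 good_dr1 htop1)).2
    push_cast at h1
    linarith
  · have h1 := (abs_le.1 (htop a m (ha.resolve_left h) hm)).2
    linarith

/-- the lower bound for a process -/
lemma W_proc_ge {D : ℕ} {c : ℝ} (h : HasLB d c) {A : List (Site D) → Dr d} (hA : IsProc A)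
    {k : List (Site D) → ℤ} (hk : ∀ w, IsTop (A w) (k w)) :
    ∃ C : ℝ, 0 ≤ C ∧ ∀ R J : ℕ, max c 0 * (J / (box D R).card) *
      (1 - ((2 : ℝ) ^ (R + 1))⁻¹ * Real.exp (4 * D * (J / (box D R).card))) - C ≤
        W R J (fun w => (k w : ℝ)) := by
  obtain ⟨Pot, K, htop, hmono, hdrift⟩ := h
  have hdrift' : ∀ a : Dr d, Good a → ∀ s : Finset (Site d), (∀ z, z ∈ s ↔ a z ≠ ⊥) →
      max c 0 ≤ ∑ x ∈ s, (Pot (upd {x} a) - Pot a) := by
    intro a ha s hs
    refine max_le (hdrift a ha s hs) (Finset.sum_nonneg fun x _ => ?_)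
    exact sub_nonneg.2 (hmono _ _ ha (ha.upd x) (le_upd _ _))
  have hc : (0 : ℝ) ≤ max c 0 := le_max_right _ _
  have hD := isDrift_of_LB hc hmono hdrift' hA
  set P := corr Pot (max c 0) with hP
  refine ⟨|P dr0| + |K + 1|, by positivity, fun R J => ?_⟩
  have h1 := hD.W_ge hc R J
  have h2 : W R J (fun w => P (A w)) ≤ W R J ((fun w => (k w : ℝ)) + (fun _ => K + 1)) := by
    refine W_mono R J fun w => ?_
    simp only [Pi.add_apply]
    exact corr_le hc htop (hA.good w) (hA.nonneg w) (hk w)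
  rw [map_add, W_const] at h2
  simp only [hA.nil] at h1
  have h3 := neg_abs_le (P dr0)
  have h4 := le_abs_self (K + 1)
  linarith

/-! ### the growth inequality in the limit -/

section
variable {μ : Measure (Conf (n + 1))} {U : Ultrafilter ℕ} (hμ : IsLim (0 : Fin (n + 1)) μ U)
  (k : List (Site (n + 1)) → ℤ) (y : List (Site (n + 1)) → Site (n + 1))
  (hk : ∀ w (g : Conf (n + 1)), k w + g (y w) ≤ act w g 0)

/-- the positive part of the difference of two strategies -/
noncomputable def gap (k : List (Site (n + 1)) → ℤ) (y : List (Site (n + 1)) → Site (n + 1))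
    (w : List (Site (n + 1))) : Fn (n + 1) :=
  fun g => max ((k w : ℝ) + g (y w) - g (yB w)) 0

lemma gap_local (w : List (Site (n + 1))) : IsLocal (gap k y w) :=
  ⟨{y w, yB w}, fun g h hgh => by
    unfold gap
    rw [hgh (y w) (by simp), hgh (yB w) (by simp)]⟩

include hk in
lemma act_gap (w : List (Site (n + 1))) (g : Conf (n + 1)) :
    (g (yB w) : ℝ) + gap k y w g ≤ act w g 0 := by
  have h3 : ((k w : ℤ) + g (y w) : ℝ) ≤ act w g 0 := by exact_mod_cast hk w g
  have h4 : (g (yB w) : ℝ) ≤ act w g 0 := by exact_mod_cast yB_le w g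
  unfold gap
  rcases max_cases ((k w : ℝ) + g (y w) - g (yB w)) 0 with ⟨h5, -⟩ | ⟨h5, -⟩
  · rw [h5]
    linarith
  · rw [h5]
    linarith

include hμ hk

/-- the growth inequality in the limit, truncated -/
lemma limit_trunc {V : ℝ} (hV : HasUB n V) (R I K : ℕ) :
    W R I (fun w => (kB w : ℝ) + ∫ g, min (gap k y w g) K ∂μ) ≤
      V * (I / (box (n + 1) R).card) := by
  obtain ⟨C, N0, hC⟩ := hV R I
  have h1 : ∀ᶠ N in (U : Filter ℕ), W R I (fun w => (kB w : ℝ) +
      cesN 0 N (fun h => min (gap k y w (recenter h)) K)) ≤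
      V * (I / (box (n + 1) R).card) + C / (N + 1) := by
    have h2 : ∀ᶠ N in (U : Filter ℕ), N0 ≤ N := hμ.le (eventually_ge_atTop N0)
    filter_upwards [h2] with N hN
    refine le_trans ?_ (hC N hN)
    have h5 : (fun g => W R I (fun w => ((g (yB w)) : ℝ) - g 0 +
        min (gap k y w (recenter g)) K) : Fn (n + 1)) ≤ (PB (n + 1) R ^ I) (hgt 0) - hgt 0 := by
      intro g
      rw [Pi.sub_apply, PB_pow_apply]
      have h6 : W R I (fun w => hgt 0 (act w g)) - hgt 0 g =
          W R I ((fun w => hgt 0 (act w g)) - (fun _ => hgt 0 g)) := by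
        rw [map_sub, W_const]
      rw [h6]
      refine W_mono R I fun w => ?_
      have h7 := act_gap k y hk w g
      have h8 : gap k y w (recenter g) = gap k y w g := by
        unfold gap recenter
        push_cast
        congr 1
        ring
      have h9 := min_le_left (gap k y w g) (K : ℝ)
      simp only [Pi.sub_apply, hgt]
      rw [h8]
      linarith
    refine le_trans (le_of_eq ?_) (cesN_mono 0 N h5)
    rw [W_exchange]
    congr 1
    ext w
    have h6 : (fun g => ((g (yB w)) : ℝ) - g 0 + min (gap k y w (recenter g)) K : Fn (n + 1)) =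
        (hgt (yB w) - hgt 0) + (fun g => min (gap k y w (recenter g)) K) := rfl
    rw [h6, map_add]
    have h7 := ces_hgt_sub (N + 1) (0 : Fin (n + 1)) (JN_pos (n + 1) N) (yB w)
    unfold cesN
    rw [h7, yB_zero]
  have h2 : Tendsto (fun N => W R I (fun w => (kB w : ℝ) +
      cesN 0 N (fun h => min (gap k y w (recenter h)) K))) U
      (𝓝 (W R I (fun w => (kB w : ℝ) + ∫ g, min (gap k y w g) K ∂μ))) := by
    refine W_tendsto R I fun w => ?_
    refine Tendsto.const_add _ ?_
    refine hμ.lim (fun g => min (gap k y w g) K) ?_ ?_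
    · obtain ⟨S, hS⟩ := gap_local k y w
      exact ⟨S, fun g h hgh => by simp only; rw [hS g h hgh]⟩
    · refine ⟨K, fun h => ?_⟩
      rw [abs_of_nonneg (le_min (le_max_right _ _) (Nat.cast_nonneg K))]
      exact min_le_right _ _
  have h3 : Tendsto (fun N : ℕ => V * ((I : ℝ) / (box (n + 1) R).card) + C / (N + 1)) U
      (𝓝 (V * (I / (box (n + 1) R).card) + 0)) := by
    refine Tendsto.const_add _ ?_
    refine Tendsto.mono_left ?_ hμ.le
    have h4 : Tendsto (fun N : ℕ => C * (1 / ((N : ℝ) + 1))) atTop (𝓝 (C * 0)) :=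
      tendsto_one_div_add_atTop_nhds_zero_nat.const_mul _
    rw [mul_zero] at h4
    refine h4.congr fun N => ?_
    rw [mul_one_div]
  have h4 := le_of_tendsto_of_tendsto h2 h3 h1
  rwa [add_zero] at h4

/-- the growth inequality in the limit -/
lemma limit_ineq {V : ℝ} (hV : HasUB n V) (R I : ℕ) :
    W R I (fun w => (k w : ℝ)) +
      (∫ g, (g (e 0) : ℝ) ∂μ) * W R I (fun w => (y w 0 : ℝ)) +
      (1 - ∫ g, (g (e 0) : ℝ) ∂μ) * W R I (fun w : List (Site (n + 1)) => (kB w : ℝ)) ≤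
      V * (I / (box (n + 1) R).card) := by
  have := hμ.prob
  have hint : ∀ w, Integrable
      (fun g : Conf (n + 1) => (k w : ℝ) + g (y w) - g (yB w)) μ :=
    fun w => ((integrable_const _).add (integrable_hgt hμ _)).sub (integrable_hgt hμ _)
  have h1 : Tendsto (fun K : ℕ => W R I (fun w => (kB w : ℝ) +
      ∫ g, min (gap k y w g) K ∂μ)) atTop
      (𝓝 (W R I (fun w => (kB w : ℝ) + ∫ g, gap k y w g ∂μ))) := by
    refine W_tendsto R I fun w => ?_
    refine Tendsto.const_add _ ?_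
    have hg : Integrable (gap k y w) μ := (hint w).pos_part
    refine tendsto_integral_of_dominated_convergence (gap k y w) (fun K => ?_) hg (fun K => ?_) ?_
    · exact ((gap_local k y w).measurable.min measurable_const).aestronglyMeasurable
    · refine Filter.Eventually.of_forall fun g => ?_
      have h0 : 0 ≤ gap k y w g := le_max_right _ _
      rw [Real.norm_eq_abs, abs_of_nonneg (le_min h0 (Nat.cast_nonneg K))]
      exact min_le_left _ _
    · refine Filter.Eventually.of_forall fun g => ?_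
      obtain ⟨K0, hK0⟩ := exists_nat_ge (gap k y w g)
      refine tendsto_const_nhds.congr' ?_
      filter_upwards [eventually_ge_atTop K0] with K hK
      rw [min_eq_left]
      exact hK0.trans (by exact_mod_cast hK)
  have h2 := le_of_tendsto h1 (Filter.Eventually.of_forall fun K => limit_trunc hμ k y hk hV R I K)
  refine le_trans ?_ h2
  have h3 : W R I (fun w => (k w : ℝ)) +
      (∫ g, (g (e 0) : ℝ) ∂μ) * W R I (fun w => (y w 0 : ℝ)) +
      (1 - ∫ g, (g (e 0) : ℝ) ∂μ) * W R I (fun w : List (Site (n + 1)) => (kB w : ℝ)) =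
      W R I ((fun w => (k w : ℝ)) + (∫ g, (g (e 0) : ℝ) ∂μ) • (fun w => (y w 0 : ℝ)) +
        (1 - ∫ g, (g (e 0) : ℝ) ∂μ) • (fun w : List (Site (n + 1)) => (kB w : ℝ))) := by
    rw [map_add, map_add, map_smul, map_smul, smul_eq_mul, smul_eq_mul]
  rw [h3]
  refine W_mono R I fun w => ?_
  have h4 : ∫ g, ((k w : ℝ) + g (y w) - g (yB w)) ∂μ ≤ ∫ g, gap k y w g ∂μ :=
    integral_mono (hint w) (hint w).pos_part fun g => le_max_left _ _
  have e1 : Integrable (fun g : Conf (n + 1) => (k w : ℝ) + g (y w)) μ :=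
    (integrable_const _).add (integrable_hgt hμ _)
  have h5 : ∫ g, ((k w : ℝ) + g (y w) - g (yB w)) ∂μ =
      k w + ∫ g, (g (y w) : ℝ) ∂μ - ∫ g, (g (yB w) : ℝ) ∂μ := by
    rw [integral_sub e1 (integrable_hgt hμ _),
      integral_add (integrable_const _) (integrable_hgt hμ _)]
    simp
  rw [h5, integral_hgt hμ (y w), integral_hgt hμ (yB w), yB_zero] at h4
  simp only [Pi.add_apply, Pi.smul_apply, smul_eq_mul]
  linarith

end

/-- the slope is positive -/
theorem slope_pos_all {c0 c1 V : ℝ} (h0 : HasLB n c0) (h1 : HasLB (n + 1) c1) (hV : HasUB n V)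
    (hcrit : V < c1 + c0) {μ : Measure (Conf (n + 1))} {U : Ultrafilter ℕ}
    (hμ : IsLim (0 : Fin (n + 1)) μ U) : 0 < ∫ g, (g (e 0) : ℝ) ∂μ := by
  by_contra hcon
  rw [not_lt] at hcon
  set σ : ℝ := ∫ g, (g (e 0) : ℝ) ∂μ with hσ
  obtain ⟨C1, hC1, hA⟩ := W_proc_ge h1 isProc_dr isTop_kA
  obtain ⟨C0, hC0, hB⟩ := W_proc_ge h0 isProc_colTop isTop_kB
  set b1 : ℝ := max c1 0 with hb1
  set b0 : ℝ := max c0 0 with hb0
  have hb1' : 0 ≤ b1 := le_max_right _ _
  have hb0' : 0 ≤ b0 := le_max_right _ _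
  have hδ : 0 < b1 + b0 - V := by
    have e1 := le_max_left c1 0
    have e0 := le_max_left c0 0
    linarith
  set δ : ℝ := b1 + b0 - V with hδ'
  -- the time
  obtain ⟨t, ht⟩ := exists_nat_gt ((C1 + C0 + 1) / δ)
  have ht1 : C1 + C0 + 1 < δ * t := by
    rw [div_lt_iff₀ hδ] at ht
    linarith
  -- the box
  set M : ℝ := (b1 + b0) * t * Real.exp (4 * ((n + 1 : ℕ) : ℝ) * t) with hM
  have hM0 : 0 ≤ M := by positivity
  obtain ⟨R, hR⟩ := exists_nat_gt M
  have hR2 : ((2 : ℝ) ^ (R + 1))⁻¹ * M < 1 := by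
    rw [inv_mul_lt_iff₀ (by positivity), mul_one]
    refine hR.trans ?_
    have : R < 2 ^ (R + 1) := Nat.lt_of_lt_of_le Nat.lt_two_pow_self
      (Nat.pow_le_pow_right (by norm_num) (Nat.le_succ R))
    exact_mod_cast this
  have hm0 : (0 : ℝ) < (box (n + 1) R).card := by exact_mod_cast card_box_pos (d := n + 1) R
  set I : ℕ := t * (box (n + 1) R).card with hI
  have hIt : (I : ℝ) / (box (n + 1) R).card = t := by
    rw [hI]
    push_cast
    field_simp
  have hA' := hA R I
  have hB' := hB R I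
  have g1 := limit_ineq hμ kA yA kA_le hV R I
  have g2 := limit_ineq hμ (fun w => kA (rfw w)) (fun w => rfl0 (yA (rfw w))) kA_rf_le hV R I
  have e1 : W R I (fun w : List (Site (n + 1)) => ((kA (rfw w) : ℤ) : ℝ)) = W R I (fun w : List (Site (n + 1)) => (kA w : ℝ)) :=
    W_rfw R I (fun w : List (Site (n + 1)) => (kA w : ℝ))
  have e2 : W R I (fun w : List (Site (n + 1)) => ((rfl0 (yA (rfw w)) 0 : ℤ) : ℝ)) =
      - W R I (fun w : List (Site (n + 1)) => (yA w 0 : ℝ)) := by
    have h3 := W_rfw R I (fun w : List (Site (n + 1)) => -(yA w 0 : ℝ))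
    have h4 : (fun w : List (Site (n + 1)) => -(yA w 0 : ℝ)) = -(fun w => (yA w 0 : ℝ) : List (Site (n + 1)) → ℝ) := rfl
    have h5 : (fun w : List (Site (n + 1)) => ((rfl0 (yA (rfw w)) 0 : ℤ) : ℝ)) = fun w => -(yA (rfw w) 0 : ℝ) := by
      ext w
      rw [rfl0_apply_zero]
      push_cast
      ring
    rw [h5, h3, h4, map_neg]
  rw [e1, e2] at g2
  rw [← hσ, hIt] at g1 g2
  rw [hIt] at hA' hB'
  have hBn : 0 ≤ W R I (fun w : List (Site (n + 1)) => (kB w : ℝ)) := W_nonneg R I fun w => by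
    exact_mod_cast kB_nonneg w
  have h3 : W R I (fun w : List (Site (n + 1)) => (kB w : ℝ)) ≤ (1 - σ) * W R I (fun w : List (Site (n + 1)) => (kB w : ℝ)) := by
    nlinarith
  have h4 : W R I (fun w : List (Site (n + 1)) => (kA w : ℝ)) + W R I (fun w : List (Site (n + 1)) => (kB w : ℝ)) ≤ V * t := by linarith
  set E : ℝ := ((2 : ℝ) ^ (R + 1))⁻¹ * Real.exp (4 * ((n + 1 : ℕ) : ℝ) * t) with hE
  have h5 : (b1 + b0) * t * E < 1 := by
    have : (b1 + b0) * t * E = ((2 : ℝ) ^ (R + 1))⁻¹ * M := by rw [hE, hM]; ring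
    rw [this]
    exact hR2
  have h6 : b1 * t * (1 - E) + b0 * t * (1 - E) = (b1 + b0) * t - (b1 + b0) * t * E := by ring
  have h7 : δ * t = (b1 + b0) * t - V * t := by rw [hδ']; ring
  linarith

lemma genInv_of_isLim' {i0 : Fin d} {μ : Measure (Conf d)} {U : Ultrafilter ℕ}
    (hμ : IsLim i0 μ U) : GenInv μ :=
  fun _ _ _ hG hS hGb hv => gen_zero hμ hG hS hGb hv

/-- the criterion -/
theorem crit_all : CritStmt := by
  intro n c0 c1 V h0 h1 hV hcrit
  obtain ⟨μ, U, g1, g2, g3⟩ := exists_limit (l := 1) one_pos (0 : Fin (n + 1))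
  have hμ : IsLim (0 : Fin (n + 1)) μ U := ⟨g1, g2, g3⟩
  have hs := slope_pos_all h0 h1 hV hcrit hμ
  have hp := hμ.prob
  constructor
  · refine ⟨0, μ, isStationary_of_genInv hμ.prob (genInv_of_isLim' hμ) (by omega) (ae_zero hμ),
      integrable_hgt hμ, fun y => ?_, fun i hi => integral_hgt_lateral hμ hi, hs⟩
    have h1 := map_trans hμ y
    have h2 : (fun g : Conf (n + 1) => recenter (Pool.Agent.Lib.MP_67d80e_pr.trans y g)) =
        fun g x => g (x + y) - g y := by
      funext g x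
      simp [recenter, Pool.Agent.Lib.MP_67d80e_pr.trans]
    rwa [h2] at h1
  · obtain ⟨φ, hφ, ε, hε, x, y, hxy, hcov⟩ :=
      decor_fails (map_trans hμ) (integrable_hgt hμ) (ae_zero hμ) 0 hs
    refine ⟨symM μ, isStationary_of_genInv prob_symM (genInv_symM (genInv_of_isLim' hμ))
      (by omega) (ae_zero_symM (ae_zero hμ)), integrable_hgt_symM (integrable_hgt hμ),
      fun y => ?_, fun π ε => map_sact_symM (π, ε), φ, φ, hφ, hφ, ε, hε, x, y, hxy, hcov⟩
    have h1 := map_trans_symM (map_trans hμ) y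
    have h2 : (fun g : Conf (n + 1) => recenter (Pool.Agent.Lib.MP_67d80e_pr.trans y g)) =
        fun g x => g (x + y) - g y := by
      funext g x
      simp [recenter, Pool.Agent.Lib.MP_67d80e_pr.trans]
    rwa [h2] at h1

end Pool.Agent.Lib.MP_67d80e_pr_all
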