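import Pool.Agent.Lib.MP_67d80e_pr_all.Crit
import Pool.Agent.Lib.MP_67d80e_pr.Final

/-!
The criterion, all directions of the tilt.
-/

set_option autoImplicit false
set_option linter.unusedSectionVars false

open scoped BigOperators ENNReal NNReal Nat
open Filter MeasureTheory Topology
open Pool.Agent.Lib.MP_67d80e_pr

namespace Pool.Agent.Lib.MP_67d80e_pr_all

variable {d : ℕ}

/-- a tilted stationary distribution in every direction -/
def TiltedAll (d : ℕ) : Prop :=
  ∀ i : Fin d, ∃ μ : Measure (Conf d),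
    IsStationary μ ∧ (∀ x, Integrable (fun g : Conf d => (g x : ℝ)) μ) ∧
      (∀ y, μ.map (fun g x => g (x + y) - g y) = μ) ∧
      0 < ∫ g, (g (e i) : ℝ) ∂μ ∧ ∀ j, j ≠ i → ∫ g, (g (e j) : ℝ) ∂μ = 0

section
variable {μ : Measure (Conf d)} [hp : IsProbabilityMeasure μ]

lemma integral_map_sact_local (σ : SymG d) {F : Fn d} (hF : IsLocal F) :
    ∫ g, F g ∂(μ.map (sact σ)) = ∫ g, F (sact σ g) ∂μ :=
  integral_map (localMap_sact σ).measurable.aemeasurable hF.measurable.aestronglyMeasurable

lemma genInv_map_sact (hμ : GenInv μ) (σ : SymG d) : GenInv (μ.map (sact σ)) := by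
  classical
  intro S Λ G hG hS hGb hv
  have hGl : IsLocal G := ⟨S, hG⟩
  have hDl : IsLocal (fun g => ∑ x ∈ Λ, (G (ring x g) - G g)) :=
    IsLocal.sum Λ fun x _ => (hGl.comp (localMap_ring x)).sub hGl
  rw [integral_map_sact_local σ hDl]
  set G' : Fn d := fun g => G (sact σ g) with hG'
  have h2 : DepOn (S.image (sg σ)) G' := by
    intro g h hgh
    refine hG _ _ fun x hx => ?_
    exact hgh _ (Finset.mem_image_of_mem _ hx)
  have h3 := hμ (S.image (sg σ)) (Λ.image (sg σ)) G' h2 (Finset.image_subset_image hS)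
    (by obtain ⟨C, hC⟩ := hGb; exact ⟨C, fun h => hC _⟩)
    (fun c h => by rw [hG']; simp only [sact_vert, hv])
  rw [← h3]
  refine integral_congr_ae (Filter.Eventually.of_forall fun g => ?_)
  simp only
  rw [Finset.sum_image fun x _ y _ h => sg_injective σ h]
  refine Finset.sum_congr rfl fun x _ => ?_
  rw [ring_sact]

lemma ae_zero_map_sact (h0 : ∀ᵐ g ∂μ, g 0 = 0) (σ : SymG d) :
    ∀ᵐ g ∂(μ.map (sact σ)), g 0 = 0 := by
  have hms : MeasurableSet {g : Conf d | g 0 = 0} :=
    (measurable_pi_apply (0 : Site d)) (MeasurableSet.singleton 0)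
  rw [ae_map_iff (localMap_sact σ).measurable.aemeasurable hms]
  filter_upwards [h0] with g hg
  unfold sact
  rw [sg_zero]
  exact hg

lemma localMap_shift (y : Site d) :
    LocalMap (fun g : Conf d => recenter (Pool.Agent.Lib.MP_67d80e_pr.trans y g)) := by
  intro x
  refine ⟨{x + y, 0 + y}, fun g h hgh => ?_⟩
  simp only [recenter, Pool.Agent.Lib.MP_67d80e_pr.trans]
  rw [hgh (x + y) (by simp), hgh (0 + y) (by simp)]

lemma map_trans_map_sact
    (hT : ∀ y, μ.map (fun g => recenter (Pool.Agent.Lib.MP_67d80e_pr.trans y g)) = μ)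
    (σ : SymG d) (y : Site d) :
    (μ.map (sact σ)).map (fun g => recenter (Pool.Agent.Lib.MP_67d80e_pr.trans y g)) =
      μ.map (sact σ) := by
  have h1 : (μ.map (sact σ)).map (fun g => recenter (Pool.Agent.Lib.MP_67d80e_pr.trans y g)) =
      (μ.map (fun g => recenter (Pool.Agent.Lib.MP_67d80e_pr.trans (sg σ y) g))).map (sact σ) := by
    rw [Measure.map_map (localMap_shift y).measurable (localMap_sact σ).measurable,
      Measure.map_map (localMap_sact σ).measurable (localMap_shift (sg σ y)).measurable]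
    congr 1
    funext g
    exact recenter_trans_sact σ y g
  rw [h1, hT]

end

lemma sg_swap (i j k : Fin d) :
    sg (Equiv.swap i j, fun _ => 1) (e k : Site d) = e (Equiv.swap i j k) := by
  ext l
  simp only [sg, signedPerm, Units.val_one, one_mul, e]
  by_cases h : l = Equiv.swap i j k
  · rw [h, Equiv.swap_apply_self, Pi.single_eq_same, Pi.single_eq_same]
  · rw [Pi.single_eq_of_ne h, Pi.single_eq_of_ne]
    intro h2
    exact h (by rw [← h2, Equiv.swap_apply_self])

/-- the criterion, all directions -/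
theorem crit_dir {n : ℕ} {c0 c1 U : ℝ} (h0 : HasLB n c0) (h1 : HasLB (n + 1) c1)
    (hV : HasUB n U) (hcrit : U < c1 + c0) : TiltedAll (n + 1) ∧ SymNotDecor (n + 1) := by
  refine ⟨?_, (crit_all n c0 c1 U h0 h1 hV hcrit).2⟩
  obtain ⟨μ, W, g1, g2, g3⟩ := exists_limit (l := 1) one_pos (0 : Fin (n + 1))
  have hμ : IsLim (0 : Fin (n + 1)) μ W := ⟨g1, g2, g3⟩
  have hs := slope_pos_all h0 h1 hV hcrit hμ
  have hp := hμ.prob
  intro i
  set σ : SymG (n + 1) := (Equiv.swap 0 i, fun _ => 1) with hσ
  have hps : IsProbabilityMeasure (μ.map (sact σ)) := prob_map_sact σ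
  have hint : ∀ x, Integrable (fun g : Conf (n + 1) => (g x : ℝ)) (μ.map (sact σ)) := by
    intro x
    refine (integrable_map_measure ?_ (localMap_sact σ).measurable.aemeasurable).2
      (integrable_hgt hμ (sg σ x))
    exact ((measurable_of_countable (fun z : ℤ => (z : ℝ))).comp
      (measurable_pi_apply x)).aestronglyMeasurable
  have hval : ∀ j, ∫ g, (g (e j) : ℝ) ∂(μ.map (sact σ)) =
      ∫ g, (g (e (Equiv.swap 0 i j)) : ℝ) ∂μ := by
    intro j
    have hm : AEStronglyMeasurable (fun g : Conf (n + 1) => (g (e j) : ℝ)) (μ.map (sact σ)) :=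
      ((measurable_of_countable (fun z : ℤ => (z : ℝ))).comp
      (measurable_pi_apply (e j))).aestronglyMeasurable
    rw [integral_map (localMap_sact σ).measurable.aemeasurable hm]
    refine integral_congr_ae (Filter.Eventually.of_forall fun g => ?_)
    have h2 : sact σ g (e j) = g (e (Equiv.swap 0 i j)) := by
      unfold sact
      rw [hσ, sg_swap]
    simp only [h2]
  refine ⟨μ.map (sact σ), isStationary_of_genInv hps
    (genInv_map_sact (genInv_of_isLim' hμ) σ) (by omega) (ae_zero_map_sact (ae_zero hμ) σ),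
    hint, fun y => ?_, ?_, ?_⟩
  · have h1 := map_trans_map_sact (map_trans hμ) σ y
    have h2 : (fun g : Conf (n + 1) => recenter (Pool.Agent.Lib.MP_67d80e_pr.trans y g)) =
        fun g x => g (x + y) - g y := by
      funext g x
      simp [recenter, Pool.Agent.Lib.MP_67d80e_pr.trans]
    rwa [h2] at h1
  · rw [hval, Equiv.swap_apply_right]
    exact hs
  · intro j hj
    rw [hval]
    refine integral_hgt_lateral hμ ?_
    intro h2
    have h3 : j = Equiv.swap 0 i 0 := by
      have h4 := congrArg (Equiv.swap 0 i) h2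
      rwa [Equiv.swap_apply_self] at h4
    rw [Equiv.swap_apply_left] at h3
    exact hj h3

/-- the earlier theorem, `d ≥ 360` -/
theorem crit_large {d : ℕ} (hd : 360 ≤ d) : TiltedAll d ∧ SymNotDecor d :=
  ⟨fun i => tilted_stationary hd i, sym_not_decorrelated hd⟩

end Pool.Agent.Lib.MP_67d80e_pr_all
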