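import Pool.Agent.Lib.MP_67d80e_pr_all.Supp

set_option autoImplicit false

open scoped BigOperators
open Filter MeasureTheory
open Pool.Agent.Lib.MP_67d80e_pr

namespace Pool.Agent.Lib.MP_67d80e_pr_all

variable {d : ℕ}

lemma card_nbrs_le (x : Site d) : (nbrs x).card ≤ 2 * d := by
  unfold nbrs
  refine (Finset.card_union_le _ _).trans ?_
  have h1 := Finset.card_image_le (s := (Finset.univ : Finset (Fin d))) (f := fun i => x + e i)
  have h2 := Finset.card_image_le (s := (Finset.univ : Finset (Fin d))) (f := fun i => x - e i)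
  rw [Finset.card_univ, Fintype.card_fin] at h1 h2
  omega

/-- the norm -/
def nrm (z : Site d) : ℕ := ∑ i, (z i).natAbs

lemma nrm_zero : nrm (0 : Site d) = 0 := by simp [nrm]

lemma nrm_e (i : Fin d) : nrm (e i : Site d) = 1 := by
  unfold nrm e
  rw [Finset.sum_eq_single i]
  · simp
  · intro j _ hj
    rw [Pi.single_eq_of_ne hj]
    rfl
  · intro h
    exact absurd (Finset.mem_univ _) h

lemma nrm_neg (z : Site d) : nrm (-z) = nrm z := by
  unfold nrm
  simp

lemma nrm_add_le (y z : Site d) : nrm (y + z) ≤ nrm y + nrm z := by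
  unfold nrm
  rw [← Finset.sum_add_distrib]
  exact Finset.sum_le_sum fun i _ => Int.natAbs_add_le _ _

lemma nrm_nbrs {x y : Site d} (h : y ∈ nbrs x) : nrm y ≤ nrm x + 1 := by
  obtain ⟨i, h | h⟩ := mem_nbrs.1 h
  · rw [h]
    exact (nrm_add_le _ _).trans (by rw [nrm_e])
  · rw [h, sub_eq_add_neg]
    exact (nrm_add_le _ _).trans (by rw [nrm_neg, nrm_e])

lemma natAbs_le_nrm (z : Site d) (i : Fin d) : (z i).natAbs ≤ nrm z :=
  Finset.single_le_sum (f := fun i => (z i).natAbs) (fun _ _ => Nat.zero_le _) (Finset.mem_univ i)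

/-- the exponential moment of the support -/
noncomputable def xm (w : List (Site d)) : ℝ := ∑ z ∈ sp w, (2 : ℝ) ^ nrm z

lemma xm_nonneg (w : List (Site d)) : 0 ≤ xm w := Finset.sum_nonneg fun z _ => by positivity

lemma xm_nil : xm ([] : List (Site d)) = 1 := by
  unfold xm
  rw [sp_nil, Finset.sum_singleton, nrm_zero, pow_zero]

open Classical in
lemma xm_cons_le (x : Site d) (w : List (Site d)) :
    xm (x :: w) - xm w ≤ if x ∈ sp w then 4 * d * (2 : ℝ) ^ nrm x else 0 := by
  unfold xm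
  rw [sp_cons]
  split_ifs with h
  · have h1 : ∑ z ∈ sp w ∪ nbrs x, (2 : ℝ) ^ nrm z ≤
        ∑ z ∈ sp w, (2 : ℝ) ^ nrm z + ∑ z ∈ nbrs x, (2 : ℝ) ^ nrm z := by
      rw [← Finset.sum_union_inter]
      have : 0 ≤ ∑ z ∈ sp w ∩ nbrs x, (2 : ℝ) ^ nrm z :=
        Finset.sum_nonneg fun z _ => by positivity
      linarith
    have h2 : ∑ z ∈ nbrs x, (2 : ℝ) ^ nrm z ≤ ∑ z ∈ nbrs x, (2 * (2 : ℝ) ^ nrm x) := by
      refine Finset.sum_le_sum fun z hz => ?_
      have h3 : (2 : ℝ) ^ nrm z ≤ 2 ^ (nrm x + 1) :=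
        pow_le_pow_right₀ (by norm_num) (nrm_nbrs hz)
      rw [pow_succ] at h3
      linarith
    rw [Finset.sum_const, nsmul_eq_mul] at h2
    have h3 : ((nbrs x).card : ℝ) ≤ 2 * d := by exact_mod_cast card_nbrs_le x
    have h4 : ((nbrs x).card : ℝ) * (2 * (2 : ℝ) ^ nrm x) ≤ (2 * d) * (2 * (2 : ℝ) ^ nrm x) :=
      mul_le_mul_of_nonneg_right h3 (by positivity)
    linarith
  · linarith

lemma sum_xm_le (R : ℕ) (w : List (Site d)) :
    ∑ x ∈ box d R, (xm (x :: w) - xm w) ≤ 4 * d * xm w := by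
  classical
  refine (Finset.sum_le_sum fun x _ => xm_cons_le x w).trans ?_
  rw [← Finset.sum_filter]
  unfold xm
  rw [Finset.mul_sum]
  refine Finset.sum_le_sum_of_subset_of_nonneg (fun x hx => (Finset.mem_filter.1 hx).2)
    fun x _ _ => by positivity

lemma W_xm_le (R J : ℕ) : W R J (xm (d := d)) ≤ Real.exp (4 * d * (J / (box d R).card)) := by
  have hB : (0 : ℝ) < (box d R).card := by exact_mod_cast card_box_pos (d := d) R
  induction J with
  | zero => rw [W_zero, xm_nil]; simp
  | succ J ih =>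
    have h1 := W_succ_sub R J (xm (d := d))
    have h2 : W R J (fun w => ∑ x ∈ box d R, (xm (x :: w) - xm w)) ≤
        4 * d * W R J (xm (d := d)) := by
      have h3 : (4 * (d : ℝ)) * W R J (xm (d := d)) = W R J ((4 * (d : ℝ)) • xm (d := d)) := by
        rw [map_smul, smul_eq_mul]
      rw [h3]
      exact W_mono R J fun w => sum_xm_le R w
    have h3 : W R (J + 1) (xm (d := d)) ≤
        (1 + 4 * d / (box d R).card) * W R J (xm (d := d)) := by
      have h4 := mul_le_mul_of_nonneg_left h2 (inv_nonneg.2 hB.le)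
      have h5 : ((box d R).card : ℝ)⁻¹ * (4 * d * W R J (xm (d := d))) =
          4 * d / (box d R).card * W R J (xm (d := d)) := by ring
      rw [h5] at h4
      linarith
    have h4 : (1 : ℝ) + 4 * d / (box d R).card ≤ Real.exp (4 * d / (box d R).card) := by
      have := Real.add_one_le_exp (4 * d / ((box d R).card : ℝ))
      linarith
    have h5 : 0 ≤ W R J (xm (d := d)) := W_nonneg R J xm_nonneg
    have h6 : (1 + 4 * d / (box d R).card) * W R J (xm (d := d)) ≤
        Real.exp (4 * d / (box d R).card) * Real.exp (4 * d * (J / (box d R).card)) :=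
      mul_le_mul h4 ih h5 (Real.exp_pos _).le
    rw [← Real.exp_add] at h6
    refine (h3.trans h6).trans (le_of_eq ?_)
    congr 1
    push_cast
    field_simp
    ring

open Classical in
/-- the indicator that the support is not contained in the box -/
noncomputable def bad (R : ℕ) (w : List (Site d)) : ℝ := if sp w ⊆ box d R then 0 else 1

lemma bad_le (R : ℕ) (w : List (Site d)) : bad R w ≤ ((2 : ℝ) ^ (R + 1))⁻¹ * xm w := by
  unfold bad
  split_ifs with h
  · exact mul_nonneg (by positivity) (xm_nonneg w)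
  · obtain ⟨z, hz, hzR⟩ := Finset.not_subset.1 h
    rw [mem_box, not_forall] at hzR
    obtain ⟨i, hi⟩ := hzR
    rw [not_le] at hi
    have h1 : R + 1 ≤ nrm z := by
      have h2 := natAbs_le_nrm z i
      have h3 : ((R : ℕ) : ℤ) < ((z i).natAbs : ℤ) := by rwa [Int.natCast_natAbs]
      have h4 : R < (z i).natAbs := by exact_mod_cast h3
      omega
    have h2 : (2 : ℝ) ^ (R + 1) ≤ xm w :=
      (pow_le_pow_right₀ (by norm_num) h1).trans
        (Finset.single_le_sum (f := fun z : Site d => (2 : ℝ) ^ nrm z)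
          (fun z _ => by positivity) hz)
    rw [inv_mul_eq_div, le_div_iff₀ (by positivity), one_mul]
    exact h2

lemma W_bad_le (R J : ℕ) :
    W R J (bad (d := d) R) ≤ ((2 : ℝ) ^ (R + 1))⁻¹ * Real.exp (4 * d * (J / (box d R).card)) := by
  have h1 : W R J (bad (d := d) R) ≤ W R J (((2 : ℝ) ^ (R + 1))⁻¹ • xm (d := d)) :=
    W_mono R J fun w => bad_le R w
  rw [map_smul, smul_eq_mul] at h1
  exact h1.trans (mul_le_mul_of_nonneg_left (W_xm_le R J) (by positivity))

/-- potentials on words -/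
structure IsDrift (c : ℝ) (Φ : List (Site d) → ℝ) : Prop where
  mono : ∀ x w, Φ w ≤ Φ (x :: w)
  drift : ∀ w R, sp w ⊆ box d R → c ≤ ∑ x ∈ box d R, (Φ (x :: w) - Φ w)

lemma IsDrift.W_ge {c : ℝ} (hc : 0 ≤ c) {Φ : List (Site d) → ℝ} (h : IsDrift c Φ) (R J : ℕ) :
    Φ [] + c * (J / (box d R).card) *
      (1 - ((2 : ℝ) ^ (R + 1))⁻¹ * Real.exp (4 * d * (J / (box d R).card))) ≤ W R J Φ := by
  have hB : (0 : ℝ) < (box d R).card := by exact_mod_cast card_box_pos (d := d) R
  set m : ℝ := ((box d R).card : ℝ) with hm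
  induction J with
  | zero => rw [W_zero]; simp
  | succ J ih =>
    have h1 := W_succ_sub R J Φ
    have h2 : c * (1 - ((2 : ℝ) ^ (R + 1))⁻¹ * Real.exp (4 * d * (J / m))) ≤
        W R J (fun w => ∑ x ∈ box d R, (Φ (x :: w) - Φ w)) := by
      have h3 : ((fun _ => c : List (Site d) → ℝ) - c • bad (d := d) R) ≤
          (fun w => ∑ x ∈ box d R, (Φ (x :: w) - Φ w)) := by
        intro w
        simp only [Pi.sub_apply, Pi.smul_apply, smul_eq_mul]
        unfold bad
        split_ifs with hw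
        · have := h.drift w R hw
          linarith
        · have : 0 ≤ ∑ x ∈ box d R, (Φ (x :: w) - Φ w) :=
            Finset.sum_nonneg fun x _ => sub_nonneg.2 (h.mono x w)
          linarith
      refine le_trans ?_ (W_mono R J h3)
      rw [map_sub, W_const, map_smul, smul_eq_mul]
      have h4 := mul_le_mul_of_nonneg_left (W_bad_le (d := d) R J) hc
      rw [← hm] at h4
      linarith
    have h3 := mul_le_mul_of_nonneg_left h2 (inv_nonneg.2 hB.le)
    set E0 : ℝ := ((2 : ℝ) ^ (R + 1))⁻¹ * Real.exp (4 * d * (J / m)) with hE0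
    set E1 : ℝ := ((2 : ℝ) ^ (R + 1))⁻¹ * Real.exp (4 * d * (((J + 1 : ℕ) : ℝ) / m)) with hE1
    have hE : E0 ≤ E1 := by
      rw [hE0, hE1]
      refine mul_le_mul_of_nonneg_left (Real.exp_le_exp.2 ?_) (by positivity)
      refine mul_le_mul_of_nonneg_left ?_ (by positivity)
      refine div_le_div_of_nonneg_right ?_ hB.le
      push_cast
      linarith
    have h4 : c * (((J + 1 : ℕ) : ℝ) / m) * (1 - E1) ≤ c * (((J + 1 : ℕ) : ℝ) / m) * (1 - E0) :=
      mul_le_mul_of_nonneg_left (by linarith) (by positivity)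
    have h5 : c * (((J + 1 : ℕ) : ℝ) / m) * (1 - E0) =
        c * (J / m) * (1 - E0) + m⁻¹ * (c * (1 - E0)) := by
      push_cast
      ring
    linarith

end Pool.Agent.Lib.MP_67d80e_pr_all
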