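import Pool.Agent.Lib.MP_67d80e_pr.Props

set_option autoImplicit false

open scoped BigOperators
open Filter MeasureTheory
open Pool.Agent.Lib.MP_67d80e_pr

namespace Pool.Agent.Lib.MP_67d80e_pr_all

variable {d : ℕ}

/-- the neighbours of a site -/
def nbrs (x : Site d) : Finset (Site d) :=
  (Finset.univ.image fun i => x + e i) ∪ (Finset.univ.image fun i => x - e i)

lemma mem_nbrs {x y : Site d} : y ∈ nbrs x ↔ ∃ i, y = x + e i ∨ y = x - e i := by
  unfold nbrs
  simp only [Finset.mem_union, Finset.mem_image, Finset.mem_univ, true_and]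
  constructor
  · rintro (⟨i, h⟩ | ⟨i, h⟩)
    · exact ⟨i, Or.inl h.symm⟩
    · exact ⟨i, Or.inr h.symm⟩
  · rintro ⟨i, h | h⟩
    · exact Or.inl ⟨i, h.symm⟩
    · exact Or.inr ⟨i, h.symm⟩

lemma add_mem_nbrs (x : Site d) (i : Fin d) : x + e i ∈ nbrs x := mem_nbrs.2 ⟨i, Or.inl rfl⟩

lemma sub_mem_nbrs (x : Site d) (i : Fin d) : x - e i ∈ nbrs x := mem_nbrs.2 ⟨i, Or.inr rfl⟩

lemma nbrs_symm {x y : Site d} : y ∈ nbrs x ↔ x ∈ nbrs y := by
  rw [mem_nbrs, mem_nbrs]
  constructor
  · rintro ⟨i, h | h⟩
    · exact ⟨i, Or.inr (by rw [h]; abel)⟩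
    · exact ⟨i, Or.inl (by rw [h]; abel)⟩
  · rintro ⟨i, h | h⟩
    · exact ⟨i, Or.inr (by rw [h]; abel)⟩
    · exact ⟨i, Or.inl (by rw [h]; abel)⟩

lemma e_ne_zero (i : Fin d) : (e i : Site d) ≠ 0 := by
  intro h
  have := congrFun h i
  simp [e] at this

lemma self_notMem_nbrs (x : Site d) : x ∉ nbrs x := by
  rw [mem_nbrs]
  rintro ⟨i, h | h⟩
  · exact e_ne_zero i (by simpa using h)
  · refine e_ne_zero i ?_
    have h2 : x - (x - e i) = e i := by abel
    rw [← h2, ← h, sub_self]

lemma ne_of_mem_nbrs {x y : Site d} (h : y ∈ nbrs x) : y ≠ x := by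
  rintro rfl
  exact self_notMem_nbrs _ h

/-- the heights of droplets -/
abbrev Dr (d : ℕ) := Site d → WithBot ℤ

open Classical in
/-- the droplet after a ring at the sites of `S` (going backwards in time): the sites of `S` gain
one level, the neighbours of a site of `S` are raised at least to its old level -/
noncomputable def upd (S : Set (Site d)) (a : Dr d) : Dr d := fun z =>
  max (if z ∈ S then a z + 1 else a z) ((nbrs z).sup fun y => if y ∈ S then a y else ⊥)

lemma le_add_one (b : WithBot ℤ) : b ≤ b + 1 := by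
  induction b with
  | bot => exact bot_le
  | coe b => exact_mod_cast (by omega : b ≤ b + 1)

lemma upd_le_iff {S : Set (Site d)} {a : Dr d} {z : Site d} {c : WithBot ℤ} :
    upd S a z ≤ c ↔ a z ≤ c ∧ (z ∈ S → a z + 1 ≤ c) ∧ ∀ y ∈ nbrs z, y ∈ S → a y ≤ c := by
  classical
  unfold upd
  rw [max_le_iff, Finset.sup_le_iff]
  constructor
  · rintro ⟨h1, h2⟩
    refine ⟨?_, fun hz => ?_, fun y hy hyS => ?_⟩
    · split_ifs at h1
      · exact (le_add_one _).trans h1
      · exact h1
    · rwa [if_pos hz] at h1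
    · have := h2 y hy
      rwa [if_pos hyS] at this
  · rintro ⟨h1, h2, h3⟩
    refine ⟨?_, fun y hy => ?_⟩
    · split_ifs with hz
      · exact h2 hz
      · exact h1
    · split_ifs with hyS
      · exact h3 y hy hyS
      · exact bot_le

lemma le_upd (S : Set (Site d)) (a : Dr d) (z : Site d) : a z ≤ upd S a z :=
  (upd_le_iff.1 le_rfl).1

lemma upd_self {S : Set (Site d)} {z : Site d} (h : z ∈ S) (a : Dr d) : a z + 1 ≤ upd S a z :=
  (upd_le_iff.1 le_rfl).2.1 h

lemma upd_nbr {S : Set (Site d)} {y z : Site d} (hy : y ∈ nbrs z) (h : y ∈ S) (a : Dr d) :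
    a y ≤ upd S a z :=
  (upd_le_iff.1 le_rfl).2.2 y hy h

/-- the possible values after a ring -/
lemma upd_cases (S : Set (Site d)) (a : Dr d) (z : Site d) :
    upd S a z = a z ∨ (z ∈ S ∧ upd S a z = a z + 1) ∨
      ∃ y ∈ nbrs z, y ∈ S ∧ upd S a z = a y := by
  classical
  by_cases h0 : ∃ y ∈ nbrs z, y ∈ S ∧ upd S a z = a y
  · exact Or.inr (Or.inr h0)
  · by_cases hz : z ∈ S
    · right; left
      refine ⟨hz, le_antisymm ?_ (upd_self hz a)⟩
      have h1 : upd S a z = max (a z + 1) ((nbrs z).sup fun y => if y ∈ S then a y else ⊥) := by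
        unfold upd; rw [if_pos hz]
      rw [h1]
      refine max_le le_rfl ?_
      by_contra hcon
      rw [not_le] at hcon
      have h2 : upd S a z = (nbrs z).sup fun y => if y ∈ S then a y else ⊥ := by
        rw [h1, max_eq_right hcon.le]
      have hne : (nbrs z).Nonempty := by
        by_contra hemp
        rw [Finset.not_nonempty_iff_eq_empty] at hemp
        rw [hemp, Finset.sup_empty] at hcon
        exact absurd hcon not_lt_bot
      obtain ⟨y, hy, h3⟩ := Finset.exists_mem_eq_sup _ hne (fun y => if y ∈ S then a y else ⊥)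
      by_cases hyS : y ∈ S
      · rw [h3, if_pos hyS] at h2
        exact h0 ⟨y, hy, hyS, h2⟩
      · rw [h3, if_neg hyS] at hcon
        exact absurd hcon not_lt_bot
    · left
      refine le_antisymm ?_ (le_upd S a z)
      have h1 : upd S a z = max (a z) ((nbrs z).sup fun y => if y ∈ S then a y else ⊥) := by
        unfold upd; rw [if_neg hz]
      rw [h1]
      refine max_le le_rfl ?_
      by_contra hcon
      rw [not_le] at hcon
      have h2 : upd S a z = (nbrs z).sup fun y => if y ∈ S then a y else ⊥ := by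
        rw [h1, max_eq_right hcon.le]
      have hne : (nbrs z).Nonempty := by
        by_contra hemp
        rw [Finset.not_nonempty_iff_eq_empty] at hemp
        rw [hemp, Finset.sup_empty] at hcon
        exact absurd hcon not_lt_bot
      obtain ⟨y, hy, h3⟩ := Finset.exists_mem_eq_sup _ hne (fun y => if y ∈ S then a y else ⊥)
      by_cases hyS : y ∈ S
      · rw [h3, if_pos hyS] at h2
        exact h0 ⟨y, hy, hyS, h2⟩
      · rw [h3, if_neg hyS] at hcon
        exact absurd hcon not_lt_bot

/-- one ring -/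
lemma upd_single (x : Site d) (a : Dr d) (z : Site d) :
    upd {x} a z = if z = x then a x + 1 else if z ∈ nbrs x then max (a z) (a x) else a z := by
  refine le_antisymm ?_ ?_
  · rw [upd_le_iff]
    simp only [Set.mem_singleton_iff]
    by_cases h1 : z = x
    · subst h1
      rw [if_pos rfl]
      refine ⟨le_add_one _, fun _ => le_rfl, fun y hy hyx => ?_⟩
      exact absurd (hyx ▸ hy) (self_notMem_nbrs z)
    · rw [if_neg h1]
      split_ifs with h2
      · refine ⟨le_max_left _ _, fun h => absurd h h1, fun y _ hyx => ?_⟩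
        rw [hyx]
        exact le_max_right _ _
      · refine ⟨le_rfl, fun h => absurd h h1, fun y hy hyx => ?_⟩
        rw [hyx] at hy
        exact absurd (nbrs_symm.1 hy) h2
  · by_cases h1 : z = x
    · subst h1
      rw [if_pos rfl]
      exact upd_self (Set.mem_singleton z) a
    · rw [if_neg h1]
      split_ifs with h2
      · exact max_le (le_upd _ _ _) (upd_nbr (nbrs_symm.1 h2) (Set.mem_singleton x) a)
      · exact le_upd _ _ _

lemma upd_mono {a b : Dr d} (h : ∀ z, a z ≤ b z) (S : Set (Site d)) (z : Site d) :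
    upd S a z ≤ upd S b z := by
  rw [upd_le_iff]
  refine ⟨(h z).trans (le_upd S b z), fun hz => ?_, fun y hy hyS => (h y).trans (upd_nbr hy hyS b)⟩
  refine le_trans ?_ (upd_self hz b)
  have := h z
  gcongr

lemma upd_mono_set {S T : Set (Site d)} (h : S ⊆ T) (a : Dr d) (z : Site d) :
    upd S a z ≤ upd T a z := by
  rw [upd_le_iff]
  exact ⟨le_upd T a z, fun hz => upd_self (h hz) a, fun y hy hyS => upd_nbr hy (h hyS) a⟩

/-! ### duality -/

/-- the droplet `a` dominates the functional `F` -/
def Dom (a : Dr d) (F : Conf d → ℤ) : Prop :=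
  ∀ h, ∃ (z : Site d) (n : ℤ), ((n : ℤ) : WithBot ℤ) ≤ a z ∧ F h ≤ n + h z

lemma Dom.ring {a : Dr d} {F : Conf d → ℤ} (hF : Dom a F) (S : Set (Site d)) :
    Dom (upd S a) (fun h => F (ringSet S h)) := by
  intro h
  obtain ⟨z, n, h1, h2⟩ := hF (ringSet S h)
  by_cases hz : z ∈ S
  · rw [ringSet_of_mem hz] at h2
    rcases newHeight_eq_or h z with h3 | ⟨i, h3 | h3⟩
    · refine ⟨z, n + 1, ?_, ?_⟩
      · refine le_trans ?_ (upd_self hz a)
        push_cast
        gcongr
      · rw [h3] at h2; linarith
    · refine ⟨z + e i, n, h1.trans (upd_nbr (nbrs_symm.1 (add_mem_nbrs z i)) hz a), ?_⟩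
      rw [h3] at h2; exact h2
    · refine ⟨z - e i, n, h1.trans (upd_nbr (nbrs_symm.1 (sub_mem_nbrs z i)) hz a), ?_⟩
      rw [h3] at h2; exact h2
  · rw [ringSet_of_notMem hz] at h2
    exact ⟨z, n, h1.trans (le_upd S a z), h2⟩

open Classical in
/-- the droplet of one site -/
noncomputable def dr0 : Dr d := fun z => if z = 0 then 0 else ⊥

lemma dr0_zero : (dr0 : Dr d) 0 = 0 := by simp [dr0]

lemma dr0_ne {z : Site d} (h : z ≠ 0) : (dr0 : Dr d) z = ⊥ := by simp [dr0, h]

/-- the droplet of a word -/
noncomputable def dr : List (Site d) → Dr d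
  | [] => dr0
  | x :: w => upd {x} (dr w)

lemma dom_dr (w : List (Site d)) : Dom (dr w) (fun h => act w h 0) := by
  induction w with
  | nil =>
    intro h
    refine ⟨0, 0, ?_, ?_⟩
    · simp [dr, dr0]
    · change act [] h 0 ≤ _
      rw [act_nil]; simp
  | cons x w ih =>
    have h1 := ih.ring {x}
    intro h
    obtain ⟨z, n, h2, h3⟩ := h1 h
    refine ⟨z, n, h2, ?_⟩
    change act (x :: w) h 0 ≤ _
    rw [act_cons, ring_eq_ringSet]
    exact h3

lemma newHeight_ge_nbr {g : Conf d} {x y : Site d} (h : y ∈ nbrs x) : g y ≤ newHeight g x := by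
  obtain ⟨i, h | h⟩ := mem_nbrs.1 h
  · rw [h]; exact add_le_newHeight g x i
  · rw [h]; exact sub_le_newHeight g x i

lemma dr_le (w : List (Site d)) (g : Conf d) {z : Site d} {n : ℤ}
    (h : ((n : ℤ) : WithBot ℤ) ≤ dr w z) : n + g z ≤ act w g 0 := by
  induction w generalizing g z n with
  | nil =>
    simp only [dr, dr0] at h
    split_ifs at h with hz
    · subst hz
      have : n ≤ 0 := by exact_mod_cast h
      rw [act_nil]
      linarith
    · exact absurd h (by simp)
  | cons x w ih =>
    rw [act_cons]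
    have hge : ∀ y, g y ≤ ring x g y := by
      intro y
      rw [ring_eq_ringSet]
      exact le_ringSet _ g y
    simp only [dr] at h
    rw [upd_single] at h
    split_ifs at h with h1 h2
    · subst h1
      have h2 : (((n - 1 : ℤ)) : WithBot ℤ) ≤ dr w z := by
        induction hd : dr w z with
        | bot => rw [hd] at h; simp at h
        | coe b =>
          rw [hd] at h
          have : n ≤ b + 1 := by exact_mod_cast h
          exact_mod_cast (by omega : n - 1 ≤ b)
      have h3 := ih (ring z g) h2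
      rw [ring_self] at h3
      have h4 := succ_le_newHeight g z
      linarith
    · rcases le_max_iff.1 h with h3 | h3
      · have h4 := ih (ring x g) h3
        have := hge z
        linarith
      · have h4 := ih (ring x g) h3
        rw [ring_self] at h4
        have h5 : g z ≤ newHeight g x := newHeight_ge_nbr h2
        linarith
    · have h3 := ih (ring x g) h
      have := hge z
      linarith

end Pool.Agent.Lib.MP_67d80e_pr_all
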