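import Pool.Agent.Lib.MP_67d80e_pr_all.Levels

/-!
The lower bound from four nested sets with a free reference level: the potential is automatically
monotone, so that the function of the four cardinalities only has to be bounded and monotone, and
the rings in the highest set may be ignored.
-/

set_option autoImplicit false

open scoped BigOperators
open Filter MeasureTheory
open Pool.Agent.Lib.MP_67d80e_pr

namespace Pool.Agent.Lib.MP_67d80e_pr_all

variable {d : ℕ}

open Classical in
/-- the sites of level at least `v` whose neighbours have level at least `v - 1` -/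
noncomputable def ev (a : Dr d) (v : ℤ) : Finset (Site d) :=
  (lv a v).filter fun x => ∀ y ∈ nbrs x, y ∈ lv a (v - 1)

lemma mem_ev {a : Dr d} {v : ℤ} {x : Site d} :
    x ∈ ev a v ↔ x ∈ lv a v ∧ ∀ y ∈ nbrs x, y ∈ lv a (v - 1) := by
  classical
  unfold ev
  rw [Finset.mem_filter]

lemma ev_mono {a b : Dr d} (ha : {z | a z ≠ ⊥}.Finite) (hb : {z | b z ≠ ⊥}.Finite)
    (h : ∀ z, a z ≤ b z) (v : ℤ) : ev a v ⊆ ev b v := by
  intro x hx
  rw [mem_ev] at hx ⊢
  exact ⟨lv_mono ha hb h v hx.1, fun y hy => lv_mono ha hb h _ (hx.2 y hy)⟩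

/-- the value relative to the level `v` -/
noncomputable def vL (phi : ℕ → ℕ → ℕ → ℕ → ℝ) (a : Dr d) (v : ℤ) : ℝ :=
  v + phi (ev a v).card (lv a (v - 1)).card (lv a (v - 2)).card (lv a (v - 3)).card

/-- the set of the values -/
def vals (phi : ℕ → ℕ → ℕ → ℕ → ℝ) (a : Dr d) : Set ℝ :=
  {r | ∃ v : ℤ, (ev a v).Nonempty ∧ r = vL phi a v}

/-- the potential -/
noncomputable def potS (phi : ℕ → ℕ → ℕ → ℕ → ℝ) (a : Dr d) : ℝ := sSup (vals phi a)

/-- the conditions on the function of the four cardinalities -/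
structure PhiFree (phi : ℕ → ℕ → ℕ → ℕ → ℝ) : Prop where
  bdd : ∃ B : ℝ, ∀ n0 n1 n2 n3, |phi n0 n1 n2 n3| ≤ B
  mono : ∀ n0 n1 n2 n3 m0 m1 m2 m3, n0 ≤ m0 → n1 ≤ m1 → n2 ≤ m2 → n3 ≤ m3 →
    phi n0 n1 n2 n3 ≤ phi m0 m1 m2 m3

/-- the drift inequality for nested sets; the rings in the highest set may be ignored -/
def SetDriftF (d : ℕ) (phi : ℕ → ℕ → ℕ → ℕ → ℝ) (c : ℝ) : Prop :=
  ∀ D0 D1 D2 D3 : Finset (Site d), D0.Nonempty → D0 ⊆ D1 → D1 ⊆ D2 → D2 ⊆ D3 →
    (∀ x ∈ D0, nbrs x ⊆ D1) →
    c ≤ max 0 (∑ x ∈ D0, (1 + phi 1 (D0.card + (nbrs x \ D0).card) D1.card D2.card -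
            phi D0.card D1.card D2.card D3.card)) +
      (∑ x ∈ D1 \ D0, (phi (D0.card + 1) (D1.card + (nbrs x \ D1).card)
            (D2.card + (nbrs x \ D2).card) (D3.card + (nbrs x \ D3).card) -
            phi D0.card D1.card D2.card D3.card)) +
      (∑ x ∈ D2 \ D1, (phi D0.card (D1.card + 1)
            (D2.card + (nbrs x \ D2).card) (D3.card + (nbrs x \ D3).card) -
            phi D0.card D1.card D2.card D3.card)) +
      (∑ x ∈ D3 \ D2, (phi D0.card D1.card (D2.card + 1) (D3.card + (nbrs x \ D3).card) -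
            phi D0.card D1.card D2.card D3.card))

lemma SetDrift.free {phi : ℕ → ℕ → ℕ → ℕ → ℝ} {c : ℝ} (h : SetDrift d phi c) :
    SetDriftF d phi c := by
  intro D0 D1 D2 D3 h0 h1 h2 h3 h4
  refine (h D0 D1 D2 D3 h0 h1 h2 h3 h4).trans ?_
  gcongr
  exact le_max_right _ _

section
variable {phi : ℕ → ℕ → ℕ → ℕ → ℝ}

lemma ev_le_top {a : Dr d} (ha : Good a) {v m : ℤ} (hm : IsTop a m) (hv : (ev a v).Nonempty) :
    v ≤ m := by
  obtain ⟨x, hx⟩ := hv
  rw [mem_ev, mem_lv ha.fin] at hx
  have := hx.1.trans (hm.1 x)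
  exact_mod_cast this

lemma vals_bddAbove {B : ℝ} (hB : ∀ n0 n1 n2 n3, |phi n0 n1 n2 n3| ≤ B) {a : Dr d} (ha : Good a)
    {m : ℤ} (hm : IsTop a m) {r : ℝ} (hr : r ∈ vals phi a) : r ≤ m + B := by
  obtain ⟨v, hv, rfl⟩ := hr
  have h1 : (v : ℝ) ≤ m := by exact_mod_cast ev_le_top ha hm hv
  have h2 := (abs_le.1 (hB (ev a v).card (lv a (v - 1)).card (lv a (v - 2)).card
    (lv a (v - 3)).card)).2
  unfold vL
  linarith

lemma top_ev {a : Dr d} (ha : Good a) {m : ℤ} (hm : IsTop a m) : (ev a m).Nonempty := by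
  obtain ⟨z, hz⟩ := hm.2
  refine ⟨z, ?_⟩
  rw [mem_ev, mem_lv ha.fin]
  refine ⟨hz.ge, fun y hy => ?_⟩
  rw [mem_lv ha.fin]
  exact ha.top m hm z hz y hy

lemma le_potS (hphi : PhiFree phi) {a : Dr d} (ha : Good a) {v : ℤ} (hv : (ev a v).Nonempty) :
    vL phi a v ≤ potS phi a := by
  obtain ⟨B, hB⟩ := hphi.bdd
  obtain ⟨m, hm⟩ := ha.exists_top
  exact le_csSup ⟨m + B, fun r hr => vals_bddAbove hB ha hm hr⟩ ⟨v, hv, rfl⟩

lemma potS_mono (hphi : PhiFree phi) {a b : Dr d} (ha : Good a) (hb : Good b)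
    (h : ∀ z, a z ≤ b z) : potS phi a ≤ potS phi b := by
  obtain ⟨m, hm⟩ := ha.exists_top
  refine csSup_le ⟨_, m, top_ev ha hm, rfl⟩ ?_
  rintro r ⟨v, hv, rfl⟩
  have hev := ev_mono ha.fin hb.fin h v
  refine le_trans ?_ (le_potS hphi hb (hv.mono hev))
  unfold vL
  have := hphi.mono _ _ _ _ _ _ _ _ (Finset.card_le_card hev)
    (Finset.card_le_card (lv_mono ha.fin hb.fin h (v - 1)))
    (Finset.card_le_card (lv_mono ha.fin hb.fin h (v - 2)))
    (Finset.card_le_card (lv_mono ha.fin hb.fin h (v - 3)))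
  linarith

/-- the lower bound from the drift inequality for nested sets -/
theorem hasLB_of_setsF {c : ℝ} (hphi : PhiFree phi) (hset : SetDriftF d phi c) : HasLB d c := by
  classical
  obtain ⟨B, hB⟩ := hphi.bdd
  refine ⟨potS phi, B, fun a m ha hm => ?_, fun a b ha hb h => potS_mono hphi ha hb h, ?_⟩
  · rw [abs_le]
    constructor
    · have h1 := le_potS hphi ha (top_ev ha hm)
      have h2 := (abs_le.1 (hB (ev a m).card (lv a (m - 1)).card (lv a (m - 2)).card
        (lv a (m - 3)).card)).1
      unfold vL at h1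
      linarith
    · have : potS phi a ≤ m + B :=
        csSup_le ⟨_, m, top_ev ha hm, rfl⟩ fun r hr => vals_bddAbove hB ha hm hr
      linarith
  · intro a ha s hs
    have hfin := ha.fin
    refine le_of_forall_pos_le_add fun ε hε => ?_
    set ε' : ℝ := ε / (s.card + 1) with hε'
    have hε0 : 0 < ε' := by positivity
    obtain ⟨m, hm⟩ := ha.exists_top
    have hne : (vals phi a).Nonempty := ⟨_, m, top_ev ha hm, rfl⟩
    obtain ⟨r, ⟨v, hv, rfl⟩, hr⟩ := exists_lt_of_lt_csSup hne
      (show potS phi a - ε' < sSup (vals phi a) by unfold potS; linarith)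
    -- the four sets
    set D0 := ev a v with hD0
    set D1 := lv a (v - 1) with hD1
    set D2 := lv a (v - 2) with hD2
    set D3 := lv a (v - 3) with hD3
    have h01 : D0 ⊆ D1 := by
      intro x hx
      rw [hD0, mem_ev] at hx
      exact lv_anti hfin (by omega) hx.1
    have h12 : D1 ⊆ D2 := lv_anti hfin (by omega)
    have h23 : D2 ⊆ D3 := lv_anti hfin (by omega)
    have hnb : ∀ x ∈ D0, nbrs x ⊆ D1 := by
      intro x hx y hy
      rw [hD0, mem_ev] at hx
      exact hx.2 y hy
    have hDs : D3 ⊆ s := by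
      intro z hz
      rw [hs]
      intro h
      rw [hD3, mem_lv hfin, h] at hz
      exact absurd hz (by simp)
    have key := hset D0 D1 D2 D3 hv h01 h12 h23 hnb
    set P : ℝ := phi D0.card D1.card D2.card D3.card with hP
    have hval : potS phi a ≤ v + P + ε' := by
      have : vL phi a v = v + P := rfl
      linarith
    have hg : ∀ x, Good (upd {x} a) := fun x => ha.upd x
    have hnn : ∀ x, 0 ≤ potS phi (upd {x} a) - potS phi a := fun x =>
      sub_nonneg.2 (potS_mono hphi ha (hg x) (le_upd _ _))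
    -- membership after a ring
    have hup : ∀ x u, lv a u ⊆ lv (upd {x} a) u := fun x u =>
      lv_mono hfin (hg x).fin (le_upd _ _) u
    have hself : ∀ x u, x ∈ lv a u → x ∈ lv (upd {x} a) (u + 1) := by
      intro x u hx
      rw [mem_lv hfin] at hx
      rw [mem_lv (hg x).fin, upd_single, if_pos rfl]
      push_cast
      gcongr
    have hnbr : ∀ x u, x ∈ lv a u → nbrs x ⊆ lv (upd {x} a) u := by
      intro x u hx y hy
      rw [mem_lv hfin] at hx
      rw [mem_lv (hg x).fin]
      exact hx.trans (upd_nbr (nbrs_symm.1 hy) (Set.mem_singleton x) a)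
    have hcard : ∀ x u, x ∈ lv a u →
        (lv a u).card + (nbrs x \ lv a u).card ≤ (lv (upd {x} a) u).card := by
      intro x u hx
      rw [← Finset.card_union_of_disjoint Finset.disjoint_sdiff]
      refine Finset.card_le_card (Finset.union_subset (hup x u) ?_)
      exact Finset.sdiff_subset.trans (hnbr x u hx)
    -- rings in `D0`
    have i0 : ∀ x ∈ D0, (1 + phi 1 (D0.card + (nbrs x \ D0).card) D1.card D2.card - P) - ε' ≤
        potS phi (upd {x} a) - potS phi a := by
      intro x hx
      have hx0 : x ∈ lv a v := by rw [hD0, mem_ev] at hx; exact hx.1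
      have e0 : x ∈ ev (upd {x} a) (v + 1) := by
        rw [mem_ev]
        refine ⟨hself x v hx0, fun y hy => ?_⟩
        have : v + 1 - 1 = v := by ring
        rw [this]
        exact hnbr x v hx0 hy
      have e1 : D0.card + (nbrs x \ D0).card ≤ (lv (upd {x} a) (v + 1 - 1)).card := by
        have : v + 1 - 1 = v := by ring
        rw [this, ← Finset.card_union_of_disjoint Finset.disjoint_sdiff]
        refine Finset.card_le_card (Finset.union_subset ?_ ?_)
        · intro z hz
          rw [hD0, mem_ev] at hz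
          exact hup x v hz.1
        · exact Finset.sdiff_subset.trans (hnbr x v hx0)
      have e2 : D1.card ≤ (lv (upd {x} a) (v + 1 - 2)).card := by
        have : v + 1 - 2 = v - 1 := by ring
        rw [this]
        exact Finset.card_le_card (hup x _)
      have e3 : D2.card ≤ (lv (upd {x} a) (v + 1 - 3)).card := by
        have : v + 1 - 3 = v - 2 := by ring
        rw [this]
        exact Finset.card_le_card (hup x _)
      have h1 := le_potS hphi (hg x) ⟨x, e0⟩
      have h2 := hphi.mono _ _ _ _ _ _ _ _ (Finset.card_pos.2 ⟨x, e0⟩) e1 e2 e3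
      unfold vL at h1
      push_cast at h1
      simp only [Nat.zero_add, Nat.succ_eq_add_one] at h2
      linarith
    have i1 : ∀ x ∈ D1 \ D0, (phi (D0.card + 1) (D1.card + (nbrs x \ D1).card)
            (D2.card + (nbrs x \ D2).card) (D3.card + (nbrs x \ D3).card) - P) - ε' ≤
        potS phi (upd {x} a) - potS phi a := by
      intro x hx
      obtain ⟨hx1, hx0⟩ := Finset.mem_sdiff.1 hx
      have e0 : x ∈ ev (upd {x} a) v := by
        rw [mem_ev]
        refine ⟨?_, fun y hy => hnbr x _ hx1 hy⟩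
        have := hself x _ hx1
        rwa [sub_add_cancel] at this
      have c0 : D0.card + 1 ≤ (ev (upd {x} a) v).card := by
        rw [← Finset.card_insert_of_notMem hx0]
        refine Finset.card_le_card (Finset.insert_subset e0 ?_)
        exact ev_mono hfin (hg x).fin (le_upd _ _) v
      have c1 := hcard x _ hx1
      have c2 := hcard x _ (h12 hx1)
      have c3 := hcard x _ (h23 (h12 hx1))
      have h1 := le_potS hphi (hg x) ⟨x, e0⟩
      have h2 := hphi.mono _ _ _ _ _ _ _ _ c0 c1 c2 c3
      unfold vL at h1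
      linarith
    have hev : ∀ x, (ev (upd {x} a) v).Nonempty := fun x =>
      hv.mono (ev_mono hfin (hg x).fin (le_upd _ _) v)
    have hev' : ∀ x, D0.card ≤ (ev (upd {x} a) v).card := fun x =>
      Finset.card_le_card (ev_mono hfin (hg x).fin (le_upd _ _) v)
    have i2 : ∀ x ∈ D2 \ D1, (phi D0.card (D1.card + 1)
            (D2.card + (nbrs x \ D2).card) (D3.card + (nbrs x \ D3).card) - P) - ε' ≤
        potS phi (upd {x} a) - potS phi a := by
      intro x hx
      obtain ⟨hx2, hx1⟩ := Finset.mem_sdiff.1 hx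
      have c1 : D1.card + 1 ≤ (lv (upd {x} a) (v - 1)).card := by
        rw [← Finset.card_insert_of_notMem hx1]
        refine Finset.card_le_card (Finset.insert_subset ?_ (hup x _))
        have := hself x _ hx2
        have e : v - 2 + 1 = v - 1 := by ring
        rwa [e] at this
      have c2 := hcard x _ hx2
      have c3 := hcard x _ (h23 hx2)
      have h1 := le_potS hphi (hg x) (hev x)
      have h2 := hphi.mono _ _ _ _ _ _ _ _ (hev' x) c1 c2 c3
      unfold vL at h1
      linarith
    have i3 : ∀ x ∈ D3 \ D2, (phi D0.card D1.card (D2.card + 1)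
            (D3.card + (nbrs x \ D3).card) - P) - ε' ≤
        potS phi (upd {x} a) - potS phi a := by
      intro x hx
      obtain ⟨hx3, hx2⟩ := Finset.mem_sdiff.1 hx
      have c1 : D1.card ≤ (lv (upd {x} a) (v - 1)).card := Finset.card_le_card (hup x _)
      have c2 : D2.card + 1 ≤ (lv (upd {x} a) (v - 2)).card := by
        rw [← Finset.card_insert_of_notMem hx2]
        refine Finset.card_le_card (Finset.insert_subset ?_ (hup x _))
        have := hself x _ hx3
        have e : v - 3 + 1 = v - 2 := by ring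
        rwa [e] at this
      have c3 := hcard x _ hx3
      have h1 := le_potS hphi (hg x) (hev x)
      have h2 := hphi.mono _ _ _ _ _ _ _ _ (hev' x) c1 c2 c3
      unfold vL at h1
      linarith
    -- the sums
    have hs0 : max 0 (∑ x ∈ D0, (1 + phi 1 (D0.card + (nbrs x \ D0).card) D1.card D2.card - P)) -
        D0.card * ε' ≤ ∑ x ∈ D0, (potS phi (upd {x} a) - potS phi a) := by
      have h1 : (0 : ℝ) ≤ D0.card * ε' := by positivity
      rcases max_cases 0 (∑ x ∈ D0, (1 + phi 1 (D0.card + (nbrs x \ D0).card) D1.card D2.card - P))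
        with ⟨h, -⟩ | ⟨h, -⟩
      · rw [h]
        have := Finset.sum_nonneg fun x (_ : x ∈ D0) => hnn x
        linarith
      · rw [h]
        have h2 := Finset.sum_le_sum i0
        rw [Finset.sum_sub_distrib, Finset.sum_const, nsmul_eq_mul] at h2
        exact h2
    have hs1 := Finset.sum_le_sum i1
    have hs2 := Finset.sum_le_sum i2
    have hs3 := Finset.sum_le_sum i3
    rw [Finset.sum_sub_distrib, Finset.sum_const, nsmul_eq_mul] at hs1 hs2 hs3
    have hsum : ∑ x ∈ D3, (potS phi (upd {x} a) - potS phi a) ≤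
        ∑ x ∈ s, (potS phi (upd {x} a) - potS phi a) :=
      Finset.sum_le_sum_of_subset_of_nonneg hDs fun x _ _ => hnn x
    have hsplit : ∑ x ∈ D3, (potS phi (upd {x} a) - potS phi a) =
        ∑ x ∈ D0, (potS phi (upd {x} a) - potS phi a) +
        ∑ x ∈ D1 \ D0, (potS phi (upd {x} a) - potS phi a) +
        ∑ x ∈ D2 \ D1, (potS phi (upd {x} a) - potS phi a) +
        ∑ x ∈ D3 \ D2, (potS phi (upd {x} a) - potS phi a) := by
      rw [← Finset.sum_sdiff h23, ← Finset.sum_sdiff h12, ← Finset.sum_sdiff h01]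
      ring
    have hcount : (D0.card : ℝ) * ε' + (D1 \ D0).card * ε' + (D2 \ D1).card * ε' +
        (D3 \ D2).card * ε' ≤ ε := by
      have h1 : D0.card + (D1 \ D0).card + (D2 \ D1).card + (D3 \ D2).card = D3.card := by
        have a1 := Finset.card_sdiff_add_card_eq_card h01
        have a2 := Finset.card_sdiff_add_card_eq_card h12
        have a3 := Finset.card_sdiff_add_card_eq_card h23
        omega
      have h2 : D3.card ≤ s.card := Finset.card_le_card hDs
      have h3 : (D0.card : ℝ) + (D1 \ D0).card + (D2 \ D1).card + (D3 \ D2).card ≤ s.card + 1 := by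
        have : D0.card + (D1 \ D0).card + (D2 \ D1).card + (D3 \ D2).card ≤ s.card + 1 := by omega
        exact_mod_cast this
      have h4 : ((s.card : ℝ) + 1) * ε' = ε := by rw [hε']; field_simp
      calc _ = ((D0.card : ℝ) + (D1 \ D0).card + (D2 \ D1).card + (D3 \ D2).card) * ε' := by ring
        _ ≤ (s.card + 1) * ε' := mul_le_mul_of_nonneg_right h3 hε0.le
        _ = ε := h4
    linarith

end

end Pool.Agent.Lib.MP_67d80e_pr_all
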