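import Pool.Agent.Lib.MP_67d80e_pr_all.IsoD1

/-!
The edge isoperimetric inequality of Loomis and Whitney in `ℤ^d`:
`2 d |D| ^ (1 - 1 / d) ≤ outE D`.
-/

set_option autoImplicit false

open scoped BigOperators
open Pool.Agent.Lib.MP_67d80e_pr

namespace Pool.Agent.Lib.MP_67d80e_pr_all

variable {d : ℕ}

/-- there is a largest slice -/
lemma exists_max_sl (D : Finset (Site (d + 1))) (hD : D.Nonempty) :
    ∃ j0 ∈ lvls D, ∀ j, (sl D j).card ≤ (sl D j0).card := by
  have hne : (lvls D).Nonempty := by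
    obtain ⟨x, hx⟩ := hD
    exact ⟨x 0, Finset.mem_image_of_mem _ hx⟩
  obtain ⟨j0, hj0, h⟩ := Finset.exists_max_image (lvls D) (fun j => (sl D j).card) hne
  refine ⟨j0, hj0, fun j => ?_⟩
  by_cases hj : j ∈ lvls D
  · exact h j hj
  · have : sl D j = ∅ := by
      by_contra hn
      exact hj (mem_lvls.2 (Finset.nonempty_iff_ne_empty.2 hn))
    rw [this, Finset.card_empty]
    exact Nat.zero_le _

/-- the inequality of Loomis and Whitney -/
theorem outE_lw (hd : 1 ≤ d) (D : Finset (Site d)) (hD : D.Nonempty) :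
    2 * (d : ℝ) * (D.card : ℝ) ^ (1 - 1 / (d : ℝ)) ≤ outE D := by
  induction d, hd using Nat.le_induction with
  | base =>
    have h := outE_one hD
    have h2 : (2 : ℝ) ≤ outE D := by exact_mod_cast h
    simpa using h2
  | succ d hd ih =>
    obtain ⟨j0, hj0, hmax⟩ := exists_max_sl D hD
    set m : ℕ := (sl D j0).card with hm
    have hm1 : 1 ≤ m := Finset.card_pos.2 (mem_lvls.1 hj0)
    have hdR : (1 : ℝ) ≤ d := by exact_mod_cast hd
    have hmR : (1 : ℝ) ≤ m := by exact_mod_cast hm1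
    have hn1 : 1 ≤ D.card := Finset.card_pos.2 hD
    have hnR : (1 : ℝ) ≤ D.card := by exact_mod_cast hn1
    have h1 : ∀ j ∈ lvls D, 2 * (d : ℝ) * (m : ℝ) ^ (-(1 / (d : ℝ))) * ((sl D j).card : ℝ) ≤
        outE (sl D j) := by
      intro j hj
      have hne := mem_lvls.1 hj
      refine le_trans ?_ (ih (sl D j) hne)
      have hx1 : 1 ≤ (sl D j).card := Finset.card_pos.2 hne
      have hxR : (1 : ℝ) ≤ (sl D j).card := by exact_mod_cast hx1
      have hxm : ((sl D j).card : ℝ) ≤ m := by exact_mod_cast hmax j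
      have e1 : ((sl D j).card : ℝ) ^ (1 - 1 / (d : ℝ)) =
          ((sl D j).card : ℝ) * ((sl D j).card : ℝ) ^ (-(1 / (d : ℝ))) := by
        rw [sub_eq_add_neg, Real.rpow_add (by linarith), Real.rpow_one]
      have e2 : (m : ℝ) ^ (-(1 / (d : ℝ))) ≤ ((sl D j).card : ℝ) ^ (-(1 / (d : ℝ))) := by
        refine Real.rpow_le_rpow_of_nonpos (by linarith) hxm ?_
        rw [neg_nonpos]
        positivity
      rw [e1]
      have e3 : 2 * (d : ℝ) * (m : ℝ) ^ (-(1 / (d : ℝ))) * ((sl D j).card : ℝ) =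
        2 * (d : ℝ) * (((sl D j).card : ℝ) * (m : ℝ) ^ (-(1 / (d : ℝ)))) := by ring
      rw [e3]
      refine mul_le_mul_of_nonneg_left ?_ (by positivity)
      exact mul_le_mul_of_nonneg_left e2 (by linarith)
    have h2 : 2 * (m : ℝ) + 2 * (d : ℝ) * (m : ℝ) ^ (-(1 / (d : ℝ))) * (D.card : ℝ) ≤ outE D := by
      have h3 := slice_bound D j0
      have h4 : ((2 * (sl D j0).card + ∑ j ∈ lvls D, outE (sl D j) : ℕ) : ℝ) ≤ outE D := by
        exact_mod_cast h3
      push_cast at h4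
      have h5 := Finset.sum_le_sum h1
      rw [← Finset.mul_sum] at h5
      have h6 : (D.card : ℝ) = ∑ j ∈ lvls D, ((sl D j).card : ℝ) := by
        exact_mod_cast card_slices (Finset.Subset.refl D)
      rw [h6]
      rw [← hm] at h4
      linarith
    refine le_trans ?_ h2
    have hd1 : ((d + 1 : ℕ) : ℝ) = (d : ℝ) + 1 := by push_cast; ring
    rw [hd1]
    set n : ℝ := (D.card : ℝ) with hn
    have hA := Real.geom_mean_le_arith_mean2_weighted (w₁ := 1 / ((d : ℝ) + 1))
      (w₂ := (d : ℝ) / ((d : ℝ) + 1)) (p₁ := (m : ℝ)) (p₂ := n * (m : ℝ) ^ (-(1 / (d : ℝ))))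
      (by positivity) (by positivity) (by positivity) (by positivity)
      (by field_simp; ring)
    have e4 : (m : ℝ) ^ (1 / ((d : ℝ) + 1)) *
        (n * (m : ℝ) ^ (-(1 / (d : ℝ)))) ^ ((d : ℝ) / ((d : ℝ) + 1)) =
        n ^ (1 - 1 / ((d : ℝ) + 1)) := by
      rw [Real.mul_rpow (by linarith) (by positivity), ← Real.rpow_mul (by linarith)]
      have e5 : -(1 / (d : ℝ)) * ((d : ℝ) / ((d : ℝ) + 1)) = -(1 / ((d : ℝ) + 1)) := by
        field_simp
      have e6 : (d : ℝ) / ((d : ℝ) + 1) = 1 - 1 / ((d : ℝ) + 1) := by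
        field_simp; ring
      rw [e5, e6, Real.rpow_neg (by linarith)]
      have e7 : (0 : ℝ) < (m : ℝ) ^ (1 / ((d : ℝ) + 1)) := by positivity
      field_simp
    rw [e4] at hA
    have e8 : 2 * ((d : ℝ) + 1) * (1 / ((d : ℝ) + 1) * m +
        (d : ℝ) / ((d : ℝ) + 1) * (n * (m : ℝ) ^ (-(1 / (d : ℝ))))) =
        2 * (m : ℝ) + 2 * (d : ℝ) * (m : ℝ) ^ (-(1 / (d : ℝ))) * n := by
      field_simp
    rw [← e8]
    exact mul_le_mul_of_nonneg_left hA (by positivity)

/-- the inequality of Loomis and Whitney, with natural numbers -/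
theorem outE_lw_nat (hd : 1 ≤ d) (D : Finset (Site d)) :
    (2 * d) ^ d * D.card ^ (d - 1) ≤ outE D ^ d ∨ D = ∅ := by
  rcases D.eq_empty_or_nonempty with hD | hD
  · exact Or.inr hD
  · refine Or.inl ?_
    have h := outE_lw hd D hD
    have hn : (0 : ℝ) ≤ D.card := Nat.cast_nonneg _
    have h2 := pow_le_pow_left₀ (by positivity) h d
    rw [mul_pow, ← Real.rpow_natCast ((D.card : ℝ) ^ (1 - 1 / (d : ℝ))) d,
      ← Real.rpow_mul hn] at h2
    have hd0 : (0 : ℝ) < d := by exact_mod_cast hd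
    have e1 : (1 - 1 / (d : ℝ)) * (d : ℝ) = ((d - 1 : ℕ) : ℝ) := by
      rw [Nat.cast_sub hd]
      field_simp
      simp
    rw [e1, Real.rpow_natCast] at h2
    exact_mod_cast h2

/-- a numerical criterion for a lower bound of the edge boundary -/
theorem outE_ge_of_lw (hd : 1 ≤ d) (D : Finset (Site d)) (hD : D.Nonempty) {o : ℕ}
    (ho : Even o) (h : (o - 2) ^ d < (2 * d) ^ d * D.card ^ (d - 1)) : o ≤ outE D := by
  rcases outE_lw_nat hd D with h1 | h1
  · by_contra hlt
    rw [not_le] at hlt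
    have h2 := even_outE D
    have h3 : outE D ≤ o - 2 := by
      obtain ⟨a, ha⟩ := ho
      omega
    have h4 := Nat.pow_le_pow_left h3 d
    omega
  · exact absurd h1 hD.ne_empty

end Pool.Agent.Lib.MP_67d80e_pr_all
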