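import Pool.Agent.Lib.MP_67d80e_pr_all.IsoD6
import Pool.Agent.Lib.MP_67d80e_pr_all.LW
import Pool.Agent.Lib.MP_67d80e_pr_all.Chain0

/-!
The isoperimetric tables in the form in which the lower bounds use them.
-/

set_option autoImplicit false

open scoped BigOperators
open Pool.Agent.Lib.MP_67d80e_pr

namespace Pool.Agent.Lib.MP_67d80e_pr_all

variable {d : ℕ}

lemma IsO.outE_ge {O : ℕ → ℕ → ℕ} (h : IsO d O) (D : Finset (Site d)) : O 0 D.card ≤ outE D := by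
  have := h ∅ D ⟨Finset.empty_subset _, fun x hx => absurd hx (Finset.notMem_empty x)⟩
  rwa [Finset.card_empty] at this

theorem IsO.isO0 {O : ℕ → ℕ → ℕ} (h : IsO d O) : IsO0 d (fun n => (O 0 n : ℝ)) := by
  intro D _
  exact Nat.cast_le.2 (h.outE_ge D)

theorem IsO.isO1 {O : ℕ → ℕ → ℕ} (h : IsO d O) : IsO1 d (fun t n => (O t n : ℝ)) := by
  intro T D _ hTD hn
  exact Nat.cast_le.2 (h T D ⟨hTD, hn⟩)

theorem IsF.isAdm {F : ℕ → ℕ} (h : IsF d F) : IsAdm d (fun t n => F t ≤ n) :=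
  fun T D _ hTD hn => h T D ⟨hTD, hn⟩

theorem IsO.isOO {O : ℕ → ℕ → ℕ} (h : IsO d O) : IsOO d (fun t _ n => (O t n : ℝ)) := by
  intro T D _ hTD hn
  exact Nat.cast_le.2 (h T D ⟨hTD, hn⟩)

/-- the number of edges inside a set is at most `(2 d n - O 0 n) / 2` -/
lemma IsO.eE_le {O : ℕ → ℕ → ℕ} (h : IsO d O) (T : Finset (Site d)) :
    2 * eE T + O 0 T.card ≤ 2 * d * T.card := by
  have h1 := inE_add_outE T
  have h2 := inE_eq T
  have h3 := h.outE_ge T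
  omega

/-- restriction of the states `(|T|, e(T), |D|)` -/
theorem IsO.isAdm0 {O : ℕ → ℕ → ℕ} {F : ℕ → ℕ} (h : IsO d O) (hF : IsF d F) :
    IsAdm0 d (fun t e n => F t ≤ n ∧ 2 * e + O 0 t ≤ 2 * d * t) := by
  intro T D _ hTD hn
  exact ⟨hF T D ⟨hTD, hn⟩, h.eE_le T⟩

/-! ### combinations -/

theorem IsO0.max {O O' : ℕ → ℝ} (h : IsO0 d O) (h' : IsO0 d O') :
    IsO0 d (fun n => max (O n) (O' n)) := fun D hD => max_le (h D hD) (h' D hD)

theorem IsO1.max {O O' : ℕ → ℕ → ℝ} (h : IsO1 d O) (h' : IsO1 d O') :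
    IsO1 d (fun t n => max (O t n) (O' t n)) := fun T D hT h1 h2 =>
  max_le (h T D hT h1 h2) (h' T D hT h1 h2)

theorem IsOO.max {O O' : ℕ → ℕ → ℕ → ℝ} (h : IsOO d O) (h' : IsOO d O') :
    IsOO d (fun t e n => max (O t e n) (O' t e n)) := fun T D hT h1 h2 =>
  max_le (h T D hT h1 h2) (h' T D hT h1 h2)

theorem IsO0.isO1 {O : ℕ → ℝ} (h : IsO0 d O) : IsO1 d (fun _ n => O n) := fun _ D hT h1 _ =>
  h D (hT.mono h1)

theorem IsO1.isOO {O : ℕ → ℕ → ℝ} (h : IsO1 d O) : IsOO d (fun t _ n => O t n) :=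
  fun T D hT h1 h2 => h T D hT h1 h2

theorem IsO0.mono {O O' : ℕ → ℝ} (h : IsO0 d O) (hle : ∀ n, 1 ≤ n → O' n ≤ O n) : IsO0 d O' :=
  fun D hD => (hle _ (Finset.card_pos.2 hD)).trans (h D hD)

theorem IsO1.mono {O O' : ℕ → ℕ → ℝ} (h : IsO1 d O)
    (hle : ∀ t n, 1 ≤ t → t ≤ n → O' t n ≤ O t n) : IsO1 d O' :=
  fun T D hT h1 h2 => (hle _ _ (Finset.card_pos.2 hT) (Finset.card_le_card h1)).trans
    (h T D hT h1 h2)

/-- the inequality of Loomis and Whitney -/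
theorem isO0_lw (hd : 1 ≤ d) : IsO0 d (fun n => 2 * (d : ℝ) * (n : ℝ) ^ (1 - 1 / (d : ℝ))) :=
  fun D hD => outE_lw hd D hD

/-- Loomis and Whitney, numerical form -/
theorem isO0_of_lw (hd : 1 ≤ d) {O : ℕ → ℕ}
    (h : ∀ n, 1 ≤ n → O n % 2 = 0 ∧ (O n - 2) ^ d < (2 * d) ^ d * n ^ (d - 1)) :
    IsO0 d (fun n => (O n : ℝ)) := by
  intro D hD
  obtain ⟨h1, h2⟩ := h D.card (Finset.card_pos.2 hD)
  exact Nat.cast_le.2 (outE_ge_of_lw hd D hD (Nat.even_iff.2 h1) h2)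

/-- the hypercube numbers, every dimension -/
theorem isO0_cube (N : ℕ) {g : ℕ → ℕ}
    (hg : ∀ a b, 1 ≤ a → 1 ≤ b → a + b ≤ N → g a + g b + min a b ≤ g (a + b)) :
    IsO0 d (fun n => if n ≤ N then 2 * (d : ℝ) * n - 2 * g n else 0) := by
  intro D _
  dsimp only
  split_ifs with h
  · have h1 := outE_ge hg D h
    have h2 : (2 * (d : ℝ) * D.card) ≤ outE D + 2 * g D.card := by exact_mod_cast h1
    linarith
  · exact Nat.cast_nonneg _

end Pool.Agent.Lib.MP_67d80e_pr_all
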