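import Pool.Agent.Lib.MP_67d80e_pr_all.Minor

/-!
The logarithmic edge isoperimetric inequality in all dimensions, and its monotone hull.
-/

set_option autoImplicit false

open scoped BigOperators
open Pool.Agent.Lib.MP_67d80e_pr

namespace Pool.Agent.Lib.MP_67d80e_pr_all

variable {d : ℕ}

/-- `a log a + b log b + 2 min (a, b) log 2 ≤ (a + b) log (a + b)` -/
lemma mul_log_add {a b : ℝ} (ha : 0 < a) (hab : a ≤ b) :
    a * Real.log a + b * Real.log b + 2 * a * Real.log 2 ≤ (a + b) * Real.log (a + b) := by
  have hb : 0 < b := lt_of_lt_of_le ha hab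
  have hc := Real.convexOn_mul_log
  set t : ℝ := a / b with ht
  have ht0 : 0 ≤ t := by positivity
  have ht1 : t ≤ 1 := by rw [ht, div_le_one hb]; exact hab
  have htb : t * b = a := by rw [ht]; field_simp
  have h1 := hc.2 (Set.mem_Ici.2 ha.le) (Set.mem_Ici.2 (by linarith : (0 : ℝ) ≤ a + b))
    (sub_nonneg.2 ht1) ht0 (by ring)
  have h2 := hc.2 (Set.mem_Ici.2 ha.le) (Set.mem_Ici.2 (by linarith : (0 : ℝ) ≤ a + b))
    ht0 (sub_nonneg.2 ht1) (by ring)
  simp only [smul_eq_mul] at h1 h2
  have e1 : (1 - t) * a + t * (a + b) = 2 * a := by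
    have : (1 - t) * a + t * (a + b) = a + t * b := by ring
    rw [this, htb]; ring
  have e2 : t * a + (1 - t) * (a + b) = b := by
    have : t * a + (1 - t) * (a + b) = a + b - t * b := by ring
    rw [this, htb]; ring
  rw [e1] at h1
  rw [e2] at h2
  have h3 : Real.log (2 * a) = Real.log 2 + Real.log a :=
    Real.log_mul (by norm_num) ha.ne'
  rw [h3] at h1
  nlinarith [h1, h2]

lemma mul_log_add' {a b : ℝ} (ha : 0 < a) (hb : 0 < b) :
    a * Real.log a + b * Real.log b + 2 * min a b * Real.log 2 ≤ (a + b) * Real.log (a + b) := by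
  rcases le_total a b with h | h
  · rw [min_eq_left h]; exact mul_log_add ha h
  · rw [min_eq_right h, add_comm a b]
    have := mul_log_add hb h
    linarith

/-- twice the number of the edges in a set is at most `n log₂ n` -/
theorem inE_le_log (D : Finset (Site d)) :
    (inE D : ℝ) * Real.log 2 ≤ D.card * Real.log D.card := by
  classical
  induction' hn : D.card using Nat.strong_induction_on with n ih generalizing D
  rcases Nat.lt_or_ge 1 D.card with h1 | h1
  · obtain ⟨x, hx, y, hy, hxy⟩ := Finset.one_lt_card.1 h1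
    obtain ⟨i, hi⟩ := Function.ne_iff.1 hxy
    wlog hlt : x i < y i generalizing x y
    · exact this y hy x hx (Ne.symm hxy) (Ne.symm hi) (by omega)
    set A := D.filter fun z => z i ≤ x i with hA
    set B := D.filter fun z => ¬ z i ≤ x i with hB
    have hAB : A ∪ B = D := Finset.filter_union_filter_not_eq _ _
    have hdis : Disjoint A B := Finset.disjoint_filter_filter_not _ _ _
    have hcard : A.card + B.card = D.card := by
      rw [← Finset.card_union_of_disjoint hdis, hAB]
    have hA1 : 1 ≤ A.card := Finset.card_pos.2 ⟨x, by simp [hA, hx]⟩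
    have hB1 : 1 ≤ B.card := Finset.card_pos.2 ⟨y, by simp [hB, hy, hlt]⟩
    have h2 := ih A.card (by omega) A rfl
    have h3 := ih B.card (by omega) B rfl
    have h4 := crE_le (i := i) (c := x i) (A := A) (B := B)
      (fun z hz => (Finset.mem_filter.1 hz).2) (fun z hz => by
        have := (Finset.mem_filter.1 hz).2
        omega)
    have h6 := inE_union hdis
    rw [hAB] at h6
    have h7 : (inE D : ℝ) = inE A + inE B + 2 * crE A B := by rw [h6]; push_cast; ring
    have h8 : (crE A B : ℝ) ≤ min (A.card : ℝ) B.card := by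
      have : ((min A.card B.card : ℕ) : ℝ) = min (A.card : ℝ) B.card := Nat.cast_min _ _
      rw [← this]
      exact_mod_cast h4
    have h9 := mul_log_add' (a := (A.card : ℝ)) (b := B.card) (by exact_mod_cast hA1)
      (by exact_mod_cast hB1)
    have h10 : ((A.card : ℝ) + B.card) = n := by rw [← hn, ← hcard]; push_cast; ring
    rw [h10] at h9
    have hl : 0 < Real.log 2 := Real.log_pos (by norm_num)
    have h11 := mul_le_mul_of_nonneg_right h8 hl.le
    rw [h7]
    nlinarith
  · have h2 : inE D = 0 := by
      unfold inE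
      refine Finset.sum_eq_zero fun x hx => ?_
      rw [Finset.card_eq_zero, Finset.eq_empty_iff_forall_notMem]
      intro y hy
      rw [Finset.mem_inter] at hy
      exact ne_of_mem_nbrs hy.1 (Finset.card_le_one.1 h1 y hy.2 x hx)
    rw [h2]
    have h3 : n = 0 ∨ n = 1 := by omega
    rcases h3 with h3 | h3
    · simp [h3]
    · simp [h3]

/-- every nonempty set has a site with at most `d` neighbours in the set -/
lemma exists_deg_le {D : Finset (Site d)} (hD : D.Nonempty) :
    ∃ x ∈ D, (nbrs x ∩ D).card ≤ d := by
  classical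
  obtain ⟨x, hx, hmin⟩ := Finset.exists_min_image D (fun x => ∑ i, x i) hD
  refine ⟨x, hx, ?_⟩
  have h1 : nbrs x ∩ D ⊆ Finset.univ.image (fun i : Fin d => x + e i) := by
    intro y hy
    rw [Finset.mem_inter] at hy
    obtain ⟨j, h | h⟩ := mem_nbrs.1 hy.1
    · exact Finset.mem_image.2 ⟨j, Finset.mem_univ _, h.symm⟩
    · exfalso
      have h2 := hmin y hy.2
      have h3 : ∑ i, y i = ∑ i, x i - 1 := by
        rw [h]
        have : ∑ i, (x - e j) i = ∑ i, x i - ∑ i, (e j : Site d) i := by
          rw [← Finset.sum_sub_distrib]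
          rfl
        rw [this]
        have h4 : ∑ i, (e j : Site d) i = 1 := by
          rw [Finset.sum_eq_single j]
          · exact e_apply_self j
          · intro b _ hb
            exact e_apply_ne hb
          · intro hj
            exact absurd (Finset.mem_univ j) hj
        rw [h4]
      omega
  refine (Finset.card_le_card h1).trans (Finset.card_image_le.trans ?_)
  simp

lemma outE_erase_le {D : Finset (Site d)} {x : Site d} (hx : x ∈ D)
    (h : (nbrs x ∩ D).card ≤ d) : outE (D.erase x) ≤ outE D := by
  classical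
  have h1 := inE_add_outE D
  have h2 := inE_add_outE (D.erase x)
  have h3 : D = {x} ∪ D.erase x := by
    ext y
    simp only [Finset.mem_union, Finset.mem_singleton, Finset.mem_erase]
    constructor
    · intro hy
      by_cases hyx : y = x
      · exact Or.inl hyx
      · exact Or.inr ⟨hyx, hy⟩
    · rintro (rfl | hy)
      · exact hx
      · exact hy.2
  have h4 : Disjoint ({x} : Finset (Site d)) (D.erase x) := by simp
  have h5 := inE_union h4
  rw [← h3] at h5
  have h6 : inE ({x} : Finset (Site d)) = 0 := by
    unfold inE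
    rw [Finset.sum_singleton, Finset.card_eq_zero, Finset.eq_empty_iff_forall_notMem]
    intro y hy
    rw [Finset.mem_inter, Finset.mem_singleton] at hy
    exact ne_of_mem_nbrs hy.1 hy.2
  have h7 : crE {x} (D.erase x) ≤ d := by
    unfold crE
    rw [Finset.sum_singleton]
    refine (Finset.card_le_card ?_).trans h
    exact Finset.inter_subset_inter le_rfl (Finset.erase_subset _ _)
  have h8 : D.card = (D.erase x).card + 1 := (Finset.card_erase_add_one hx).symm
  rw [h8] at h1
  have h9 : 2 * d * ((D.erase x).card + 1) = 2 * d * (D.erase x).card + 2 * d := by ring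
  omega

/-- the edge boundary decreases along some sequence of subsets -/
lemma exists_sub_outE (D : Finset (Site d)) {n : ℕ} (hn : n ≤ D.card) :
    ∃ D' : Finset (Site d), D'.card = n ∧ outE D' ≤ outE D := by
  classical
  induction' hk : D.card - n with k ih generalizing D
  · exact ⟨D, by omega, le_rfl⟩
  · have hD : D.Nonempty := Finset.card_pos.1 (by omega)
    obtain ⟨x, hx, hd⟩ := exists_deg_le hD
    have h1 : (D.erase x).card = D.card - 1 := Finset.card_erase_of_mem hx
    obtain ⟨D', h2, h3⟩ := ih (D.erase x) (by omega) (by omega)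
    exact ⟨D', h2, h3.trans (outE_erase_le hx hd)⟩

/-- the lower bound for the edge boundary, with a cap -/
noncomputable def OL (M gc n : ℕ) : ℝ :=
  ((min n gc : ℕ) : ℝ) * (M - Real.log (min n gc : ℕ) / Real.log 2)

theorem isO0_OL (gc : ℕ) : IsO0 d (OL (2 * d) gc) := by
  intro D _
  obtain ⟨D', h1, h2⟩ := exists_sub_outE D (n := min D.card gc) (min_le_left _ _)
  have h3 := inE_add_outE D'
  have h4 := inE_le_log D'
  have hl : 0 < Real.log 2 := Real.log_pos (by norm_num)
  have h5 : (inE D' : ℝ) ≤ D'.card * Real.log D'.card / Real.log 2 := by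
    rw [le_div_iff₀ hl]
    exact h4
  have h6 : (inE D' : ℝ) + outE D' = 2 * d * D'.card := by exact_mod_cast h3
  have h7 : (outE D' : ℝ) ≤ outE D := by exact_mod_cast h2
  unfold OL
  rw [← h1]
  push_cast
  have h8 : (D'.card : ℝ) * (2 * d - Real.log D'.card / Real.log 2) =
      2 * d * D'.card - D'.card * Real.log D'.card / Real.log 2 := by ring
  rw [h8]
  linarith

theorem IsO0.toO1 {O : ℕ → ℝ} (h : IsO0 d O) : IsO1 d (fun _ n => O n) := fun _ D hT h1 _ =>
  h D (hT.mono h1)

theorem isAdm_succ : IsAdm d (fun _ n => 2 * d + 1 ≤ n) := by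
  classical
  intro T D hT hTD hn
  obtain ⟨x, hx⟩ := hT
  have h1 : (insert x (nbrs x)).card = 2 * d + 1 := by
    rw [Finset.card_insert_of_notMem (self_notMem_nbrs x), card_nbrs]
  rw [← h1]
  refine Finset.card_le_card fun y hy => ?_
  rcases Finset.mem_insert.1 hy with rfl | hy
  · exact hTD hx
  · exact hn x hx hy

end Pool.Agent.Lib.MP_67d80e_pr_all
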