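import Pool.Agent.Lib.MP_67d80e_pr_all.LagChk

set_option autoImplicit false

open scoped BigOperators
open Pool.Agent.Lib.MP_67d80e_pr

namespace Pool.Agent.Lib.MP_67d80e_pr_all

variable {d : ℕ}

/-! ### Packed tables -/

/-- `12` bit field -/
def f12 (a i : ℕ) : ℕ := Nat.mod (Nat.shiftRight a (Nat.mul 12 i)) 4096

/-- `8` bit field -/
def f8 (a i : ℕ) : ℕ := Nat.mod (Nat.shiftRight a (Nat.mul 8 i)) 256

/-- closed neighbourhoods -/
def fT (tab t : ℕ) : ℕ := bif Nat.ble t 16 then f8 tab t else 0

/-- potentials -/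
def wT (tab p q s : ℕ) : ℕ := f8 tab (Nat.add p (Nat.mul 17 (Nat.add q (Nat.mul 17 s))))

/-- edge boundaries: `t0` without condition (`n ≤ 300`), `t1` with a closed neighbourhood
(`t ≤ 6`, `n ≤ 100`) -/
def eT (t0 t1 t n : ℕ) : ℕ :=
  bif Nat.ble n 100 then
    (bif Nat.beq t 0 then f12 t0 n else
      bif Nat.ble t 6 then f12 t1 (Nat.add n (Nat.mul 128 t)) else f12 t1 (Nat.add n 768))
  else bif Nat.ble n 300 then f12 t0 n else 0

/-- the check of the potential -/
def vtxB (F' F : ℕ → ℕ) (W : ℕ → ℕ → ℕ → ℕ) : Bool :=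
  Nat.beq (W 0 0 0) 0 &&
  (allB (fun s => allB (fun q => allB (fun p => Nat.blt s (Nat.add p q) ||
    allB (fun r => Nat.ble (W q r (Nat.add s r)) (Nat.add (W p q s) (F' q)) ||
      (Nat.ble (W q r (Nat.add s r)) (Nat.add (W p q s) p) ||
      Nat.ble (W q r (Nat.add s r)) (Nat.add (W p q s) r))) (Nat.sub 17 s)) (Nat.succ s))
      (Nat.succ s)) 17 &&
  allB (fun s => Nat.ble (F s) (W 0 0 s)) 17)

lemma vtxB_sound {F' F : ℕ → ℕ} {W : ℕ → ℕ → ℕ → ℕ} (h : vtxB F' F W = true) :
    VtxOk 16 F' F W := by
  simp only [vtxB, Bool.and_eq_true, Bool.or_eq_true, allB_iff, Nat.blt_eq, Nat.ble_eq] at h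
  obtain ⟨h1, h2, h3⟩ := h
  refine ⟨Nat.eq_of_beq_eq_true h1, fun p q r s ha hb => ?_, fun s hs => h3 s (by omega)⟩
  have h4 := h2 s (by omega) q (by omega) p (by omega)
  rcases h4 with h4 | h4
  · exact absurd h4 (by change ¬ (s < p + q); omega)
  · have h5 := h4 r (by change r < 17 - s; omega)
    have e1 : F' q ≤ max (F' q) (max p r) := le_max_left _ _
    have e2 : p ≤ max (F' q) (max p r) := (le_max_left _ _).trans (le_max_right _ _)
    have e3 : r ≤ max (F' q) (max p r) := (le_max_right _ _).trans (le_max_right _ _)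
    rcases h5 with h5 | h5 | h5
    · exact h5.trans (Nat.add_le_add_left e1 _)
    · exact h5.trans (Nat.add_le_add_left e2 _)
    · exact h5.trans (Nat.add_le_add_left e3 _)

/-- hypercube numbers: the number of binary digits `1` of `0, ..., n - 1`, 12 bits -/
def gTab : ℕ := 0x49c49749348f48c48748347f47c47847547247046a46546045c45745344f44c44744343f43c43843543243042b42742342041c41941641441040d40a4084054034014003f83f13ea3e43dd3d73d13cc3c53bf3b93b43ae3a93a43a039939338d38838237d37837436e36936436035b35735335034934333d33833232d32832431e31931431030b3073033002fa2f52f02ec2e72e32df2dc2d72d32cf2cc2c82c52c22c02b92b32ad2a82a229d29829428e28928428027b27727327026a26526025c25725324f24c24724323f23c23823523223022a22522021c21721320f20c2072031ff1fc1f81f51f21f01eb1e71e31e01dc1d91d61d41d01cd1ca1c81c51c31c11c01b91b31ad1a81a219d19819418e18918418017b17717317016a16516015c15715314f14c14714313f13c13813513213012a12512011c11711310f10c1071030ff0fc0f80f50f20f00eb0e70e30e00dc0d90d60d40d00cd0ca0c80c50c30c10c00ba0b50b00ac0a70a309f09c09709308f08c08808508208007b07707307006c06906606406005d05a05805505305105004b04704304003c03903603403002d02a02802502302102001c01901601401100f00d00c009007005004002001000000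

/-- the check of the hypercube numbers -/
def gB : Bool := allB (fun n => allB (fun a => Nat.ble (Nat.add (Nat.add (f12 gTab a)
  (f12 gTab (Nat.sub n a))) a) (f12 gTab n)) (Nat.succ (Nat.div n 2))) 301

lemma gB_true : gB = true := by decide +kernel

lemma g_prop : ∀ a b, 1 ≤ a → 1 ≤ b → a + b ≤ 300 →
    f12 gTab a + f12 gTab b + min a b ≤ f12 gTab (a + b) := by
  have h := gB_true
  simp only [gB, allB_iff, Nat.ble_eq] at h
  have key : ∀ a b, a ≤ b → a + b ≤ 300 → f12 gTab a + f12 gTab b + min a b ≤
      f12 gTab (a + b) := by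
    intro a b hab hn
    have h1 := h (a + b) (by omega) a (by
      change a < (a + b) / 2 + 1
      omega)
    have e1 : Nat.sub (a + b) a = b := by
      change a + b - a = b
      omega
    rw [e1] at h1
    rw [min_eq_left hab]
    exact h1
  intro a b _ _ hn
  rcases le_total a b with hab | hab
  · exact key a b hab hn
  · have := key b a hab (by omega)
    rw [min_comm, add_comm (f12 gTab a), add_comm a b]
    exact this

/-- one dimension more -/
theorem iso_step {t0 t1 f t0' t1' f' w : ℕ} (lsA lsB : List (List Cand))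
    (hO : IsO d (eT t0 t1)) (hF : IsF d (fT f)) (hv : vtxB (fT f) (fT f') (wT w) = true)
    (hA1 : okAll (eT t0 t1) (fT f) 0 lsA 1 = true)
    (hA2 : okTab (fT f') (f12 gTab) (eT t0' t1') (d + 1) 300 lsA 0 = true)
    (hB1 : okAll (eT t0 t1) (fT f) 6 lsB 1 = true)
    (hB2 : okTab (fT f') (f12 gTab) (eT t0' t1') (d + 1) 100 lsB 6 = true)
    (hz : ∀ t, eT t0' t1' t 0 = 0) :
    IsO (d + 1) (eT t0' t1') ∧ IsF (d + 1) (fT f') := by
  have hFv := fun (T D : Finset (Site (d + 1))) h hT => isF_succ hF (vtxB_sound hv) T D h hT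
  constructor
  · have kA := okTab_sound hO hF (fun T D h hT => hFv T D h (by omega)) g_prop hA1 hA2 hz
    have kB := okTab_sound hO hF (fun T D h hT => hFv T D h (by omega))
      (fun a b ha hb hn => g_prop a b ha hb (by omega)) hB1 hB2 hz
    have h0 : ∀ D : Finset (Site (d + 1)), D.card ≤ 300 → eT t0' t1' 0 D.card ≤ outE D := by
      intro D hD
      have := kA ∅ D ⟨Finset.empty_subset _, fun x hx => absurd hx (Finset.notMem_empty x)⟩
        (by simp) hD
      rwa [Finset.card_empty] at this
    intro T D h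
    rcases Nat.lt_or_ge 300 D.card with h1 | h1
    · have e1 : eT t0' t1' T.card D.card = 0 := by
        have b1 : Nat.ble D.card 100 = false := by
          rw [Bool.eq_false_iff, Ne, Nat.ble_eq]; omega
        have b2 : Nat.ble D.card 300 = false := by
          rw [Bool.eq_false_iff, Ne, Nat.ble_eq]; omega
        rw [eT, b1, b2]
        rfl
      rw [e1]
      exact Nat.zero_le _
    · rcases Nat.lt_or_ge 100 D.card with h2 | h2
      · have b1 : Nat.ble D.card 100 = false := by
          rw [Bool.eq_false_iff, Ne, Nat.ble_eq]; omega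
        have := h0 D h1
        rw [eT, b1] at this ⊢
        exact this
      · rcases Nat.lt_or_ge 6 T.card with h3 | h3
        · obtain ⟨T', hT', hc⟩ := Finset.exists_subset_card_eq (s := T) (n := 6) (by omega)
          have h4 := kB T' D (h.mono hT') (by omega) h2
          rw [hc] at h4
          have b1 : Nat.ble D.card 100 = true := by rw [Nat.ble_eq]; exact h2
          have b2 : Nat.beq T.card 0 = false := by
            rw [Bool.eq_false_iff, Ne, Nat.beq_eq]; omega
          have b3 : Nat.ble T.card 6 = false := by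
            rw [Bool.eq_false_iff, Ne, Nat.ble_eq]; omega
          rw [eT, b1] at h4 ⊢
          rw [b2, b3]
          exact h4
        · exact kB T D h h3 h2
  · intro T D h
    rcases Nat.lt_or_ge 16 T.card with h1 | h1
    · have b1 : Nat.ble T.card 16 = false := by
        rw [Bool.eq_false_iff, Ne, Nat.ble_eq]; omega
      rw [fT, b1]
      exact Nat.zero_le _
    · exact hFv T D h h1

end Pool.Agent.Lib.MP_67d80e_pr_all
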