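import Pool.Agent.Lib.MP_67d80e_pr_all.Slice

set_option autoImplicit false

open scoped BigOperators
open Pool.Agent.Lib.MP_67d80e_pr

namespace Pool.Agent.Lib.MP_67d80e_pr_all

variable {d : ℕ}

/-! ### Parity -/

lemma even_inE (D : Finset (Site d)) : inE D % 2 = 0 := by
  classical
  induction D using Finset.induction_on with
  | empty => simp [inE]
  | insert x s hx ih =>
    have h1 : insert x s = {x} ∪ s := rfl
    have h2 : Disjoint ({x} : Finset (Site d)) s := by simpa using hx
    have h3 : inE ({x} : Finset (Site d)) = 0 := by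
      unfold inE
      rw [Finset.sum_singleton, Finset.card_eq_zero, Finset.eq_empty_iff_forall_notMem]
      intro y hy
      rw [Finset.mem_inter, Finset.mem_singleton] at hy
      exact ne_of_mem_nbrs hy.1 hy.2
    rw [h1, inE_union h2, h3]
    omega

lemma even_outE (D : Finset (Site d)) : outE D % 2 = 0 := by
  have h1 := inE_add_outE D
  have h2 := even_inE D
  have h3 : (2 * d * D.card) % 2 = 0 := by
    rw [mul_assoc]
    exact Nat.mul_mod_right 2 _
  omega

/-! ### Tables -/

/-- lower bounds of the edge boundary of the sets which contain a closed neighbourhood -/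
def IsO (d : ℕ) (O : ℕ → ℕ → ℕ) : Prop :=
  ∀ T D : Finset (Site d), Cl T D → O T.card D.card ≤ outE D

/-- lower bounds of the cardinality of closed neighbourhoods -/
def IsF (d : ℕ) (F : ℕ → ℕ) : Prop :=
  ∀ T D : Finset (Site d), Cl T D → F T.card ≤ D.card

lemma Cl.mono {T T' D : Finset (Site d)} (h : Cl T D) (h' : T' ⊆ T) : Cl T' D :=
  ⟨h'.trans h.1, fun x hx => h.2 x (h' hx)⟩

/-- the sum of the slices, chains with closed neighbourhoods -/
theorem lag_core {O' : ℕ → ℕ → ℕ} {F' : ℕ → ℕ} (hO : IsO d O') (hF : IsF d F')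
    {T D : Finset (Site (d + 1))} (h : Cl T D) {m : ℕ} (hm : ∀ j, (sl D j).card ≤ m)
    {den r ρ : ℕ} {α β Γ : ℕ → ℕ}
    (h1 : ∀ x, 1 ≤ x → x ≤ m → r * x ≤ den * O' 0 x)
    (h2 : ∀ s, 1 ≤ s → s ≤ T.card → ∀ x, F' s ≤ x → x ≤ m →
      r * x + ρ * s + β s ≤ den * O' s x)
    (h3 : ∀ s, 1 ≤ s → s ≤ T.card → ∀ x, s ≤ x → x ≤ m → r * x + α s ≤ den * O' 0 x)
    (hG0 : Γ 0 = 0) (hG : ∀ s s', 1 ≤ s' → s' ≤ s → s ≤ T.card → Γ s ≤ β s')
    (hT : T.Nonempty) (K : ℕ)
    (hs : F' T.card ≤ m → T.card ≤ m → K ≤ β T.card + 2 * α T.card)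
    (hd : ∀ sa sb, 1 ≤ sa → 1 ≤ sb → sa + sb ≤ T.card →
      K ≤ β sa + β sb + α sa + α sb + Γ (T.card - sa - sb)) :
    r * D.card + ρ * T.card + K ≤ den * ∑ j ∈ lvls D, outE (sl D j) := by
  classical
  set a : ℤ := (lvls T).min' (by
    obtain ⟨x, hx⟩ := hT
    exact ⟨x 0, Finset.mem_image_of_mem _ hx⟩) with ha
  set b : ℤ := (lvls T).max' (by
    obtain ⟨x, hx⟩ := hT
    exact ⟨x 0, Finset.mem_image_of_mem _ hx⟩) with hb
  have haT : a ∈ lvls T := Finset.min'_mem _ _
  have hbT : b ∈ lvls T := Finset.max'_mem _ _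
  have hmin : ∀ j ∈ lvls T, a ≤ j := fun j hj => Finset.min'_le _ _ hj
  have hmax : ∀ j ∈ lvls T, j ≤ b := fun j hj => Finset.le_max' _ _ hj
  have hsub : lvls T ⊆ lvls D := Finset.image_subset_image h.1
  have hza : ∀ j, j < a → sl T j = ∅ := fun j hj => by
    by_contra hne
    have := hmin j (mem_lvls.2 (Finset.nonempty_iff_ne_empty.2 hne))
    omega
  have hzb : ∀ j, b < j → sl T j = ∅ := fun j hj => by
    by_contra hne
    have := hmax j (mem_lvls.2 (Finset.nonempty_iff_ne_empty.2 hne))
    omega
  have hane := mem_lvls.1 haT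
  have hbne := mem_lvls.1 hbT
  have ha1 : 1 ≤ (sl T a).card := Finset.card_pos.2 hane
  have hb1 : 1 ≤ (sl T b).card := Finset.card_pos.2 hbne
  have hpa : sl T a ⊆ sl D (a - 1) := h.slice_pred a
  have hpb : sl T b ⊆ sl D (b + 1) := h.slice_succ b
  have hca : (sl T a).card ≤ (sl D (a - 1)).card := Finset.card_le_card hpa
  have hcb : (sl T b).card ≤ (sl D (b + 1)).card := Finset.card_le_card hpb
  have ham : a - 1 ∈ lvls D := mem_lvls.2 (hane.mono hpa)
  have hbm : b + 1 ∈ lvls D := mem_lvls.2 (hbne.mono hpb)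
  have hle : ∀ j, (sl T j).card ≤ T.card := fun j => by
    by_cases hj : j ∈ lvls D
    · rw [card_slices h.1]
      exact Finset.single_le_sum (f := fun j => (sl T j).card) (fun _ _ => Nat.zero_le _) hj
    · have : sl T j = ∅ := by
        by_contra hne
        exact hj (hsub (mem_lvls.2 (Finset.nonempty_iff_ne_empty.2 hne)))
      rw [this]
      simp
  have hab : a ≤ b := hmin b hbT
  -- the defects
  set w : ℤ → ℕ := fun j => (if 1 ≤ (sl T j).card then β (sl T j).card else 0) +
    (if j = a - 1 then α (sl T a).card else 0) + (if j = b + 1 then α (sl T b).card else 0) with hw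
  have hslice : ∀ j ∈ lvls D, r * (sl D j).card + ρ * (sl T j).card + w j ≤
      den * outE (sl D j) := by
    intro j hj
    have hj1 : 1 ≤ (sl D j).card := Finset.card_pos.2 (mem_lvls.1 hj)
    have hjm := hm j
    have hcl := h.slice j
    have hOj := hO _ _ hcl
    have hO0 := hO ∅ (sl D j) ⟨Finset.empty_subset _, fun x hx => absurd hx (Finset.notMem_empty x)⟩
    rw [Finset.card_empty] at hO0
    by_cases ht : 1 ≤ (sl T j).card
    · have hne : (sl T j).Nonempty := Finset.card_pos.1 ht
      have hjT : j ∈ lvls T := mem_lvls.2 hne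
      have hj1 := hmin j hjT
      have hj2 := hmax j hjT
      have e1 : w j = β (sl T j).card := by
        simp only [hw]
        rw [if_pos ht, if_neg (by omega), if_neg (by omega)]
        rfl
      rw [e1]
      refine (h2 _ ht (hle j) _ (hF _ _ hcl) hjm).trans ?_
      exact Nat.mul_le_mul_left _ hOj
    · have ht0 : (sl T j).card = 0 := by omega
      rw [ht0, mul_zero, add_zero]
      have hfin : ∀ x, r * (sl D j).card + x ≤ den * O' 0 (sl D j).card →
          r * (sl D j).card + x ≤ den * outE (sl D j) := fun x hx =>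
        hx.trans (Nat.mul_le_mul_left _ hO0)
      by_cases hja : j = a - 1
      · have e1 : w j = α (sl T a).card := by
          simp only [hw]
          rw [if_neg ht, if_pos hja, if_neg (by omega)]
          omega
        rw [e1]
        refine hfin _ (h3 _ ha1 (hle a) _ ?_ hjm)
        rw [hja]
        exact hca
      · by_cases hjb : j = b + 1
        · have e1 : w j = α (sl T b).card := by
            simp only [hw]
            rw [if_neg ht, if_neg hja, if_pos hjb]
            omega
          rw [e1]
          refine hfin _ (h3 _ hb1 (hle b) _ ?_ hjm)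
          rw [hjb]
          exact hcb
        · have e1 : w j = 0 := by
            simp only [hw]
            rw [if_neg ht, if_neg hja, if_neg hjb]
          rw [e1]
          exact hfin _ (h1 _ hj1 hjm)
  -- the sum of the defects
  have hsum : K ≤ ∑ j ∈ lvls D, w j := by
    have e1 : ∑ j ∈ lvls D, w j = (∑ j ∈ lvls D, (if 1 ≤ (sl T j).card then β (sl T j).card else 0))
        + α (sl T a).card + α (sl T b).card := by
      simp only [hw]
      rw [Finset.sum_add_distrib, Finset.sum_add_distrib, Finset.sum_ite_eq', Finset.sum_ite_eq',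
        if_pos ham, if_pos hbm]
    have e2 : ∑ j ∈ lvls T, β (sl T j).card ≤
        ∑ j ∈ lvls D, (if 1 ≤ (sl T j).card then β (sl T j).card else 0) := by
      refine le_trans (le_of_eq ?_) (Finset.sum_le_sum_of_subset hsub)
      refine Finset.sum_congr rfl fun j hj => ?_
      have hj1 : 1 ≤ (sl T j).card := Finset.card_pos.2 (mem_lvls.1 hj)
      rw [if_pos hj1]
    have e3 : T.card = ∑ j ∈ lvls T, (sl T j).card := card_slices (Finset.Subset.refl T)
    rw [e1]
    rcases hab.eq_or_lt with hab' | hab'
    · -- one slice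
      have hone : lvls T = {a} := by
        ext j
        rw [Finset.mem_singleton]
        constructor
        · intro hj
          have h1 := hmin j hj
          have h2 := hmax j hj
          omega
        · rintro rfl
          exact haT
      rw [hone, Finset.sum_singleton] at e2 e3
      rw [← hab', ← e3]
      rw [← e3] at e2
      have h4 : F' T.card ≤ m := by
        have := hF _ _ (h.slice a)
        rw [← e3] at this
        exact this.trans (hm a)
      have h5 : T.card ≤ m := by
        rw [e3]
        exact (Finset.card_le_card (h.slice a).1).trans (hm a)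
      have := hs h4 h5
      omega
    · -- several slices
      have hbne : b ∈ (lvls T).erase a := Finset.mem_erase.2 ⟨ne_of_gt hab', hbT⟩
      have e4 : ∑ j ∈ lvls T, β (sl T j).card = β (sl T a).card + (β (sl T b).card +
          ∑ j ∈ ((lvls T).erase a).erase b, β (sl T j).card) := by
        rw [← Finset.add_sum_erase _ _ haT, ← Finset.add_sum_erase _ _ hbne]
      have e5 : T.card = (sl T a).card + ((sl T b).card +
          ∑ j ∈ ((lvls T).erase a).erase b, (sl T j).card) := by
        rw [e3, ← Finset.add_sum_erase _ _ haT, ← Finset.add_sum_erase _ _ hbne]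
      set R := ((lvls T).erase a).erase b with hR
      have e6 : Γ (∑ j ∈ R, (sl T j).card) ≤ ∑ j ∈ R, β (sl T j).card := by
        rcases R.eq_empty_or_nonempty with hR0 | ⟨j, hj⟩
        · rw [hR0, Finset.sum_empty, Finset.sum_empty, hG0]
        · have hjT : j ∈ lvls T := Finset.mem_of_mem_erase (Finset.mem_of_mem_erase hj)
          have h6 : 1 ≤ (sl T j).card := Finset.card_pos.2 (mem_lvls.1 hjT)
          have h7 : (sl T j).card ≤ ∑ j ∈ R, (sl T j).card :=
            Finset.single_le_sum (f := fun j => (sl T j).card) (fun _ _ => Nat.zero_le _) hj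
          have h8 : β (sl T j).card ≤ ∑ j ∈ R, β (sl T j).card :=
            Finset.single_le_sum (f := fun j => β (sl T j).card) (fun _ _ => Nat.zero_le _) hj
          exact (hG _ _ h6 h7 (by omega)).trans h8
      have h9 := hd (sl T a).card (sl T b).card ha1 hb1 (by omega)
      have e7 : T.card - (sl T a).card - (sl T b).card = ∑ j ∈ R, (sl T j).card := by omega
      rw [e7] at h9
      omega
  have e8 : r * D.card + ρ * T.card + ∑ j ∈ lvls D, w j =
      ∑ j ∈ lvls D, (r * (sl D j).card + ρ * (sl T j).card + w j) := by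
    clear_value w
    rw [Finset.sum_add_distrib, Finset.sum_add_distrib, ← Finset.mul_sum, ← Finset.mul_sum,
      ← card_slices h.1, ← card_slices (Finset.Subset.refl D)]
  rw [Finset.mul_sum]
  calc r * D.card + ρ * T.card + K ≤ r * D.card + ρ * T.card + ∑ j ∈ lvls D, w j := by omega
    _ = ∑ j ∈ lvls D, (r * (sl D j).card + ρ * (sl T j).card + w j) := e8
    _ ≤ _ := Finset.sum_le_sum hslice

/-- the case without a closed neighbourhood -/
theorem lag_core0 {O' : ℕ → ℕ → ℕ} (hO : IsO d O')
    {D : Finset (Site (d + 1))} {m : ℕ} (hm : ∀ j, (sl D j).card ≤ m) {den r : ℕ}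
    (h1 : ∀ x, 1 ≤ x → x ≤ m → r * x ≤ den * O' 0 x) :
    r * D.card ≤ den * ∑ j ∈ lvls D, outE (sl D j) := by
  rw [card_slices (Finset.Subset.refl D), Finset.mul_sum, Finset.mul_sum]
  refine Finset.sum_le_sum fun j hj => ?_
  have hj1 : 1 ≤ (sl D j).card := Finset.card_pos.2 (mem_lvls.1 hj)
  have hO0 := hO ∅ (sl D j) ⟨Finset.empty_subset _, fun x hx => absurd hx (Finset.notMem_empty x)⟩
  rw [Finset.card_empty] at hO0
  exact (h1 _ hj1 (hm j)).trans (Nat.mul_le_mul_left _ hO0)

end Pool.Agent.Lib.MP_67d80e_pr_all
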