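import Pool.Agent.Lib.MP_67d80e_pr_all.Lag

/-!
Lagrangian lower bounds for the sum over the slices, second form: a general functional of the
slices, and all decompositions of `T` into slices.
-/

set_option autoImplicit false

open scoped BigOperators
open Pool.Agent.Lib.MP_67d80e_pr

namespace Pool.Agent.Lib.MP_67d80e_pr_all

variable {d : ℕ}

/-- the sum over the slices, chains with closed neighbourhoods -/
theorem lag2_core {Φ : Finset (Site d) → ℕ} {V : ℕ → ℕ → ℕ} {F' : ℕ → ℕ}
    (hV : ∀ T D : Finset (Site d), Cl T D → V T.card D.card ≤ Φ D) (hF : IsF d F')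
    {T D : Finset (Site (d + 1))} (h : Cl T D) {m : ℕ} (hm : ∀ j, (sl D j).card ≤ m)
    {r : ℕ} {α β Γ : ℕ → ℕ}
    (h1 : ∀ x, 1 ≤ x → x ≤ m → r * x ≤ V 0 x)
    (h2 : ∀ s, 1 ≤ s → s ≤ T.card → ∀ x, F' s ≤ x → x ≤ m → r * x + β s ≤ V s x)
    (h3 : ∀ s, 1 ≤ s → s ≤ T.card → ∀ x, s ≤ x → x ≤ m → r * x + α s ≤ V 0 x)
    (hG0 : Γ 0 = 0) (hG : ∀ s u, 1 ≤ s → s + u ≤ T.card → Γ (s + u) ≤ β s + Γ u)
    (hT : T.Nonempty) (K : ℕ)
    (hs : K ≤ β T.card + 2 * α T.card)
    (hd : ∀ sa sb, 1 ≤ sa → 1 ≤ sb → sa + sb ≤ T.card →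
      K ≤ β sa + β sb + α sa + α sb + Γ (T.card - sa - sb)) :
    r * D.card + K ≤ ∑ j ∈ lvls D, Φ (sl D j) := by
  classical
  set a : ℤ := (lvls T).min' (by
    obtain ⟨x, hx⟩ := hT
    exact ⟨x 0, Finset.mem_image_of_mem _ hx⟩) with ha
  set b : ℤ := (lvls T).max' (by
    obtain ⟨x, hx⟩ := hT
    exact ⟨x 0, Finset.mem_image_of_mem _ hx⟩) with hb
  have haT : a ∈ lvls T := Finset.min'_mem _ _
  have hbT : b ∈ lvls T := Finset.max'_mem _ _
  have hmin : ∀ j ∈ lvls T, a ≤ j := fun j hj => Finset.min'_le _ _ hj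
  have hmax : ∀ j ∈ lvls T, j ≤ b := fun j hj => Finset.le_max' _ _ hj
  have hsub : lvls T ⊆ lvls D := Finset.image_subset_image h.1
  have hane := mem_lvls.1 haT
  have hbne := mem_lvls.1 hbT
  have ha1 : 1 ≤ (sl T a).card := Finset.card_pos.2 hane
  have hb1 : 1 ≤ (sl T b).card := Finset.card_pos.2 hbne
  have hpa : sl T a ⊆ sl D (a - 1) := h.slice_pred a
  have hpb : sl T b ⊆ sl D (b + 1) := h.slice_succ b
  have hca : (sl T a).card ≤ (sl D (a - 1)).card := Finset.card_le_card hpa
  have hcb : (sl T b).card ≤ (sl D (b + 1)).card := Finset.card_le_card hpb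
  have ham : a - 1 ∈ lvls D := mem_lvls.2 (hane.mono hpa)
  have hbm : b + 1 ∈ lvls D := mem_lvls.2 (hbne.mono hpb)
  have hle : ∀ j, (sl T j).card ≤ T.card := fun j => by
    by_cases hj : j ∈ lvls D
    · rw [card_slices h.1]
      exact Finset.single_le_sum (f := fun j => (sl T j).card) (fun _ _ => Nat.zero_le _) hj
    · have : sl T j = ∅ := by
        by_contra hne
        exact hj (hsub (mem_lvls.2 (Finset.nonempty_iff_ne_empty.2 hne)))
      rw [this]
      simp
  have hab : a ≤ b := hmin b hbT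
  -- the defects
  set w : ℤ → ℕ := fun j => (if 1 ≤ (sl T j).card then β (sl T j).card else 0) +
    (if j = a - 1 then α (sl T a).card else 0) + (if j = b + 1 then α (sl T b).card else 0) with hw
  have hslice : ∀ j ∈ lvls D, r * (sl D j).card + w j ≤ Φ (sl D j) := by
    intro j hj
    have hj1 : 1 ≤ (sl D j).card := Finset.card_pos.2 (mem_lvls.1 hj)
    have hjm := hm j
    have hcl := h.slice j
    have hOj := hV _ _ hcl
    have hO0 := hV ∅ (sl D j) ⟨Finset.empty_subset _, fun x hx => absurd hx (Finset.notMem_empty x)⟩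
    rw [Finset.card_empty] at hO0
    by_cases ht : 1 ≤ (sl T j).card
    · have hne : (sl T j).Nonempty := Finset.card_pos.1 ht
      have hjT : j ∈ lvls T := mem_lvls.2 hne
      have hj1 := hmin j hjT
      have hj2 := hmax j hjT
      have e1 : w j = β (sl T j).card := by
        simp only [hw]
        rw [if_pos ht, if_neg (by omega), if_neg (by omega)]
        rfl
      rw [e1]
      exact (h2 _ ht (hle j) _ (hF _ _ hcl) hjm).trans hOj
    · have hfin : ∀ x, r * (sl D j).card + x ≤ V 0 (sl D j).card →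
          r * (sl D j).card + x ≤ Φ (sl D j) := fun x hx => hx.trans hO0
      by_cases hja : j = a - 1
      · have e1 : w j = α (sl T a).card := by
          simp only [hw]
          rw [if_neg ht, if_pos hja, if_neg (by omega)]
          omega
        rw [e1]
        refine hfin _ (h3 _ ha1 (hle a) _ ?_ hjm)
        rw [hja]
        exact hca
      · by_cases hjb : j = b + 1
        · have e1 : w j = α (sl T b).card := by
            simp only [hw]
            rw [if_neg ht, if_neg hja, if_pos hjb]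
            omega
          rw [e1]
          refine hfin _ (h3 _ hb1 (hle b) _ ?_ hjm)
          rw [hjb]
          exact hcb
        · have e1 : w j = 0 := by
            simp only [hw]
            rw [if_neg ht, if_neg hja, if_neg hjb]
          rw [e1]
          exact hfin _ (h1 _ hj1 hjm)
  -- the sum of the defects
  have hsum : K ≤ ∑ j ∈ lvls D, w j := by
    have e1 : ∑ j ∈ lvls D, w j = (∑ j ∈ lvls D, (if 1 ≤ (sl T j).card then β (sl T j).card else 0))
        + α (sl T a).card + α (sl T b).card := by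
      simp only [hw]
      rw [Finset.sum_add_distrib, Finset.sum_add_distrib, Finset.sum_ite_eq', Finset.sum_ite_eq',
        if_pos ham, if_pos hbm]
    have e2 : ∑ j ∈ lvls T, β (sl T j).card ≤
        ∑ j ∈ lvls D, (if 1 ≤ (sl T j).card then β (sl T j).card else 0) := by
      refine le_trans (le_of_eq ?_) (Finset.sum_le_sum_of_subset hsub)
      refine Finset.sum_congr rfl fun j hj => ?_
      have hj1 : 1 ≤ (sl T j).card := Finset.card_pos.2 (mem_lvls.1 hj)
      rw [if_pos hj1]
    have e3 : T.card = ∑ j ∈ lvls T, (sl T j).card := card_slices (Finset.Subset.refl T)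
    rw [e1]
    rcases hab.eq_or_lt with hab' | hab'
    · -- one slice
      have hone : lvls T = {a} := by
        ext j
        rw [Finset.mem_singleton]
        constructor
        · intro hj
          have h1 := hmin j hj
          have h2 := hmax j hj
          omega
        · rintro rfl
          exact haT
      rw [hone, Finset.sum_singleton] at e2 e3
      rw [← hab', ← e3]
      rw [← e3] at e2
      omega
    · -- several slices
      have hbne : b ∈ (lvls T).erase a := Finset.mem_erase.2 ⟨ne_of_gt hab', hbT⟩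
      have e4 : ∑ j ∈ lvls T, β (sl T j).card = β (sl T a).card + (β (sl T b).card +
          ∑ j ∈ ((lvls T).erase a).erase b, β (sl T j).card) := by
        rw [← Finset.add_sum_erase _ _ haT, ← Finset.add_sum_erase _ _ hbne]
      have e5 : T.card = (sl T a).card + ((sl T b).card +
          ∑ j ∈ ((lvls T).erase a).erase b, (sl T j).card) := by
        rw [e3, ← Finset.add_sum_erase _ _ haT, ← Finset.add_sum_erase _ _ hbne]
      set R := ((lvls T).erase a).erase b with hR
      have e6 : ∀ R' : Finset ℤ, R' ⊆ R →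
          Γ (∑ j ∈ R', (sl T j).card) ≤ ∑ j ∈ R', β (sl T j).card := by
        intro R'
        induction R' using Finset.induction_on with
        | empty => intro _; rw [Finset.sum_empty, Finset.sum_empty, hG0]
        | insert j R' hj ih =>
          intro hsubR
          rw [Finset.sum_insert hj, Finset.sum_insert hj]
          have h6 := ih ((Finset.subset_insert _ _).trans hsubR)
          have hjT : j ∈ lvls T := Finset.mem_of_mem_erase (Finset.mem_of_mem_erase
            (hsubR (Finset.mem_insert_self _ _)))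
          have h7 : 1 ≤ (sl T j).card := Finset.card_pos.2 (mem_lvls.1 hjT)
          have h8 : ∑ j ∈ insert j R', (sl T j).card ≤ ∑ j ∈ R, (sl T j).card :=
            Finset.sum_le_sum_of_subset hsubR
          rw [Finset.sum_insert hj] at h8
          exact (hG _ _ h7 (by omega)).trans (Nat.add_le_add_left h6 _)
      have h9 := hd (sl T a).card (sl T b).card ha1 hb1 (by omega)
      have e7 : T.card - (sl T a).card - (sl T b).card = ∑ j ∈ R, (sl T j).card := by omega
      rw [e7] at h9
      have h10 := e6 R (Finset.Subset.refl _)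
      omega
  have e8 : r * D.card + ∑ j ∈ lvls D, w j =
      ∑ j ∈ lvls D, (r * (sl D j).card + w j) := by
    clear_value w
    rw [Finset.sum_add_distrib, ← Finset.mul_sum, ← card_slices (Finset.Subset.refl D)]
  calc r * D.card + K ≤ r * D.card + ∑ j ∈ lvls D, w j := by omega
    _ = ∑ j ∈ lvls D, (r * (sl D j).card + w j) := e8
    _ ≤ _ := Finset.sum_le_sum hslice

/-- the semantic content of a certificate: `M` bounds the slices, `rp - rn` is the slope (per
`1 / 12`) and `K` are the defects -/
def VC (d : ℕ) (M rp rn : ℕ) (K : ℕ → ℕ) : Prop :=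
  ∀ T D : Finset (Site (d + 1)), Cl T D → 1 ≤ T.card → T.card ≤ 24 → (∀ j, (sl D j).card ≤ M) →
    ∀ j0, 24 * (sl D j0).card + rp * D.card + K T.card ≤ 12 * outE D + rn * D.card

theorem VC_of {O' : ℕ → ℕ → ℕ} {F' : ℕ → ℕ} (hO : IsO d O') (hF : IsF d F') {M rp rn : ℕ}
    {a b g k : ℕ → ℕ}
    (h1 : ∀ x, x ≤ M → rp * x ≤ 12 * O' 0 x + rn * x)
    (h2 : ∀ s, 1 ≤ s → s ≤ 24 → ∀ x, F' s ≤ x → x ≤ M → rp * x + b s ≤ 12 * O' s x + rn * x)
    (h3 : ∀ s, 1 ≤ s → s ≤ 24 → ∀ x, s ≤ x → x ≤ M → rp * x + a s ≤ 12 * O' 0 x + rn * x)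
    (hG0 : g 0 = 0) (hG : ∀ s u, 1 ≤ s → s + u ≤ 24 → g (s + u) ≤ b s + g u)
    (hs : ∀ t, 1 ≤ t → t ≤ 24 → k t ≤ b t + 2 * a t)
    (hd : ∀ sa sb u, 1 ≤ sa → 1 ≤ sb → sa + sb + u ≤ 24 →
      k (sa + sb + u) ≤ b sa + b sb + a sa + a sb + g u) : VC d M rp rn k := by
  intro T D h hT1 hT24 hM j0
  have hc := lag2_core (Φ := fun D => 12 * outE D + rn * D.card)
    (V := fun s x => 12 * O' s x + rn * x)
    (fun T D hTD => Nat.add_le_add_right (Nat.mul_le_mul_left 12 (hO T D hTD)) _) hF h hM
    (r := rp) (α := a) (β := b) (Γ := g) (fun x _ hx => h1 x hx)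
    (fun s hs1 hs2 => h2 s hs1 (by omega)) (fun s hs1 hs2 => h3 s hs1 (by omega)) hG0
    (fun s u hs1 hs2 => hG s u hs1 (by omega)) (Finset.card_pos.1 hT1) (k T.card)
    (hs _ hT1 hT24) (fun sa sb ha hb hab => by
      have h4 := hd sa sb (T.card - sa - sb) ha hb (by omega)
      have h5 : sa + sb + (T.card - sa - sb) = T.card := by omega
      rwa [h5] at h4)
  have hs := slice_bound D j0
  rw [Finset.sum_add_distrib, ← Finset.mul_sum, ← Finset.mul_sum,
    ← card_slices (Finset.Subset.refl D)] at hc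
  omega

end Pool.Agent.Lib.MP_67d80e_pr_all
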