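import Pool.Agent.Lib.MP_67d80e_pr_all.Vtx

set_option autoImplicit false

open scoped BigOperators
open Pool.Agent.Lib.MP_67d80e_pr

namespace Pool.Agent.Lib.MP_67d80e_pr_all

variable {d : ℕ}

/-- a bounded universal quantifier, for the kernel -/
def allB (f : ℕ → Bool) : ℕ → Bool
  | 0 => true
  | n + 1 => f n && allB f n

lemma allB_iff {f : ℕ → Bool} {n : ℕ} : allB f n = true ↔ ∀ i < n, f i = true := by
  induction n with
  | zero => simp [allB]
  | succ n ih =>
    rw [allB, Bool.and_eq_true, ih]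
    constructor
    · rintro ⟨h1, h2⟩ i hi
      rcases Nat.lt_succ_iff_lt_or_eq.1 hi with h | rfl
      · exact h2 i h
      · exact h1
    · intro h
      exact ⟨h n (Nat.lt_succ_self n), fun i hi => h i (Nat.lt_succ_of_lt hi)⟩

/-- the `i`-th field of `w` bits -/
def fld (w a i : ℕ) : ℕ := (a >>> (w * i)) % 2 ^ w

/-- a linear lower bound for the slices: `den`, `r`, `ρ`, and the packed defects (16 bits) -/
structure Cand where
  den : ℕ
  r : ℕ
  ρ : ℕ
  A : ℕ
  B : ℕ
  G : ℕ
  K : ℕ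

namespace Cand

def al (c : Cand) (s : ℕ) : ℕ := fld 16 c.A s
def be (c : Cand) (s : ℕ) : ℕ := fld 16 c.B s
def ga (c : Cand) (s : ℕ) : ℕ := fld 16 c.G s
def ka (c : Cand) (s : ℕ) : ℕ := fld 16 c.K s

/-- the certificate check -/
def ok (O' : ℕ → ℕ → ℕ) (F' : ℕ → ℕ) (TM m : ℕ) (c : Cand) : Bool :=
  allB (fun x => Nat.ble (c.r * x) (c.den * O' 0 x)) (m + 1) &&
  (Nat.beq (c.ga 0) 0 &&
  allB (fun i =>
    allB (fun x => Nat.blt x (i + 1) || Nat.ble (c.r * x + c.al (i + 1)) (c.den * O' 0 x)) (m + 1) &&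
    (allB (fun x => Nat.blt x (F' (i + 1)) ||
      Nat.ble (c.r * x + c.ρ * (i + 1) + c.be (i + 1)) (c.den * O' (i + 1) x)) (m + 1) &&
    (Nat.ble (c.ga (i + 1)) (c.be (i + 1)) &&
    ((Nat.beq i 0 || Nat.ble (c.ga (i + 1)) (c.ga i)) &&
    ((Nat.blt m (F' (i + 1)) || (Nat.blt m (i + 1) ||
      Nat.ble (c.ka (i + 1)) (c.be (i + 1) + 2 * c.al (i + 1)))) &&
    allB (fun a => allB (fun b => Nat.blt (i + 1) (a + 1 + (b + 1)) ||
      Nat.ble (c.ka (i + 1)) (c.be (a + 1) + c.be (b + 1) + c.al (a + 1) + c.al (b + 1) +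
        c.ga (i + 1 - (a + 1) - (b + 1)))) i) i))))) TM)

/-- the value of the lower bound, times `den` -/
def val (c : Cand) (m t n : ℕ) : ℕ :=
  2 * c.den * m + c.r * n + (if t = 0 then 0 else c.ρ * t + c.ka t)

theorem ok_bound {O' : ℕ → ℕ → ℕ} {F' : ℕ → ℕ} {TM m : ℕ} {c : Cand} (hO : IsO d O')
    (hF : IsF d F') (hc : c.ok O' F' TM m = true) {T D : Finset (Site (d + 1))} (h : Cl T D)
    (hT : T.card ≤ TM) (j0 : ℤ) (hj0 : (sl D j0).card = m) (hm : ∀ j, (sl D j).card ≤ m) :
    c.val m T.card D.card ≤ c.den * outE D := by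
  simp only [ok, Bool.and_eq_true, Bool.or_eq_true, allB_iff, Nat.blt_eq, Nat.ble_eq] at hc
  obtain ⟨c1, c2, c3⟩ := hc
  have hs := slice_bound D j0
  rw [hj0] at hs
  have h1 : ∀ x, 1 ≤ x → x ≤ m → c.r * x ≤ c.den * O' 0 x := fun x _ hx => c1 x (by omega)
  have hmul := Nat.mul_le_mul_left c.den hs
  rw [Nat.mul_add] at hmul
  unfold val
  rcases Nat.eq_zero_or_pos T.card with h0 | h0
  · rw [if_pos h0]
    have h2 := lag_core0 hO (D := D) hm h1
    have h3 : c.den * (2 * m) = 2 * c.den * m := by ring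
    omega
  · rw [if_neg (by omega)]
    have hG : ∀ s s', 1 ≤ s' → s' ≤ s → s ≤ TM → c.ga s ≤ c.be s' := by
      intro s
      induction s with
      | zero => intro s' h1 h2; omega
      | succ s ih =>
        intro s' h1 h2 h3
        obtain ⟨-, -, c4, c5, -⟩ := c3 s (by omega)
        rcases Nat.eq_or_lt_of_le h2 with rfl | h4
        · exact c4
        · rcases c5 with c5 | c5
          · have : s = 0 := Nat.eq_of_beq_eq_true c5
            omega
          · exact c5.trans (ih s' h1 (by omega) (by omega))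
    have h2 := lag_core (d := d) (den := c.den) (r := c.r) (ρ := c.ρ) (α := c.al) (β := c.be)
      (Γ := c.ga) hO hF h hm h1 ?_ ?_ ?_ ?_ (Finset.card_pos.1 h0) (c.ka T.card) ?_ ?_
    · have h3 : c.den * (2 * m) = 2 * c.den * m := by ring
      omega
    · intro s hs1 hs2 x hx1 hx2
      obtain ⟨i, rfl⟩ : ∃ i, s = i + 1 := ⟨s - 1, by omega⟩
      obtain ⟨-, c4, -⟩ := c3 i (by omega)
      rcases c4 x (by omega) with h4 | h4
      · omega
      · exact h4
    · intro s hs1 hs2 x hx1 hx2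
      obtain ⟨i, rfl⟩ : ∃ i, s = i + 1 := ⟨s - 1, by omega⟩
      obtain ⟨c4, -⟩ := c3 i (by omega)
      rcases c4 x (by omega) with h4 | h4
      · omega
      · exact h4
    · exact Nat.eq_of_beq_eq_true c2
    · intro s s' h1 h2 h3
      exact hG s s' h1 h2 (by omega)
    · intro h3 h4
      obtain ⟨i, hi⟩ : ∃ i, T.card = i + 1 := ⟨T.card - 1, by omega⟩
      obtain ⟨-, -, -, -, c5, -⟩ := c3 i (by omega)
      rw [← hi] at c5
      rcases c5 with h5 | h5 | h5
      · omega
      · omega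
      · exact h5
    · intro sa sb ha hb hab
      obtain ⟨i, hi⟩ : ∃ i, T.card = i + 1 := ⟨T.card - 1, by omega⟩
      obtain ⟨a, rfl⟩ : ∃ a, sa = a + 1 := ⟨sa - 1, by omega⟩
      obtain ⟨b, rfl⟩ : ∃ b, sb = b + 1 := ⟨sb - 1, by omega⟩
      obtain ⟨-, -, -, -, -, c6⟩ := c3 i (by omega)
      have c7 := c6 a (by omega) b (by omega)
      rw [← hi] at c7
      rcases c7 with h5 | h5
      · omega
      · exact h5

end Cand

/-- all certificates are correct; the `i`-th list is for the maximal slice `m + i` -/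
def okAll (O' : ℕ → ℕ → ℕ) (F' : ℕ → ℕ) (TM : ℕ) : List (List Cand) → ℕ → Bool
  | [], _ => true
  | l :: ls, m => l.all (Cand.ok O' F' TM m) && okAll O' F' TM ls (m + 1)

/-- the entry `o` for `(t, n)` follows from the certificates, for all maximal slices `≥ m` -/
def okEnt (t n o : ℕ) : List (List Cand) → ℕ → Bool
  | [], m => Nat.ble o (2 * m) || Nat.blt n m
  | l :: ls, m => (Nat.ble o (2 * m) || Nat.blt n m) ||
      (l.any (fun c => Nat.blt (c.den * (o - 2)) (c.val m t n)) && okEnt t n o ls (m + 1))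

theorem okEnt_sound {O' : ℕ → ℕ → ℕ} {F' : ℕ → ℕ} {TM : ℕ} (hO : IsO d O') (hF : IsF d F')
    {T D : Finset (Site (d + 1))} (h : Cl T D) (hT : T.card ≤ TM) (j0 : ℤ)
    (hm : ∀ j, (sl D j).card ≤ (sl D j0).card) {o : ℕ} (ho : o % 2 = 0) :
    ∀ (ls : List (List Cand)) (m : ℕ), okAll O' F' TM ls m = true →
      okEnt T.card D.card o ls m = true → m ≤ (sl D j0).card → o ≤ outE D := by
  have hs := slice_bound D j0
  have hcard : (sl D j0).card ≤ D.card := by
    by_cases hj : j0 ∈ lvls D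
    · rw [card_slices (Finset.Subset.refl D)]
      exact Finset.single_le_sum (f := fun j => (sl D j).card) (fun _ _ => Nat.zero_le _) hj
    · rw [sl_empty hj]
      exact Nat.zero_le _
  intro ls
  induction ls with
  | nil =>
    intro m _ h2 h3
    simp only [okEnt, Bool.or_eq_true, Nat.blt_eq, Nat.ble_eq] at h2
    omega
  | cons l ls ih =>
    intro m h1 h2 h3
    simp only [okAll, Bool.and_eq_true] at h1
    simp only [okEnt, Bool.or_eq_true, Bool.and_eq_true, Nat.blt_eq, Nat.ble_eq] at h2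
    rcases h2 with h2 | ⟨h2, h4⟩
    · omega
    · rcases Nat.eq_or_lt_of_le h3 with h5 | h5
      · rw [List.any_eq_true] at h2
        obtain ⟨c, hc, hc2⟩ := h2
        rw [Nat.blt_eq] at hc2
        have hok := List.all_eq_true.1 h1.1 c hc
        have h6 := c.ok_bound hO hF hok h hT j0 h5.symm (fun j => h5 ▸ hm j)
        have h7 : c.den * (o - 2) < c.den * outE D := hc2.trans_le h6
        have h8 : o - 2 < outE D := lt_of_mul_lt_mul_left h7 (Nat.zero_le _)
        have h9 := even_outE D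
        omega
      · exact ih (m + 1) h1.2 h4 (by omega)

/-- the check of a table: `F` is used to skip the impossible entries -/
def okTab (F : ℕ → ℕ) (g : ℕ → ℕ) (O : ℕ → ℕ → ℕ) (D1 NM : ℕ) (ls : List (List Cand)) (TM : ℕ) : Bool :=
  allB (fun t => allB (fun n =>
    Nat.blt (n + 1) (F t) || (Nat.beq (O t (n + 1) % 2) 0 &&
    (Nat.ble (O t (n + 1) + 2 * g (n + 1)) (2 * D1 * (n + 1)) ||
    ((Nat.blt 0 t && Nat.ble (O t (n + 1)) (O (t - 1) (n + 1))) ||
    okEnt t (n + 1) (O t (n + 1)) ls 1)))) NM) (TM + 1)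

theorem okTab_sound {O' : ℕ → ℕ → ℕ} {F' : ℕ → ℕ} {TM NM : ℕ} (hO : IsO d O') (hF : IsF d F')
    {F g : ℕ → ℕ} {O : ℕ → ℕ → ℕ} {ls : List (List Cand)}
    (hFF : ∀ T D : Finset (Site (d + 1)), Cl T D → T.card ≤ TM → F T.card ≤ D.card)
    (hg : ∀ a b, 1 ≤ a → 1 ≤ b → a + b ≤ NM → g a + g b + min a b ≤ g (a + b))
    (hls : okAll O' F' TM ls 1 = true) (htab : okTab F g O (d + 1) NM ls TM = true)
    (h0 : ∀ t, O t 0 = 0) :
    ∀ T D : Finset (Site (d + 1)), Cl T D → T.card ≤ TM → D.card ≤ NM →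
      O T.card D.card ≤ outE D := by
  classical
  simp only [okTab, Bool.and_eq_true, Bool.or_eq_true, allB_iff, Nat.blt_eq, Nat.ble_eq] at htab
  intro T D h hT hD
  induction' hk : T.card with k ih generalizing T
  all_goals
    rcases Nat.eq_zero_or_pos D.card with hz | hz
    · rw [hz, h0]
      exact Nat.zero_le _
  · obtain ⟨n, hn⟩ : ∃ n, D.card = n + 1 := ⟨D.card - 1, by omega⟩
    have h1 := htab T.card (by omega) n (by omega)
    rw [← hn, hk] at h1
    have h2 := hFF T D h hT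
    rw [hk] at h2
    rcases h1 with h1 | ⟨h1, h3 | ⟨h3, _⟩ | h3⟩
    · omega
    · have := outE_ge hg D hD
      omega
    · omega
    · obtain ⟨j0, -, hj0⟩ := Finset.exists_max_image (lvls D) (fun j => (sl D j).card)
        (by
          obtain ⟨x, hx⟩ := Finset.card_pos.1 hz
          exact ⟨x 0, Finset.mem_image_of_mem _ hx⟩)
      have hm : ∀ j, (sl D j).card ≤ (sl D j0).card := fun j => by
        by_cases hj : j ∈ lvls D
        · exact hj0 j hj
        · rw [sl_empty hj]
          exact Nat.zero_le _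
      have hpos : 1 ≤ (sl D j0).card := by
        obtain ⟨x, hx⟩ := Finset.card_pos.1 hz
        have hx0 : x 0 ∈ lvls D := Finset.mem_image_of_mem _ hx
        exact le_trans (Finset.card_pos.2 (mem_lvls.1 hx0)) (hm _)
      rw [← hk] at h3
      have := okEnt_sound hO hF h hT j0 hm (Nat.eq_of_beq_eq_true h1) ls 1 hls (by rw [← hk] ; exact h3) hpos
      exact this
  · obtain ⟨n, hn⟩ : ∃ n, D.card = n + 1 := ⟨D.card - 1, by omega⟩
    have h1 := htab T.card (by omega) n (by omega)
    rw [← hn, hk] at h1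
    have h2 := hFF T D h hT
    rw [hk] at h2
    rcases h1 with h1 | ⟨h1, h3 | ⟨_, h3⟩ | h3⟩
    · omega
    · have := outE_ge hg D hD
      omega
    · -- a smaller set
      obtain ⟨x, hx⟩ := Finset.card_pos.1 (by omega : 0 < T.card)
      have h4 : (T.erase x).card = k := by
        rw [Finset.card_erase_of_mem hx, hk]
        rfl
      have h5 := ih (T.erase x) (h.mono (Finset.erase_subset _ _)) (by omega) h4
      exact h3.trans h5
    · obtain ⟨j0, -, hj0⟩ := Finset.exists_max_image (lvls D) (fun j => (sl D j).card)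
        (by
          obtain ⟨x, hx⟩ := Finset.card_pos.1 hz
          exact ⟨x 0, Finset.mem_image_of_mem _ hx⟩)
      have hm : ∀ j, (sl D j).card ≤ (sl D j0).card := fun j => by
        by_cases hj : j ∈ lvls D
        · exact hj0 j hj
        · rw [sl_empty hj]
          exact Nat.zero_le _
      have hpos : 1 ≤ (sl D j0).card := by
        obtain ⟨x, hx⟩ := Finset.card_pos.1 hz
        have hx0 : x 0 ∈ lvls D := Finset.mem_image_of_mem _ hx
        exact le_trans (Finset.card_pos.2 (mem_lvls.1 hx0)) (hm _)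
      have := okEnt_sound hO hF h hT j0 hm (Nat.eq_of_beq_eq_true h1) ls 1 hls (by rw [hk] ; exact h3) hpos
      exact this

end Pool.Agent.Lib.MP_67d80e_pr_all
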