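import Pool.Agent.Lib.MP_67d80e_pr_all.Supp

set_option autoImplicit false

open scoped BigOperators
open Filter MeasureTheory
open Pool.Agent.Lib.MP_67d80e_pr

namespace Pool.Agent.Lib.MP_67d80e_pr_all

variable {d : ℕ}

lemma lv_finite {a : Dr d} (ha : {z | a z ≠ ⊥}.Finite) (v : ℤ) :
    {z | ((v : ℤ) : WithBot ℤ) ≤ a z}.Finite := by
  refine ha.subset fun z hz h => ?_
  rw [Set.mem_ofPred_eq, h] at hz
  exact absurd hz (by simp)

open Classical in
/-- the sites of level at least `v` -/
noncomputable def lv (a : Dr d) (v : ℤ) : Finset (Site d) :=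
  if h : {z | ((v : ℤ) : WithBot ℤ) ≤ a z}.Finite then h.toFinset else ∅

lemma mem_lv {a : Dr d} (ha : {z | a z ≠ ⊥}.Finite) {v : ℤ} {z : Site d} :
    z ∈ lv a v ↔ ((v : ℤ) : WithBot ℤ) ≤ a z := by
  unfold lv
  rw [dif_pos (lv_finite ha v)]
  simp

lemma lv_anti {a : Dr d} (ha : {z | a z ≠ ⊥}.Finite) {u v : ℤ} (h : u ≤ v) : lv a v ⊆ lv a u := by
  intro z hz
  rw [mem_lv ha] at hz ⊢
  refine le_trans ?_ hz
  exact_mod_cast h

lemma lv_mono {a b : Dr d} (ha : {z | a z ≠ ⊥}.Finite) (hb : {z | b z ≠ ⊥}.Finite)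
    (h : ∀ z, a z ≤ b z) (v : ℤ) : lv a v ⊆ lv b v := by
  intro z hz
  rw [mem_lv ha] at hz
  rw [mem_lv hb]
  exact hz.trans (h z)

/-- the level sets after a ring at a site of level `k` -/
lemma mem_lv_upd {a : Dr d} (ha : {z | a z ≠ ⊥}.Finite) {x : Site d} {k : ℤ}
    (hk : a x = ((k : ℤ) : WithBot ℤ)) {v : ℤ} {z : Site d} :
    z ∈ lv (upd {x} a) v ↔ z ∈ lv a v ∨ (z = x ∧ v ≤ k + 1) ∨ (z ∈ nbrs x ∧ v ≤ k) := by
  have hf : {z | upd {x} a z ≠ ⊥}.Finite :=
    (ha.union (nbrs x).finite_toSet).subset (upd_supp_subset a x)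
  rw [mem_lv hf, mem_lv ha, upd_single]
  by_cases h1 : z = x
  · subst h1
    rw [if_pos rfl, hk]
    constructor
    · intro h
      right; left
      exact ⟨rfl, by exact_mod_cast h⟩
    · rintro (h | ⟨-, h⟩ | ⟨h, -⟩)
      · have : v ≤ k := by exact_mod_cast h
        exact_mod_cast (by omega : v ≤ k + 1)
      · exact_mod_cast h
      · exact absurd h (self_notMem_nbrs z)
  · rw [if_neg h1]
    by_cases h2 : z ∈ nbrs x
    · rw [if_pos h2, le_max_iff, hk]
      constructor
      · rintro (h | h)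
        · exact Or.inl h
        · exact Or.inr (Or.inr ⟨h2, by exact_mod_cast h⟩)
      · rintro (h | ⟨h, -⟩ | ⟨-, h⟩)
        · exact Or.inl h
        · exact absurd h h1
        · exact Or.inr (by exact_mod_cast h)
    · rw [if_neg h2]
      constructor
      · intro h; exact Or.inl h
      · rintro (h | ⟨h, -⟩ | ⟨h, -⟩)
        · exact h
        · exact absurd h h1
        · exact absurd h h2

/-- levels not above the level of the ringing site: the neighbours are added -/
lemma lv_upd_low {a : Dr d} (ha : {z | a z ≠ ⊥}.Finite) {x : Site d} {k : ℤ}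
    (hk : a x = ((k : ℤ) : WithBot ℤ)) {v : ℤ} (hv : v ≤ k) :
    lv (upd {x} a) v = lv a v ∪ (nbrs x \ lv a v) := by
  ext z
  rw [mem_lv_upd ha hk, Finset.mem_union, Finset.mem_sdiff]
  constructor
  · rintro (h | ⟨h, -⟩ | ⟨h, -⟩)
    · exact Or.inl h
    · left
      rw [h, mem_lv ha, hk]
      exact_mod_cast hv
    · by_cases h2 : z ∈ lv a v
      · exact Or.inl h2
      · exact Or.inr ⟨h, h2⟩
  · rintro (h | ⟨h, -⟩)
    · exact Or.inl h
    · exact Or.inr (Or.inr ⟨h, hv⟩)

lemma card_lv_upd_low {a : Dr d} (ha : {z | a z ≠ ⊥}.Finite) {x : Site d} {k : ℤ}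
    (hk : a x = ((k : ℤ) : WithBot ℤ)) {v : ℤ} (hv : v ≤ k) :
    (lv (upd {x} a) v).card = (lv a v).card + (nbrs x \ lv a v).card := by
  rw [lv_upd_low ha hk hv, Finset.card_union_of_disjoint]
  exact Finset.disjoint_sdiff

/-- the next level: the ringing site is added -/
lemma card_lv_upd_next {a : Dr d} (ha : {z | a z ≠ ⊥}.Finite) {x : Site d} {k : ℤ}
    (hk : a x = ((k : ℤ) : WithBot ℤ)) :
    (lv (upd {x} a) (k + 1)).card = (lv a (k + 1)).card + 1 := by
  classical
  have h1 : lv (upd {x} a) (k + 1) = insert x (lv a (k + 1)) := by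
    ext z
    rw [mem_lv_upd ha hk, Finset.mem_insert]
    constructor
    · rintro (h | ⟨h, -⟩ | ⟨-, h⟩)
      · exact Or.inr h
      · exact Or.inl h
      · omega
    · rintro (h | h)
      · exact Or.inr (Or.inl ⟨h, le_rfl⟩)
      · exact Or.inl h
  have h2 : x ∉ lv a (k + 1) := by
    rw [mem_lv ha, hk]
    intro h
    have : k + 1 ≤ k := by exact_mod_cast h
    omega
  rw [h1, Finset.card_insert_of_notMem h2]

/-- higher levels do not change -/
lemma lv_upd_high {a : Dr d} (ha : {z | a z ≠ ⊥}.Finite) {x : Site d} {k : ℤ}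
    (hk : a x = ((k : ℤ) : WithBot ℤ)) {v : ℤ} (hv : k + 1 < v) :
    lv (upd {x} a) v = lv a v := by
  ext z
  rw [mem_lv_upd ha hk]
  constructor
  · rintro (h | ⟨-, h⟩ | ⟨-, h⟩)
    · exact h
    · omega
    · omega
  · exact Or.inl

/-! ### the potential of four nested sets -/

/-- the highest level -/
noncomputable def topOf (a : Dr d) : ℤ := by
  classical
  exact if h : ∃ m, IsTop a m then h.choose else 0

lemma Good.isTop {a : Dr d} (ha : Good a) : IsTop a (topOf a) := by
  have h := ha.exists_top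
  unfold topOf
  rw [dif_pos h]
  exact h.choose_spec

/-- the number of sites at distance at most `k` from the highest level -/
noncomputable def nk (a : Dr d) (k : ℕ) : ℕ := (lv a (topOf a - k)).card

/-- the potential -/
noncomputable def potF (phi : ℕ → ℕ → ℕ → ℕ → ℝ) (a : Dr d) : ℝ :=
  topOf a + phi (nk a 0) (nk a 1) (nk a 2) (nk a 3)

/-- the conditions on the function of the four cardinalities -/
structure PhiOk (phi : ℕ → ℕ → ℕ → ℕ → ℝ) : Prop where
  bdd : ∃ B : ℝ, ∀ n0 n1 n2 n3, |phi n0 n1 n2 n3| ≤ B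
  mono : ∀ n0 n1 n2 n3 m0 m1 m2 m3, n0 ≤ m0 → n1 ≤ m1 → n2 ≤ m2 → n3 ≤ m3 →
    phi n0 n1 n2 n3 ≤ phi m0 m1 m2 m3
  shift : ∀ n0 n1 n2 n3, 1 ≤ n0 → n0 ≤ n1 → n1 ≤ n2 → n2 ≤ n3 →
    phi n0 n1 n2 n3 ≤ 1 + phi 1 n0 n1 n2

/-- the drift inequality for nested sets. -/
def SetDrift (d : ℕ) (phi : ℕ → ℕ → ℕ → ℕ → ℝ) (c : ℝ) : Prop :=
  ∀ D0 D1 D2 D3 : Finset (Site d), D0.Nonempty → D0 ⊆ D1 → D1 ⊆ D2 → D2 ⊆ D3 →
    (∀ x ∈ D0, nbrs x ⊆ D1) →
    c ≤ (∑ x ∈ D0, (1 + phi 1 (D0.card + (nbrs x \ D0).card) D1.card D2.card -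
            phi D0.card D1.card D2.card D3.card)) +
      (∑ x ∈ D1 \ D0, (phi (D0.card + 1) (D1.card + (nbrs x \ D1).card)
            (D2.card + (nbrs x \ D2).card) (D3.card + (nbrs x \ D3).card) -
            phi D0.card D1.card D2.card D3.card)) +
      (∑ x ∈ D2 \ D1, (phi D0.card (D1.card + 1)
            (D2.card + (nbrs x \ D2).card) (D3.card + (nbrs x \ D3).card) -
            phi D0.card D1.card D2.card D3.card)) +
      (∑ x ∈ D3 \ D2, (phi D0.card D1.card (D2.card + 1) (D3.card + (nbrs x \ D3).card) -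
            phi D0.card D1.card D2.card D3.card))

lemma Good.nk_pos {a : Dr d} (ha : Good a) : 1 ≤ nk a 0 := by
  obtain ⟨z, hz⟩ := ha.isTop.2
  unfold nk
  rw [Nat.one_le_iff_ne_zero, Finset.card_ne_zero]
  refine ⟨z, ?_⟩
  rw [mem_lv ha.fin, hz]
  simp

lemma Good.nk_mono {a : Dr d} (ha : Good a) {j k : ℕ} (h : j ≤ k) : nk a j ≤ nk a k := by
  unfold nk
  refine Finset.card_le_card (lv_anti ha.fin ?_)
  have : (j : ℤ) ≤ k := by exact_mod_cast h
  omega

lemma nk_shift {a b : Dr d} (ha : {z | a z ≠ ⊥}.Finite) (hb : {z | b z ≠ ⊥}.Finite)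
    (h : ∀ z, a z ≤ b z) {j k : ℕ} (hjk : topOf b - k ≤ topOf a - j) : nk a j ≤ nk b k := by
  unfold nk
  refine Finset.card_le_card ?_
  exact (lv_mono ha hb h _).trans (lv_anti hb hjk)

variable {phi : ℕ → ℕ → ℕ → ℕ → ℝ}

/-- the potential is monotone -/
lemma potF_mono (hphi : PhiOk phi) {a b : Dr d} (ha : Good a) (hb : Good b)
    (h : ∀ z, a z ≤ b z) : potF phi a ≤ potF phi b := by
  have htop : topOf a ≤ topOf b := ha.isTop.mono hb.isTop h
  have p0 := hb.nk_pos
  have q0 := ha.nk_pos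
  have q1 := ha.nk_mono (show 0 ≤ 1 by norm_num)
  have q2 := ha.nk_mono (show 1 ≤ 2 by norm_num)
  have q3 := ha.nk_mono (show 2 ≤ 3 by norm_num)
  obtain ⟨g, hg⟩ := Int.eq_ofNat_of_zero_le (sub_nonneg.2 htop)
  unfold potF
  have hg' : topOf b = topOf a + g := by omega
  rw [hg']
  push_cast
  have e1 : ∀ k : ℕ, g ≤ k → nk a (k - g) ≤ nk b k := by
    intro k hk
    refine nk_shift ha.fin hb.fin h ?_
    rw [hg']
    push_cast [hk]
    omega
  have e2 : ∀ k : ℕ, 1 ≤ nk b k := fun k => p0.trans (hb.nk_mono (Nat.zero_le k))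
  have s1 := hphi.shift _ _ _ _ q0 q1 q2 q3
  rcases Nat.lt_or_ge g 4 with hg4 | hg4
  · have s2 := hphi.shift 1 (nk a 0) (nk a 1) (nk a 2) le_rfl q0 q1 q2
    have s3 := hphi.shift 1 1 (nk a 0) (nk a 1) le_rfl le_rfl q0 q1
    interval_cases g
    · have m1 := hphi.mono _ _ _ _ _ _ _ _ (e1 0 le_rfl) (e1 1 (by norm_num)) (e1 2 (by norm_num))
        (e1 3 (by norm_num))
      simp only [Nat.sub_zero] at m1
      push_cast
      linarith
    · have m1 := hphi.mono 1 (nk a 0) (nk a 1) (nk a 2) _ _ _ _ (e2 0) (e1 1 le_rfl)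
        (e1 2 (by norm_num)) (e1 3 (by norm_num))
      push_cast
      linarith
    · have m1 := hphi.mono 1 1 (nk a 0) (nk a 1) _ _ _ _ (e2 0) (e2 1) (e1 2 le_rfl)
        (e1 3 (by norm_num))
      push_cast
      linarith
    · have m1 := hphi.mono 1 1 1 (nk a 0) _ _ _ _ (e2 0) (e2 1) (e2 2) (e1 3 le_rfl)
      push_cast
      linarith
  · have s2 := hphi.shift 1 (nk a 0) (nk a 1) (nk a 2) le_rfl q0 q1 q2
    have s3 := hphi.shift 1 1 (nk a 0) (nk a 1) le_rfl le_rfl q0 q1
    have s4 := hphi.shift 1 1 1 (nk a 0) le_rfl le_rfl le_rfl q0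
    have m1 := hphi.mono 1 1 1 1 _ _ _ _ (e2 0) (e2 1) (e2 2) (e2 3)
    have : (4 : ℝ) ≤ g := by exact_mod_cast hg4
    linarith

/-- the lower bound from the drift inequality for nested sets -/
theorem hasLB_of_sets {c : ℝ} (hphi : PhiOk phi) (hset : SetDrift d phi c) : HasLB d c := by
  classical
  obtain ⟨B, hB⟩ := hphi.bdd
  refine ⟨potF phi, B, fun a m ha hm => ?_, fun a b ha hb h => potF_mono hphi ha hb h, ?_⟩
  · have h1 : topOf a = m := ha.isTop.unique hm
    unfold potF
    rw [h1]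
    have h2 : ((m : ℝ) + phi (nk a 0) (nk a 1) (nk a 2) (nk a 3)) - m =
      phi (nk a 0) (nk a 1) (nk a 2) (nk a 3) := by ring
    rw [h2]
    exact hB _ _ _ _
  · intro a ha s hs
    set M := topOf a with hM
    have htop := ha.isTop
    rw [← hM] at htop
    have hfin := ha.fin
    set D : ℕ → Finset (Site d) := fun k => lv a (M - k) with hD
    have hmem : ∀ k z, z ∈ D k ↔ ((M - k : ℤ) : WithBot ℤ) ≤ a z := fun k z => mem_lv hfin
    have hsub : ∀ j k : ℕ, j ≤ k → D j ⊆ D k := by
      intro j k hjk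
      refine lv_anti hfin ?_
      have : (j : ℤ) ≤ k := by exact_mod_cast hjk
      omega
    have hDs : D 3 ⊆ s := by
      intro z hz
      rw [hs]
      intro h
      rw [hmem, h] at hz
      exact absurd hz (by simp)
    have hnk : ∀ k, nk a k = (D k).card := fun k => rfl
    -- the level of the sites of the differences
    have hval0 : ∀ x ∈ D 0, a x = ((M : ℤ) : WithBot ℤ) := by
      intro x hx
      refine le_antisymm (htop.1 x) ?_
      have := (hmem 0 x).1 hx
      simpa using this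
    have hval : ∀ k : ℕ, ∀ x ∈ D (k + 1) \ D k, a x = ((M - (k + 1 : ℕ) : ℤ) : WithBot ℤ) := by
      intro k x hx
      rw [Finset.mem_sdiff, hmem, hmem] at hx
      obtain ⟨h1, h2⟩ := hx
      have hne : a x ≠ ⊥ := by
        intro h
        rw [h] at h1
        exact absurd h1 (by simp)
      obtain ⟨v, hv⟩ := WithBot.ne_bot_iff_exists.1 hne
      rw [← hv] at h1 h2 ⊢
      have h1 : M - (k + 1 : ℕ) ≤ v := by exact_mod_cast h1
      have h2 : ¬ (M - (k : ℤ) ≤ v) := by
        intro h3
        exact h2 (by exact_mod_cast h3)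
      have : v = M - (k + 1 : ℕ) := by push_cast at h1 ⊢; omega
      rw [this]
    -- the top after a ring
    have hgood : ∀ x, Good (upd {x} a) := fun x => ha.upd x
    have htop1 : ∀ x ∈ D 0, topOf (upd {x} a) = M + 1 := by
      intro x hx
      refine (hgood x).isTop.unique ⟨fun z => ?_, x, ?_⟩
      · rw [upd_single]
        split_ifs with h1 h2
        · rw [hval0 x hx]; push_cast; exact le_rfl
        · refine (max_le (htop.1 z) (htop.1 x)).trans ?_
          exact_mod_cast (by omega : M ≤ M + 1)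
        · refine (htop.1 z).trans ?_
          exact_mod_cast (by omega : M ≤ M + 1)
      · rw [upd_single, if_pos rfl, hval0 x hx]; push_cast; rfl
    have htop2 : ∀ k : ℕ, ∀ x ∈ D (k + 1) \ D k, topOf (upd {x} a) = M := by
      intro k x hx
      have hv := hval k x hx
      refine (hgood x).isTop.unique ⟨fun z => ?_, ?_⟩
      · rw [upd_single]
        split_ifs with h1 h2
        · rw [hv]
          exact_mod_cast (by push_cast; omega : M - (k + 1 : ℕ) + 1 ≤ M)
        · exact max_le (htop.1 z) (htop.1 x)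
        · exact htop.1 z
      · obtain ⟨z, hz⟩ := htop.2
        refine ⟨z, le_antisymm ?_ ?_⟩
        · rw [upd_single]
          split_ifs with h1 h2
          · rw [hv]
            exact_mod_cast (by push_cast; omega : M - (k + 1 : ℕ) + 1 ≤ M)
          · exact max_le (htop.1 z) (htop.1 x)
          · exact htop.1 z
        · rw [← hz]; exact le_upd _ _ _
    -- the neighbours of the highest sites
    have hnb : ∀ x ∈ D 0, nbrs x ⊆ D 1 := by
      intro x hx y hy
      rw [hmem]
      have := ha.top M htop x (hval0 x hx) y hy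
      simpa using this
    have hne : (D 0).Nonempty := by
      obtain ⟨z, hz⟩ := htop.2
      refine ⟨z, ?_⟩
      rw [hmem, hz]
      simp
    have key := hset (D 0) (D 1) (D 2) (D 3) hne (hsub 0 1 (by norm_num)) (hsub 1 2 (by norm_num))
      (hsub 2 3 (by norm_num)) hnb
    -- the increments
    have i0 : ∀ x ∈ D 0, potF phi (upd {x} a) - potF phi a =
        1 + phi 1 ((D 0).card + (nbrs x \ D 0).card) (D 1).card (D 2).card -
            phi (D 0).card (D 1).card (D 2).card (D 3).card := by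
      intro x hx
      have hk := hval0 x hx
      have c0 : nk (upd {x} a) 0 = 1 := by
        unfold nk
        rw [htop1 x hx, Nat.cast_zero, sub_zero, card_lv_upd_next hfin hk]
        have : lv a (M + 1) = ∅ := by
          rw [Finset.eq_empty_iff_forall_notMem]
          intro z hz
          rw [mem_lv hfin] at hz
          have := hz.trans (htop.1 z)
          have : M + 1 ≤ M := by exact_mod_cast this
          omega
        rw [this]; rfl
      have c1 : nk (upd {x} a) 1 = (D 0).card + (nbrs x \ D 0).card := by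
        unfold nk
        have h1 : topOf (upd {x} a) - ((1 : ℕ) : ℤ) = M - ((0 : ℕ) : ℤ) := by
          rw [htop1 x hx]; push_cast; ring
        rw [h1, card_lv_upd_low hfin hk (by push_cast; omega)]
      have c2 : nk (upd {x} a) 2 = (D 1).card := by
        unfold nk
        have h1 : topOf (upd {x} a) - ((2 : ℕ) : ℤ) = M - ((1 : ℕ) : ℤ) := by
          rw [htop1 x hx]; push_cast; ring
        rw [h1, card_lv_upd_low hfin hk (by push_cast; omega)]
        have h2 : nbrs x \ lv a (M - ((1 : ℕ) : ℤ)) = ∅ := Finset.sdiff_eq_empty_iff_subset.2 (hnb x hx)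
        rw [h2, Finset.card_empty, add_zero]
      have c3 : nk (upd {x} a) 3 = (D 2).card := by
        unfold nk
        have h1 : topOf (upd {x} a) - ((3 : ℕ) : ℤ) = M - ((2 : ℕ) : ℤ) := by
          rw [htop1 x hx]; push_cast; ring
        rw [h1, card_lv_upd_low hfin hk (by push_cast; omega)]
        have h2 : nbrs x \ lv a (M - ((2 : ℕ) : ℤ)) = ∅ :=
          Finset.sdiff_eq_empty_iff_subset.2 ((hnb x hx).trans (hsub 1 2 (by norm_num)))
        rw [h2, Finset.card_empty, add_zero]
      unfold potF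
      rw [c0, c1, c2, c3, htop1 x hx, hnk, hnk, hnk, hnk, ← hM]
      push_cast
      ring
    have i1 : ∀ x ∈ D 1 \ D 0, potF phi (upd {x} a) - potF phi a =
        phi ((D 0).card + 1) ((D 1).card + (nbrs x \ D 1).card)
            ((D 2).card + (nbrs x \ D 2).card) ((D 3).card + (nbrs x \ D 3).card) -
            phi (D 0).card (D 1).card (D 2).card (D 3).card := by
      intro x hx
      have hk := hval 0 x hx
      have ht := htop2 0 x hx
      have c0 : nk (upd {x} a) 0 = (D 0).card + 1 := by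
        unfold nk
        have h1 : topOf (upd {x} a) - ((0 : ℕ) : ℤ) = (M - ((0 + 1 : ℕ) : ℤ)) + 1 := by
          rw [ht]; push_cast; ring
        rw [h1, card_lv_upd_next hfin hk]
        have h2 : (M - ((0 + 1 : ℕ) : ℤ)) + 1 = M - ((0 : ℕ) : ℤ) := by push_cast; ring
        rw [h2]
      have cc : ∀ k : ℕ, 1 ≤ k → nk (upd {x} a) k = (D k).card + (nbrs x \ D k).card := by
        intro k hk1
        unfold nk
        rw [ht, card_lv_upd_low hfin hk (by push_cast; omega)]
      unfold potF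
      rw [c0, cc 1 le_rfl, cc 2 (by norm_num), cc 3 (by norm_num), ht, hnk, hnk, hnk, hnk, ← hM]
      ring
    have i2 : ∀ x ∈ D 2 \ D 1, potF phi (upd {x} a) - potF phi a =
        phi (D 0).card ((D 1).card + 1)
            ((D 2).card + (nbrs x \ D 2).card) ((D 3).card + (nbrs x \ D 3).card) -
            phi (D 0).card (D 1).card (D 2).card (D 3).card := by
      intro x hx
      have hk := hval 1 x hx
      have ht := htop2 1 x hx
      have c0 : nk (upd {x} a) 0 = (D 0).card := by
        unfold nk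
        rw [ht, lv_upd_high hfin hk (by push_cast; omega)]
      have c1 : nk (upd {x} a) 1 = (D 1).card + 1 := by
        unfold nk
        have h1 : topOf (upd {x} a) - ((1 : ℕ) : ℤ) = (M - ((1 + 1 : ℕ) : ℤ)) + 1 := by
          rw [ht]; push_cast; ring
        rw [h1, card_lv_upd_next hfin hk]
        have h2 : (M - ((1 + 1 : ℕ) : ℤ)) + 1 = M - ((1 : ℕ) : ℤ) := by push_cast; ring
        rw [h2]
      have cc : ∀ k : ℕ, 2 ≤ k → nk (upd {x} a) k = (D k).card + (nbrs x \ D k).card := by
        intro k hk1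
        unfold nk
        rw [ht, card_lv_upd_low hfin hk (by push_cast; omega)]
      unfold potF
      rw [c0, c1, cc 2 (by norm_num), cc 3 (by norm_num), ht, hnk, hnk, hnk, hnk, ← hM]
      ring
    have i3 : ∀ x ∈ D 3 \ D 2, potF phi (upd {x} a) - potF phi a =
        phi (D 0).card (D 1).card ((D 2).card + 1) ((D 3).card + (nbrs x \ D 3).card) -
            phi (D 0).card (D 1).card (D 2).card (D 3).card := by
      intro x hx
      have hk := hval 2 x hx
      have ht := htop2 2 x hx
      have c0 : nk (upd {x} a) 0 = (D 0).card := by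
        unfold nk
        rw [ht, lv_upd_high hfin hk (by push_cast; omega)]
      have c1 : nk (upd {x} a) 1 = (D 1).card := by
        unfold nk
        rw [ht, lv_upd_high hfin hk (by push_cast; omega)]
      have c2 : nk (upd {x} a) 2 = (D 2).card + 1 := by
        unfold nk
        have h1 : topOf (upd {x} a) - ((2 : ℕ) : ℤ) = (M - ((2 + 1 : ℕ) : ℤ)) + 1 := by
          rw [ht]; push_cast; ring
        rw [h1, card_lv_upd_next hfin hk]
        have h2 : (M - ((2 + 1 : ℕ) : ℤ)) + 1 = M - ((2 : ℕ) : ℤ) := by push_cast; ring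
        rw [h2]
      have c3 : nk (upd {x} a) 3 = (D 3).card + (nbrs x \ D 3).card := by
        unfold nk
        rw [ht, card_lv_upd_low hfin hk (by push_cast; omega)]
      unfold potF
      rw [c0, c1, c2, c3, ht, hnk, hnk, hnk, hnk, ← hM]
      ring
    -- the sum
    have hnn : ∀ x ∈ s, 0 ≤ potF phi (upd {x} a) - potF phi a := fun x _ =>
      sub_nonneg.2 (potF_mono hphi ha (hgood x) (le_upd _ _))
    have hsum : ∑ x ∈ D 3, (potF phi (upd {x} a) - potF phi a) ≤
        ∑ x ∈ s, (potF phi (upd {x} a) - potF phi a) :=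
      Finset.sum_le_sum_of_subset_of_nonneg hDs fun x hx _ => hnn x hx
    have hsplit : ∑ x ∈ D 3, (potF phi (upd {x} a) - potF phi a) =
        ∑ x ∈ D 0, (potF phi (upd {x} a) - potF phi a) +
        ∑ x ∈ D 1 \ D 0, (potF phi (upd {x} a) - potF phi a) +
        ∑ x ∈ D 2 \ D 1, (potF phi (upd {x} a) - potF phi a) +
        ∑ x ∈ D 3 \ D 2, (potF phi (upd {x} a) - potF phi a) := by
      rw [← Finset.sum_sdiff (hsub 2 3 (by norm_num)), ← Finset.sum_sdiff (hsub 1 2 (by norm_num)),
        ← Finset.sum_sdiff (hsub 0 1 (by norm_num))]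
      ring
    refine le_trans ?_ hsum
    rw [hsplit, Finset.sum_congr rfl i0, Finset.sum_congr rfl i1, Finset.sum_congr rfl i2,
      Finset.sum_congr rfl i3]
    exact key

end Pool.Agent.Lib.MP_67d80e_pr_all
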