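import Pool.Agent.Lib.MP_67d80e_pr_all.DriftA

set_option autoImplicit false

open scoped BigOperators
open Filter MeasureTheory
open Pool.Agent.Lib.MP_67d80e_pr

namespace Pool.Agent.Lib.MP_67d80e_pr_all

variable {d D : ℕ}

lemma dr1_zero : (dr1 : Dr d) 0 = 1 := by
  unfold dr1
  rw [upd_single, if_pos rfl, dr0_zero]
  rfl

lemma dr1_ne_dr0 : (dr1 : Dr d) ≠ dr0 := by
  intro h
  have := congrFun h 0
  rw [dr1_zero, dr0_zero] at this
  exact absurd this (by decide)

lemma eq_dr0_of_le {a : Dr d} (h : ∀ z, a z ≤ dr0 z) (h0 : 0 ≤ a 0) : a = dr0 := by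
  funext z
  by_cases hz : z = 0
  · subst hz
    refine le_antisymm (h 0) ?_
    rw [dr0_zero]
    exact h0
  · have := h z
    rw [dr0_ne hz] at this ⊢
    exact le_bot_iff.1 this

/-- processes of droplets dominating the ring dynamics -/
structure IsProc (A : List (Site D) → Dr d) : Prop where
  nil : A [] = dr0
  nonneg : ∀ w, 0 ≤ A w 0
  mono : ∀ x w z, A w z ≤ A (x :: w) z
  good : ∀ w, A w = dr0 ∨ Good (A w)
  init : ∀ x w, A w = dr0 → A (x :: w) = dr0 ∨ A (x :: w) = dr1
  ex : ∀ w, ∃ f : Site d → Site D, Set.InjOn f {z | A w z ≠ ⊥} ∧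
    ∀ z, A w z ≠ ⊥ → f z ∈ sp w ∧ ∀ y, upd {z} (A w) y ≤ A (f z :: w) y

namespace IsProc
variable {A : List (Site D) → Dr d} (hA : IsProc A)
include hA

lemma ne_dr0 {x : Site D} {w : List (Site D)} (h : A w ≠ dr0) : A (x :: w) ≠ dr0 := by
  intro h2
  apply h
  refine eq_dr0_of_le (fun z => ?_) (hA.nonneg w)
  rw [← h2]
  exact hA.mono x w z

lemma good' {w : List (Site D)} (h : A w ≠ dr0) : Good (A w) := (hA.good w).resolve_left h

end IsProc

open Classical in
/-- the potential, corrected at the initial droplet -/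
noncomputable def corr (Pot : Dr d → ℝ) (c : ℝ) (a : Dr d) : ℝ :=
  if a = dr0 then Pot dr1 - c else Pot a

/-- the lower bound of the mean of the potential -/
theorem isDrift_of_LB {Pot : Dr d → ℝ} {c : ℝ} (hc : 0 ≤ c)
    (hmono : ∀ a b : Dr d, Good a → Good b → (∀ z, a z ≤ b z) → Pot a ≤ Pot b)
    (hdrift : ∀ a : Dr d, Good a → ∀ s : Finset (Site d), (∀ z, z ∈ s ↔ a z ≠ ⊥) →
      c ≤ ∑ x ∈ s, (Pot (upd {x} a) - Pot a))
    {A : List (Site D) → Dr d} (hA : IsProc A) : IsDrift c (fun w => corr Pot c (A w)) := by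
  classical
  have hm : ∀ x w, corr Pot c (A w) ≤ corr Pot c (A (x :: w)) := by
    intro x w
    by_cases h : A w = dr0
    · rcases hA.init x w h with h1 | h1
      · rw [h, h1]
      · rw [h, h1]
        unfold corr
        rw [if_pos rfl, if_neg dr1_ne_dr0]
        linarith
    · have h1 := hA.ne_dr0 (x := x) h
      unfold corr
      rw [if_neg h, if_neg h1]
      exact hmono _ _ (hA.good' h) (hA.good' h1) (hA.mono x w)
  refine ⟨hm, fun w R hR => ?_⟩
  obtain ⟨f, hf, hf2⟩ := hA.ex w
  by_cases h : A w = dr0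
  · have h0 : A w 0 ≠ ⊥ := by
      rw [h, dr0_zero]; exact WithBot.coe_ne_bot
    obtain ⟨h1, h2⟩ := hf2 0 h0
    have h3 : A (f 0 :: w) = dr1 := by
      rcases hA.init (f 0) w h with h3 | h3
      · exfalso
        have := h2 0
        rw [h3, h] at this
        change dr1 0 ≤ dr0 0 at this
        rw [dr1_zero, dr0_zero] at this
        exact absurd this (by decide)
      · exact h3
    have h4 : c = corr Pot c (A (f 0 :: w)) - corr Pot c (A w) := by
      rw [h3, h]
      unfold corr
      rw [if_pos rfl, if_neg dr1_ne_dr0]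
      ring
    refine le_trans (le_of_eq h4) ?_
    exact Finset.single_le_sum (f := fun x => corr Pot c (A (x :: w)) - corr Pot c (A w))
      (fun x _ => sub_nonneg.2 (hm x w)) (hR h1)
  · have hg := hA.good' h
    set s : Finset (Site d) := hg.fin.toFinset with hs
    have hs1 : ∀ z, z ∈ s ↔ A w z ≠ ⊥ := fun z => by rw [hs]; simp
    have h1 := hdrift (A w) hg s hs1
    have hinj : Set.InjOn f (s : Set (Site d)) := by
      intro y hy z hz hyz
      exact hf ((hs1 y).1 hy) ((hs1 z).1 hz) hyz
    have h2 : ∑ z ∈ s, (Pot (upd {z} (A w)) - Pot (A w)) ≤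
        ∑ z ∈ s, (corr Pot c (A (f z :: w)) - corr Pot c (A w)) := by
      refine Finset.sum_le_sum fun z hz => ?_
      have h3 := (hf2 z ((hs1 z).1 hz)).2
      have h4 := hA.ne_dr0 (x := f z) h
      unfold corr
      rw [if_neg h, if_neg h4]
      have := hmono _ _ (hg.upd z) (hA.good' h4) h3
      linarith
    refine (h1.trans h2).trans ?_
    rw [← Finset.sum_image (f := fun x => corr Pot c (A (x :: w)) - corr Pot c (A w)) hinj]
    refine Finset.sum_le_sum_of_subset_of_nonneg ?_ fun x _ _ => sub_nonneg.2 (hm x w)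
    intro x hx
    obtain ⟨z, hz, rfl⟩ := Finset.mem_image.1 hx
    exact hR (hf2 z ((hs1 z).1 hz)).1

/-- the dual droplets themselves -/
lemma isProc_dr : IsProc (dr : List (Site d) → Dr d) where
  nil := rfl
  nonneg w := dr_nonneg (zero_mem_sp w)
  mono x w z := le_upd {x} (dr w) z
  good := dr_good
  init x w h := by
    change upd {x} (dr w) = dr0 ∨ upd {x} (dr w) = dr1
    rw [h]
    by_cases hx : x = 0
    · subst hx
      exact Or.inr rfl
    · exact Or.inl (upd_bot (dr0_ne hx))
  ex w := ⟨id, fun _ _ _ _ h => h, fun z hz => ⟨mem_sp.2 hz, fun _ => le_rfl⟩⟩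

/-! ### the tops of the columns -/

variable {n : ℕ}

open Classical in
/-- the tops of the columns of a finite set -/
noncomputable def colTop (s : Finset (Site (n + 1))) : Dr n := fun y =>
  s.sup fun z => if Fin.tail z = y then ((z 0 : ℤ) : WithBot ℤ) else ⊥

lemma colTop_le_iff {s : Finset (Site (n + 1))} {y : Site n} {c : WithBot ℤ} :
    colTop s y ≤ c ↔ ∀ z ∈ s, Fin.tail z = y → ((z 0 : ℤ) : WithBot ℤ) ≤ c := by
  classical
  unfold colTop
  rw [Finset.sup_le_iff]
  refine forall₂_congr fun z _ => ?_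
  split_ifs with h
  · simp [h]
  · simp [h]

lemma le_colTop {s : Finset (Site (n + 1))} {z : Site (n + 1)} (hz : z ∈ s) :
    ((z 0 : ℤ) : WithBot ℤ) ≤ colTop s (Fin.tail z) :=
  colTop_le_iff.1 le_rfl z hz rfl

lemma exists_of_colTop {s : Finset (Site (n + 1))} {y : Site n} (h : colTop s y ≠ ⊥) :
    ∃ z ∈ s, Fin.tail z = y ∧ colTop s y = ((z 0 : ℤ) : WithBot ℤ) := by
  classical
  have hne : s.Nonempty := by
    by_contra hemp
    rw [Finset.not_nonempty_iff_eq_empty] at hemp
    apply h
    unfold colTop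
    rw [hemp, Finset.sup_empty]
  obtain ⟨z, hz, h1⟩ := Finset.exists_mem_eq_sup s hne
    (fun z => if Fin.tail z = y then ((z 0 : ℤ) : WithBot ℤ) else ⊥)
  have h2 : colTop s y = if Fin.tail z = y then ((z 0 : ℤ) : WithBot ℤ) else ⊥ := h1
  by_cases h3 : Fin.tail z = y
  · rw [if_pos h3] at h2
    exact ⟨z, hz, h3, h2⟩
  · rw [if_neg h3] at h2
    exact absurd h2 h

lemma colTop_mono {s t : Finset (Site (n + 1))} (h : s ⊆ t) (y : Site n) :
    colTop s y ≤ colTop t y := by
  rw [colTop_le_iff]
  rintro z hz rfl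
  exact le_colTop (h hz)

lemma tail_e_zero : (Fin.tail (e (0 : Fin (n + 1))) : Site n) = 0 := by
  ext i
  simp [Fin.tail, e, Fin.succ_ne_zero]

lemma tail_e_succ (i : Fin n) : (Fin.tail (e i.succ) : Site n) = e i := by
  ext j
  simp only [Fin.tail, e]
  by_cases h : j = i
  · subst h; simp
  · rw [Pi.single_eq_of_ne h, Pi.single_eq_of_ne (fun h2 => h (Fin.succ_injective _ h2))]

lemma tail_add (x y : Site (n + 1)) : (Fin.tail (x + y) : Site n) = Fin.tail x + Fin.tail y := rfl

lemma tail_sub (x y : Site (n + 1)) : (Fin.tail (x - y) : Site n) = Fin.tail x - Fin.tail y := rfl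

lemma e_zero_zero : (e (0 : Fin (n + 1)) : Site (n + 1)) 0 = 1 := by simp [e]

lemma e_succ_zero (i : Fin n) : (e i.succ : Site (n + 1)) 0 = 0 := by
  simp [e, (Fin.succ_ne_zero i).symm]

/-- the neighbours in terms of columns -/
lemma nbrs_cases {x z : Site (n + 1)} (h : z ∈ nbrs x) :
    (Fin.tail z = Fin.tail x ∧ z = x + e 0) ∨ (Fin.tail z = Fin.tail x ∧ z = x - e 0) ∨
      (Fin.tail z ∈ nbrs (Fin.tail x) ∧ z 0 = x 0) := by
  obtain ⟨i, h⟩ := mem_nbrs.1 h
  by_cases hi : i = 0
  · subst hi
    rcases h with h | h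
    · left
      refine ⟨?_, h⟩
      rw [h, tail_add, tail_e_zero, add_zero]
    · right; left
      refine ⟨?_, h⟩
      rw [h, tail_sub, tail_e_zero, sub_zero]
  · obtain ⟨j, rfl⟩ := Fin.exists_succ_eq.2 hi
    right; right
    rcases h with h | h
    · constructor
      · rw [h, tail_add, tail_e_succ]
        exact add_mem_nbrs _ _
      · rw [h, Pi.add_apply, e_succ_zero, add_zero]
    · constructor
      · rw [h, tail_sub, tail_e_succ]
        exact sub_mem_nbrs _ _
      · rw [h, Pi.sub_apply, e_succ_zero, sub_zero]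

lemma exists_nbr {x : Site (n + 1)} {y : Site n} (h : y ∈ nbrs (Fin.tail x : Site n)) :
    ∃ z ∈ nbrs x, Fin.tail z = y ∧ z 0 = x 0 := by
  obtain ⟨i, h | h⟩ := mem_nbrs.1 h
  · refine ⟨x + e i.succ, add_mem_nbrs _ _, ?_, ?_⟩
    · rw [tail_add, tail_e_succ, h]
    · rw [Pi.add_apply, e_succ_zero, add_zero]
  · refine ⟨x - e i.succ, sub_mem_nbrs _ _, ?_, ?_⟩
    · rw [tail_sub, tail_e_succ, h]
    · rw [Pi.sub_apply, e_succ_zero, sub_zero]

/-- the ring of the top of a column -/
lemma colTop_ring {s : Finset (Site (n + 1))} {x : Site (n + 1)}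
    (htop : colTop s (Fin.tail x) = ((x 0 : ℤ) : WithBot ℤ)) (y : Site n) :
    upd {(Fin.tail x : Site n)} (colTop s) y ≤ colTop (s ∪ nbrs x) y := by
  rw [upd_single]
  split_ifs with h1 h2
  · subst h1
    rw [htop]
    have h3 : x + e 0 ∈ s ∪ nbrs x := Finset.mem_union_right _ (add_mem_nbrs _ _)
    have h4 := le_colTop h3
    rw [tail_add, tail_e_zero, add_zero, Pi.add_apply, e_zero_zero] at h4
    push_cast at h4
    exact h4
  · refine max_le (colTop_mono Finset.subset_union_left y) ?_
    rw [htop]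
    obtain ⟨z, hz, h3, h4⟩ := exists_nbr h2
    have h5 := le_colTop (Finset.mem_union_right s hz)
    rw [h3, h4] at h5
    exact h5
  · exact colTop_mono Finset.subset_union_left y

/-- the sites below the highest ones have rung -/
def InvT (s : Finset (Site (n + 1))) : Prop :=
  ∀ m : ℤ, (∀ z ∈ s, z 0 ≤ m) → ∀ z ∈ s, z 0 = m → ∀ y ∈ nbrs (z - e 0), y ∈ s

lemma sp_one (w : List (Site (n + 1))) : sp w = {0} ∨ e 0 ∈ sp w := by
  classical
  induction w with
  | nil => exact Or.inl sp_nil
  | cons x w ih =>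
    rw [sp_cons]
    split_ifs with hx
    · right
      rcases ih with h | h
      · rw [h, Finset.mem_singleton] at hx
        subst hx
        refine Finset.mem_union_right _ ?_
        have := add_mem_nbrs (0 : Site (n + 1)) 0
        rwa [zero_add] at this
      · exact Finset.mem_union_left _ h
    · exact ih

lemma InvT.step {s : Finset (Site (n + 1))} (h : InvT s ∨ s = {0}) {x : Site (n + 1)}
    (hx : x ∈ s) : InvT (s ∪ nbrs x) := by
  intro m hm z hz hzm y hy
  -- every new site of the highest level is `x + e 0`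
  have hx1 : x 0 + 1 ≤ m := by
    have := hm (x + e 0) (Finset.mem_union_right _ (add_mem_nbrs _ _))
    rwa [Pi.add_apply, e_zero_zero] at this
  have key : z ∈ nbrs x → z = x + e 0 := by
    intro hzx
    rcases nbrs_cases hzx with ⟨-, h1⟩ | ⟨-, h1⟩ | ⟨-, h1⟩
    · exact h1
    · exfalso
      rw [h1, Pi.sub_apply, e_zero_zero] at hzm
      omega
    · exfalso
      omega
  by_cases hzx : z ∈ nbrs x
  · rw [key hzx, add_sub_cancel_right] at hy
    exact Finset.mem_union_right _ hy
  · have hzs : z ∈ s := by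
      rcases Finset.mem_union.1 hz with h1 | h1
      · exact h1
      · exact absurd h1 hzx
    rcases h with h | h
    · exact Finset.mem_union_left _ (h m (fun z' hz' => hm z' (Finset.mem_union_left _ hz')) z hzs
        hzm y hy)
    · exfalso
      rw [h, Finset.mem_singleton] at hzs hx
      rw [hzs] at hzm
      rw [hx] at hx1
      omega

lemma invT_sp (w : List (Site (n + 1))) : InvT (sp w) ∨ sp w = {0} := by
  classical
  induction w with
  | nil => exact Or.inr sp_nil
  | cons x w ih =>
    rw [sp_cons]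
    split_ifs with hx
    · exact Or.inl (InvT.step ih hx)
    · exact ih

lemma colTop_fin (s : Finset (Site (n + 1))) : {y : Site n | colTop s y ≠ ⊥}.Finite := by
  classical
  refine (s.image Fin.tail).finite_toSet.subset fun y hy => ?_
  obtain ⟨z, hz, h1, -⟩ := exists_of_colTop hy
  rw [Finset.mem_coe, Finset.mem_image]
  exact ⟨z, hz, h1⟩

lemma isTop_colTop {s : Finset (Site (n + 1))} {m : ℤ} (h : IsTop (colTop s) m) :
    ∀ z ∈ s, z 0 ≤ m := by
  intro z hz
  have h1 := (le_colTop hz).trans (h.1 _)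
  exact_mod_cast h1

lemma good_colTop {s : Finset (Site (n + 1))} (h : InvT s) (hs : s.Nonempty) :
    Good (colTop s) := by
  refine ⟨colTop_fin s, ?_, ?_⟩
  · obtain ⟨z, hz⟩ := hs
    refine ⟨Fin.tail z, fun h1 => ?_⟩
    have := le_colTop hz
    rw [h1] at this
    exact absurd this (by simp)
  · intro m hm z' hz' y' hy'
    have hne : colTop s z' ≠ ⊥ := by rw [hz']; exact WithBot.coe_ne_bot
    obtain ⟨z, hz, h1, h2⟩ := exists_of_colTop hne
    rw [hz'] at h2
    have h2 : z 0 = m := by
      have : m = z 0 := by exact_mod_cast h2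
      exact this.symm
    have h3 : (Fin.tail (z - e 0) : Site n) = z' := by
      rw [tail_sub, tail_e_zero, sub_zero, h1]
    rw [← h3] at hy'
    obtain ⟨y, hy, h4, h5⟩ := exists_nbr hy'
    have h6 := h m (isTop_colTop hm) z hz h2 y hy
    have h7 := le_colTop h6
    rw [h4, h5, Pi.sub_apply, e_zero_zero, h2] at h7
    exact h7

lemma colTop_zero : colTop ({0} : Finset (Site (n + 1))) = dr0 := by
  funext y
  refine le_antisymm ?_ ?_
  · rw [colTop_le_iff]
    intro z hz h1
    rw [Finset.mem_singleton] at hz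
    subst hz
    have : y = 0 := by rw [← h1]; rfl
    subst this
    rw [dr0_zero]
    exact le_rfl
  · by_cases hy : y = 0
    · subst hy
      rw [dr0_zero]
      exact le_colTop (s := {0}) (z := (0 : Site (n + 1))) (Finset.mem_singleton_self _)
    · rw [dr0_ne hy]
      exact bot_le

lemma colTop_one : colTop (({0} : Finset (Site (n + 1))) ∪ nbrs 0) = dr1 := by
  funext y
  refine le_antisymm ?_ ?_
  · rw [colTop_le_iff]
    intro z hz h1
    subst h1
    unfold dr1
    rw [upd_single]
    rcases Finset.mem_union.1 hz with h2 | h2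
    · rw [Finset.mem_singleton] at h2
      subst h2
      have h5 : (Fin.tail (0 : Site (n + 1)) : Site n) = 0 := rfl
      rw [h5, if_pos rfl, dr0_zero, Pi.zero_apply]
      exact_mod_cast (by norm_num : (0 : ℤ) ≤ 0 + 1)
    · rcases nbrs_cases h2 with ⟨h3, h4⟩ | ⟨h3, h4⟩ | ⟨h3, h4⟩
      · have h5 : (Fin.tail (0 : Site (n + 1)) : Site n) = 0 := rfl
        rw [h3, h5, if_pos rfl, dr0_zero, h4, zero_add, e_zero_zero]
        exact_mod_cast (by norm_num : (1 : ℤ) ≤ 0 + 1)
      · have h5 : (Fin.tail (0 : Site (n + 1)) : Site n) = 0 := rfl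
        rw [h3, h5, if_pos rfl, dr0_zero, h4, zero_sub, Pi.neg_apply, e_zero_zero]
        exact_mod_cast (by norm_num : (-1 : ℤ) ≤ 0 + 1)
      · have h5 : (Fin.tail (0 : Site (n + 1)) : Site n) = 0 := rfl
        rw [h5] at h3
        rw [if_neg (ne_of_mem_nbrs h3), if_pos h3, dr0_zero, h4]
        exact le_max_right _ _
  · unfold dr1
    have h1 := colTop_ring (s := ({0} : Finset (Site (n + 1)))) (x := 0) (by
        rw [colTop_zero]
        exact dr0_zero) y
    rw [colTop_zero] at h1
    exact h1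

/-- the tops of the columns of the dual droplets -/
lemma isProc_colTop : IsProc (fun w : List (Site (n + 1)) => colTop (sp w)) where
  nil := by
    change colTop (sp []) = dr0
    rw [sp_nil, colTop_zero]
  nonneg w := le_colTop (zero_mem_sp w)
  mono x w z := by
    classical
    refine colTop_mono ?_ z
    rw [sp_cons]
    split_ifs
    · exact Finset.subset_union_left
    · exact subset_rfl
  good w := by
    rcases invT_sp w with h | h
    · exact Or.inr (good_colTop h ⟨0, zero_mem_sp w⟩)
    · left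
      change colTop (sp w) = dr0
      rw [h, colTop_zero]
  init x w h := by
    classical
    change colTop (sp w) = dr0 at h
    change colTop (sp (x :: w)) = dr0 ∨ colTop (sp (x :: w)) = dr1
    rw [sp_cons]
    split_ifs with hx
    · right
      -- the support is one site
      have h1 : sp w = {0} := by
        rcases sp_one w with h1 | h1
        · exact h1
        · exfalso
          have h2 := le_colTop h1
          rw [tail_e_zero, h, dr0_zero, e_zero_zero] at h2
          exact absurd h2 (by decide)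
      rw [h1] at hx ⊢
      rw [Finset.mem_singleton] at hx
      subst hx
      exact colTop_one
    · exact Or.inl h
  ex w := by
    classical
    have hch : ∀ y : Site n, ∃ z : Site (n + 1), colTop (sp w) y ≠ ⊥ →
        z ∈ sp w ∧ Fin.tail z = y ∧ colTop (sp w) y = ((z 0 : ℤ) : WithBot ℤ) := by
      intro y
      by_cases hy : colTop (sp w) y ≠ ⊥
      · obtain ⟨z, hz⟩ := exists_of_colTop hy
        exact ⟨z, fun _ => hz⟩
      · exact ⟨0, fun h => absurd h hy⟩
    choose f hf using hch
    refine ⟨f, ?_, ?_⟩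
    · intro y hy z hz hyz
      rw [← (hf y hy).2.1, ← (hf z hz).2.1, hyz]
    · intro y hy
      obtain ⟨h1, h2, h3⟩ := hf y hy
      refine ⟨h1, fun y' => ?_⟩
      change upd {y} (colTop (sp w)) y' ≤ colTop (sp (f y :: w)) y'
      rw [sp_cons, if_pos h1]
      have h4 := colTop_ring (s := sp w) (x := f y) (by rw [h2, h3]) y'
      rw [h2] at h4
      exact h4

end Pool.Agent.Lib.MP_67d80e_pr_all
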