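import Pool.Agent.Lib.MP_67d80e_pr_all.Iso

set_option autoImplicit false

open scoped BigOperators
open Pool.Agent.Lib.MP_67d80e_pr

namespace Pool.Agent.Lib.MP_67d80e_pr_all

variable {d : ℕ}

/-- the point of dimension `d + 1` with first coordinate `j` -/
def pcons (j : ℤ) (y : Site d) : Site (d + 1) := Fin.cons (α := fun _ => ℤ) j y

@[simp] lemma pcons_zero (j : ℤ) (y : Site d) : pcons j y 0 = j := rfl

@[simp] lemma pcons_succ (j : ℤ) (y : Site d) (i : Fin d) : pcons j y i.succ = y i := rfl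

lemma pcons_inj {j j' : ℤ} {y y' : Site d} : pcons j y = pcons j' y' ↔ j = j' ∧ y = y' := by
  constructor
  · intro h
    refine ⟨?_, ?_⟩
    · have := congrFun h 0
      simpa using this
    · ext i
      have := congrFun h i.succ
      simpa using this
  · rintro ⟨rfl, rfl⟩
    rfl

lemma exists_pcons (x : Site (d + 1)) : ∃ j y, x = pcons j y :=
  ⟨x 0, fun i => x i.succ, by
    ext i
    refine Fin.cases ?_ (fun i => ?_) i
    · rfl
    · rfl⟩

/-- the neighbours of a point in dimension `d + 1` -/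
lemma mem_nbrs_pcons {j j' : ℤ} {y y' : Site d} :
    pcons j' y' ∈ nbrs (pcons j y) ↔
      (j' = j ∧ y' ∈ nbrs y) ∨ ((j' = j + 1 ∨ j' = j - 1) ∧ y' = y) := by
  have hz : ∀ k : ℤ, pcons j y + k • (e 0 : Site (d + 1)) = pcons (j + k) y := by
    intro k
    ext i
    refine Fin.cases ?_ (fun i => ?_) i
    · simp [e]
    · simp [e]
  have hs : ∀ (k : ℤ) (i : Fin d), pcons j y + k • (e i.succ : Site (d + 1)) =
      pcons j (y + k • (e i : Site d)) := by
    intro k i
    ext l
    refine Fin.cases ?_ (fun l => ?_) l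
    · simp [e]
    · by_cases h : l = i
      · subst h
        simp [e]
      · have h' : (l.succ : Fin (d + 1)) ≠ i.succ := fun h' => h (Fin.succ_injective _ h')
        simp [e, h, h']
  rw [mem_nbrs]
  constructor
  · rintro ⟨i, h | h⟩
    · revert h
      refine Fin.cases (fun h => ?_) (fun i h => ?_) i
      · have h1 := hz 1
        rw [one_smul] at h1
        rw [h1] at h
        obtain ⟨h2, h3⟩ := pcons_inj.1 h
        exact Or.inr ⟨Or.inl h2, h3⟩
      · have h1 := hs 1 i
        rw [one_smul, one_smul] at h1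
        rw [h1] at h
        obtain ⟨h2, h3⟩ := pcons_inj.1 h
        exact Or.inl ⟨h2, by rw [h3]; exact add_mem_nbrs y i⟩
    · revert h
      refine Fin.cases (fun h => ?_) (fun i h => ?_) i
      · have h1 := hz (-1)
        rw [neg_one_smul, ← sub_eq_add_neg] at h1
        rw [h1] at h
        obtain ⟨h2, h3⟩ := pcons_inj.1 h
        exact Or.inr ⟨Or.inr (by rw [h2]; ring), h3⟩
      · have h1 := hs (-1) i
        rw [neg_one_smul, neg_one_smul, ← sub_eq_add_neg, ← sub_eq_add_neg] at h1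
        rw [h1] at h
        obtain ⟨h2, h3⟩ := pcons_inj.1 h
        exact Or.inl ⟨h2, by rw [h3]; exact sub_mem_nbrs y i⟩
  · rintro (⟨rfl, h⟩ | ⟨rfl | rfl, rfl⟩)
    · obtain ⟨i, h | h⟩ := mem_nbrs.1 h
      · refine ⟨i.succ, Or.inl ?_⟩
        have h1 := hs 1 i
        rw [one_smul, one_smul] at h1
        rw [h1, h]
      · refine ⟨i.succ, Or.inr ?_⟩
        have h1 := hs (-1) i
        rw [neg_one_smul, neg_one_smul, ← sub_eq_add_neg, ← sub_eq_add_neg] at h1
        rw [h1, h]
    · refine ⟨0, Or.inl ?_⟩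
      have h1 := hz 1
      rw [one_smul] at h1
      rw [h1]
    · refine ⟨0, Or.inr ?_⟩
      have h1 := hz (-1)
      rw [neg_one_smul, ← sub_eq_add_neg] at h1
      rw [h1]
      rfl

/-- the slice of a set at first coordinate `j` -/
def sl (D : Finset (Site (d + 1))) (j : ℤ) : Finset (Site d) :=
  (D.filter fun x => x 0 = j).image fun x i => x i.succ

lemma mem_sl {D : Finset (Site (d + 1))} {j : ℤ} {y : Site d} : y ∈ sl D j ↔ pcons j y ∈ D := by
  unfold sl
  rw [Finset.mem_image]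
  constructor
  · rintro ⟨x, hx, rfl⟩
    rw [Finset.mem_filter] at hx
    obtain ⟨k, z, rfl⟩ := exists_pcons x
    have : k = j := hx.2
    subst this
    exact hx.1
  · intro h
    exact ⟨pcons j y, Finset.mem_filter.2 ⟨h, rfl⟩, rfl⟩

/-- the set of first coordinates -/
def lvls (D : Finset (Site (d + 1))) : Finset ℤ := D.image fun x => x 0

lemma mem_lvls {D : Finset (Site (d + 1))} {j : ℤ} : j ∈ lvls D ↔ (sl D j).Nonempty := by
  unfold lvls
  rw [Finset.mem_image]
  constructor
  · rintro ⟨x, hx, rfl⟩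
    obtain ⟨k, z, rfl⟩ := exists_pcons x
    exact ⟨z, mem_sl.2 hx⟩
  · rintro ⟨y, hy⟩
    exact ⟨_, mem_sl.1 hy, rfl⟩

lemma sl_mono {T D : Finset (Site (d + 1))} (h : T ⊆ D) (j : ℤ) : sl T j ⊆ sl D j := fun _ hy =>
  mem_sl.2 (h (mem_sl.1 hy))

lemma sum_slices {T D : Finset (Site (d + 1))} (h : T ⊆ D) {M : Type*} [AddCommMonoid M]
    (f : Site (d + 1) → M) : ∑ x ∈ T, f x = ∑ j ∈ lvls D, ∑ y ∈ sl T j, f (pcons j y) := by
  rw [← Finset.sum_fiberwise_of_maps_to (s := T) (t := lvls D) (g := fun x => x 0)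
    (fun x hx => Finset.mem_image_of_mem _ (h hx))]
  refine Finset.sum_congr rfl fun j _ => ?_
  symm
  refine Finset.sum_bij (fun y _ => pcons j y) (fun y hy => ?_) (fun y _ z _ h => ?_)
    (fun x hx => ?_) (fun _ _ => rfl)
  · exact Finset.mem_filter.2 ⟨mem_sl.1 hy, rfl⟩
  · exact (pcons_inj.1 h).2
  · rw [Finset.mem_filter] at hx
    obtain ⟨k, z, rfl⟩ := exists_pcons x
    have : k = j := hx.2
    subst this
    exact ⟨z, mem_sl.2 hx.1, rfl⟩

lemma card_slices {T D : Finset (Site (d + 1))} (h : T ⊆ D) :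
    T.card = ∑ j ∈ lvls D, (sl T j).card := by
  rw [Finset.card_eq_sum_ones, sum_slices h]
  refine Finset.sum_congr rfl fun j _ => ?_
  rw [Finset.card_eq_sum_ones]

/-- the neighbours outside of the set, split into horizontal and vertical ones -/
lemma card_out_pcons (D : Finset (Site (d + 1))) (j : ℤ) (y : Site d) :
    (nbrs (pcons j y) \ D).card = (nbrs y \ sl D j).card +
      ((if pcons (j + 1) y ∈ D then 0 else 1) + (if pcons (j - 1) y ∈ D then 0 else 1)) := by
  have h1 : nbrs (pcons j y) \ D = ((nbrs y \ sl D j).image (pcons j)) ∪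
      (({pcons (j + 1) y, pcons (j - 1) y} : Finset (Site (d + 1))) \ D) := by
    ext x
    obtain ⟨k, z, rfl⟩ := exists_pcons x
    rw [Finset.mem_union, Finset.mem_sdiff, Finset.mem_sdiff, mem_nbrs_pcons, Finset.mem_image,
      Finset.mem_insert, Finset.mem_singleton, pcons_inj, pcons_inj]
    constructor
    · rintro ⟨⟨rfl, h⟩ | ⟨h, rfl⟩, hD⟩
      · left
        exact ⟨z, Finset.mem_sdiff.2 ⟨h, fun h' => hD (mem_sl.1 h')⟩, rfl⟩
      · right
        exact ⟨by rcases h with h | h
                  · exact Or.inl ⟨h, rfl⟩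
                  · exact Or.inr ⟨h, rfl⟩, hD⟩
    · rintro (⟨w, hw, hwz⟩ | ⟨h, hD⟩)
      · obtain ⟨rfl, rfl⟩ := pcons_inj.1 hwz
        rw [Finset.mem_sdiff] at hw
        exact ⟨Or.inl ⟨rfl, hw.1⟩, fun h' => hw.2 (mem_sl.2 h')⟩
      · refine ⟨Or.inr ?_, hD⟩
        rcases h with ⟨h, h'⟩ | ⟨h, h'⟩
        · exact ⟨Or.inl h, h'⟩
        · exact ⟨Or.inr h, h'⟩
  rw [h1, Finset.card_union_of_disjoint, Finset.card_image_of_injective]
  · congr 1
    have hne : pcons (j + 1) y ≠ pcons (j - 1) y := fun h => by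
      have := (pcons_inj.1 h).1
      omega
    by_cases h2 : pcons (j + 1) y ∈ D <;> by_cases h3 : pcons (j - 1) y ∈ D
    · rw [if_pos h2, if_pos h3, Finset.card_eq_zero]
      ext x
      simp only [Finset.mem_sdiff, Finset.mem_insert, Finset.mem_singleton, Finset.notMem_empty,
        iff_false, not_and, not_not]
      rintro (rfl | rfl)
      · exact h2
      · exact h3
    · rw [if_pos h2, if_neg h3]
      have : (({pcons (j + 1) y, pcons (j - 1) y} : Finset (Site (d + 1))) \ D) =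
          {pcons (j - 1) y} := by
        ext x
        simp only [Finset.mem_sdiff, Finset.mem_insert, Finset.mem_singleton]
        constructor
        · rintro ⟨rfl | rfl, h⟩
          · exact absurd h2 h
          · rfl
        · rintro rfl
          exact ⟨Or.inr rfl, h3⟩
      rw [this, Finset.card_singleton]
    · rw [if_neg h2, if_pos h3]
      have : (({pcons (j + 1) y, pcons (j - 1) y} : Finset (Site (d + 1))) \ D) =
          {pcons (j + 1) y} := by
        ext x
        simp only [Finset.mem_sdiff, Finset.mem_insert, Finset.mem_singleton]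
        constructor
        · rintro ⟨rfl | rfl, h⟩
          · rfl
          · exact absurd h3 h
        · rintro rfl
          exact ⟨Or.inl rfl, h2⟩
      rw [this, Finset.card_singleton]
    · rw [if_neg h2, if_neg h3]
      have : (({pcons (j + 1) y, pcons (j - 1) y} : Finset (Site (d + 1))) \ D) =
          {pcons (j + 1) y, pcons (j - 1) y} := by
        ext x
        simp only [Finset.mem_sdiff, Finset.mem_insert, Finset.mem_singleton]
        constructor
        · exact fun h => h.1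
        · rintro (rfl | rfl)
          · exact ⟨Or.inl rfl, h2⟩
          · exact ⟨Or.inr rfl, h3⟩
      rw [this, Finset.card_pair hne]
  · intro a b h
    exact (pcons_inj.1 h).2
  · rw [Finset.disjoint_left]
    intro x hx hx'
    rw [Finset.mem_image] at hx
    obtain ⟨w, -, rfl⟩ := hx
    rw [Finset.mem_sdiff, Finset.mem_insert, Finset.mem_singleton, pcons_inj, pcons_inj] at hx'
    rcases hx'.1 with h | h <;> omega

/-- the number of vertical edges which leave the set upwards -/
lemma card_up_ge (D : Finset (Site (d + 1))) (j0 : ℤ) :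
    (sl D j0).card ≤ ∑ j ∈ lvls D, ∑ y ∈ sl D j, (if pcons (j + 1) y ∈ D then 0 else 1) := by
  have h1 : ∑ j ∈ lvls D, ∑ y ∈ sl D j, (if pcons (j + 1) y ∈ D then 0 else 1) =
      (D.filter fun x => pcons (x 0 + 1) (fun i => x i.succ) ∉ D).card := by
    rw [Finset.card_filter, sum_slices (Finset.Subset.refl D)]
    refine Finset.sum_congr rfl fun j _ => Finset.sum_congr rfl fun y _ => ?_
    show _ = if pcons (j + 1) y ∉ D then 1 else 0
    by_cases h : pcons (j + 1) y ∈ D
    · rw [if_pos h, if_neg (not_not.2 h)]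
    · rw [if_neg h, if_pos h]
  rw [h1]
  have h2 : sl D j0 ⊆ (D.filter fun x => pcons (x 0 + 1) (fun i => x i.succ) ∉ D).image
      (fun x i => x i.succ) := by
    intro y hy
    have hne : ((lvls D).filter fun j => pcons j y ∈ D).Nonempty :=
      ⟨j0, Finset.mem_filter.2 ⟨mem_lvls.2 ⟨y, hy⟩, mem_sl.1 hy⟩⟩
    obtain ⟨j, hj, hmax⟩ := Finset.exists_max_image _ (fun j : ℤ => j) hne
    rw [Finset.mem_filter] at hj
    rw [Finset.mem_image]
    refine ⟨pcons j y, Finset.mem_filter.2 ⟨hj.2, fun h => ?_⟩, rfl⟩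
    have h3 : pcons (j + 1) y ∈ D := h
    have h4 := hmax (j + 1) (Finset.mem_filter.2 ⟨mem_lvls.2 ⟨y, mem_sl.2 h3⟩, h3⟩)
    omega
  exact (Finset.card_le_card h2).trans Finset.card_image_le

lemma card_down_ge (D : Finset (Site (d + 1))) (j0 : ℤ) :
    (sl D j0).card ≤ ∑ j ∈ lvls D, ∑ y ∈ sl D j, (if pcons (j - 1) y ∈ D then 0 else 1) := by
  have h1 : ∑ j ∈ lvls D, ∑ y ∈ sl D j, (if pcons (j - 1) y ∈ D then 0 else 1) =
      (D.filter fun x => pcons (x 0 - 1) (fun i => x i.succ) ∉ D).card := by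
    rw [Finset.card_filter, sum_slices (Finset.Subset.refl D)]
    refine Finset.sum_congr rfl fun j _ => Finset.sum_congr rfl fun y _ => ?_
    show _ = if pcons (j - 1) y ∉ D then 1 else 0
    by_cases h : pcons (j - 1) y ∈ D
    · rw [if_pos h, if_neg (not_not.2 h)]
    · rw [if_neg h, if_pos h]
  rw [h1]
  have h2 : sl D j0 ⊆ (D.filter fun x => pcons (x 0 - 1) (fun i => x i.succ) ∉ D).image
      (fun x i => x i.succ) := by
    intro y hy
    have hne : ((lvls D).filter fun j => pcons j y ∈ D).Nonempty :=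
      ⟨j0, Finset.mem_filter.2 ⟨mem_lvls.2 ⟨y, hy⟩, mem_sl.1 hy⟩⟩
    obtain ⟨j, hj, hmin⟩ := Finset.exists_min_image _ (fun j : ℤ => j) hne
    rw [Finset.mem_filter] at hj
    rw [Finset.mem_image]
    refine ⟨pcons j y, Finset.mem_filter.2 ⟨hj.2, fun h => ?_⟩, rfl⟩
    have h3 : pcons (j - 1) y ∈ D := h
    have h4 := hmin (j - 1) (Finset.mem_filter.2 ⟨mem_lvls.2 ⟨y, mem_sl.2 h3⟩, h3⟩)
    omega
  exact (Finset.card_le_card h2).trans Finset.card_image_le

/-- SLICING: the edge boundary is at least the sum of the edge boundaries of the slices plus twice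
the size of any slice -/
theorem slice_bound (D : Finset (Site (d + 1))) (j0 : ℤ) :
    2 * (sl D j0).card + ∑ j ∈ lvls D, outE (sl D j) ≤ outE D := by
  have h1 : outE D = ∑ j ∈ lvls D, ∑ y ∈ sl D j, ((nbrs y \ sl D j).card +
      ((if pcons (j + 1) y ∈ D then 0 else 1) + (if pcons (j - 1) y ∈ D then 0 else 1))) := by
    unfold outE
    rw [sum_slices (Finset.Subset.refl D)]
    exact Finset.sum_congr rfl fun j _ => Finset.sum_congr rfl fun y _ => card_out_pcons D j y
  have h2 : ∑ j ∈ lvls D, ∑ y ∈ sl D j, ((nbrs y \ sl D j).card +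
      ((if pcons (j + 1) y ∈ D then 0 else 1) + (if pcons (j - 1) y ∈ D then 0 else 1))) =
      (∑ j ∈ lvls D, outE (sl D j)) +
        (∑ j ∈ lvls D, ∑ y ∈ sl D j, (if pcons (j + 1) y ∈ D then 0 else 1)) +
        (∑ j ∈ lvls D, ∑ y ∈ sl D j, (if pcons (j - 1) y ∈ D then 0 else 1)) := by
    simp only [Finset.sum_add_distrib, outE]
    ring
  have h3 := card_up_ge D j0
  have h4 := card_down_ge D j0
  rw [h1, h2]
  omega

/-- all neighbours of the points of `T` are in `D` -/
def Cl (T D : Finset (Site d)) : Prop := T ⊆ D ∧ ∀ x ∈ T, nbrs x ⊆ D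

lemma Cl.slice {T D : Finset (Site (d + 1))} (h : Cl T D) (j : ℤ) : Cl (sl T j) (sl D j) := by
  refine ⟨sl_mono h.1 j, fun y hy z hz => ?_⟩
  exact mem_sl.2 (h.2 _ (mem_sl.1 hy) (mem_nbrs_pcons.2 (Or.inl ⟨rfl, hz⟩)))

lemma Cl.slice_succ {T D : Finset (Site (d + 1))} (h : Cl T D) (j : ℤ) :
    sl T j ⊆ sl D (j + 1) := fun _ hy =>
  mem_sl.2 (h.2 _ (mem_sl.1 hy) (mem_nbrs_pcons.2 (Or.inr ⟨Or.inl rfl, rfl⟩)))

lemma Cl.slice_pred {T D : Finset (Site (d + 1))} (h : Cl T D) (j : ℤ) :
    sl T j ⊆ sl D (j - 1) := fun _ hy =>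
  mem_sl.2 (h.2 _ (mem_sl.1 hy) (mem_nbrs_pcons.2 (Or.inr ⟨Or.inr rfl, rfl⟩)))

end Pool.Agent.Lib.MP_67d80e_pr_all
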