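import Pool.Agent.Lib.MP_67d80e_pr_all.Drp

set_option autoImplicit false

open scoped BigOperators ENNReal
open Filter MeasureTheory
open Pool.Agent.Lib.MP_67d80e_pr

namespace Pool.Agent.Lib.MP_67d80e_pr_all

variable {d : ℕ}

/-- `m` is the highest level of the droplet -/
def IsTop (a : Dr d) (m : ℤ) : Prop :=
  (∀ z, a z ≤ ((m : ℤ) : WithBot ℤ)) ∧ ∃ z, a z = ((m : ℤ) : WithBot ℤ)

/-- good droplets: finite, not empty, and the neighbours of the highest sites are at most one level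
lower -/
structure Good (a : Dr d) : Prop where
  fin : {z | a z ≠ ⊥}.Finite
  ne : ∃ z, a z ≠ ⊥
  top : ∀ m : ℤ, IsTop a m → ∀ z, a z = ((m : ℤ) : WithBot ℤ) →
    ∀ y ∈ nbrs z, ((m - 1 : ℤ) : WithBot ℤ) ≤ a y

/-- LOWER BOUND INTERFACE. A monotone potential at bounded distance from the highest level, whose
total increment over the rings of the sites of a good droplet is at least `c`. It gives
`V (1, 0) ≥ c` in dimension `d` and `V (0, e₁) ≥ c` in dimension `d + 1`. -/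
def HasLB (d : ℕ) (c : ℝ) : Prop :=
  ∃ (Pot : Dr d → ℝ) (K : ℝ),
    (∀ (a : Dr d) (m : ℤ), Good a → IsTop a m → |Pot a - m| ≤ K) ∧
    (∀ a b : Dr d, Good a → Good b → (∀ z, a z ≤ b z) → Pot a ≤ Pot b) ∧
    (∀ a : Dr d, Good a → ∀ s : Finset (Site d), (∀ z, z ∈ s ↔ a z ≠ ⊥) →
      c ≤ ∑ x ∈ s, (Pot (upd {x} a) - Pot a))

/-- UPPER BOUND INTERFACE (dimension `n + 1`, tilt in the direction `0`): `V (1, e₀) ≤ U`. -/
def HasUB (n : ℕ) (U : ℝ) : Prop :=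
  ∀ R I : ℕ, ∃ (C : ℝ) (N0 : ℕ), ∀ N : ℕ, N0 ≤ N →
    cesN (0 : Fin (n + 1)) N ((PB (n + 1) R ^ I) (hgt 0) - hgt 0) ≤
      U * (I / (box (n + 1) R).card) + C / (N + 1)

/-- the upper bound from a bound on the mean height of the periodic process started from the tilted
flat configuration (then `R`, `i`: rings in a box) -/
def HasMean (n : ℕ) (U : ℝ) : Prop :=
  ∀ R i : ℕ, ∃ (C : ℝ) (N0 : ℕ), ∀ N : ℕ, N0 ≤ N → ∀ j : ℕ,
    (PT (n + 1) (N + 1) ^ j) ((PB (n + 1) R ^ i) (hgt 0)) (tilt 0) ≤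
      U * (j / nT (n + 1) (N + 1)) + C

/-- the upper bound from a functional of droplets -/
structure HasPsi (n : ℕ) (q lam : ℝ) (Psi : Dr (n + 1) → ℝ≥0∞) : Prop where
  step : ∃ N0 : ℕ, ∀ N : ℕ, N0 ≤ N → ∀ a : Dr (n + 1),
    ∑ α : Fin (n + 1) → ZMod (N + 1), Psi (upd (TS (N + 1) α) a) ≤
      ENNReal.ofReal (nT (n + 1) (N + 1) + lam) * Psi a
  ge : ∀ (a : Dr (n + 1)) (z : Site (n + 1)) (m : ℤ), ((m : ℤ) : WithBot ℤ) ≤ a z →
    ENNReal.ofReal (q ^ (m + z 0)) ≤ Psi a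
  fin : ∀ w : List (Site (n + 1)), Psi (dr w) ≠ ⊤

/-- the two conclusions in one dimension -/
def Tilted (d : ℕ) : Prop :=
  ∃ (i0 : Fin d) (μ : Measure (Conf d)),
    IsStationary μ ∧ (∀ x, Integrable (fun g : Conf d => (g x : ℝ)) μ) ∧
      (∀ y, μ.map (fun g x => g (x + y) - g y) = μ) ∧
      (∀ i : Fin d, i ≠ i0 → ∫ g, (g (e i) : ℝ) ∂μ = 0) ∧
      0 < ∫ g, (g (e i0) : ℝ) ∂μ

def SymNotDecor (d : ℕ) : Prop :=
  ∃ μ : Measure (Conf d), IsStationary μ ∧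
    (∀ x, Integrable (fun g : Conf d => (g x : ℝ)) μ) ∧
    (∀ y, μ.map (fun g x => g (x + y) - g y) = μ) ∧
    (∀ π ε, μ.map (fun g x => g (signedPerm π ε x)) = μ) ∧
    ∃ φ ψ : (Fin d → ℤ) → ℝ, IsBdd φ ∧ IsBdd ψ ∧ ∃ ε : ℝ, 0 < ε ∧ ∃ x y : ℕ → Site d,
      Tendsto (fun n => ‖x n - y n‖) atTop atTop ∧
        ∀ n, ε ≤ |gradCov μ φ ψ (x n) (y n)|

/-- TARGET 1 (helper98): the glue -/
def CritStmt : Prop := ∀ (n : ℕ) (c0 c1 U : ℝ), HasLB n c0 → HasLB (n + 1) c1 → HasUB n U →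
  U < c1 + c0 → Tilted (n + 1) ∧ SymNotDecor (n + 1)

/-- TARGET 2 (helper98) -/
def UBofMeanStmt : Prop := ∀ (n : ℕ) (U : ℝ), HasMean n U → HasUB n U

/-- TARGET 3 (helper98) -/
def MeanOfPsiStmt : Prop := ∀ (n : ℕ) (q lam : ℝ) (Psi : Dr (n + 1) → ℝ≥0∞), 1 < q → 0 ≤ lam →
  HasPsi n q lam Psi → HasMean n (lam / Real.log q)

end Pool.Agent.Lib.MP_67d80e_pr_all
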