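import Pool.Agent.Lib.MP_67d80e_pr_all.Stmts

set_option autoImplicit false

open scoped BigOperators
open Filter MeasureTheory
open Pool.Agent.Lib.MP_67d80e_pr

namespace Pool.Agent.Lib.MP_67d80e_pr_all

variable {d : ℕ}

/-! ### tops -/

lemma exists_top {a : Dr d} (hf : {z | a z ≠ ⊥}.Finite) (hn : ∃ z, a z ≠ ⊥) : ∃ m, IsTop a m := by
  obtain ⟨z0, hz0⟩ := hn
  obtain ⟨z, hz, hmax⟩ := Set.exists_max_image {z | a z ≠ ⊥} a hf ⟨z0, hz0⟩
  obtain ⟨m, hm⟩ := WithBot.ne_bot_iff_exists.1 hz
  refine ⟨m, fun y => ?_, z, hm.symm⟩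
  by_cases hy : a y = ⊥
  · rw [hy]; exact bot_le
  · rw [hm]; exact hmax y hy

lemma IsTop.unique {a : Dr d} {m n : ℤ} (hm : IsTop a m) (hn : IsTop a n) : m = n := by
  obtain ⟨y, hy⟩ := hm.2
  obtain ⟨z, hz⟩ := hn.2
  have h1 := hn.1 y
  have h2 := hm.1 z
  rw [hy] at h1
  rw [hz] at h2
  have h1 : m ≤ n := by exact_mod_cast h1
  have h2 : n ≤ m := by exact_mod_cast h2
  exact le_antisymm h1 h2

lemma IsTop.mono {a b : Dr d} {m n : ℤ} (hm : IsTop a m) (hn : IsTop b n) (h : ∀ z, a z ≤ b z) :
    m ≤ n := by
  obtain ⟨y, hy⟩ := hm.2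
  have h1 := (h y).trans (hn.1 y)
  rw [hy] at h1
  exact_mod_cast h1

lemma Good.exists_top {a : Dr d} (ha : Good a) : ∃ m, IsTop a m :=
  Pool.Agent.Lib.MP_67d80e_pr_all.exists_top ha.fin ha.ne

/-! ### rings -/

lemma upd_bot {a : Dr d} {x : Site d} (h : a x = ⊥) : upd {x} a = a := by
  funext z
  rw [upd_single]
  split_ifs with h1 h2
  · subst h1
    rw [h]
    rfl
  · rw [h]
    exact max_bot_right _
  · rfl

lemma upd_supp_subset (a : Dr d) (x : Site d) :
    {z | upd {x} a z ≠ ⊥} ⊆ {z | a z ≠ ⊥} ∪ (nbrs x : Set (Site d)) := by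
  intro z hz
  by_cases h1 : z ∈ nbrs x
  · exact Or.inr h1
  · left
    intro h2
    apply hz
    rw [upd_single]
    split_ifs with h3
    · subst h3
      rw [h2]; rfl
    · exact h2

/-- good droplets stay good -/
lemma Good.upd {a : Dr d} (ha : Good a) (x : Site d) : Good (upd {x} a) := by
  by_cases hx : a x = ⊥
  · rwa [upd_bot hx]
  obtain ⟨k, hk⟩ := WithBot.ne_bot_iff_exists.1 hx
  obtain ⟨m, hm⟩ := ha.exists_top
  have hkm : k ≤ m := by
    have := hm.1 x
    rw [← hk] at this
    exact_mod_cast this
  refine ⟨(ha.fin.union (nbrs x).finite_toSet).subset (upd_supp_subset a x), ?_, ?_⟩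
  · obtain ⟨z, hz⟩ := ha.ne
    refine ⟨z, fun h => hz ?_⟩
    have := le_upd {x} a z
    rw [h] at this
    exact le_bot_iff.1 this
  · intro m' hm' z hz y hy
    have hself : Pool.Agent.Lib.MP_67d80e_pr_all.upd {x} a x = ((k + 1 : ℤ) : WithBot ℤ) := by
      rw [upd_single, if_pos rfl, ← hk]; push_cast; rfl
    have hother : ∀ z, z ≠ x → Pool.Agent.Lib.MP_67d80e_pr_all.upd {x} a z ≤ ((m : ℤ) : WithBot ℤ) := by
      intro z hzx
      rw [upd_single, if_neg hzx]
      split_ifs
      · exact max_le (hm.1 z) (hm.1 x)
      · exact hm.1 z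
    by_cases hkm' : k = m
    · -- new top
      have h1 : m' = m + 1 := by
        refine hm'.unique ⟨fun z => ?_, x, ?_⟩
        · by_cases hzx : z = x
          · rw [hzx, hself, hkm']
          · refine (hother z hzx).trans ?_
            exact_mod_cast (by omega : m ≤ m + 1)
        · rw [hself, hkm']
      have h2 : z = x := by
        by_contra hzx
        have := hother z hzx
        rw [hz, h1] at this
        have : m + 1 ≤ m := by exact_mod_cast this
        omega
      subst h2
      have h3 := upd_nbr (nbrs_symm.1 hy) (Set.mem_singleton z) a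
      refine le_trans ?_ h3
      rw [← hk, hkm', h1]
      exact_mod_cast (by omega : m + 1 - 1 ≤ m)
    · have hkm2 : k + 1 ≤ m := by omega
      have h1 : m' = m := by
        refine hm'.unique ⟨fun z => ?_, ?_⟩
        · by_cases hzx : z = x
          · rw [hzx, hself]
            exact_mod_cast hkm2
          · exact hother z hzx
        · obtain ⟨z0, hz0⟩ := hm.2
          refine ⟨z0, le_antisymm ?_ ?_⟩
          · by_cases hzx : z0 = x
            · rw [hzx, hself]
              exact_mod_cast hkm2
            · exact hother z0 hzx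
          · rw [← hz0]
            exact le_upd _ _ _
      subst h1
      by_cases hzx : z = x
      · subst hzx
        rw [hself] at hz
        have hz' : k + 1 = m' := by exact_mod_cast hz
        have h3 := upd_nbr (nbrs_symm.1 hy) (Set.mem_singleton z) a
        refine le_trans ?_ h3
        rw [← hk]
        exact_mod_cast (by omega : m' - 1 ≤ k)
      · have h3 : a z = ((m' : ℤ) : WithBot ℤ) := by
          rw [upd_single, if_neg hzx] at hz
          split_ifs at hz with h4
          · rcases max_choice (a z) (a x) with h5 | h5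
            · rw [← h5]; exact hz
            · exfalso
              rw [h5, ← hk] at hz
              have : k = m' := by exact_mod_cast hz
              omega
          · exact hz
        exact (ha.top m' hm z h3 y hy).trans (le_upd _ _ _)

/-! ### supports of the droplets of words -/

lemma dr_fin (w : List (Site d)) : {z | dr w z ≠ ⊥}.Finite := by
  induction w with
  | nil =>
    refine (Set.finite_singleton (0 : Site d)).subset fun z hz => ?_
    by_contra h
    exact hz (dr0_ne h)
  | cons x w ih => exact (ih.union (nbrs x).finite_toSet).subset (upd_supp_subset _ x)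

/-- the support -/
noncomputable def sp (w : List (Site d)) : Finset (Site d) := (dr_fin w).toFinset

lemma mem_sp {w : List (Site d)} {z : Site d} : z ∈ sp w ↔ dr w z ≠ ⊥ := by
  unfold sp
  simp

lemma sp_nil : sp ([] : List (Site d)) = {0} := by
  ext z
  rw [mem_sp, Finset.mem_singleton]
  constructor
  · intro h
    by_contra h2
    exact h (dr0_ne h2)
  · rintro rfl
    change dr0 0 ≠ ⊥
    rw [dr0_zero]
    exact WithBot.coe_ne_bot

open Classical in
lemma sp_cons (x : Site d) (w : List (Site d)) :
    sp (x :: w) = if x ∈ sp w then sp w ∪ nbrs x else sp w := by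
  ext z
  by_cases hx : x ∈ sp w
  · rw [if_pos hx, Finset.mem_union, mem_sp, mem_sp]
    change upd {x} (dr w) z ≠ ⊥ ↔ _
    rw [mem_sp] at hx
    constructor
    · intro h
      rcases upd_supp_subset (dr w) x h with h1 | h1
      · exact Or.inl h1
      · exact Or.inr h1
    · rintro (h | h)
      · intro h2
        have := le_upd {x} (dr w) z
        rw [h2] at this
        exact h (le_bot_iff.1 this)
      · intro h2
        have := upd_nbr (nbrs_symm.1 h) (Set.mem_singleton x) (dr w)
        rw [h2] at this
        exact hx (le_bot_iff.1 this)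
  · rw [if_neg hx]
    rw [mem_sp, mem_sp]
    rw [mem_sp, not_not] at hx
    change upd {x} (dr w) z ≠ ⊥ ↔ _
    rw [upd_bot hx]

lemma zero_mem_sp (w : List (Site d)) : (0 : Site d) ∈ sp w := by
  classical
  induction w with
  | nil => rw [sp_nil]; exact Finset.mem_singleton_self _
  | cons x w ih =>
    rw [sp_cons]
    split_ifs
    · exact Finset.mem_union_left _ ih
    · exact ih

/-- the levels are not negative -/
lemma dr_nonneg {w : List (Site d)} {z : Site d} (h : z ∈ sp w) : (0 : WithBot ℤ) ≤ dr w z := by
  rw [mem_sp] at h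
  induction w generalizing z with
  | nil =>
    have : z = 0 := by
      by_contra h2
      exact h (dr0_ne h2)
    subst this
    change (0 : WithBot ℤ) ≤ dr0 0
    rw [dr0_zero]
  | cons x w ih =>
    change (0 : WithBot ℤ) ≤ upd {x} (dr w) z
    change upd {x} (dr w) z ≠ ⊥ at h
    rcases upd_cases {x} (dr w) z with h1 | ⟨-, h1⟩ | ⟨y, -, -, h1⟩
    · rw [h1] at h ⊢
      exact ih h
    · rw [h1] at h ⊢
      have h2 : dr w z ≠ ⊥ := by
        intro h2
        rw [h2] at h
        exact h rfl
      exact (ih h2).trans (le_add_one _)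
    · rw [h1] at h ⊢
      exact ih h

/-- the droplet after the first ring -/
noncomputable def dr1 : Dr d := upd {0} dr0

lemma good_dr1 : Good (dr1 : Dr d) := by
  have hval : ∀ z : Site d, (dr1 : Dr d) z = if z = 0 then 1 else if z ∈ nbrs 0 then 0 else ⊥ := by
    intro z
    unfold dr1
    rw [upd_single]
    split_ifs with h1 h2
    · rw [dr0_zero]; rfl
    · rw [dr0_ne h1, dr0_zero]
      exact max_bot_left _
    · exact dr0_ne h1
  have htop : IsTop (dr1 : Dr d) 1 := by
    refine ⟨fun z => ?_, 0, ?_⟩
    · rw [hval]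
      split_ifs
      · exact le_rfl
      · exact_mod_cast (by norm_num : (0 : ℤ) ≤ 1)
      · exact bot_le
    · rw [hval, if_pos rfl]; rfl
  refine ⟨?_, ⟨0, ?_⟩, ?_⟩
  · refine ((Set.finite_singleton (0 : Site d)).union (nbrs (0 : Site d)).finite_toSet).subset ?_
    intro z hz
    by_contra h
    simp only [Set.mem_union, Set.mem_singleton_iff, Finset.mem_coe, not_or] at h
    apply hz
    rw [hval, if_neg h.1, if_neg h.2]
  · rw [hval, if_pos rfl]
    exact WithBot.coe_ne_bot
  · intro m hm z hz y hy
    have h1 : m = 1 := hm.unique htop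
    subst h1
    have h2 : z = 0 := by
      by_contra h
      rw [hval, if_neg h] at hz
      split_ifs at hz
      · have : (0 : ℤ) = 1 := by exact_mod_cast hz
        omega
      · exact absurd hz (by simp)
    subst h2
    rw [hval, if_neg (ne_of_mem_nbrs hy), if_pos hy]
    exact le_rfl

lemma dr_good (w : List (Site d)) : dr w = dr0 ∨ Good (dr w) := by
  induction w with
  | nil => exact Or.inl rfl
  | cons x w ih =>
    rcases ih with h | h
    · change upd {x} (dr w) = dr0 ∨ Good (upd {x} (dr w))
      rw [h]
      by_cases hx : x = 0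
      · subst hx
        exact Or.inr good_dr1
      · left
        exact upd_bot (dr0_ne hx)
    · exact Or.inr (h.upd x)

end Pool.Agent.Lib.MP_67d80e_pr_all
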