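import Pool.Agent.Lib.MP_67d80e_pr_all.Stmts

set_option autoImplicit false

open scoped BigOperators ENNReal
open Filter MeasureTheory
open Pool.Agent.Lib.MP_67d80e_pr

namespace Pool.Agent.Lib.MP_67d80e_pr_all

variable {n : ℕ}

lemma PB_pow_nonneg (R i : ℕ) : (0 : ℝ) ≤ (PB (n + 1) R ^ i) (hgt 0) (tilt 0) := by
  have := hgt_le_PB_pow R i 0 (tilt 0 : Conf (n + 1))
  have h0 : hgt 0 (tilt 0 : Conf (n + 1)) = 0 := by simp [hgt, tilt]
  rw [h0] at this
  exact this

/-- the growth inequality for one letter of the box -/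
lemma ces_step_mean {U C : ℝ} {N R i : ℕ} (hR : 2 * R ≤ N)
    (hm : ∀ j : ℕ, (PT (n + 1) (N + 1) ^ j) ((PB (n + 1) R ^ i) (hgt 0)) (tilt 0) ≤
      U * (j / nT (n + 1) (N + 1)) + C) {J : ℕ} (hJ : 0 < J) :
    ces (0 : Fin (n + 1)) (N + 1) J
      ((PB (n + 1) R ^ (i + 1)) (hgt 0) - (PB (n + 1) R ^ i) (hgt 0)) ≤
      U / (box (n + 1) R).card + C * nT (n + 1) (N + 1) / ((box (n + 1) R).card * J) := by
  set u : Fn (n + 1) := (PB (n + 1) R ^ i) (hgt 0) with hu
  have hT : (0 : ℝ) < nT (n + 1) (N + 1) := by exact_mod_cast nT_pos (d := n + 1) (N + 1)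
  have hB : (0 : ℝ) < (box (n + 1) R).card := by exact_mod_cast card_box_pos (d := n + 1) R
  have hJ' : (0 : ℝ) < J := by exact_mod_cast hJ
  have h1 : (PB (n + 1) R ^ (i + 1)) (hgt 0) = PB (n + 1) R u := by
    rw [pow_succ', Module.End.mul_apply]
  have h2 : ((box (n + 1) R).card : ℝ) • (PB (n + 1) R u - u) ≤
      (nT (n + 1) (N + 1) : ℝ) • (PT (n + 1) (N + 1) u - u) := by
    intro h
    have := PB_sub_le_PT_sub (N + 1) (by omega : 2 * R < N + 1) (monotone_PB_pow R i 0) h
    simpa using this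
  have h3 := ces_mono (N + 1) 0 J h2
  rw [map_smul, map_smul, ces_telescope, smul_eq_mul, smul_eq_mul] at h3
  have h4 := hm J
  have h5 : (0 : ℝ) ≤ u (tilt 0) := PB_pow_nonneg R i
  have h6 : ((box (n + 1) R).card : ℝ) * ces 0 (N + 1) J (PB (n + 1) R u - u) ≤
      (nT (n + 1) (N + 1) : ℝ) * ((J : ℝ)⁻¹ * (U * (J / nT (n + 1) (N + 1)) + C)) := by
    refine h3.trans (mul_le_mul_of_nonneg_left (mul_le_mul_of_nonneg_left ?_ ?_) hT.le)
    · linarith
    · positivity
  rw [h1]
  rw [← le_div_iff₀' hB] at h6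
  refine h6.trans (le_of_eq ?_)
  field_simp

/-- the upper bound from the mean -/
theorem hasUB_of_mean : UBofMeanStmt := by
  intro n U hM R I
  have hB : (0 : ℝ) < (box (n + 1) R).card := by exact_mod_cast card_box_pos (d := n + 1) R
  induction I with
  | zero =>
    refine ⟨0, 0, fun N _ => ?_⟩
    have : (PB (n + 1) R ^ 0) (hgt 0) - hgt 0 = (fun _ => 0 : Fn (n + 1)) := by
      ext g; simp
    rw [this, cesN_const]
    simp
  | succ I ih =>
    obtain ⟨C, N0, hC⟩ := ih
    obtain ⟨C', N0', hC'⟩ := hM R I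
    refine ⟨C + C' / (box (n + 1) R).card, max (max N0 N0') (2 * R), fun N hN => ?_⟩
    have hN1 : N0 ≤ N := (le_max_left _ _).trans ((le_max_left _ _).trans hN)
    have hN2 : N0' ≤ N := (le_max_right _ _).trans ((le_max_left _ _).trans hN)
    have hN3 : 2 * R ≤ N := (le_max_right _ _).trans hN
    have h1 := hC N hN1
    have h2 := ces_step_mean hN3 (hC' N hN2) (JN_pos (n + 1) N)
    have h3 : (PB (n + 1) R ^ (I + 1)) (hgt 0) - hgt 0 =
        ((PB (n + 1) R ^ (I + 1)) (hgt 0) - (PB (n + 1) R ^ I) (hgt 0)) +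
          ((PB (n + 1) R ^ I) (hgt 0) - hgt 0) := by
      abel
    have hT : (0 : ℝ) < nT (n + 1) (N + 1) := by exact_mod_cast nT_pos (d := n + 1) (N + 1)
    have h4 : C' * nT (n + 1) (N + 1) / ((box (n + 1) R).card * (JN (n + 1) N : ℕ)) =
        C' / (box (n + 1) R).card / (N + 1) := by
      unfold JN
      push_cast
      field_simp
    rw [h4] at h2
    rw [h3, map_add]
    change ces 0 (N + 1) (JN (n + 1) N) _ + _ ≤ _
    push_cast
    have h5 : U * ((I + 1) / (box (n + 1) R).card : ℝ) +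
        (C + C' / (box (n + 1) R).card) / (N + 1) =
        (U / (box (n + 1) R).card + C' / (box (n + 1) R).card / (N + 1)) +
          (U * (I / (box (n + 1) R).card) + C / (N + 1)) := by ring
    rw [h5]
    exact add_le_add h2 h1

/-! ### from functionals of droplets -/

/-- the exponential of an integer valued functional -/
noncomputable def expo (q : ℝ) (F : Conf (n + 1) → ℤ) : Fn (n + 1) := fun h => q ^ (F h)

lemma PT_apply (N : ℕ) [NeZero N] (G : Fn (n + 1)) : PT (n + 1) N G =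
    ((nT (n + 1) N : ℝ)⁻¹) • ∑ α : Fin (n + 1) → ZMod N,
      (fun h => G (ringSet (TS N α) h) : Fn (n + 1)) := by
  ext h
  rw [PT, avgOp_apply]
  simp only [Pi.smul_apply, Finset.sum_apply, smul_eq_mul]
  rfl

section
variable {q lam : ℝ} {Psi : Dr (n + 1) → ℝ≥0∞}

/-- the exponential bound -/
theorem exp_bound (hq : 1 < q) (hlam : 0 ≤ lam) {N : ℕ} [NeZero N]
    (hstep : ∀ a : Dr (n + 1), ∑ α : Fin (n + 1) → ZMod N, Psi (upd (TS N α) a) ≤
      ENNReal.ofReal (nT (n + 1) N + lam) * Psi a)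
    (hge : ∀ (a : Dr (n + 1)) (z : Site (n + 1)) (m : ℤ), ((m : ℤ) : WithBot ℤ) ≤ a z →
      ENNReal.ofReal (q ^ (m + z 0)) ≤ Psi a)
    (j : ℕ) (a : Dr (n + 1)) (F : Conf (n + 1) → ℤ) (hF : Dom a F) :
    ENNReal.ofReal ((PT (n + 1) N ^ j) (expo q F) (tilt 0)) ≤
      ENNReal.ofReal ((1 + lam / nT (n + 1) N) ^ j) * Psi a := by
  have hT : (0 : ℝ) < nT (n + 1) N := by exact_mod_cast nT_pos (d := n + 1) N
  have hq0 : 0 < q := zero_lt_one.trans hq
  induction j generalizing a F with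
  | zero =>
    rw [pow_zero, pow_zero, ENNReal.ofReal_one, one_mul, Module.End.one_apply]
    obtain ⟨z, m, h1, h2⟩ := hF (tilt 0)
    refine le_trans (ENNReal.ofReal_le_ofReal ?_) (hge a z m h1)
    unfold expo
    exact zpow_le_zpow_right₀ hq.le h2
  | succ j ih =>
    rw [pow_succ, Module.End.mul_apply, PT_apply, map_smul, map_sum, Pi.smul_apply,
      Finset.sum_apply, smul_eq_mul, ENNReal.ofReal_mul (by positivity)]
    have hnn : ∀ α : Fin (n + 1) → ZMod N,
        0 ≤ (PT (n + 1) N ^ j) (fun h => expo q F (ringSet (TS N α) h)) (tilt 0) := by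
      intro α
      have h1 : (fun _ => 0 : Fn (n + 1)) ≤ (fun h => expo q F (ringSet (TS N α) h)) := by
        intro h
        unfold expo
        positivity
      have h2 := ((isMarkov_PT N).pow j).mono h1 (tilt 0)
      rwa [((isMarkov_PT N).pow j).const] at h2
    rw [ENNReal.ofReal_sum_of_nonneg fun α _ => hnn α]
    have h1 : ∀ α : Fin (n + 1) → ZMod N,
        ENNReal.ofReal ((PT (n + 1) N ^ j) (fun h => expo q F (ringSet (TS N α) h)) (tilt 0)) ≤
          ENNReal.ofReal ((1 + lam / nT (n + 1) N) ^ j) * Psi (upd (TS N α) a) := fun α =>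
      ih (upd (TS N α) a) (fun h => F (ringSet (TS N α) h)) (hF.ring _)
    have h2 : ∑ α : Fin (n + 1) → ZMod N,
        ENNReal.ofReal ((PT (n + 1) N ^ j) (fun h => expo q F (ringSet (TS N α) h)) (tilt 0)) ≤
        ENNReal.ofReal ((1 + lam / nT (n + 1) N) ^ j) *
          (ENNReal.ofReal ((nT (n + 1) N : ℝ) + lam) * Psi a) := by
      refine (Finset.sum_le_sum fun α _ => h1 α).trans ?_
      rw [← Finset.mul_sum]
      gcongr
      exact hstep a
    refine (mul_le_mul_right h2 _).trans (le_of_eq ?_)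
    rw [← mul_assoc, ← mul_assoc, ← ENNReal.ofReal_mul (by positivity),
      ← ENNReal.ofReal_mul (by positivity)]
    congr 2
    rw [pow_succ]
    field_simp

/-- the logarithmic bound on the mean, given the exponential bound -/
lemma mean_le_log (hq : 1 < q) {Q : Module.End ℝ (Fn (n + 1))} (hQ : IsMarkov Q)
    (h0 : Conf (n + 1)) (F : Conf (n + 1) → ℤ)
    {K : ℝ} (hK0 : 0 < K) (hK : Q (expo q F) h0 ≤ K) :
    Q (fun h => (F h : ℝ)) h0 ≤ Real.log K / Real.log q := by
  have hl : 0 < Real.log q := Real.log_pos hq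
  have hq0 : 0 < q := zero_lt_one.trans hq
  have h1 : Real.log q • (fun h => (F h : ℝ) : Fn (n + 1)) ≤
      K⁻¹ • expo q F + (fun _ => Real.log K - 1 : Fn (n + 1)) := by
    intro h
    simp only [Pi.smul_apply, Pi.add_apply, smul_eq_mul, expo]
    have h2 := Real.add_one_le_exp (Real.log q * F h - Real.log K)
    rw [Real.exp_sub, Real.exp_log hK0, ← Real.rpow_def_of_pos hq0,
      Real.rpow_intCast] at h2
    have h3 : K⁻¹ * q ^ (F h) = q ^ (F h) / K := by ring
    rw [h3]
    linarith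
  have h2 := hQ.mono h1 h0
  rw [map_smul, map_add, map_smul, hQ.const] at h2
  simp only [Pi.smul_apply, Pi.add_apply, smul_eq_mul] at h2
  have h3 : K⁻¹ * Q (expo q F) h0 ≤ 1 := by
    rw [inv_mul_le_iff₀ hK0]
    linarith
  rw [le_div_iff₀ hl]
  linarith

/-- the constant of a word -/
noncomputable def cW (q : ℝ) (Psi : Dr (n + 1) → ℝ≥0∞) (w : List (Site (n + 1))) : ℝ :=
  Real.log ((Psi (dr w)).toReal + 1) / Real.log q

/-- the mean height of the origin -/
lemma mean_word_le (hq : 1 < q) (hlam : 0 ≤ lam) {N : ℕ} [NeZero N]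
    (hstep : ∀ a : Dr (n + 1), ∑ α : Fin (n + 1) → ZMod N, Psi (upd (TS N α) a) ≤
      ENNReal.ofReal (nT (n + 1) N + lam) * Psi a)
    (hge : ∀ (a : Dr (n + 1)) (z : Site (n + 1)) (m : ℤ), ((m : ℤ) : WithBot ℤ) ≤ a z →
      ENNReal.ofReal (q ^ (m + z 0)) ≤ Psi a)
    (hfin : ∀ w : List (Site (n + 1)), Psi (dr w) ≠ ⊤) (j : ℕ) (w : List (Site (n + 1))) :
    (PT (n + 1) N ^ j) (fun h => ((act w h 0 : ℤ) : ℝ)) (tilt 0) ≤
      lam / Real.log q * (j / nT (n + 1) N) + cW q Psi w := by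
  have hT : (0 : ℝ) < nT (n + 1) N := by exact_mod_cast nT_pos (d := n + 1) N
  have hl : 0 < Real.log q := Real.log_pos hq
  set c : ℝ := 1 + lam / nT (n + 1) N with hc
  have hc0 : 0 < c := by positivity
  have h1 := exp_bound hq hlam hstep hge j (dr w) (fun h => act w h 0) (dom_dr w)
  have hfin := hfin w
  set P : ℝ := (Psi (dr w)).toReal with hP
  have hP0 : 0 ≤ P := ENNReal.toReal_nonneg
  rw [← ENNReal.ofReal_toReal hfin, ← ENNReal.ofReal_mul (by positivity),
    ENNReal.ofReal_le_ofReal_iff (by positivity), ← hP, ← hc] at h1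
  have h2 : (PT (n + 1) N ^ j) (expo q fun h => act w h 0) (tilt 0) ≤ c ^ j * (P + 1) := by
    refine h1.trans (mul_le_mul_of_nonneg_left (by linarith) (by positivity))
  have h3 := mean_le_log hq ((isMarkov_PT N).pow j) (tilt 0) (fun h => act w h 0)
    (by positivity) h2
  refine h3.trans ?_
  rw [Real.log_mul (by positivity) (by positivity), Real.log_pow, add_div]
  unfold cW
  rw [← hP]
  have h4 : Real.log c ≤ lam / nT (n + 1) N := by
    have := Real.log_le_sub_one_of_pos hc0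
    rw [hc] at this ⊢
    linarith
  have h5 : (j : ℝ) * Real.log c / Real.log q ≤ lam / Real.log q * (j / nT (n + 1) N) := by
    rw [div_le_iff₀ hl]
    have h6 : (j : ℝ) * Real.log c ≤ j * (lam / nT (n + 1) N) :=
      mul_le_mul_of_nonneg_left h4 (Nat.cast_nonneg j)
    refine h6.trans (le_of_eq ?_)
    field_simp
  linarith

end

/-- the mean of the height from a functional of droplets -/
theorem mean_of_psi : MeanOfPsiStmt := by
  intro n q lam Psi hq hlam h R i
  obtain ⟨⟨N0, hstep⟩, hge, hfin⟩ := h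
  refine ⟨W R i (cW q Psi), N0, fun N hN j => ?_⟩
  have h1 : (PB (n + 1) R ^ i) (hgt 0) = fun g => W R i (fun w => ((act w g 0 : ℤ) : ℝ)) := by
    ext g
    rw [PB_pow_apply]
    rfl
  have h2 := W_exchange R i
    ((LinearMap.proj (tilt 0 : Conf (n + 1)) : Fn (n + 1) →ₗ[ℝ] ℝ) ∘ₗ (PT (n + 1) (N + 1) ^ j))
    (fun w g => ((act w g 0 : ℤ) : ℝ))
  rw [h1]
  simp only [LinearMap.comp_apply, LinearMap.proj_apply] at h2
  rw [h2]
  have h3 : W R i (fun w => (PT (n + 1) (N + 1) ^ j) (fun g => ((act w g 0 : ℤ) : ℝ)) (tilt 0)) ≤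
      W R i ((fun _ => lam / Real.log q * (j / nT (n + 1) (N + 1))) + cW q Psi) :=
    W_mono R i fun w => mean_word_le hq hlam (hstep N hN) hge hfin j w
  rw [map_add, W_const] at h3
  exact h3

end Pool.Agent.Lib.MP_67d80e_pr_all
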