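import Mathlib
import Pool.Agent.Lib.MP_67d80e_pr_g3.Lt

/-!
Arithmetic with packed vectors (fields of 20 bits), for kernel computations.
-/

set_option autoImplicit false

open scoped BigOperators

namespace Pool.Agent.Lib.MP_67d80e_pr_all

/-- `k` fields, from the field `L` on -/
def sg (v L k : ℕ) : ℕ := Nat.mod (Nat.shiftRight v (Nat.mul 20 L)) (Nat.pow 2 (Nat.mul 20 k))

/-- the vector with all fields `1` -/
def un (k : ℕ) : ℕ := Nat.div (Nat.sub (Nat.pow 2 (Nat.mul 20 k)) 1) 1048575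

/-- the packed vector -/
def pk (f : ℕ → ℕ) (k : ℕ) : ℕ := ∑ i ∈ Finset.range k, f i * 2 ^ (20 * i)

/-- the comparison of two packed vectors -/
def vle (A C U : ℕ) : Bool :=
  Nat.beq (Nat.land (Nat.sub (Nat.add A (Nat.mul 524288 U)) C) (Nat.mul 524288 U))
    (Nat.mul 524288 U)

/-- all fields are `< 2 ^ j` -/
def bnd (v j k : ℕ) : Bool :=
  Nat.beq (Nat.land v (Nat.mul (Nat.sub 1048576 (Nat.pow 2 j)) (un k))) 0

lemma fl_eq (v i : ℕ) : fl v i = v / 2 ^ (20 * i) % 2 ^ 20 := by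
  have : fl v i = (v >>> (20 * i)) % 2 ^ 20 := rfl
  rw [this, Nat.shiftRight_eq_div_pow]

lemma fl_lt (v i : ℕ) : fl v i < 2 ^ 20 := by
  rw [fl_eq]
  exact Nat.mod_lt _ (by positivity)

lemma pk_succ (f : ℕ → ℕ) (k : ℕ) : pk f (k + 1) = pk f k + f k * 2 ^ (20 * k) := by
  rw [pk, Finset.sum_range_succ, ← pk]

lemma sg_eq (v L k : ℕ) : sg v L k = pk (fun i => fl v (L + i)) k := by
  have h0 : sg v L k = v / 2 ^ (20 * L) % 2 ^ (20 * k) := by
    have : sg v L k = (v >>> (20 * L)) % 2 ^ (20 * k) := rfl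
    rw [this, Nat.shiftRight_eq_div_pow]
  rw [h0]
  clear h0
  induction k with
  | zero => simp [pk, Nat.mod_one]
  | succ k ih =>
    rw [pk_succ, ← ih, Nat.mul_succ, pow_add, Nat.mod_mul, fl_eq, Nat.mul_add, pow_add,
      Nat.div_div_eq_div_mul]
    · ring

lemma pk_congr {f g : ℕ → ℕ} {k : ℕ} (h : ∀ i < k, f i = g i) : pk f k = pk g k :=
  Finset.sum_congr rfl fun i hi => by rw [h i (Finset.mem_range.1 hi)]

lemma pk_add (f g : ℕ → ℕ) (k : ℕ) : pk f k + pk g k = pk (fun i => f i + g i) k := by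
  rw [pk, pk, pk, ← Finset.sum_add_distrib]
  exact Finset.sum_congr rfl fun i _ => by ring

lemma pk_mul (c : ℕ) (f : ℕ → ℕ) (k : ℕ) : c * pk f k = pk (fun i => c * f i) k := by
  rw [pk, pk, Finset.mul_sum]
  exact Finset.sum_congr rfl fun i _ => by ring

lemma un_eq (k : ℕ) : un k = pk (fun _ => 1) k := by
  have h0 : un k = (2 ^ (20 * k) - 1) / (2 ^ 20 - 1) := rfl
  have h1 : pk (fun _ => 1) k * (2 ^ 20 - 1) = 2 ^ (20 * k) - 1 := by
    clear h0
    induction k with
    | zero => simp [pk]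
    | succ k ih =>
      rw [pk_succ, add_mul, ih, one_mul, Nat.mul_succ, pow_add]
      have : 1 ≤ 2 ^ (20 * k) := Nat.one_le_two_pow
      omega
  rw [h0, ← h1, Nat.mul_div_cancel _ (by norm_num)]

lemma pk_lt {f : ℕ → ℕ} {k : ℕ} (h : ∀ i < k, f i < 2 ^ 20) : pk f k < 2 ^ (20 * k) := by
  induction k with
  | zero => simp [pk]
  | succ k ih =>
    rw [pk_succ, Nat.mul_succ, pow_add]
    have h1 := ih fun i hi => h i (by omega)
    have h2 := h k (by omega)
    have h3 : f k * 2 ^ (20 * k) ≤ (2 ^ 20 - 1) * 2 ^ (20 * k) :=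
      Nat.mul_le_mul_right _ (by omega)
    calc pk f k + f k * 2 ^ (20 * k) < 2 ^ (20 * k) + (2 ^ 20 - 1) * 2 ^ (20 * k) := by omega
      _ = 2 ^ (20 * k) * 2 ^ 20 := by ring_nf

lemma fl_pk {f : ℕ → ℕ} {k : ℕ} (h : ∀ i < k, f i < 2 ^ 20) {i : ℕ} (hi : i < k) :
    fl (pk f k) i = f i := by
  rw [fl_eq]
  induction k with
  | zero => omega
  | succ k ih =>
    rw [pk_succ]
    rcases Nat.lt_succ_iff_lt_or_eq.1 hi with h1 | rfl
    · have h2 : f k * 2 ^ (20 * k) = 2 ^ (20 * i) * (2 ^ 20 * (f k * 2 ^ (20 * (k - i - 1)))) := by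
        have : 20 * k = 20 * i + (20 + 20 * (k - i - 1)) := by omega
        rw [this, pow_add, pow_add]
        ring
      rw [h2, Nat.add_mul_div_left _ _ (by positivity), Nat.add_mul_mod_self_left]
      exact ih (fun j hj => h j (by omega)) h1
    · rw [Nat.add_mul_div_right _ _ (by positivity),
        Nat.div_eq_of_lt (pk_lt fun j hj => h j (by omega)), zero_add]
      exact Nat.mod_eq_of_lt (h i (by omega))

lemma testBit_fl (v i b : ℕ) (hb : b < 20) : (fl v i).testBit b = v.testBit (20 * i + b) := by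
  rw [fl_eq, Nat.testBit_mod_two_pow, decide_eq_true hb, Bool.true_and, Nat.testBit_div_two_pow,
    Nat.add_comm]

theorem vle_sound {k : ℕ} {a c : ℕ → ℕ} (ha : ∀ i < k, a i < 2 ^ 19) (hc : ∀ i < k, c i < 2 ^ 19)
    (h : vle (pk a k) (pk c k) (un k) = true) : ∀ i < k, c i ≤ a i := by
  have h1 : (pk a k + 524288 * un k - pk c k) &&& (524288 * un k) = 524288 * un k :=
    Nat.eq_of_beq_eq_true h
  have hH : 524288 * un k = pk (fun _ => 524288) k := by
    rw [un_eq, pk_mul]
  have hZ : pk a k + 524288 * un k - pk c k = pk (fun i => a i + 524288 - c i) k := by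
    have h2 : pk (fun i => a i + 524288 - c i) k + pk c k = pk a k + 524288 * un k := by
      rw [hH, pk_add, pk_add]
      refine pk_congr fun i hi => ?_
      have := hc i hi
      norm_num at this
      omega
    omega
  rw [hZ, hH] at h1
  intro i hi
  have h3 : (pk (fun _ => 524288) k).testBit (20 * i + 19) = true := by
    rw [← testBit_fl _ _ _ (by norm_num), fl_pk (fun _ _ => by norm_num) hi]
    decide
  have h4 : (pk (fun i => a i + 524288 - c i) k).testBit (20 * i + 19) = true := by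
    rw [← h1, Nat.testBit_and, Bool.and_eq_true] at h3
    exact h3.1
  have h5 : ∀ i < k, a i + 524288 - c i < 2 ^ 20 := fun i hi => by
    have := ha i hi
    norm_num at this ⊢
    omega
  rw [← testBit_fl _ _ _ (by norm_num), fl_pk h5 hi] at h4
  have h6 := Nat.ge_two_pow_of_testBit h4
  norm_num at h6
  omega

theorem bnd_sound {v j k : ℕ} (hj : j ≤ 20) (h : bnd v j k = true) : ∀ i < k, fl v i < 2 ^ j := by
  have h1 : v &&& ((1048576 - 2 ^ j) * un k) = 0 := Nat.eq_of_beq_eq_true h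
  intro i hi
  have hpj : 2 ^ j ≤ 1048576 := by
    calc 2 ^ j ≤ 2 ^ 20 := Nat.pow_le_pow_right (by norm_num) hj
      _ = 1048576 := by norm_num
  have hpos : 0 < 2 ^ j := by positivity
  rw [un_eq, pk_mul] at h1
  refine Nat.lt_pow_two_of_testBit _ fun b hb => ?_
  rcases Nat.lt_or_ge b 20 with hb2 | hb2
  · rw [testBit_fl _ _ _ hb2]
    have h3 : (pk (fun _ => (1048576 - 2 ^ j) * 1) k).testBit (20 * i + b) = true := by
      rw [← testBit_fl _ _ _ hb2, fl_pk (fun _ _ => by rw [mul_one]; norm_num) hi, mul_one]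
      have e1 : 1048576 - 2 ^ j = 2 ^ 20 - ((2 ^ j - 1) + 1) := by
        norm_num; omega
      rw [e1, Nat.testBit_two_pow_sub_succ (by norm_num; omega), decide_eq_true hb2, Bool.true_and,
        Nat.testBit_lt_two_pow, Bool.not_false]
      calc 2 ^ j - 1 < 2 ^ j := by omega
        _ ≤ 2 ^ b := Nat.pow_le_pow_right (by norm_num) hb
    have h4 : (v &&& pk (fun _ => (1048576 - 2 ^ j) * 1) k).testBit (20 * i + b) = false := by
      rw [h1, Nat.zero_testBit]
    rw [Nat.testBit_and, h3, Bool.and_true] at h4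
    exact h4
  · exact Nat.testBit_lt_two_pow ((fl_lt v i).trans_le (Nat.pow_le_pow_right (by norm_num) hb2))

end Pool.Agent.Lib.MP_67d80e_pr_all
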