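import Pool.Agent.Lib.MP_67d80e_pr_all.Vec
import Pool.Agent.Lib.MP_67d80e_pr_all.Lag2
import Pool.Agent.Lib.MP_67d80e_pr_all.LagChk

/-!
Vector checks of affine inequalities, and the checks of the certificates.
-/

set_option autoImplicit false

open scoped BigOperators
open Pool.Agent.Lib.MP_67d80e_pr

namespace Pool.Agent.Lib.MP_67d80e_pr_all

variable {d : ℕ}

/-- the vector with the fields `0, 1, ..., 400` -/
def XX : ℕ := 0x1900018f0018e0018d0018c0018b0018a001890018800187001860018500184001830018200181001800017f0017e0017d0017c0017b0017a001790017800177001760017500174001730017200171001700016f0016e0016d0016c0016b0016a001690016800167001660016500164001630016200161001600015f0015e0015d0015c0015b0015a001590015800157001560015500154001530015200151001500014f0014e0014d0014c0014b0014a001490014800147001460014500144001430014200141001400013f0013e0013d0013c0013b0013a001390013800137001360013500134001330013200131001300012f0012e0012d0012c0012b0012a001290012800127001260012500124001230012200121001200011f0011e00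11d0011c0011b0011a001190011800117001160011500114001130011200111001100010f0010e0010d0010c0010b0010a00109001080010700106001050010400103001020010100100000ff000fe000fd000fc000fb000fa000f9000f8000f7000f6000f5000f4000f3000f2000f1000f0000ef000ee000ed000ec000eb000ea000e9000e8000e7000e6000e5000e4000e3000e2000e1000e0000df000de000dd000dc000db000da000d9000d8000d7000d6000d5000d4000d3000d2000d1000d0000cf000ce000cd000cc000cb000ca000c9000c8000c7000c6000c5000c4000c3000c2000c1000c0000bf000be000bd000bc000bb000ba000b9000b8000b7000b6000b5000b4000b3000b2000b1000b0000af000ae000ad000ac000ab000aa000a9000a8000a7000a6000a5000a4000a3000a2000a1000a00009f0009e0009d0009c0009b0009a000990009800097000960009500094000930009200091000900008f0008e0008d0008c0008b0008a000890008800087000860008500084000830008200081000800007f0007e0007d0007c0007b0007a000790007800077000760007500074000730007200071000700006f0006e0006d0006c0006b0006a000690006800067000660006500064000630006200061000600005f0005e0005d0005c0005b0005a000590005800057000560005500054000530005200051000500004f0004e0004d0004c0004b0004a000490004800047000460004500044000430004200041000400003f0003e0003d0003c0003b0003a000390003800037000360003500034000330003200031000300002f0002e0002d0002c0002b0002a000290002800027000260002500024000230002200021000200001f0001e0001d0001c0001b0001a000190001800017000160001500014000130001200011000100000f0000e0000d0000c0000b0000a00009000080000700006000050000400003000020000100000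

lemma XX_chk : allB (fun i => Nat.beq (fl XX i) i) 401 = true := by decide +kernel

lemma fl_XX {i : ℕ} (h : i ≤ 400) : fl XX i = i := by
  have h1 := XX_chk
  rw [allB_iff] at h1
  exact Nat.eq_of_beq_eq_true (h1 i (by omega))

/-- `P x + α ≤ 12 R (B + x) + Q x + β` for `L ≤ x < L + k` -/
def aff (R B L k P Q α β : ℕ) : Bool :=
  vle (Nat.add (Nat.add (Nat.mul 12 (sg R (Nat.add B L) k)) (Nat.mul Q (sg XX L k)))
    (Nat.mul β (un k))) (Nat.add (Nat.mul P (sg XX L k)) (Nat.mul α (un k))) (un k)

/-- `12 R (B + x) + Q x + 1 ≤ P x + α` for `L ≤ x < L + k` -/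
def affR (R B L k P Q α : ℕ) : Bool :=
  vle (Nat.add (Nat.mul P (sg XX L k)) (Nat.mul α (un k)))
    (Nat.add (Nat.add (Nat.mul 12 (sg R (Nat.add B L) k)) (Nat.mul Q (sg XX L k))) (un k)) (un k)

/-- `R (B + i) ≤ R' (B' + i) + α` for `i < k` -/
def shf (R B R' B' k α : ℕ) : Bool :=
  vle (Nat.add (sg R' B' k) (Nat.mul α (un k))) (sg R B k) (un k)

theorem aff_sound {R B L k P Q α β : ℕ} (h : aff R B L k P Q α β = true) (hk : L + k ≤ 401)
    (hR : ∀ i < k, fl R (B + L + i) < 2 ^ 13) (hP : P < 512) (hQ : Q < 512) (hα : α < 2 ^ 17)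
    (hβ : β < 2 ^ 17) : ∀ x, L ≤ x → x < L + k → P * x + α ≤ 12 * fl R (B + x) + Q * x + β := by
  have h1 : vle (12 * sg R (B + L) k + Q * sg XX L k + β * un k) (P * sg XX L k + α * un k)
    (un k) = true := h
  rw [sg_eq, sg_eq, un_eq, pk_mul, pk_mul, pk_mul, pk_mul, pk_mul, pk_add, pk_add, pk_add,
    ← un_eq] at h1
  have hX : ∀ i < k, fl XX (L + i) = L + i := fun i hi => fl_XX (by omega)
  have h2 := vle_sound (fun i hi => ?_) (fun i hi => ?_) h1
  · intro x hx1 hx2
    have h3 := h2 (x - L) (by omega)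
    rw [hX _ (by omega)] at h3
    have e1 : B + L + (x - L) = B + x := by omega
    have e2 : L + (x - L) = x := by omega
    rw [e1, e2, mul_one, mul_one] at h3
    exact h3
  · have h3 := hR i hi
    rw [hX i hi]
    have h4 : Q * (L + i) ≤ 511 * 400 := Nat.mul_le_mul (by omega) (by omega)
    norm_num at h3 hβ ⊢
    omega
  · rw [hX i hi]
    have h4 : P * (L + i) ≤ 511 * 400 := Nat.mul_le_mul (by omega) (by omega)
    norm_num at hα ⊢
    omega

theorem affR_sound {R B L k P Q α : ℕ} (h : affR R B L k P Q α = true) (hk : L + k ≤ 401)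
    (hR : ∀ i < k, fl R (B + L + i) < 2 ^ 13) (hP : P < 512) (hQ : Q < 512) (hα : α < 2 ^ 18) :
    ∀ x, L ≤ x → x < L + k → 12 * fl R (B + x) + Q * x + 1 ≤ P * x + α := by
  have h1 : vle (P * sg XX L k + α * un k) (12 * sg R (B + L) k + Q * sg XX L k + un k)
    (un k) = true := h
  rw [sg_eq, sg_eq, un_eq, pk_mul, pk_mul, pk_mul, pk_mul, pk_add, pk_add, pk_add,
    ← un_eq] at h1
  have hX : ∀ i < k, fl XX (L + i) = L + i := fun i hi => fl_XX (by omega)
  have h2 := vle_sound (fun i hi => ?_) (fun i hi => ?_) h1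
  · intro x hx1 hx2
    have h3 := h2 (x - L) (by omega)
    rw [hX _ (by omega)] at h3
    have e1 : B + L + (x - L) = B + x := by omega
    have e2 : L + (x - L) = x := by omega
    rw [e1, e2, mul_one] at h3
    exact h3
  · rw [hX i hi]
    have h4 : P * (L + i) ≤ 511 * 400 := Nat.mul_le_mul (by omega) (by omega)
    norm_num at hα ⊢
    omega
  · have h3 := hR i hi
    rw [hX i hi]
    have h4 : Q * (L + i) ≤ 511 * 400 := Nat.mul_le_mul (by omega) (by omega)
    norm_num at h3 ⊢
    omega

theorem shf_sound {R B R' B' k α : ℕ} (h : shf R B R' B' k α = true)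
    (hR : ∀ i < k, fl R (B + i) < 2 ^ 18) (hR' : ∀ i < k, fl R' (B' + i) < 2 ^ 18)
    (hα : α < 2 ^ 18) : ∀ i < k, fl R (B + i) ≤ fl R' (B' + i) + α := by
  have h1 : vle (sg R' B' k + α * un k) (sg R B k) (un k) = true := h
  rw [sg_eq, sg_eq, un_eq, pk_mul, pk_add, ← un_eq] at h1
  have h2 := vle_sound (fun i hi => ?_) (fun i hi => ?_) h1
  · intro i hi
    have h3 := h2 i hi
    rwa [mul_one] at h3
  · have h3 := hR' i hi
    norm_num at h3 hα ⊢
    omega
  · have h3 := hR i hi
    norm_num at h3 ⊢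
    omega

/-! ### The tables -/

/-- edge boundaries: rows `t ≤ 24`, `n ≤ 400` -/
def eV (E t n : ℕ) : ℕ :=
  bif Nat.ble n 400 then
    fl E (Nat.add n (Nat.mul 512 (bif Nat.ble t 24 then t else 24))) else 0

/-- closed neighbourhoods, `t ≤ 24` -/
def fV (F t : ℕ) : ℕ := fl F (bif Nat.ble t 24 then t else 24)

lemma eV_eq {E t n : ℕ} (ht : t ≤ 24) (hn : n ≤ 400) : eV E t n = fl E (512 * t + n) := by
  have b1 : Nat.ble n 400 = true := by rw [Nat.ble_eq]; exact hn
  have b2 : Nat.ble t 24 = true := by rw [Nat.ble_eq]; exact ht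
  rw [eV, b1, b2]
  change fl E (n + 512 * t) = _
  rw [add_comm]

lemma eV_eq_zero {E t n : ℕ} (hn : 400 < n) : eV E t n = 0 := by
  have b1 : Nat.ble n 400 = false := by rw [Bool.eq_false_iff, Ne, Nat.ble_eq]; omega
  rw [eV, b1]
  rfl

lemma eV_large {E t n : ℕ} (ht : 24 ≤ t) : eV E t n = eV E 24 n := by
  rcases Nat.eq_or_lt_of_le ht with rfl | h
  · rfl
  · have b1 : Nat.ble t 24 = false := by rw [Bool.eq_false_iff, Ne, Nat.ble_eq]; omega
    rw [eV, b1]
    rfl

lemma fV_eq {F t : ℕ} (ht : t ≤ 24) : fV F t = fl F t := by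
  have b2 : Nat.ble t 24 = true := by rw [Nat.ble_eq]; exact ht
  rw [fV, b2]
  rfl

lemma fV_large {F t : ℕ} (ht : 24 ≤ t) : fV F t = fV F 24 := by
  rcases Nat.eq_or_lt_of_le ht with rfl | h
  · rfl
  · have b1 : Nat.ble t 24 = false := by rw [Bool.eq_false_iff, Ne, Nat.ble_eq]; omega
    rw [fV, b1]
    rfl

/-! ### The certificates for closed neighbourhoods -/

/-- the check of one certificate: `m` holds `M, rp, rn, k`, and `x` holds `b, c, g, p` -/
def okC (E F m x : ℕ) : Bool :=
  bnd x 17 100 && (bnd m 17 28 && (Nat.ble (fl m 1) 511 && (Nat.ble (fl m 2) 511 &&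
  (Nat.ble (fl m 0) 400 &&
  (aff E 0 0 (Nat.succ (fl m 0)) (fl m 1) (fl m 2) 0 0 &&
  (allB (fun i => Nat.ble (Nat.succ (fl m 0)) (fl F (Nat.succ i)) ||
    aff E (Nat.mul 512 (Nat.succ i)) (fl F (Nat.succ i))
      (Nat.sub (Nat.succ (fl m 0)) (fl F (Nat.succ i))) (fl m 1) (fl m 2)
      (fl x (Nat.succ i)) 0) 24 &&
  (allB (fun i => Nat.ble (Nat.succ (fl m 0)) (Nat.succ i) ||
    aff E 0 (Nat.succ i) (Nat.sub (Nat.succ (fl m 0)) (Nat.succ i)) (fl m 1) (fl m 2)
      (fl x (Nat.add 25 (Nat.succ i))) (fl x (Nat.succ i))) 24 &&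
  (Nat.beq (fl x 50) 0 &&
  (allB (fun i => shf x (Nat.add 50 (Nat.succ i)) x 50 (Nat.sub 24 i) (fl x (Nat.succ i))) 24 &&
  (allB (fun i => shf x (Nat.add 76 (Nat.succ i)) x 26 (Nat.sub 23 i)
    (fl x (Nat.add 25 (Nat.succ i)))) 23 &&
  (allB (fun i => shf m (Nat.add 3 (Nat.add 2 i)) x 50 (Nat.sub 23 i)
    (fl x (Nat.add 75 (Nat.add 2 i)))) 23 &&
  allB (fun i => Nat.ble (Nat.add (fl m (Nat.add 4 i)) (fl x (Nat.succ i)))
    (Nat.mul 2 (fl x (Nat.add 26 i)))) 24)))))))))))

theorem okC_sound {E F m x : ℕ} (hO : IsO d (eV E)) (hF : IsF d (fV F))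
    (hE : bnd E 13 12800 = true) (h : okC E F m x = true) :
    VC d (fl m 0) (fl m 1) (fl m 2) (fun t => fl m (3 + t)) ∧ (∀ i < 28, fl m i < 2 ^ 17) ∧
      fl m 1 < 512 ∧ fl m 2 < 512 := by
  simp only [okC, Bool.and_eq_true, Bool.or_eq_true, allB_iff, Nat.ble_eq] at h
  obtain ⟨hx, hm, hP, hQ, hM, c1, c2, c3, c4, c5, c6, c7, c8⟩ := h
  have hx' := bnd_sound (by norm_num) hx
  have hm' := bnd_sound (by norm_num) hm
  have hE' := bnd_sound (by norm_num) hE
  have hP' : fl m 1 < 512 := by omega
  have hQ' : fl m 2 < 512 := by omega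
  refine ⟨?_, hm', hP', hQ'⟩
  set M := fl m 0 with hMd
  have z1 : ∀ y, y ≤ M → fl m 1 * y ≤ 12 * eV E 0 y + fl m 2 * y := by
    intro y hy
    have := aff_sound c1 (by change 0 + (M + 1) ≤ 401; omega)
      (fun i hi => hE' _ (by change i < M + 1 at hi; omega)) hP' hQ' (by norm_num) (by norm_num)
      y (Nat.zero_le _) (by change y < 0 + (M + 1); omega)
    rw [eV_eq (by norm_num) (by omega)]
    simpa using this
  refine VC_of (O' := eV E) (F' := fV F) (b := fun s => fl x s)
    (a := fun s => fl x (25 + s) - fl x s) (g := fun s => fl x (50 + s)) hO hF z1 ?_ ?_ ?_ ?_ ?_ ?_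
  · intro s hs1 hs2 y hy1 hy2
    obtain ⟨i, rfl⟩ : ∃ i, s = i + 1 := ⟨s - 1, by omega⟩
    rw [fV_eq hs2] at hy1
    rcases c2 i (by omega) with h4 | h4
    · exfalso
      change M + 1 ≤ fl F (i + 1) at h4
      omega
    · have h5 := aff_sound h4 (by change fl F (i + 1) + (M + 1 - fl F (i + 1)) ≤ 401; omega)
        (fun j hj => hE' _ (by
          change j < M + 1 - fl F (i + 1) at hj
          change 512 * (i + 1) + fl F (i + 1) + j < 12800
          omega)) hP' hQ' (hx' _ (by change i + 1 < 100; omega)) (by norm_num)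
        y hy1 (by change y < fl F (i + 1) + (M + 1 - fl F (i + 1)); omega)
      rw [eV_eq hs2 (by omega)]
      exact h5
  · intro s hs1 hs2 y hy1 hy2
    obtain ⟨i, rfl⟩ : ∃ i, s = i + 1 := ⟨s - 1, by omega⟩
    rcases c3 i (by omega) with h4 | h4
    · exfalso
      change M + 1 ≤ i + 1 at h4
      omega
    · have h5 := aff_sound h4 (by change i + 1 + (M + 1 - (i + 1)) ≤ 401; omega)
        (fun j hj => hE' _ (by
          change j < M + 1 - (i + 1) at hj
          change 0 + (i + 1) + j < 12800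
          omega)) hP' hQ' (hx' _ (by change 25 + (i + 1) < 100; omega))
        (hx' _ (by change i + 1 < 100; omega))
        y hy1 (by change y < (i + 1) + (M + 1 - (i + 1)); omega)
      have h6 := z1 y hy2
      rw [eV_eq (by norm_num) (by omega)] at h6 ⊢
      change fl m 1 * y + fl x (25 + (i + 1)) ≤ 12 * fl E (0 + y) + fl m 2 * y + fl x (i + 1) at h5
      rw [mul_zero] at h6 ⊢
      omega
  · exact Nat.eq_of_beq_eq_true c4
  · intro s u hs1 hsu
    obtain ⟨i, rfl⟩ : ∃ i, s = i + 1 := ⟨s - 1, by omega⟩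
    have h5 := shf_sound (c5 i (by omega))
      (fun j hj => (hx' _ (by
        change j < 24 - i at hj
        change 50 + (i + 1) + j < 100
        omega)).trans (by norm_num))
      (fun j hj => (hx' _ (by
        change j < 24 - i at hj
        omega)).trans (by norm_num))
      ((hx' _ (by change i + 1 < 100; omega)).trans (by norm_num)) u
      (by change u < 24 - i; omega)
    change fl x (50 + (i + 1) + u) ≤ fl x (50 + u) + fl x (i + 1) at h5
    have e1 : 50 + (i + 1 + u) = 50 + (i + 1) + u := by ring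
    change fl x (50 + (i + 1 + u)) ≤ fl x (i + 1) + fl x (50 + u)
    rw [e1]
    omega
  · intro t ht1 ht2
    obtain ⟨i, rfl⟩ : ∃ i, t = i + 1 := ⟨t - 1, by omega⟩
    have h5 : fl m (4 + i) + fl x (i + 1) ≤ 2 * fl x (26 + i) := c8 i (by omega)
    have e1 : 3 + (i + 1) = 4 + i := by ring
    have e2 : 25 + (i + 1) = 26 + i := by ring
    change fl m (3 + (i + 1)) ≤ fl x (i + 1) + 2 * (fl x (25 + (i + 1)) - fl x (i + 1))
    rw [e1, e2]
    omega
  · intro sa sb u ha hb hab
    obtain ⟨i, rfl⟩ : ∃ i, sa = i + 1 := ⟨sa - 1, by omega⟩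
    obtain ⟨j, rfl⟩ : ∃ j, sb = j + 1 := ⟨sb - 1, by omega⟩
    have h5 := shf_sound (c6 i (by omega))
      (fun l hl => (hx' _ (by
        change l < 23 - i at hl
        change 76 + (i + 1) + l < 100
        omega)).trans (by norm_num))
      (fun l hl => (hx' _ (by
        change l < 23 - i at hl
        omega)).trans (by norm_num))
      ((hx' _ (by change 25 + (i + 1) < 100; omega)).trans (by norm_num)) j
      (by change j < 23 - i; omega)
    change fl x (76 + (i + 1) + j) ≤ fl x (26 + j) + fl x (25 + (i + 1)) at h5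
    have h6 := shf_sound (c7 (i + j) (by omega))
      (fun l hl => (hm' _ (by
        change l < 23 - (i + j) at hl
        change 3 + (2 + (i + j)) + l < 28
        omega)).trans (by norm_num))
      (fun l hl => (hx' _ (by
        change l < 23 - (i + j) at hl
        omega)).trans (by norm_num))
      ((hx' _ (by change 75 + (2 + (i + j)) < 100; omega)).trans (by norm_num)) u
      (by change u < 23 - (i + j); omega)
    change fl m (3 + (2 + (i + j)) + u) ≤ fl x (50 + u) + fl x (75 + (2 + (i + j))) at h6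
    have e1 : 3 + (i + 1 + (j + 1) + u) = 3 + (2 + (i + j)) + u := by ring
    have e2 : 76 + (i + 1) + j = 75 + (2 + (i + j)) := by ring
    have e3 : 26 + j = 25 + (j + 1) := by ring
    rw [e2, e3] at h5
    change fl m (3 + (i + 1 + (j + 1) + u)) ≤ fl x (i + 1) + fl x (j + 1) +
      (fl x (25 + (i + 1)) - fl x (i + 1)) + (fl x (25 + (j + 1)) - fl x (j + 1)) + fl x (50 + u)
    rw [e1]
    omega

end Pool.Agent.Lib.MP_67d80e_pr_all
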