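import Pool.Agent.Lib.MP_67d80e_pr_all.VecChk

/-!
The step from dimension `d` to dimension `d + 1` for the isoperimetric tables.
-/

set_option autoImplicit false

open scoped BigOperators
open Pool.Agent.Lib.MP_67d80e_pr

namespace Pool.Agent.Lib.MP_67d80e_pr_all

variable {d : ℕ}

/-! ### All certificates -/

/-- all certificates -/
def okCs (E F CT : ℕ) : List ℕ → ℕ → Bool
  | [], _ => true
  | x :: xs, i => okC E F (sg CT (Nat.mul 28 i) 28) x && okCs E F CT xs (Nat.succ i)

lemma okCs_get {E F CT : ℕ} : ∀ {xs : List ℕ} {i : ℕ}, okCs E F CT xs i = true →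
    ∀ j, i ≤ j → j < i + xs.length → ∃ x, okC E F (sg CT (28 * j) 28) x = true := by
  intro xs
  induction xs with
  | nil =>
    intro i _ j h1 h2
    simp only [List.length_nil, add_zero] at h2
    omega
  | cons x xs ih =>
    intro i h j h1 h2
    simp only [okCs, Bool.and_eq_true] at h
    rcases Nat.eq_or_lt_of_le h1 with rfl | h3
    · exact ⟨x, h.1⟩
    · refine ih h.2 j h3 ?_
      simp only [List.length_cons] at h2
      change j < (i + 1) + xs.length
      omega

/-! ### The partition bound, `T` empty -/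

/-- a lower bound for the sums of numbers `≤ hi` -/
def PC (O' : ℕ → ℕ) (hi : ℕ) (row : ℕ → ℕ) : Prop :=
  ∀ (S : Finset ℤ) (x : ℤ → ℕ), (∀ j ∈ S, 1 ≤ x j) → (∀ j ∈ S, x j ≤ hi) →
    ∑ j ∈ S, x j ≤ 400 → row (∑ j ∈ S, x j) ≤ ∑ j ∈ S, O' (x j)

lemma PC_zero {O' row : ℕ → ℕ} (h : row 0 = 0) : PC O' 0 row := by
  intro S x h1 h2 _
  have : S = ∅ := by
    rw [Finset.eq_empty_iff_forall_notMem]
    intro j hj
    have := h1 j hj
    have := h2 j hj
    omega
  rw [this, Finset.sum_empty, Finset.sum_empty, h]

lemma PC_step {O' row row' : ℕ → ℕ} {hi hi' : ℕ} (h : PC O' hi row)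
    (h1 : ∀ n ≤ 400, row' n ≤ row n)
    (h2 : ∀ y, hi < y → y ≤ hi' → ∀ v, v + y ≤ 400 → row' (y + v) ≤ row' v + O' y) :
    PC O' hi' row' := by
  intro S
  induction S using Finset.strongInduction with
  | H S ih =>
    intro x hx1 hx2 hS
    by_cases hall : ∀ j ∈ S, x j ≤ hi
    · exact (h1 _ hS).trans (h S x hx1 hall hS)
    · push Not at hall
      obtain ⟨j, hj, hj2⟩ := hall
      have e1 : ∑ i ∈ S, x i = x j + ∑ i ∈ S.erase j, x i := (Finset.add_sum_erase _ _ hj).symm
      have e2 : ∑ i ∈ S, O' (x i) = O' (x j) + ∑ i ∈ S.erase j, O' (x i) :=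
        (Finset.add_sum_erase _ (fun i => O' (x i)) hj).symm
      have h3 := ih (S.erase j) (Finset.erase_ssubset hj) x
        (fun i hi => hx1 i (Finset.mem_of_mem_erase hi))
        (fun i hi => hx2 i (Finset.mem_of_mem_erase hi)) (by omega)
      have h4 := h2 (x j) hj2 (hx2 j hj) (∑ i ∈ S.erase j, x i) (by omega)
      rw [e1, e2]
      omega

/-- the check of the partition bound -/
def psiChk (E' E : ℕ) : List (ℕ × ℕ) → ℕ → ℕ → Bool
  | [], lo, _ => Nat.ble 401 lo
  | (hi, row) :: ls, lo, prev => bnd row 17 401 && (Nat.ble lo hi && (Nat.ble hi 400 &&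
      (shf row 0 prev 0 401 0 &&
      (allB (fun i => shf row (Nat.add lo i) row 0 (Nat.sub 401 (Nat.add lo i))
        (fl E' (Nat.add lo i))) (Nat.sub (Nat.succ hi) lo) &&
      (shf E lo row lo (Nat.sub 401 lo) (Nat.mul 2 lo) &&
      psiChk E' E ls (Nat.succ hi) row)))))

/-- the first row -/
def prow : ℕ := Nat.mul 100000 (Nat.sub (un 401) 1)

lemma fl_prow_zero : fl prow 0 = 0 := by decide +kernel

lemma prow_bnd : bnd prow 17 401 = true := by decide +kernel

theorem psiChk_sound {E' E : ℕ} (hO : IsO d (eV E')) (hE' : bnd E' 13 12800 = true)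
    (hE : bnd E 13 12800 = true) {D : Finset (Site (d + 1))} (hD : D.card ≤ 400) (j0 : ℤ)
    (hm : ∀ j, (sl D j).card ≤ (sl D j0).card) :
    ∀ (ls : List (ℕ × ℕ)) (lo prev : ℕ), bnd prev 17 401 = true → 1 ≤ lo →
      PC (fun x => fl E' x) (lo - 1) (fun n => fl prev n) → psiChk E' E ls lo prev = true →
      lo ≤ (sl D j0).card → fl E D.card ≤ outE D := by
  have hE'' := bnd_sound (by norm_num) hE'
  have hE2 := bnd_sound (by norm_num) hE
  have hcard : (sl D j0).card ≤ D.card := by
    by_cases hj : j0 ∈ lvls D
    · rw [card_slices (Finset.Subset.refl D)]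
      exact Finset.single_le_sum (f := fun j => (sl D j).card) (fun _ _ => Nat.zero_le _) hj
    · rw [sl_empty hj]
      exact Nat.zero_le _
  intro ls
  induction ls with
  | nil =>
    intro lo prev _ _ _ h2 h3
    simp only [psiChk, Nat.ble_eq] at h2
    omega
  | cons l ls ih =>
    obtain ⟨hi, row⟩ := l
    intro lo prev hprev hlo hpc h2 h3
    simp only [psiChk, Bool.and_eq_true, allB_iff, Nat.ble_eq] at h2
    obtain ⟨k1, k2, k3, k4, k5, k6, k7⟩ := h2
    have hrow := bnd_sound (by norm_num) k1
    have hprev' := bnd_sound (by norm_num) hprev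
    have hpc' : PC (fun x => fl E' x) hi (fun n => fl row n) := by
      refine PC_step hpc (fun n hn => ?_) (fun y hy1 hy2 v hv => ?_)
      · have := shf_sound k4 (fun i hi => by
          rw [zero_add]; exact (hrow i hi).trans (by norm_num)) (fun i hi => by
          rw [zero_add]; exact (hprev' i hi).trans (by norm_num)) (by norm_num) n (by omega)
        rw [zero_add, add_zero] at this
        exact this
      · obtain ⟨i, rfl⟩ : ∃ i, y = lo + i := ⟨y - lo, by omega⟩
        have := shf_sound (k5 i (by change i < hi + 1 - lo; omega)) (fun j hj => by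
          change j < 401 - (lo + i) at hj
          exact (hrow _ (by change lo + i + j < 401; omega)).trans (by norm_num)) (fun j hj => by
          change j < 401 - (lo + i) at hj
          rw [zero_add]; exact (hrow j (by omega)).trans (by norm_num))
          ((hE'' _ (by change lo + i < 12800; omega)).trans (by norm_num)) v
          (by change v < 401 - (lo + i); omega)
        rw [zero_add] at this
        exact this
    rcases Nat.lt_or_ge hi (sl D j0).card with h5 | h5
    · exact ih (hi + 1) row k1 (by omega) (by simpa using hpc') k7 h5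
    · have hs := slice_bound D j0
      have h6 := hpc' (lvls D) (fun j => (sl D j).card)
        (fun j hj => Finset.card_pos.2 (mem_lvls.1 hj)) (fun j _ => (hm j).trans h5) (by
          rw [← card_slices (Finset.Subset.refl D)]; exact hD)
      rw [← card_slices (Finset.Subset.refl D)] at h6
      have h7 : ∑ j ∈ lvls D, fl E' (sl D j).card ≤ ∑ j ∈ lvls D, outE (sl D j) := by
        refine Finset.sum_le_sum fun j _ => ?_
        have h8 := hO ∅ (sl D j) ⟨Finset.empty_subset _, fun x hx =>
          absurd hx (Finset.notMem_empty x)⟩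
        rw [Finset.card_empty, eV_eq (by norm_num) (by have := hm j; omega)] at h8
        simpa using h8
      have h9 := shf_sound k6 (fun i hi => by
          change i < 401 - lo at hi
          exact (hE2 _ (by omega)).trans (by norm_num)) (fun i hi => by
          change i < 401 - lo at hi
          exact (hrow _ (by omega)).trans (by norm_num))
          (by change 2 * lo < 2 ^ 18; norm_num; omega) (D.card - lo)
          (by change D.card - lo < 401 - lo; omega)
      have e1 : lo + (D.card - lo) = D.card := by omega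
      rw [e1] at h9
      change fl E D.card ≤ fl row D.card + 2 * lo at h9
      change fl row D.card ≤ ∑ j ∈ lvls D, fl E' (sl D j).card at h6
      omega

/-! ### The intervals -/

/-- `12 S(t, n) < 24 lo + 24 + r n + K` for `n1 ≤ n ≤ n2` -/
def ivB (S CT NC t lo hi n1 n2 idx : ℕ) : Bool :=
  bif Nat.ble 4095 idx then
    shf S (Nat.add (Nat.mul 512 t) n1) 0 0 (Nat.sub (Nat.succ n2) n1) (Nat.mul 2 lo)
  else
    Nat.ble (Nat.succ idx) NC && (Nat.ble hi (fl CT (Nat.mul 28 idx)) &&
    affR S (Nat.mul 512 t) n1 (Nat.sub (Nat.succ n2) n1)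
      (fl CT (Nat.add (Nat.mul 28 idx) 1)) (fl CT (Nat.add (Nat.mul 28 idx) 2))
      (Nat.add (Nat.mul 24 (Nat.succ lo)) (fl CT (Nat.add (Nat.mul 28 idx) (Nat.add 3 t)))))

/-- the check of all groups of a row -/
def runB (S CT NC t Ft : ℕ) : ℕ → ℕ → ℕ → ℕ → ℕ → Bool
  | 0, _, _, _, _ => false
  | f + 1, st, lo, hi, n1 =>
    bif Nat.ble 401 n1 then
      bif Nat.ble 400 hi then true
      else
        Nat.ble (Nat.succ hi) (Nat.mod st 4096) &&
        runB S CT NC t Ft f (Nat.shiftRight st 12) (Nat.succ hi) (Nat.mod st 4096)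
          (bif Nat.ble (Nat.succ hi) Ft then Ft else Nat.succ hi)
    else
      Nat.ble n1 (Nat.mod (Nat.shiftRight st 12) 4096) &&
      (Nat.ble (Nat.mod (Nat.shiftRight st 12) 4096) 400 &&
      (ivB S CT NC t lo hi n1 (Nat.mod (Nat.shiftRight st 12) 4096) (Nat.mod st 4096) &&
      runB S CT NC t Ft f (Nat.shiftRight st 24) lo hi
        (Nat.succ (Nat.mod (Nat.shiftRight st 12) 4096))))

theorem runB_sound {CT S NC t Ft : ℕ} (ht1 : 1 ≤ t) (ht2 : t ≤ 24)
    (hS : bnd S 13 12800 = true)
    (hC : ∀ i < NC, VC d (fl CT (28 * i)) (fl CT (28 * i + 1)) (fl CT (28 * i + 2))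
      (fun t => fl CT (28 * i + (3 + t))) ∧ (∀ j < 28, fl CT (28 * i + j) < 2 ^ 17) ∧
      fl CT (28 * i + 1) < 512 ∧ fl CT (28 * i + 2) < 512)
    {T D : Finset (Site (d + 1))} (h : Cl T D) (hT : T.card = t) (hD : D.card ≤ 400)
    (hFt : Ft ≤ D.card) (j0 : ℤ) (hm : ∀ j, (sl D j).card ≤ (sl D j0).card) :
    ∀ (f st lo hi n1 : ℕ), runB S CT NC t Ft f st lo hi n1 = true →
      (hi < (sl D j0).card ∨ (lo ≤ (sl D j0).card ∧ (sl D j0).card ≤ hi ∧ n1 ≤ D.card)) →
      fl S (512 * t + D.card) ≤ outE D + 1 := by
  have hS' := bnd_sound (by norm_num) hS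
  have hcard : (sl D j0).card ≤ D.card := by
    by_cases hj : j0 ∈ lvls D
    · rw [card_slices (Finset.Subset.refl D)]
      exact Finset.single_le_sum (f := fun j => (sl D j).card) (fun _ _ => Nat.zero_le _) hj
    · rw [sl_empty hj]
      exact Nat.zero_le _
  intro f
  induction f with
  | zero => intro st lo hi n1 h0; simp [runB] at h0
  | succ f ih =>
    intro st lo hi n1 h0 h1
    rw [runB] at h0
    rcases Nat.lt_or_ge 400 n1 with hn | hn
    · have b1 : Nat.ble 401 n1 = true := by rw [Nat.ble_eq]; omega
      rw [b1, cond_true] at h0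
      have h2 : hi < (sl D j0).card := by omega
      have b2 : Nat.ble 400 hi = false := by rw [Bool.eq_false_iff, Ne, Nat.ble_eq]; omega
      rw [b2, cond_false, Bool.and_eq_true, Nat.ble_eq] at h0
      obtain ⟨h3, h4⟩ := h0
      refine ih _ _ _ _ h4 ?_
      rcases Nat.lt_or_ge (st.mod 4096) (sl D j0).card with h5 | h5
      · exact Or.inl h5
      · refine Or.inr ⟨h2, h5, ?_⟩
        rcases Nat.lt_or_ge Ft (hi + 1) with h6 | h6
        · have b3 : Nat.ble (Nat.succ hi) Ft = false := by
            rw [Bool.eq_false_iff, Ne, Nat.ble_eq]; change ¬ (hi + 1 ≤ Ft); omega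
          rw [b3, cond_false]
          change hi + 1 ≤ D.card
          omega
        · have b3 : Nat.ble (Nat.succ hi) Ft = true := by rw [Nat.ble_eq]; exact h6
          rw [b3, cond_true]
          exact hFt
    · have b1 : Nat.ble 401 n1 = false := by rw [Bool.eq_false_iff, Ne, Nat.ble_eq]; omega
      rw [b1, cond_false, Bool.and_eq_true, Bool.and_eq_true, Bool.and_eq_true, Nat.ble_eq,
        Nat.ble_eq] at h0
      obtain ⟨h2, h3, h4, h5⟩ := h0
      set n2 := Nat.mod (Nat.shiftRight st 12) 4096 with hn2
      set idx := Nat.mod st 4096 with hidx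
      rcases h1 with h1 | ⟨h6, h7, h8⟩
      · exact ih _ _ _ _ h5 (Or.inl h1)
      · rcases Nat.lt_or_ge n2 D.card with h9 | h9
        · exact ih _ _ _ _ h5 (Or.inr ⟨h6, h7, h9⟩)
        · have hs := slice_bound D j0
          unfold ivB at h4
          rcases Nat.lt_or_ge idx 4095 with h10 | h10
          · have b2 : Nat.ble 4095 idx = false := by
              rw [Bool.eq_false_iff, Ne, Nat.ble_eq]; omega
            rw [b2, cond_false, Bool.and_eq_true, Bool.and_eq_true, Nat.ble_eq, Nat.ble_eq] at h4
            obtain ⟨k1, k2, k3⟩ := h4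
            obtain ⟨c1, c2, c3, c4⟩ := hC idx k1
            have hb : fl CT (28 * idx + (3 + t)) < 2 ^ 17 := c2 (3 + t) (by omega)
            have k4 := affR_sound k3 (by change n1 + (n2 + 1 - n1) ≤ 401; omega)
              (fun i hi => hS' _ (by
                change i < n2 + 1 - n1 at hi
                change 512 * t + n1 + i < 12800
                omega)) c3 c4 (by
                change 24 * (lo + 1) + fl CT (28 * idx + (3 + t)) < 2 ^ 18
                norm_num at hb ⊢
                omega) D.card h8 (by change D.card < n1 + (n2 + 1 - n1); omega)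
            change 12 * fl S (512 * t + D.card) + fl CT (28 * idx + 2) * D.card + 1 ≤
              fl CT (28 * idx + 1) * D.card +
              (24 * (lo + 1) + fl CT (28 * idx + (3 + t))) at k4
            have k5 := c1 T D h (by omega) (by omega) (fun j => (hm j).trans (h7.trans k2)) j0
            rw [hT] at k5
            change 24 * (sl D j0).card + fl CT (28 * idx + 1) * D.card +
              fl CT (28 * idx + (3 + t)) ≤ 12 * outE D + fl CT (28 * idx + 2) * D.card at k5
            omega
          · have b2 : Nat.ble 4095 idx = true := by rw [Nat.ble_eq]; exact h10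
            rw [b2, cond_true] at h4
            have k4 := shf_sound h4 (fun i hi => (hS' _ (by
                change i < n2 + 1 - n1 at hi
                change 512 * t + n1 + i < 12800
                omega)).trans (by norm_num)) (fun i hi => by
                rw [fl_eq, Nat.zero_div]; norm_num) (by
                change 2 * lo < 2 ^ 18
                norm_num; omega) (D.card - n1) (by change D.card - n1 < n2 + 1 - n1; omega)
            have e1 : Nat.add (Nat.mul 512 t) n1 + (D.card - n1) = 512 * t + D.card := by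
              change 512 * t + n1 + (D.card - n1) = _
              omega
            have e2 : fl 0 (0 + (D.card - n1)) = 0 := by rw [fl_eq, Nat.zero_div]; norm_num
            rw [e1, e2] at k4
            change fl S (512 * t + D.card) ≤ 0 + 2 * lo at k4
            omega

/-- the rows `t, t + 1, ..., 24` -/
def stChk (S CT NC F : ℕ) : List ℕ → ℕ → Bool
  | [], t => Nat.ble 25 t
  | st :: sts, t => runB S CT NC t (fl F t) 4096 st 0 0 401 && stChk S CT NC F sts (Nat.succ t)

lemma stChk_get {S CT NC F : ℕ} : ∀ {sts : List ℕ} {t : ℕ}, stChk S CT NC F sts t = true →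
    ∀ s, t ≤ s → s ≤ 24 → ∃ st, runB S CT NC s (fl F s) 4096 st 0 0 401 = true := by
  intro sts
  induction sts with
  | nil =>
    intro t h s h1 h2
    simp only [stChk, Nat.ble_eq] at h
    omega
  | cons x xs ih =>
    intro t h s h1 h2
    simp only [stChk, Bool.and_eq_true] at h
    rcases Nat.eq_or_lt_of_le h1 with rfl | h3
    · exact ⟨x, h.1⟩
    · exact ih h.2 s h3 h2

/-- the entries of the table -/
def merB (E S : ℕ) : Bool :=
  allB (fun t => allB (fun n =>
    Nat.ble (fl E (Nat.add (Nat.mul 512 (Nat.succ t)) n)) (fl E (Nat.add (Nat.mul 512 t) n)) ||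
    Nat.ble (fl E (Nat.add (Nat.mul 512 (Nat.succ t)) n))
      (fl S (Nat.add (Nat.mul 512 (Nat.succ t)) n))) 401) 24

/-- potentials -/
def wV (W p q s : ℕ) : ℕ := fl W (Nat.add p (Nat.mul 25 (Nat.add q (Nat.mul 25 s))))

/-- the check of the potential -/
def vtxV (F' F W : ℕ) : Bool :=
  Nat.beq (wV W 0 0 0) 0 &&
  (allB (fun s => allB (fun q => allB (fun p => Nat.blt s (Nat.add p q) ||
    allB (fun r => Nat.ble (wV W q r (Nat.add s r)) (Nat.add (wV W p q s) (fl F' q)) ||
      (Nat.ble (wV W q r (Nat.add s r)) (Nat.add (wV W p q s) p) ||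
      Nat.ble (wV W q r (Nat.add s r)) (Nat.add (wV W p q s) r))) (Nat.sub 25 s)) (Nat.succ s))
      (Nat.succ s)) 25 &&
  allB (fun s => Nat.ble (fl F s) (wV W 0 0 s)) 25)

lemma vtxV_sound {F' F W : ℕ} (h : vtxV F' F W = true) : VtxOk 24 (fV F') (fV F) (wV W) := by
  simp only [vtxV, Bool.and_eq_true, Bool.or_eq_true, allB_iff, Nat.blt_eq, Nat.ble_eq] at h
  obtain ⟨h1, h2, h3⟩ := h
  refine ⟨Nat.eq_of_beq_eq_true h1, fun p q r s ha hb => ?_, fun s hs => ?_⟩
  · have h4 := h2 s (by omega) q (by omega) p (by omega)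
    rcases h4 with h4 | h4
    · exact absurd h4 (by change ¬ (s < p + q); omega)
    · have h5 := h4 r (by change r < 25 - s; omega)
      rw [fV_eq (by omega)]
      have e1 : fl F' q ≤ max (fl F' q) (max p r) := le_max_left _ _
      have e2 : p ≤ max (fl F' q) (max p r) := (le_max_left _ _).trans (le_max_right _ _)
      have e3 : r ≤ max (fl F' q) (max p r) := (le_max_right _ _).trans (le_max_right _ _)
      rcases h5 with h5 | h5 | h5
      · exact h5.trans (Nat.add_le_add_left e1 _)
      · exact h5.trans (Nat.add_le_add_left e2 _)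
      · exact h5.trans (Nat.add_le_add_left e3 _)
  · rw [fV_eq hs]
    exact h3 s (by omega)

/-- all fields are even -/
def evB (S : ℕ) : Bool := Nat.beq (Nat.land S (un 12800)) 0

lemma evB_sound {S : ℕ} (h : evB S = true) : ∀ i < 12800, fl S i % 2 = 0 := by
  have h1 : S &&& un 12800 = 0 := Nat.eq_of_beq_eq_true h
  intro i hi
  have h2 : (un 12800).testBit (20 * i + 0) = true := by
    rw [un_eq, ← testBit_fl _ _ _ (by norm_num), fl_pk (fun _ _ => by norm_num) hi]
    decide
  have h3 : (S &&& un 12800).testBit (20 * i + 0) = false := by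
    rw [h1, Nat.zero_testBit]
  rw [Nat.testBit_and, h2, Bool.and_true, ← testBit_fl _ _ _ (by norm_num),
    Nat.testBit_zero] at h3
  simpa using h3

/-- one dimension more -/
theorem isoV_step {E' F' E S F W CT : ℕ} {NC : ℕ} {psi : List (ℕ × ℕ)} {aux sts : List ℕ}
    (hO : IsO d (eV E')) (hF : IsF d (fV F'))
    (hE' : bnd E' 13 12800 = true) (hE : bnd E 13 12800 = true) (hS : bnd S 13 12800 = true)
    (hev : evB S = true) (hv : vtxV F' F W = true)
    (hpsi : psiChk E' E psi 1 prow = true) (hcs : okCs E' F' CT aux 0 = true)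
    (hNC : NC = aux.length) (hst : stChk S CT NC F sts 1 = true) (hmer : merB E S = true)
    (h0 : allB (fun t => Nat.beq (fl E (Nat.mul 512 t)) 0) 25 = true) :
    IsO (d + 1) (eV E) ∧ IsF (d + 1) (fV F) := by
  have hFF : IsF (d + 1) (fV F) := by
    intro T D h
    rcases Nat.lt_or_ge 24 T.card with h1 | h1
    · obtain ⟨T', hT', hc⟩ := Finset.exists_subset_card_eq (s := T) (n := 24) (by omega)
      have h2 := isF_succ hF (vtxV_sound hv) T' D (h.mono hT') (by omega)
      rw [hc] at h2
      rw [fV_large (by omega)]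
      exact h2
    · exact isF_succ hF (vtxV_sound hv) T D h h1
  refine ⟨?_, hFF⟩
  rw [allB_iff] at h0
  have h00 : ∀ t ≤ 24, eV E t 0 = 0 := by
    intro t ht
    rw [eV_eq ht (by norm_num)]
    exact Nat.eq_of_beq_eq_true (h0 t (by omega))
  -- the largest slice
  have hj : ∀ D : Finset (Site (d + 1)), 0 < D.card →
      ∃ j0, 1 ≤ (sl D j0).card ∧ ∀ j, (sl D j).card ≤ (sl D j0).card := by
    intro D hz
    obtain ⟨j0, -, hj0⟩ := Finset.exists_max_image (lvls D) (fun j => (sl D j).card)
      (by
        obtain ⟨x, hx⟩ := Finset.card_pos.1 hz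
        exact ⟨x 0, Finset.mem_image_of_mem _ hx⟩)
    have hm : ∀ j, (sl D j).card ≤ (sl D j0).card := fun j => by
      by_cases hj : j ∈ lvls D
      · exact hj0 j hj
      · rw [sl_empty hj]
        exact Nat.zero_le _
    obtain ⟨x, hx⟩ := Finset.card_pos.1 hz
    have hx0 : x 0 ∈ lvls D := Finset.mem_image_of_mem _ hx
    exact ⟨j0, le_trans (Finset.card_pos.2 (mem_lvls.1 hx0)) (hm _), hm⟩
  have main : ∀ t, t ≤ 24 → ∀ T D : Finset (Site (d + 1)), Cl T D → T.card = t →
      D.card ≤ 400 → eV E t D.card ≤ outE D := by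
    intro t
    induction t with
    | zero =>
      intro _ T D _ _ hD
      rcases Nat.eq_zero_or_pos D.card with hz | hz
      · rw [hz, h00 0 (by norm_num)]
        exact Nat.zero_le _
      · obtain ⟨j0, hpos, hm⟩ := hj D hz
        rw [eV_eq (by norm_num) hD, mul_zero, zero_add]
        exact psiChk_sound hO hE' hE hD j0 hm psi 1 prow prow_bnd le_rfl
          (PC_zero fl_prow_zero) hpsi hpos
    | succ t ih =>
      intro ht T D h hT hD
      rcases Nat.eq_zero_or_pos D.card with hz | hz
      · rw [hz, h00 _ ht]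
        exact Nat.zero_le _
      · have h1 := hmer
        simp only [merB, allB_iff, Bool.or_eq_true, Nat.ble_eq] at h1
        rw [eV_eq ht hD]
        rcases h1 t (by omega) D.card (by omega) with h2 | h2
        · obtain ⟨x, hx⟩ := Finset.card_pos.1 (by omega : 0 < T.card)
          have h4 : (T.erase x).card = t := by
            rw [Finset.card_erase_of_mem hx, hT]
            rfl
          have h5 := ih (by omega) (T.erase x) D (h.mono (Finset.erase_subset _ _)) h4 hD
          rw [eV_eq (by omega) hD] at h5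
          exact h2.trans h5
        · obtain ⟨j0, hpos, hm⟩ := hj D hz
          obtain ⟨st, hst2⟩ := stChk_get hst (t + 1) (by omega) ht
          have h3 := hFF T D h
          rw [hT, fV_eq ht] at h3
          have h4 := runB_sound (d := d) (CT := CT) (S := S) (NC := NC) (t := t + 1)
            (by omega) ht hS (fun i hi => by
              obtain ⟨x, hx⟩ := okCs_get hcs i (Nat.zero_le _) (by rw [← hNC]; omega)
              have h5 := okC_sound hO hF hE' hx
              have e1 : ∀ j < 28, fl (sg CT (28 * i) 28) j = fl CT (28 * i + j) := by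
                intro j hj
                rw [sg_eq, fl_pk (fun _ _ => fl_lt _ _) hj]
              obtain ⟨c1, c2, c3, c4⟩ := h5
              rw [e1 0 (by norm_num), e1 1 (by norm_num), e1 2 (by norm_num)] at c1
              rw [e1 1 (by norm_num)] at c3
              rw [e1 2 (by norm_num)] at c4
              refine ⟨?_, fun j hj => by rw [← e1 j hj]; exact c2 j hj, c3, c4⟩
              intro T D hTD ht1 ht24 hM j0
              have h6 := c1 T D hTD ht1 ht24 (by simpa using hM) j0
              have e2 : fl (sg CT (28 * i) 28) (3 + T.card) = fl CT (28 * i + (3 + T.card)) :=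
                e1 _ (by omega)
              change _ + _ + fl (sg CT (28 * i) 28) (3 + T.card) ≤ _ at h6
              rw [e2] at h6
              exact h6) h hT hD h3 j0 hm 4096 st 0 0 401 hst2 (Or.inl (by omega))
          have h5 := evB_sound hev (512 * (t + 1) + D.card) (by omega)
          have h6 := even_outE D
          have h7 : fl E (512 * (t + 1) + D.card) ≤ fl S (512 * (t + 1) + D.card) := h2
          omega
  intro T D h
  rcases Nat.lt_or_ge 400 D.card with hD | hD
  · rw [eV_eq_zero hD]
    exact Nat.zero_le _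
  · rcases Nat.lt_or_ge 24 T.card with h1 | h1
    · obtain ⟨T', hT', hc⟩ := Finset.exists_subset_card_eq (s := T) (n := 24) (by omega)
      rw [eV_large (by omega)]
      exact main 24 le_rfl T' D (h.mono hT') hc hD
    · exact main T.card h1 T D h rfl hD

end Pool.Agent.Lib.MP_67d80e_pr_all
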