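import Pool.Agent.Lib.MP_67d80e_pr_all.Lag

set_option autoImplicit false

open scoped BigOperators
open Pool.Agent.Lib.MP_67d80e_pr

namespace Pool.Agent.Lib.MP_67d80e_pr_all

variable {d : ℕ}

/-- the conditions on the potential of the chain of slices -/
def VtxOk (N : ℕ) (F' F : ℕ → ℕ) (W : ℕ → ℕ → ℕ → ℕ) : Prop :=
  W 0 0 0 = 0 ∧
  (∀ p q r s, p + q + r ≤ s + r → s + r ≤ N → W q r (s + r) ≤ W p q s + max (F' q) (max p r)) ∧
  ∀ s, s ≤ N → F s ≤ W 0 0 s

/-- all levels are in an interval -/
lemma lvls_range (D : Finset (Site (d + 1))) : ∃ (L : ℤ) (K : ℕ), ∀ j ∈ lvls D, L ≤ j ∧ j < L + K := by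
  classical
  rcases (lvls D).eq_empty_or_nonempty with h | h
  · exact ⟨0, 0, fun j hj => by rw [h] at hj; exact absurd hj (Finset.notMem_empty j)⟩
  · refine ⟨(lvls D).min' h, ((lvls D).max' h - (lvls D).min' h + 1).toNat, fun j hj => ?_⟩
    have h1 := Finset.min'_le _ _ hj
    have h2 := Finset.le_max' _ _ hj
    omega

/-- a sum over the levels as a sum over a range -/
lemma sum_lvls {D : Finset (Site (d + 1))} {L : ℤ} {K : ℕ} (hL : ∀ j ∈ lvls D, L ≤ j ∧ j < L + K)
    (f : ℤ → ℕ) (hf : ∀ j, j ∉ lvls D → f j = 0) :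
    ∑ j ∈ lvls D, f j = ∑ k ∈ Finset.range K, f (L + k) := by
  classical
  have h1 : Function.Injective (fun k : ℕ => L + (k : ℤ)) := fun a b h => by
    have : L + (a : ℤ) = L + b := h
    omega
  rw [← Finset.sum_image (s := Finset.range K) (g := fun k : ℕ => L + (k : ℤ)) (f := f)
    (fun a _ b _ h => h1 h)]
  refine Finset.sum_subset (fun j hj => ?_) (fun j _ hj => hf j hj)
  obtain ⟨h2, h3⟩ := hL j hj
  rw [Finset.mem_image]
  exact ⟨(j - L).toNat, Finset.mem_range.2 (by omega), by omega⟩

lemma sl_empty {D : Finset (Site (d + 1))} {j : ℤ} (h : j ∉ lvls D) : sl D j = ∅ := by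
  by_contra hne
  exact h (mem_lvls.2 (Finset.nonempty_iff_ne_empty.2 hne))

/-- VERTEX ISOPERIMETRY, one dimension more -/
theorem isF_succ {N : ℕ} {F' F : ℕ → ℕ} {W : ℕ → ℕ → ℕ → ℕ} (hF : IsF d F')
    (hW : VtxOk N F' F W) (T D : Finset (Site (d + 1))) (h : Cl T D) (hN : T.card ≤ N) :
    F T.card ≤ D.card := by
  classical
  obtain ⟨hW0, hWs, hWe⟩ := hW
  obtain ⟨L, K, hL⟩ := lvls_range D
  -- the slices
  set t : ℕ → ℕ := fun k => (sl T (L + k)).card with ht
  set n : ℕ → ℕ := fun k => (sl D (L + k)).card with hn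
  have hout : ∀ j, j ∉ lvls D → (sl D j).card = 0 := fun j hj => by
    rw [sl_empty hj]; rfl
  have houtT : ∀ j, j ∉ lvls D → (sl T j).card = 0 := fun j hj => by
    have h1 : sl T j ⊆ ∅ := by
      rw [← sl_empty hj]
      exact sl_mono h.1 j
    rw [Finset.subset_empty.1 h1]
    rfl
  have hDs : D.card = ∑ k ∈ Finset.range K, n k := by
    rw [card_slices (Finset.Subset.refl D), sum_lvls hL _ hout]
  have hTs : T.card = ∑ k ∈ Finset.range K, t k := by
    rw [card_slices h.1, sum_lvls hL _ houtT]
  -- no slice of T at the ends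
  have hlow : ∀ j, j ≤ L → (sl T j).card = 0 := fun j hj => by
    by_contra hne
    have h1 : (sl T j).Nonempty := Finset.card_pos.1 (Nat.pos_of_ne_zero hne)
    have h2 := (hL _ (mem_lvls.2 (h1.mono (h.slice_pred j)))).1
    omega
  have hhigh : ∀ j, L + K ≤ j + 1 → (sl T j).card = 0 := fun j hj => by
    by_contra hne
    have h1 : (sl T j).Nonempty := Finset.card_pos.1 (Nat.pos_of_ne_zero hne)
    have h2 := (hL _ (mem_lvls.2 (h1.mono (h.slice_succ j)))).2
    omega
  have hcost : ∀ j, max (F' (sl T j).card) (max (sl T (j - 1)).card (sl T (j + 1)).card) ≤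
      (sl D j).card := fun j => by
    refine max_le (hF _ _ (h.slice j)) (max_le ?_ ?_)
    · have := Finset.card_le_card (h.slice_succ (j - 1))
      rwa [sub_add_cancel] at this
    · have := Finset.card_le_card (h.slice_pred (j + 1))
      rwa [add_sub_cancel_right] at this
  have hpart : ∀ i ≤ K, ∑ k ∈ Finset.range i, t k ≤ N := fun i hi => by
    refine le_trans ?_ hN
    rw [hTs]
    exact Finset.sum_le_sum_of_subset (Finset.range_mono hi)
  -- the induction
  have key : ∀ i < K, W (sl T (L + i - 1)).card (t i) (∑ k ∈ Finset.range (i + 1), t k) ≤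
      ∑ k ∈ Finset.range i, n k := by
    intro i
    induction i with
    | zero =>
      intro hi
      have h1 : t 0 = 0 := hlow _ (by simp)
      have h2 : (sl T (L + ((0 : ℕ) : ℤ) - 1)).card = 0 := hlow _ (by simp)
      rw [h2, Finset.sum_range_one, h1, hW0]
      exact Nat.zero_le _
    | succ i ih =>
      intro hi
      have h1 := ih (by omega)
      have h2 := hWs (sl T (L + i - 1)).card (t i) (t (i + 1)) (∑ k ∈ Finset.range (i + 1), t k) ?_ ?_
      · rw [← Finset.sum_range_succ] at h2
        rw [Finset.sum_range_succ n i]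
        have h3 := hcost (L + i)
        have h4 : L + ((i + 1 : ℕ) : ℤ) - 1 = L + i := by push_cast; ring
        have h5 : L + ((i + 1 : ℕ) : ℤ) = L + i + 1 := by push_cast; ring
        rw [h4]
        refine h2.trans (Nat.add_le_add h1 ?_)
        change max (F' (t i)) (max (sl T (L + i - 1)).card (sl T (L + ((i + 1 : ℕ) : ℤ))).card) ≤ _
        rw [h5]
        exact h3
      · -- p + q <= s
        have h3 : (sl T (L + i - 1)).card + t i ≤ ∑ k ∈ Finset.range (i + 1), t k := by
          rcases Nat.eq_zero_or_pos i with hi0 | hi0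
          · subst hi0
            have h4 : (sl T (L + ((0 : ℕ) : ℤ) - 1)).card = 0 := hlow _ (by simp)
            rw [h4, Finset.sum_range_one]
            omega
          · obtain ⟨i', rfl⟩ : ∃ i', i = i' + 1 := ⟨i - 1, by omega⟩
            have h4 : (sl T (L + ((i' + 1 : ℕ) : ℤ) - 1)).card = t i' := by
              have h5 : L + ((i' + 1 : ℕ) : ℤ) - 1 = L + i' := by push_cast; ring
              rw [h5]
            rw [h4, Finset.sum_range_succ, Finset.sum_range_succ]
            omega
        omega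
      · rw [← Finset.sum_range_succ]
        exact hpart (i + 1 + 1) (by omega)
  rcases Nat.eq_zero_or_pos K with hK | hK
  · subst hK
    rw [Finset.sum_range_zero] at hDs hTs
    rw [hTs, hDs]
    exact (hWe 0 (by omega)).trans_eq hW0
  · obtain ⟨K', rfl⟩ : ∃ K', K = K' + 1 := ⟨K - 1, by omega⟩
    have h1 := key K' (by omega)
    have h2 : t K' = 0 := hhigh _ (by push_cast; omega)
    have h3 := hWs (sl T (L + K' - 1)).card (t K') 0 T.card ?_ (by omega)
    · rw [h2] at h3
      have h4 := hWe T.card hN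
      rw [← hTs, h2] at h1
      have h5 := hcost (L + K')
      have h6 : (sl T (L + K')).card = 0 := h2
      rw [h6] at h5
      rw [hDs, Finset.sum_range_succ]
      have h7 : max (F' 0) (max (sl T (L + K' - 1)).card 0) ≤ n K' :=
        (max_le_max (le_refl _) (max_le_max (le_refl _) (Nat.zero_le _))).trans h5
      rw [add_zero] at h3
      omega
    · have h4 : (sl T (L + K' - 1)).card ≤ T.card := by
        by_cases hj : L + K' - 1 ∈ lvls D
        · rw [card_slices h.1]
          exact Finset.single_le_sum (f := fun j => (sl T j).card) (fun _ _ => Nat.zero_le _) hj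
        · rw [houtT _ hj]
          exact Nat.zero_le _
      omega

end Pool.Agent.Lib.MP_67d80e_pr_all
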